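import Mathlib
import Pool.Agent.Work.MP_56b8f5_nt.UB.Stmts

/-!
MP_56b8f5_nt, block UT (extension of block UB): THE TWELFTH MOMENT.

Goal: there is `δ > 0` with `∫_0^T |ζ(1/2+it)|^12 dt ≤ C T^(2-δ)`.  Note 4072 contains the overview.  Every item is
`theorem iNAME (h1 : StA) (h2 : StB) ... : StNAME := ...` in the file `UT/I_NAME.lean`; it may use any statement listed
in its docstring as a hypothesis.  `UB.StX` are the statements of block UB (proved in `UB/I_X.lean`, whose auxiliary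
lemmas may be imported).  Constants `C` depend only on the parameters quantified before them.
-/

open MeasureTheory Set Filter Topology

noncomputable section

namespace Pool.Agent.Work.MP_56b8f5_nt.UT

open Pool.Agent.Work.MP_56b8f5_nt.UB

/-! ### Block V: derivative test of order `j` for exponential sums -/

/-- iterated forward difference (step one) -/
def dd : ℕ → (ℕ → ℝ) → ℕ → ℝ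
  | 0, f, n => f n
  | k + 1, f, n => dd k (fun i => f (i + 1) - f i) n

/-- ITEM A1 (van der Corput's inequality for phases).  From `Pool.Agent.Work.MP_8e4d29_nt.claimVdC0` (in
`Pool.Agent.Work.MP_8e4d29_nt.Bd.B01`) with `z n = e(f n)` on `[a,b)`, `0` outside, `R = q`, `L = b - a`:
`q²|S|² ≤ (L+q)(qL + 2∑_r (q-r)|S_r|)` and `L + q ≤ 2L`. -/
def StA1 : Prop := ∀ (f : ℕ → ℝ) (a b q : ℕ), 1 ≤ q → a + q ≤ b →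
  ‖∑ n ∈ Finset.Ico a b, ee (f n)‖ ^ 2 ≤ 2 * ((b : ℝ) - a) ^ 2 / q +
    4 * ((b : ℝ) - a) / q * ∑ r ∈ Finset.Ico 1 q, ‖∑ n ∈ Finset.Ico a (b - r), ee (f (n + r) - f n)‖

/-- ITEM KL (Kusmin-Landau, increasing differences in `[θ, 1-θ]`).  From `Pool.Agent.Work.MP_8e4d29_nt.claimKL` (in
`Pool.Agent.Work.MP_8e4d29_nt.Bd.B03`; there the differences decrease and lie in `[θ,1/2]`).  Split at the first `n` with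
difference `> 1/2`: on the second part use the phase `n - g n` (differences `1 - Δg`, decreasing, in `[θ,1/2]`;
`e(n - g n) = conj e(g n)`), on the first part reverse the order: `n ↦ -g(c - n)` has the differences `Δg(c - n - 1)`,
decreasing. -/
def StKL : Prop := ∃ C : ℝ, 1 ≤ C ∧ ∀ (g : ℕ → ℝ) (a b : ℕ) (θ : ℝ), 0 < θ → θ ≤ 1 / 2 →
  (∀ n, a ≤ n → n + 1 < b → θ ≤ g (n + 1) - g n ∧ g (n + 1) - g n ≤ 1 - θ) →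
  (∀ n, a ≤ n → n + 2 < b → g (n + 1) - g n ≤ g (n + 2) - g (n + 1)) →
  ‖∑ n ∈ Finset.Ico a b, ee (g n)‖ ≤ C / θ

/-- ITEM VB (second difference test; uses StKL).  If `λ ≥ 1/16` trivial (`≤ L ≤ 4L√λ`).  Otherwise `θ = √λ ≤ 1/4`.  The first
differences `Δf` increase with steps in `[λ, hλ]`, so they run through an interval of length `≤ hλL`; at most `hλL + 2` integers
`ν` (those within distance `1` of it) matter.  For each `ν` the `n` with `|Δf(n) - ν| < θ` form an interval with at most `2θ/λ + 1`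
elements; the `n` with `Δf(n) ∈ [ν+θ, ν+1-θ]` form an interval, StKL for `g(n) = f(n) - νn` (`e(νn) = 1`): `≤ C/θ`.  Total
`(hλL + 3)·C'λ^{-1/2}`. -/
def StVB : Prop := ∀ h : ℝ, 1 ≤ h → ∃ C : ℝ, 1 ≤ C ∧ ∀ (f : ℕ → ℝ) (a b : ℕ) (L lam : ℝ), a ≤ b →
  (b : ℝ) - a ≤ L → 1 ≤ L → 0 < lam →
  (∀ n, a ≤ n → n + 2 < b → lam ≤ dd 2 f n ∧ dd 2 f n ≤ h * lam) →
  ‖∑ n ∈ Finset.Ico a b, ee (f n)‖ ≤ C * (L * Real.sqrt lam + 1 / Real.sqrt lam)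

/-- ITEM VJ (difference test of order `k + 2`; uses StA1, StVB).  Induction on `k` (for both signs; `σ = -1` by complex
conjugation `f ↦ -f`, `dd` is linear).  `k = 0`: StVB.  `k → k+1`: we may assume `L = b - a ≥ 1` and `λ < 1`.  With
`Q = 2^{k+2} - 2 ≥ 2` put `q₀ = λ^{-1/(Q+1)} > 1`; if `q₀ > L/2` then `L^{1-1/2^{k+1}} λ^{-1/(2Q+2)} ≥ c L` trivial.  Otherwise `q = ⌈q₀⌉ ≤ L`,
StA1.  The phase `g(n) = f(n+r) - f(n) = ∑_{i<r} (Δf)(n+i)` has `dd (k+2) g n = ∑_{i<r} dd (k+3) f (n+i) ∈ [rλ, hrλ]` for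
`n + (k+2) < b - r`.  Induction hypothesis: `|S_r| ≤ C(L(rλ)^{1/Q} + L^{1-1/2^k}(rλ)^{-1/Q})`, and
`(1/q)∑_{r<q} (rλ)^{1/Q} ≤ (qλ)^{1/Q}`, `(1/q)∑_{1≤r<q} (rλ)^{-1/Q} ≤ 2 (qλ)^{-1/Q}`.  So
`|S|² ≤ C'(L²/q + L²(qλ)^{1/Q} + L^{2-1/2^k}(qλ)^{-1/Q}) ≤ C''(L²λ^{1/(Q+1)} + L^{2-1/2^k}λ^{-1/(Q+1)})`; `2(Q+1) = 2^{k+3} - 2`. -/
def StVJ : Prop := ∀ (k : ℕ) (h : ℝ), 1 ≤ h → ∃ C : ℝ, 1 ≤ C ∧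
  ∀ (f : ℕ → ℝ) (a b : ℕ) (L lam σ : ℝ), (σ = 1 ∨ σ = -1) → a ≤ b → (b : ℝ) - a ≤ L → 1 ≤ L → 0 < lam →
  (∀ n, a ≤ n → n + (k + 2) < b → lam ≤ σ * dd (k + 2) f n ∧ σ * dd (k + 2) f n ≤ h * lam) →
  ‖∑ n ∈ Finset.Ico a b, ee (f n)‖ ≤ C * (L * lam ^ (1 / ((2 : ℝ) ^ (k + 2) - 2)) +
    L ^ (1 - 1 / (2 : ℝ) ^ k) * lam ^ (-(1 / ((2 : ℝ) ^ (k + 2) - 2))))

/-- ITEM MD (mean value theorem for differences).  Induction on `j` for all `F`: apply the case `j - 1` to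
`F' i y = F i (y+1) - F i y` on `[a, b-1]` (if `j = 0` trivial): `F' (j-1) y = F (j-1) (y+1) - F (j-1) y = F j ξ ∈ [c, C]`. -/
def StMD : Prop := ∀ (j : ℕ) (F : ℕ → ℝ → ℝ) (a b c C : ℝ),
  (∀ i < j, ∀ y ∈ Icc a b, HasDerivAt (F i) (F (i + 1) y) y) →
  (∀ y ∈ Icc a b, c ≤ F j y ∧ F j y ≤ C) →
  ∀ n : ℕ, a ≤ n → (n : ℝ) + j ≤ b → c ≤ dd j (fun i => F 0 i) n ∧ dd j (fun i => F 0 i) n ≤ C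

/-- ITEM TW (tower of derivatives of `y^{-α}(1+εy^β)^{-1/2}`).  `G_i(y) = y^{-α-i}(1+w)^{-1/2-i}P_i(w)`, `w = εy^β`, with polynomials
`P_0 = 1`, `P_{i+1} = (1+w)(-(α+i)P_i + βwP_i') - (1/2+i)βwP_i` (`dw/dy = βw/y`; not depending on `ε`).  `P_i(0) = (-1)^i α(α+1)…(α+i-1)`, so for
`0 ≤ w ≤ w_0(k)` we have `(-1)^k P_k(w)` between two positive constants; `w ≤ ε max(4^β, 4^{-β})`. -/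
def StTW : Prop := ∀ (α β : ℝ), 0 < α → ∀ k : ℕ, ∃ ε0 c C : ℝ, 0 < ε0 ∧ 0 < c ∧ c ≤ C ∧
  ∀ ε : ℝ, 0 ≤ ε → ε ≤ ε0 → ∃ G : ℕ → ℝ → ℝ,
    (∀ y ∈ Icc (1 / 4 : ℝ) 4, G 0 y = y ^ (-α) * (1 + ε * y ^ β) ^ (-(1 / 2) : ℝ)) ∧
    (∀ i < k, ∀ y ∈ Icc (1 / 4 : ℝ) 4, HasDerivAt (G i) (G (i + 1) y) y) ∧
    ∀ y ∈ Icc (1 / 4 : ℝ) 4, c ≤ (-1) ^ k * G k y ∧ (-1) ^ k * G k y ≤ C

/-! ### Block K: the kernel, dependence on `m` -/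

/-- ITEM Pd (`Ph X m x` as a function of real `m > 0`).  `z = x/(mX)`, `ws = 2X arsinh z`, `nn X ws = 2X²(√(1+z²) - 1)`
(`cosh (arsinh z) = √(1+z²)`); `∂_m Ph = x ws_m - nn - m nd(ws) ws_m = -nn` since `nd X ws = x/m` (UB.StKa, `UB/I_Ka.lean`);
`∂_m (-nn) = -2X² z z_m/√(1+z²) = 2X²z²/(m√(1+z²))`. -/
def StPd : Prop := ∀ X x m : ℝ, 0 < X → 0 < m →
  HasDerivAt (fun y => Ph X y x) (-(nn X (ws X m x))) m ∧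
  nn X (ws X m x) = 2 * X ^ 2 * (Real.sqrt (1 + (x / (m * X)) ^ 2) - 1) ∧
  HasDerivAt (fun y => -(nn X (ws X y x))) (2 * x ^ 2 / (m ^ 3 * Real.sqrt (1 + (x / (m * X)) ^ 2))) m

/-- ITEM PM (differences of the phase in `m`; uses StPd, StTW, StMD).  `x = t√N`, `j = k + 2`.  `y = m/t ∈ [1/2, 2]`,
`Ph'' = 2x²t^{-3} y^{-3}(1+εy^{-2})^{-1/2}`, `ε = (x/(tX))² = N/X² ≤ 1/C`; so (StTW with `α = 3`, `β = -2`) the tower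
`F_0 = Ph`, `F_1 = -nn(ws)`, `F_{i+2}(m) = 2x²t^{-3-i}G_i(m/t)` for `m ∈ [t/2,2t]`, `F_j = 2N t^{1-j}G_k(m/t)`.  StMD on `[t/2, 2t]` (for `-F` if `j` is odd). -/
def StPM : Prop := ∀ k : ℕ, ∃ c C : ℝ, 0 < c ∧ 1 ≤ C ∧ ∀ (X N t : ℝ) (n : ℕ), 1 ≤ N → 0 < X → C * N ≤ X ^ 2 →
  1 ≤ t → t / 2 ≤ n → (n : ℝ) + (k + 2) ≤ 2 * t →
  c * (N * t / t ^ (k + 2)) ≤ (-1) ^ k * dd (k + 2) (fun m => Ph X m (t * Real.sqrt N)) n ∧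
  (-1) ^ k * dd (k + 2) (fun m => Ph X m (t * Real.sqrt N)) n ≤ C * (N * t / t ^ (k + 2))

/-- ITEM AL2 (amplitude lemma, derivative in `Z`; uses UB.StVp, UB.StV2; compare `UB/I_AL.lean`).  Differentiation under the integral
sign: `A' = -2πi e(-Φ(Z)) ∫ κ(w)(g(w) - g(w0)) e(xw - Zg(w)) dw`.  `g(w) - g(w0) = (w-w0) r(w)`, `r(w) = ∫_0^1 g1(w0 + τ(w-w0))dτ`, and
`g1(w) - g1(w0) = (w-w0)q(w)`, `q(w) = ∫_0^1 g2(w0+τ(w-w0))dτ ≥ 1/B`.  The `w`-derivative of the phase is `x - Zg1(w) = -Z(w-w0)q(w)`, so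
`-2πi (w-w0) e(phase) = (1/(Zq(w))) d/dw e(phase)`, integrate by parts (`κ = 0` at the end points):
`A' = -(1/Z) e(-Φ) ∫ (κr/q)'(w) e(phase) dw`; `(κr/q)'` vanishes at the end points (`κ = κ1 = 0`) and has a bounded derivative
(`r' = ∫τ g2`, `r'' = ∫τ² g3`, `q' = ∫τ g3`, `q'' = ∫τ² g4`); StVp, StV2 with `μ = Z/B`: `|A'| ≤ (1/Z) C/√Z`. -/
def StAL2 : Prop := ∀ c b B : ℝ, 0 < c → c < b → 1 ≤ B → ∃ C : ℝ, 1 ≤ C ∧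
  ∀ (κ κ1 κ2 g g1 g2 g3 g4 : ℝ → ℝ) (Z : ℝ), 0 < Z →
  (∀ w ∈ Icc c b, HasDerivAt κ (κ1 w) w ∧ HasDerivAt κ1 (κ2 w) w ∧ HasDerivAt g (g1 w) w ∧
    HasDerivAt g1 (g2 w) w ∧ HasDerivAt g2 (g3 w) w ∧ HasDerivAt g3 (g4 w) w) →
  ContinuousOn κ2 (Icc c b) → ContinuousOn g4 (Icc c b) →
  κ c = 0 → κ b = 0 → κ1 c = 0 → κ1 b = 0 →
  (∀ w ∈ Icc c b, |κ w| ≤ B ∧ |κ1 w| ≤ B ∧ |κ2 w| ≤ B ∧ |g1 w| ≤ B ∧ 1 / B ≤ g2 w ∧ g2 w ≤ B ∧ |g3 w| ≤ B ∧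
    |g4 w| ≤ B) →
  ∀ (x : ℝ) (Φ : ℝ → ℝ) (w0 : ℝ), w0 ∈ Icc c b → Z * g1 w0 = x → HasDerivAt Φ (-(g w0)) Z →
    ∃ A' : ℂ, HasDerivAt (fun z => ee (-(Φ z)) * ∫ w in c..b, (κ w : ℂ) * ee (x * w - z * g w)) A' Z ∧
      ‖A'‖ ≤ C / (Z * Real.sqrt Z)

/-- ITEM Kn2 (normal form of the kernel with explicit `g`; copy of `UB/I_Kn.lean`, which proves exactly this with `G`, `k0`;
`|g1| ≤ B` and `g2 ≤ B` on `[1/2,4]` are immediate). -/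
def StKn2 : Prop := ∃ C B : ℝ, 1 ≤ C ∧ 1 ≤ B ∧ ∀ X N : ℝ, 1 ≤ N → 0 < X → C * N ≤ X ^ 2 →
  ∃ (κ κ1 κ2 g g1 g2 g3 g4 : ℝ → ℝ),
  (∀ w ∈ Icc (1 / 2 : ℝ) 4, HasDerivAt κ (κ1 w) w ∧ HasDerivAt κ1 (κ2 w) w ∧ HasDerivAt g (g1 w) w ∧
    HasDerivAt g1 (g2 w) w ∧ HasDerivAt g2 (g3 w) w ∧ HasDerivAt g3 (g4 w) w) ∧
  ContinuousOn κ2 (Icc (1 / 2 : ℝ) 4) ∧ ContinuousOn g4 (Icc (1 / 2 : ℝ) 4) ∧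
  κ (1 / 2) = 0 ∧ κ 4 = 0 ∧ κ1 (1 / 2) = 0 ∧ κ1 4 = 0 ∧
  (∀ w ∈ Icc (1 / 2 : ℝ) 4, |κ w| ≤ B ∧ |κ1 w| ≤ B ∧ |κ2 w| ≤ B ∧ |g1 w| ≤ B ∧ 1 / B ≤ g2 w ∧ g2 w ≤ B ∧
    |g3 w| ≤ B ∧ |g4 w| ≤ B ∧ g w = nn X (Real.sqrt N * w) / N ∧ g1 w = nd X (Real.sqrt N * w) / Real.sqrt N) ∧
  ∀ (m : ℤ) (x : ℝ), KK X N m x =
    N * ∫ w in (1 / 2 : ℝ)..4, (κ w : ℂ) * ee (x * Real.sqrt N * w - m * N * g w)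

/-- ITEM Km (variation in `m` of the amplitude; uses StAL2, StKn2, StPd, UB.StKa).  `m` real between `m` and `m+1`, `Z = mN`:
`e(-Ph X m x)·N·∫κ e(x√N w - Zg(w))dw` with `Φ(Z) = Ph X (Z/N) x`, `Φ' = -nn(ws)/N = -g(w0)`, `w0 = ws X m x/√N ∈ [1/2,4]` (as in
`UB/I_K3.lean`, since `√N/2 ≤ x/m ≤ 2√N` on the whole interval), `Z g1(w0) = m√N nd(ws) = x√N`.  So the derivative with respect to `Z`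
is `≤ N·C/(mN)^{3/2}`, the length is `N`: difference `≤ C N^{1/2}m^{-3/2}`. -/
def StKm : Prop := ∃ C : ℝ, 1 ≤ C ∧ ∀ (X N x : ℝ) (m : ℕ), 1 ≤ N → 0 < X → C * N ≤ X ^ 2 → 1 ≤ m →
  ((m : ℝ) + 1) * Real.sqrt N / 2 ≤ x → x ≤ 2 * m * Real.sqrt N →
  ‖ee (-(Ph X ((m : ℝ) + 1) x)) * KK X N ((m : ℤ) + 1) x - ee (-(Ph X m x)) * KK X N m x‖ ≤
    C * Real.sqrt N / (m * Real.sqrt m)

/-- ITEM KC (kernel bound with a saving; uses StVJ, StPM, StKm, UB.StK2, UB.StK3, UB.StKD, UB.StKB).  If `t ≤ t_0(B)` then `N ≤ t^B` is bounded and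
UB.StKB suffices.  Let `x = t√N > 0` (`x < 0`: complex conjugate, `KS X N (-x) = conj (KS X N x)`).  UB.StKD with `M = t`: up to `C/N` and `K_0`
(UB.StK2: `≤ C/N`) the kernel is `∑ KJ_m(x)` over `t/2 ≤ m ≤ 2t` (the conjugate terms vanish as `-x < 0`).  Partial summation with the
amplitudes `e(-Ph)KK` (bounded by `C√(N/t)` by UB.StK3, total variation `≤ C√(N/t)` by StKm):
`≤ C√(N/t) max_I |∑_{m∈I} e(Ph X m x)|`.  Let `j ≥ 3` be minimal with `N ≤ t^{j-2}`; then `j ≤ B + 3` and `t^{j-3} ≤ N`, so by StPM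
the differences of order `j = k+2` are in `[cλ, Cλ]`, `λ = N t^{1-j} ∈ [t^{-2}, t^{-1}]`; StVJ with `L = 2t`, `Q = 2^j - 2`:
`t·t^{-1/Q} + t^{1-1/2^k+2/Q} ≤ 2 t^{1-1/Q}` as `3/Q ≤ 1/2^k` for `k ≥ 1` (`Q = 4·2^k - 2 ≥ 3·2^k`).
Finitely many `k`; `σ` = the smallest `1/Q`. -/
def StKC : Prop := ∀ B : ℝ, 1 ≤ B → ∃ σ C : ℝ, 0 < σ ∧ σ ≤ 1 / 4 ∧ 1 ≤ C ∧ ∀ X N t x : ℝ, 1 ≤ N → 0 < X →
  C * N ≤ X ^ 2 → 1 ≤ t → t ≤ N → N ≤ t ^ B → |x| = t * Real.sqrt N →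
  ‖KS X N x‖ ≤ C * (Real.sqrt (N * t) * t ^ (-σ))

/-- ITEM HN (large values with a saving; uses StKC, UB.StE3, UB.StKB; compare `UB/I_HM.lean`).  UB.StE3 and, for `u = x - y`, `|u| = t√N ≤ M√N`:
`|KS(u)| ≤ C N/(1+|u|√N)² + C√(NM)M^{-σ}`: if `t ≤ M^{1/2}` UB.StKB with `M^{1/2}` (`√(N M^{1/2}) = √(NM)M^{-1/4}`); if `t > M^{1/2}` StKC with `2B`
(`N ≤ M^B ≤ t^{2B}`; `√t t^{-σ'} ≤ √M M^{-σ'}` since `σ' ≤ 1/4`).  Absorb the second term by the hypothesis on `V²`. -/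
def StHN : Prop := ∀ B : ℝ, 1 ≤ B → ∃ σ C : ℝ, 0 < σ ∧ σ ≤ 1 / 4 ∧ 1 ≤ C ∧
  ∀ (X N M V : ℝ) (a : ℕ → ℂ) (W : Set ℝ), 1 ≤ N → 0 < X → C * N ≤ X ^ 2 → 1 ≤ M → M ≤ N → N ≤ M ^ B →
  0 < V → C * (N * Real.sqrt N * (Real.sqrt M * M ^ (-σ))) ≤ V ^ 2 → (∀ n, ‖a n‖ ≤ 1) →
  MeasurableSet W → W ⊆ Icc 0 (M * Real.sqrt N) → (∀ x ∈ W, V ≤ ‖SS X N a x‖) →
  V ^ 2 * Rr W ≤ C * (N * Real.sqrt N)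

/-- ITEM Fd (range II; uses StHN, UB.StAM, UB.StFw, UB.StWc, UB.StMb; compare `UB/I_Fc.lean`).  `M₀ = T/N² ∈ [T^{1/125}, T^{1/3-1/600}]`,
`M = M₀^{1+τ}`, `τ = min(σ, 1/2000)`, `σ` from StHN with `B = 63` (`N ≤ T^{1/2} ≤ M^{63}`; `M ≤ N` clear).  `M√N ≤ √T` as `M₀N^{1/2}M₀^τ = T N^{-3/2}M₀^τ`,
`N^{3/2} ≥ T^{1/2+1/800}`, `M₀^τ ≤ T^{1/6000}`.  Error of UB.StFw: `C N^{3/4}T^{-1/4}(M²N^{5/2}T^{-3/2} + MN^{1/2}T^{-1/2})`; the first is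
`T^{1/4}N^{-3/4}M₀^{2τ} ≤ T^{-1/1600+1/3000}`, the second `T^{1/4}N^{-3/4}M₀^τ`: `≤ 1/2`.  So `|SS| ≥ V = c u (NT)^{1/4}` on the window part, and
`C N^{3/2}M^{1/2-σ} ≤ V² = c²u²(NT)^{1/2}` because `M^{1/2-σ} ≤ M₀^{(1+τ)(1/2-σ)} ≤ M₀^{1/2-σ/2}` and `N = (T/M₀)^{1/2}`.  StHN: measure in `ξ` `≤ C N T^{-1/2}u^{-2}`; UB.StWc with
`L = M√N`: total `≤ C (T/(M√N)) N T^{-1/2} u^{-2} = C T^{1/2}N^{1/2}M^{-1}u^{-2} = C T^{-1/2}N^{5/2}M₀^{-τ}u^{-2}`; `δ = τ/125`. -/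
def StFd : Prop := ∃ δ : ℝ, 0 < δ ∧ ∀ φ Θ : ℝ → ℝ, IsPhi φ Θ → ∀ C' : ℝ, 1 ≤ C' → ∃ C : ℝ, 2 ≤ C ∧
  ∀ (T G N u : ℝ) (a : ℕ → ℂ), C ≤ T → C ≤ G → G ^ 2 ≤ T → 1 ≤ N → 2 * N ≤ C' * T / G ^ 2 →
  T ^ (1 / 3 + 1 / 1200 : ℝ) ≤ N → N ≤ T ^ (1 / 2 - 1 / 250 : ℝ) → (∀ n, ‖a n‖ ≤ 1) → 1 ≤ u →
  u * Rr (BS Θ T G a N u) ≤ C * T ^ (-δ) * (N ^ 2 * Real.sqrt N / Real.sqrt T)

/-! ### Block S: the part `n ≤ T^{1/3+1/500}` of the dual sum -/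

/-- ITEM Fn (`FF` as a function of real `n`).  `sinh(ls/2) = √n/(2√s)`, `cth(ls) = √(1+4s/n)`; `∂_n FF = s ls_n + cth/2 + (n/2) cth'(ls) ls_n = cth/2` since
`cth'(ls) = -1/(2 sinh²(ls/2)) = -2s/n`. -/
def StFn : Prop := ∀ s n : ℝ, 0 < s → 0 < n →
  HasDerivAt (fun y => FF y s) (Real.sqrt (1 + 4 * s / n) / 2) n ∧
  HasDerivAt (fun y => Real.sqrt (1 + 4 * s / y) / 2) (-(s / (n ^ 2 * Real.sqrt (1 + 4 * s / n)))) n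

/-- ITEM FD (differences of `b ↦ FF(ab,s) + θb`; uses StFn, StTW, StMD).  `y = b/B ∈ [1/2,3]`,
`∂_b² = -(1/2)√(as) b^{-3/2}(1+(a/4s)b)^{-1/2} = -(1/2)√(as)B^{-3/2}·y^{-3/2}(1+εy)^{-1/2}`, `ε = aB/(4s) ≤ 1/(4C)`: StTW with `α = 3/2`, `β = 1`;
`F_{i+2}(b) = -(1/2)√(as)B^{-3/2-i}G_i(b/B)`, `F_{k+2} = -(1/2)√(aBs)B^{-(k+2)}G_k(b/B)`. -/
def StFD : Prop := ∀ k : ℕ, ∃ c C : ℝ, 0 < c ∧ 1 ≤ C ∧ ∀ (s B θ : ℝ) (a n : ℕ), 1 ≤ a → 1 ≤ B →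
  C * (a * B) ≤ s → B / 2 ≤ n → (n : ℝ) + (k + 2) ≤ 3 * B →
  c * (Real.sqrt (a * B * s) / B ^ (k + 2)) ≤
    (-1) ^ (k + 1) * dd (k + 2) (fun b => FF ((a : ℝ) * b) s + θ * b) n ∧
  (-1) ^ (k + 1) * dd (k + 2) (fun b => FF ((a : ℝ) * b) s + θ * b) n ≤
    C * (Real.sqrt (a * B * s) / B ^ (k + 2))

/-- bump function: `1` on `[6/10, 64/10]`, support in `(3/10, 67/10)` -/
def ch2B : ContDiffBump (7 / 2 : ℝ) := ⟨29 / 10, 32 / 10, by norm_num, by norm_num⟩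

/-- the weight `χ₂` -/
def ch2 (u : ℝ) : ℝ := ch2B u

/-- `JX(y,s) = ∫_0^∞ χ₂(l/√(N/T)) Θ(Gl) (2 sinh(l/2))^{-1} e(s l + (y/2) coth(l/2)) dl`, `y ∈ [N,2N]` real -/
def JX (Θ : ℝ → ℝ) (T G N y s : ℝ) : ℂ :=
  ∫ l in Ioi (0 : ℝ),
    ((ch2 (l / Real.sqrt (N / T)) * Θ (G * l) / (2 * Real.sinh (l / 2)) : ℝ) : ℂ) *
      ee (s * l + y / 2 * cth l)

/-- ITEM Cx (change of the cutoff; uses UB.StPf, UB.StIP; compare `UB/I_Dn.lean`).  `D(l) = (ch(l/√(n/T)) - ch2(l/√(N/T))) Θ(Gl)/(2 sinh(l/2))` vanishes for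
`0.7072√(N/T) ≤ l ≤ 4.5√(n/T)` and for `l ≤ √(N/T)/4`, `l ≥ 6.8√(N/T)`; `|D| ≤ C/l`, `|D'| ≤ C/l²` (`l ≤ 1/G` small).  Phase `ϕ = s l + (n/2)cth l`, `ϕ' = s - n/(4 sinh²(l/2))`.
Lower part: `n/(4sinh²(l/2)) ≥ 0.95 n/l² ≥ 1.89 T` and `s ≤ 0.64T`; upper part: `n/(4 sinh²) ≤ n/l² ≤ T/20.25 < 0.05T` and `s ≥ T/(4π) > 0.079T`.  So `|ϕ'| ≥ cT`,
`|ϕ''| ≤ C n/l³ ≤ C T/l`; UB.StIP (first part; no boundary terms): `≤ C ∫ dl/(T l²) ≤ C/(T√(N/T)) = C/√(NT)`. -/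
def StCx : Prop := ∀ φ Θ : ℝ → ℝ, IsPhi φ Θ → ∀ C' : ℝ, 1 ≤ C' → ∃ C : ℝ, 2 ≤ C ∧ ∀ (T G N s : ℝ) (n : ℕ), C ≤ T →
  C ≤ G → G ^ 2 ≤ T → s ∈ sI T → 1 ≤ N → N ≤ n → (n : ℝ) ≤ 2 * N → 2 * N ≤ C' * T / G ^ 2 →
  ‖JJ Θ T G n s - JX Θ T G N n s‖ ≤ C / Real.sqrt (N * T)

/-- ITEM AX (amplitude of `JX` in `y`; uses UB.StAL, StAL2, StFn, UB.StPf; compare `UB/I_AM.lean`).  `l = l0 w`, `l0 = √(N/T)`, `w ∈ [3/10, 67/10]`: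
`conj JX = ∫ κ(w) e(xw - Zg(w)) dw`, `x = -s l0`, `Z = y/l0 ∈ [√(NT), 2√(NT)]`, `g(w) = (l0/2)cth(l0w)`, `κ(w) = ch2(w)Θ(Gl0w) l0/(2 sinh(l0w/2))`;
`g1 = -(l0²/4)/sinh²(l0w/2)`, `g2 = (l0³/4)cosh/sinh³ ∈ [1/B,B]`, as in `UB/I_AM.lean` (`cth l = cosh(l/2)/sinh(l/2)`).  `w0 = ls y s/l0 ∈ [3/10,67/10]`
(`ls y s ≤ √(y/s) ≤ √(8πN/T)`, `ls y s ≥ 0.99√(y/s) ≥ 0.99√(πN/(2T))`), `Z g1(w0) = x`, critical value of `xw - Zg(w)` is `-FF y s`; `Φ(Z) = -FF(Z l0) s` has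
`Φ' = -l0 √(1+4s/y)/2 = -(l0/2) cth(ls) = -g(w0)`.  So the derivative with respect to `y` is `≤ (1/l0) C/(Z√Z) ≤ C/(N (NT)^{1/4})`. -/
def StAX : Prop := ∀ φ Θ : ℝ → ℝ, IsPhi φ Θ → ∀ C' : ℝ, 1 ≤ C' → ∃ C : ℝ, 2 ≤ C ∧ ∀ (T G N s y : ℝ), C ≤ T →
  C ≤ G → G ^ 2 ≤ T → s ∈ sI T → 1 ≤ N → N ≤ y → y ≤ 2 * N → 2 * N ≤ C' * T / G ^ 2 →
  ‖JX Θ T G N y s‖ ≤ C / Real.sqrt (Real.sqrt (N * T)) ∧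
  ∃ A' : ℂ, HasDerivAt (fun z => ee (-(FF z s)) * JX Θ T G N z s) A' y ∧
    ‖A'‖ ≤ C / (N * Real.sqrt (Real.sqrt (N * T)))

/-- ITEM Bs (the sum over `b`, `n = ab`; uses StVJ, StFD, StAX).  `(-1)^{ab} = e(ab/2)`, `JX(ab) = e(FF(ab,s)) α(b)`, `|α| ≤ C(NT)^{-1/4}`,
`|α(b+1) - α(b)| ≤ (a/N) C (NT)^{-1/4}` (StAX on `[ab, ab+a] ⊆ [N,2N]`), at most `N/a + 1` terms: partial summation,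
`≤ C (NT)^{-1/4} max_I |∑_{b∈I} e(FF(ab,s) + ab/2)|`.  `B = N/a ≥ √(N/2) ≥ T^{1/6-1/1000}/2`, `B ≤ T^{1/3+1/500}`, `F = √(Ns)`, `c T^{2/3-1/1000} ≤ F ≤ C T^{2/3+1/1000}`; so
`B < F/C`, `F ≤ C B^5`.  Let `j ∈ {3,4,5,6}` be minimal with `F ≤ C B^{j-1}`: then `λ = F B^{-j} ∈ [C^{-1}B^{-2}, C B^{-1}]`; StFD, StVJ (`k = j-2 ≤ 4`, `Q = 2^j - 2 ≤ 62`,
`L = B + 1`): `≤ C(B^{1-1/Q} + B^{1-1/2^k+2/Q}) ≤ C B^{1-1/62}` and `B^{-1/62} ≤ C T^{-(1/6-1/1000)/62} ≤ C T^{-1/400}`. -/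
def StBs : Prop := ∀ φ Θ : ℝ → ℝ, IsPhi φ Θ → ∀ C' : ℝ, 1 ≤ C' → ∃ C : ℝ, 2 ≤ C ∧ ∀ (T G N s : ℝ) (a b1 b2 : ℕ),
  C ≤ T → C ≤ G → G ^ 2 ≤ T → s ∈ sI T → 2 * N ≤ C' * T / G ^ 2 → T ^ (1 / 3 - 1 / 500 : ℝ) ≤ N →
  N ≤ T ^ (1 / 3 + 1 / 500 : ℝ) → 1 ≤ a → (a : ℝ) ^ 2 ≤ 2 * N →
  (∀ b ∈ Finset.Ico b1 b2, N ≤ (a : ℝ) * b ∧ (a : ℝ) * b ≤ 2 * N) →
  ‖∑ b ∈ Finset.Ico b1 b2, (-1 : ℂ) ^ (a * b) * JX Θ T G N ((a : ℝ) * b) s‖ ≤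
    C / Real.sqrt (Real.sqrt (N * T)) * (N / a) * T ^ (-(1 / 400) : ℝ)

/-- ITEM Hy (hyperbola method).  `d(n) = ∑_{ab = n} 1 = 2 #{a < b} + #{a = b}`; `a < b`, `ab = n ≤ n1` gives `a ≤ √n1`; `n0 < ab ≤ n1` iff
`n0/a < b ≤ n1/a` (natural division).  If `n0 ≥ n1` both sides are `0`. -/
def StHy : Prop := ∀ (F : ℕ → ℂ) (n0 n1 : ℕ),
  ∑ n ∈ Finset.Ioc n0 n1, (n.divisors.card : ℂ) * F n =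
    2 * ∑ a ∈ Finset.Icc 1 (Nat.sqrt n1), ∑ b ∈ Finset.Ico (max (a + 1) (n0 / a + 1)) (n1 / a + 1), F (a * b) +
    ∑ a ∈ (Finset.Icc 1 (Nat.sqrt n1)).filter (fun a => n0 < a * a), F (a * a)

/-- ITEM Sm (the small part of the dual sum; uses StHy, StBs, StCx, StAX, UB.StAM, the divisor bound
`Pool.Agent.Work.MP_cb106b_nt.Ct.divisor_bound`).  `n ≤ T^{1/3-1/500}`: `∑ d(n) C(nT)^{-1/4} ≤ C T^{1/10000} N^{3/4}T^{-1/4} ≤ C T^{-1/1000}`.  The rest: `C log T` blocks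
`(N, N']`, `N' ≤ 2N`, `T^{1/3-1/500} ≤ N`.  StCx: replacing `JJ` by `JX` costs `∑ d(n) C(NT)^{-1/2} ≤ T^{-1/4}`.  `d(n) = 2#{(a,b) : ab = n, a < b} + [n = □]`, `(-1)^n = (-1)^{ab}`:
`∑ (-1)^n d(n) JX_n = 2∑_{a} ∑_{b > a, N < ab ≤ N'} (-1)^{ab}JX_{ab} + ∑_{N < a² ≤ N'} …` with `a² < 2N`; each inner sum is over an interval of `b`: StBs, `∑_a N/a ≤ C N log T`:
`≤ C (log T) N^{3/4}T^{-1/4}T^{-1/400} ≤ C (log T) T^{3/2000-1/400}`; squares: `√(2N) C (NT)^{-1/4}`. -/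
def StSm : Prop := ∀ φ Θ : ℝ → ℝ, IsPhi φ Θ → ∀ C' : ℝ, 1 ≤ C' → ∃ C : ℝ, 2 ≤ C ∧ ∀ (T G s : ℝ) (n1 : ℕ),
  C ≤ T → C ≤ G → G ^ 2 ≤ T → s ∈ sI T → (n1 : ℝ) ≤ C' * T / G ^ 2 → (n1 : ℝ) ≤ T ^ (1 / 3 + 1 / 500 : ℝ) →
  ‖∑ n ∈ Finset.Icc 1 n1, (-1 : ℂ) ^ n * (n.divisors.card : ℂ) * JJ Θ T G n s‖ ≤ 1

/-- ITEM SW (a subconvex bound below `1/6`; uses UB.StPhi, UB.StDD, UB.StRp, StSm; compare `UB/I_Sup.lean`).  Suppose `|P(t)| ≥ T^{1/6-1/4000}`.  `G = T^{1/3-3/4000}`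
(`G² ≤ T`), so `C'T/G² = C'T^{1/3+6/4000} ≤ T^{1/3+1/500}` and `‖DS Θ T G C' t‖ ≤ 1` by StSm (`s = t/(2π) ∈ sI T`), hence `IG(t) ≤ C G log T` by UB.StDD.  But
`IG(t) ≥ ∫_{|u| ≤ T^ε}|P(t+u)|² ≥ (T^{1/3-2/4000} - C)/(C log T)` (UB.StRp, `T^ε ≤ G`): contradiction. -/
def StSW : Prop := ∃ C : ℝ, 2 ≤ C ∧ ∀ T t : ℝ, C ≤ T → T ≤ t → t ≤ 2 * T →
  ‖EM.P (T ^ 2) t‖ < T ^ (1 / 6 - 1 / 4000 : ℝ)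

/-! ### Block F: assembly -/

/-- ITEM JC (bound for `J(V)` with a saving; uses UB.StPhi, UB.StMb, StFd, UB.StFb, UB.StFc, UB.StFJ, StSW).  If `V ≥ T^{1/6-1/4000}` then `JV T V = 0` by StSW.  Let `V ≤ T^{1/6-1/4000}`,
`ε = min(δ₀, 1/20000)/5` (`δ₀` of StFd), UB.StFJ with `ε`: `N0 = C'T/G² = C' T^{1+ε/2}V^{-4}` satisfies `T^{1/3+1/1000} ≤ N0 ≤ T^{1/2+1/150}`.  We show
`u Rr(BS) ≤ β := K T^{-5ε} N0^{5/2}T^{-1/2}` (`= K' T^{2-5ε+5ε/4}V^{-10}`) for all blocks `N = 2^j`, `2N ≤ N0`.  (i) `N ≤ T^{1/3+1/1200}`: UB.StFc with `ε`, `T^{10ε}N^{5/2}T^{-1/2} ≤ T^{1/3+1/480+10ε}` and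
`N0^{5/2}T^{-1/2} ≥ T^{1/3+1/400}`, `1/400 - 1/480 = 1/2400 ≥ 15ε`.  (ii) `N ≤ T^{1/2-1/250}`: StFd.  (iii) `N ≥ T^{1/2-1/250}`, `ρ = N/√T ≥ T^{-1/250}`,
UB.StFb: `T^{3/4+ε}(T^{-1/160}ρ^{5/4} + T^{-1/60}) ≤ T^{3/4-1/2000}ρ^{5/2}` as `ρ^{-5/4} ≤ T^{1/200}` (`1/160 - 1/200 = 1/800`) and `ρ^{-5/2} ≤ T^{1/100}`, and `T^{3/4}ρ^{5/2} = N^{5/2}T^{-1/2}`.  `δ = 2ε`. -/
def StJC : Prop := ∃ δ : ℝ, 0 < δ ∧ ∃ C : ℝ, 2 ≤ C ∧ ∀ T V : ℝ, C ≤ T → T ^ (1 / 8 - 1 / 800 : ℝ) ≤ V →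
  V ≤ T ^ (1 / 4 : ℝ) → JV T V ≤ C * T ^ (2 - δ) / V ^ 10

/-- ITEM MC (THE TWELFTH MOMENT; uses StJC, UB.StJB, UB.StSup, EM.StZ, EM.StPc; compare `UB/I_MA.lean`).  As in UB.StMA: `∫_{V ≤ |P| < 2V}|P|^A ≤ (2V)^{A-2} JV T V`.
`V ≤ T^{1/8-1/800}`: UB.StJB (first bound) `T^{1+ε}V^{A-4} ≤ T^{2-1/100+ε+(A-12)/8}`; `V ≥ T^{1/8-1/800}`: StJC, `T^{2-δ₀}V^{A-12} ≤ T^{2-δ₀+(A-12)/4}`.  `δ = min(δ₀, 1/100)/4`. -/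
def StMC : Prop := ∃ δ : ℝ, 0 < δ ∧ ∀ A : ℝ, 12 ≤ A → A ≤ 12 + δ → ∃ C : ℝ, ∀ T : ℝ, 1 ≤ T →
  ∫ t in (0 : ℝ)..T, ‖riemannZeta (1 / 2 + t * Complex.I)‖ ^ A ≤ C * T ^ (2 - δ)

end Pool.Agent.Work.MP_56b8f5_nt.UT
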