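import Pool.Agent.Work.MP_56b8f5_nt.UT.Stmts
import Pool.Agent.Work.MP_8e4d29_nt.Bd.B01

/-!
MP_56b8f5_nt, block UT, item A1: the inequality of van der Corput for phases.
-/

open MeasureTheory Set Filter Topology

noncomputable section

namespace Pool.Agent.Work.MP_56b8f5_nt.UT

open Pool.Agent.Work.MP_56b8f5_nt.UB

namespace A1_aux

theorem norm_ee (x : ℝ) : ‖ee x‖ = 1 := by
  unfold ee
  exact Complex.norm_exp_ofReal_mul_I _

theorem ee_mul_conj (x y : ℝ) : ee x * (starRingEnd ℂ) (ee y) = ee (x - y) := by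
  unfold ee
  rw [← Complex.exp_conj, ← Complex.exp_add]
  congr 1
  simp only [map_mul, Complex.conj_I, Complex.conj_ofReal]
  push_cast
  ring

end A1_aux

open A1_aux in
/-- ITEM A1. -/
theorem iA1 : StA1 := by
  intro f a b q hq hab
  set L : ℕ := b - a with hL
  have hb : b = a + L := by omega
  have hLq : q ≤ L := by omega
  set z : ℕ → ℂ := fun n => if n ∈ Finset.Ico a b then ee (f n) else 0 with hz
  have hzs : ∀ n, z n ≠ 0 → a ≤ n ∧ n < a + L := by
    intro n hn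
    simp only [hz] at hn
    split_ifs at hn with h
    · rw [Finset.mem_Ico] at h
      omega
    · exact absurd rfl hn
  have key := Pool.Agent.Work.MP_8e4d29_nt.claimVdC0 z a L q hq hzs
  rw [← hb] at key
  have e1 : ∑ n ∈ Finset.Ico a b, z n = ∑ n ∈ Finset.Ico a b, ee (f n) := by
    refine Finset.sum_congr rfl fun n hn => ?_
    simp only [hz, if_pos hn]
  have e2 : ∑ n ∈ Finset.Ico a b, ‖z n‖ ^ 2 = (L : ℝ) := by
    have : ∀ n ∈ Finset.Ico a b, ‖z n‖ ^ 2 = (1 : ℝ) := by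
      intro n hn
      simp only [hz, if_pos hn, norm_ee, one_pow]
    rw [Finset.sum_congr rfl this, Finset.sum_const, Nat.card_Ico, nsmul_eq_mul, mul_one]
  have e3 : ∀ r ∈ Finset.Ico 1 q, ∑ n ∈ Finset.Ico a b, z (n + r) * (starRingEnd ℂ) (z n) =
      ∑ n ∈ Finset.Ico a (b - r), ee (f (n + r) - f n) := by
    intro r hr
    rw [Finset.mem_Ico] at hr
    symm
    have hsub : Finset.Ico a (b - r) ⊆ Finset.Ico a b :=
      Finset.Ico_subset_Ico le_rfl (Nat.sub_le _ _)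
    rw [← Finset.sum_subset hsub]
    · refine Finset.sum_congr rfl fun n hn => ?_
      have h1 : n ∈ Finset.Ico a b := hsub hn
      have h2 : n + r ∈ Finset.Ico a b := by
        rw [Finset.mem_Ico] at hn ⊢
        omega
      simp only [hz, if_pos h1, if_pos h2]
      rw [ee_mul_conj]
    · intro n hn hn'
      have h2 : n + r ∉ Finset.Ico a b := by
        rw [Finset.mem_Ico] at hn hn' ⊢
        omega
      simp only [hz, if_neg h2, zero_mul]
  rw [e1, e2] at key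
  set S : ℝ := ‖∑ n ∈ Finset.Ico a b, ee (f n)‖ with hS
  set Sr : ℕ → ℝ := fun r => ‖∑ n ∈ Finset.Ico a (b - r), ee (f (n + r) - f n)‖ with hSr
  have e4 : ∑ r ∈ Finset.Ico 1 q, ((q : ℝ) - r) *
      (∑ n ∈ Finset.Ico a b, z (n + r) * (starRingEnd ℂ) (z n)).re ≤
      q * ∑ r ∈ Finset.Ico 1 q, Sr r := by
    rw [Finset.mul_sum]
    refine Finset.sum_le_sum fun r hr => ?_
    rw [e3 r hr]
    have hr' := Finset.mem_Ico.1 hr
    have h1 : (r : ℝ) ≤ q := by exact_mod_cast hr'.2.le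
    have h2 : (0 : ℝ) ≤ r := Nat.cast_nonneg r
    have h3 : (∑ n ∈ Finset.Ico a (b - r), ee (f (n + r) - f n)).re ≤ Sr r := by
      simp only [hSr]
      exact Complex.re_le_norm _
    have h4 : 0 ≤ Sr r := by
      simp only [hSr]
      exact norm_nonneg _
    calc ((q : ℝ) - r) * (∑ n ∈ Finset.Ico a (b - r), ee (f (n + r) - f n)).re
        ≤ ((q : ℝ) - r) * Sr r := mul_le_mul_of_nonneg_left h3 (by linarith)
      _ ≤ q * Sr r := mul_le_mul_of_nonneg_right (by linarith) h4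
  have hq0 : (0 : ℝ) < q := by exact_mod_cast hq
  have hLR : (q : ℝ) ≤ L := by exact_mod_cast hLq
  have hcast : (b : ℝ) - a = L := by
    rw [hb]; push_cast; ring
  rw [hcast]
  have hSum : 0 ≤ ∑ r ∈ Finset.Ico 1 q, Sr r := by
    refine Finset.sum_nonneg fun r _ => ?_
    simp only [hSr]
    exact norm_nonneg _
  set Sg := ∑ r ∈ Finset.Ico 1 q, Sr r with hSg
  have h5 : (q : ℝ) ^ 2 * S ^ 2 ≤ (2 * L) * (q * L + 2 * (q * Sg)) := by
    have h6 : (L : ℝ) + q ≤ 2 * L := by linarith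
    have h7 : (q : ℝ) * L + 2 * ∑ r ∈ Finset.Ico 1 q, ((q : ℝ) - r) *
      (∑ n ∈ Finset.Ico a b, z (n + r) * (starRingEnd ℂ) (z n)).re ≤ q * L + 2 * (q * Sg) := by
      linarith
    have h8 : 0 ≤ (q : ℝ) * L + 2 * (q * Sg) := by positivity
    calc (q : ℝ) ^ 2 * S ^ 2 ≤ _ := key
      _ ≤ ((L : ℝ) + q) * (q * L + 2 * (q * Sg)) :=
        mul_le_mul_of_nonneg_left h7 (by positivity)
      _ ≤ (2 * L) * (q * L + 2 * (q * Sg)) := mul_le_mul_of_nonneg_right h6 h8
  have h9 : S ^ 2 ≤ ((2 * L) * (q * L + 2 * (q * Sg))) / (q : ℝ) ^ 2 := by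
    rw [le_div_iff₀ (by positivity)]
    linarith
  refine h9.trans (le_of_eq ?_)
  field_simp
  ring

end Pool.Agent.Work.MP_56b8f5_nt.UT
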