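import Pool.Agent.Work.MP_56b8f5_nt.UT.Stmts
import Pool.Agent.Work.MP_56b8f5_nt.UB.I_AL

/-!
MP_56b8f5_nt, block UT, item AL2 (amplitude lemma, derivative in `Z`).
-/

open MeasureTheory Set Filter Topology

noncomputable section

namespace Pool.Agent.Work.MP_56b8f5_nt.UT

open Pool.Agent.Work.MP_56b8f5_nt.UB

namespace AL2_aux

open Pool.Agent.Work.MP_56b8f5_nt.UB.AL_aux

/-- derivative of the oscillatory integral in the parameter `z` -/
lemma I_deriv2 {c b : ℝ} (hcb : c ≤ b) (κ g : ℝ → ℝ) (hκ : ContinuousOn κ (Icc c b))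
    (hg : ContinuousOn g (Icc c b)) (x Z : ℝ) :
    HasDerivAt (fun z : ℝ => ∫ w in c..b, (κ w : ℂ) * ee (x * w - z * g w))
      (∫ w in c..b, (κ w : ℂ) * (((2 * Real.pi * (-(g w)) : ℝ) : ℂ) * Complex.I *
        ee (x * w - Z * g w))) Z := by
  have hU : Set.uIoc c b = Ioc c b := Set.uIoc_of_le hcb
  have hκc : ContinuousOn (fun w => (κ w : ℂ)) (Icc c b) :=
    Complex.continuous_ofReal.comp_continuousOn hκ
  have he : ∀ t : ℝ, ContinuousOn (fun w => ee (x * w - t * g w)) (Icc c b) := by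
    intro t
    exact continuous_ee.comp_continuousOn
      (ContinuousOn.sub (by fun_prop) (continuousOn_const.mul hg))
  have hF : ∀ t : ℝ, ContinuousOn (fun w => (κ w : ℂ) * ee (x * w - t * g w)) (Icc c b) :=
    fun t => hκc.mul (he t)
  have hF' : ∀ t : ℝ, ContinuousOn
      (fun w => (κ w : ℂ) * (((2 * Real.pi * (-(g w)) : ℝ) : ℂ) * Complex.I *
        ee (x * w - t * g w))) (Icc c b) := by
    intro t
    refine hκc.mul (ContinuousOn.mul (ContinuousOn.mul ?_ continuousOn_const) (he t))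
    exact Complex.continuous_ofReal.comp_continuousOn (continuousOn_const.mul hg.neg)
  refine (intervalIntegral.hasDerivAt_integral_of_dominated_loc_of_deriv_le
    (F := fun t w => (κ w : ℂ) * ee (x * w - t * g w))
    (F' := fun t w => (κ w : ℂ) * (((2 * Real.pi * (-(g w)) : ℝ) : ℂ) * Complex.I *
      ee (x * w - t * g w)))
    (s := univ) (bound := fun w => |κ w| * (2 * Real.pi * |g w|)) univ_mem ?_ ?_ ?_ ?_ ?_ ?_).2
  · refine Eventually.of_forall (fun t => ?_)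
    rw [hU]
    exact ((hF t).mono Ioc_subset_Icc_self).aestronglyMeasurable measurableSet_Ioc
  · apply ContinuousOn.intervalIntegrable
    rw [Set.uIcc_of_le hcb]
    exact hF Z
  · rw [hU]
    exact ((hF' Z).mono Ioc_subset_Icc_self).aestronglyMeasurable measurableSet_Ioc
  · refine Eventually.of_forall (fun w _ t _ => ?_)
    rw [norm_mul, norm_mul, norm_mul, norm_ee, Complex.norm_I, mul_one, mul_one,
      Complex.norm_real, Complex.norm_real, Real.norm_eq_abs, Real.norm_eq_abs, abs_mul (2 * Real.pi),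
      abs_of_pos Real.two_pi_pos, abs_neg]
  · apply ContinuousOn.intervalIntegrable
    rw [Set.uIcc_of_le hcb]
    exact hκ.abs.mul (continuousOn_const.mul hg.abs)
  · refine Eventually.of_forall (fun w _ t _ => ?_)
    have h1 : HasDerivAt (fun t : ℝ => x * w - t * g w) (-(g w)) t := by
      have := ((hasDerivAt_id t).mul_const (g w)).const_sub (x * w)
      simpa using this
    exact (hasDerivAt_ee h1).const_mul _

end AL2_aux

open AL2_aux in
open Pool.Agent.Work.MP_56b8f5_nt.UB.AL_aux in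
theorem iAL2 (hVp : UB.StVp) (hV2 : UB.StV2) : StAL2 := by
  intro c b B hc hcb hB
  have hcb' : c ≤ b := hcb.le
  have hB0 : 0 < B := by linarith
  have hbc : 0 ≤ b - c := by linarith
  have hsB : 0 ≤ Real.sqrt B := Real.sqrt_nonneg _
  refine ⟨1 + 88 * B ^ 7 * Real.sqrt B * (b - c), ?_, ?_⟩
  · have : 0 ≤ 88 * B ^ 7 * Real.sqrt B * (b - c) := by positivity
    linarith
  intro κ κ1 κ2 g g1 g2 g3 g4 Z hZ hd hκ2c hg4c hκc hκb hκ1c hκ1b hbd
  have hsZ : 0 < Real.sqrt Z := Real.sqrt_pos.2 hZ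
  have hdκ : ∀ w ∈ Icc c b, HasDerivAt κ (κ1 w) w := fun w hw => (hd w hw).1
  have hdκ1 : ∀ w ∈ Icc c b, HasDerivAt κ1 (κ2 w) w := fun w hw => (hd w hw).2.1
  have hdg : ∀ w ∈ Icc c b, HasDerivAt g (g1 w) w := fun w hw => (hd w hw).2.2.1
  have hdg1 : ∀ w ∈ Icc c b, HasDerivAt g1 (g2 w) w := fun w hw => (hd w hw).2.2.2.1
  have hdg2 : ∀ w ∈ Icc c b, HasDerivAt g2 (g3 w) w := fun w hw => (hd w hw).2.2.2.2.1
  have hdg3 : ∀ w ∈ Icc c b, HasDerivAt g3 (g4 w) w := fun w hw => (hd w hw).2.2.2.2.2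
  have cκ : ContinuousOn κ (Icc c b) := fun w hw => (hdκ w hw).continuousAt.continuousWithinAt
  have cκ1 : ContinuousOn κ1 (Icc c b) := fun w hw => (hdκ1 w hw).continuousAt.continuousWithinAt
  have cg : ContinuousOn g (Icc c b) := fun w hw => (hdg w hw).continuousAt.continuousWithinAt
  have cg1 : ContinuousOn g1 (Icc c b) := fun w hw => (hdg1 w hw).continuousAt.continuousWithinAt
  have cg2 : ContinuousOn g2 (Icc c b) := fun w hw => (hdg2 w hw).continuousAt.continuousWithinAt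
  have cg3 : ContinuousOn g3 (Icc c b) := fun w hw => (hdg3 w hw).continuousAt.continuousWithinAt
  have hdp : ∀ x : ℝ, ∀ w ∈ Icc c b, HasDerivAt (fun w => x * w - Z * g w) (x - Z * g1 w) w := by
    intro x w hw
    have h1 : HasDerivAt (fun w => x * w - Z * g w) (x * 1 - Z * g1 w) w :=
      ((hasDerivAt_id w).const_mul x).sub ((hdg w hw).const_mul Z)
    rw [mul_one] at h1
    exact h1
  have cp : ∀ x : ℝ, ContinuousOn (fun w => x * w - Z * g w) (Icc c b) :=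
    fun x w hw => (hdp x w hw).continuousAt.continuousWithinAt
  -- the pure exponential integral
  have hEeq : (8 : ℝ) / Real.sqrt (Z / B) = 8 * Real.sqrt B / Real.sqrt Z := by
    rw [Real.sqrt_div hZ.le]
    rw [div_div_eq_mul_div]
  have hE : ∀ x : ℝ, ∀ y ∈ Icc c b, ‖∫ w in c..y, ee (x * w - Z * g w)‖ ≤
      8 * Real.sqrt B / Real.sqrt Z := by
    intro x y hy
    rw [← hEeq]
    refine hV2 c y (Z / B) (fun w => x * w - Z * g w) (fun w => x - Z * g1 w)
      (fun w => - (Z * g2 w)) hy.1 (by positivity) ?_ ?_ ?_ (Or.inr ?_)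
    · intro w hw
      exact hdp x w ⟨hw.1, hw.2.trans hy.2⟩
    · intro w hw
      have h1 := ((hdg1 w ⟨hw.1, hw.2.trans hy.2⟩).const_mul Z).const_sub x
      exact h1
    · exact (ContinuousOn.neg (continuousOn_const.mul cg2)).mono
        (Icc_subset_Icc_right hy.2)
    · intro w hw
      have h1 := (hbd w ⟨hw.1, hw.2.trans hy.2⟩).2.2.2.2.1
      have h2 : Z * (1 / B) ≤ Z * g2 w := mul_le_mul_of_nonneg_left h1 hZ.le
      have h3 : Z * (1 / B) = Z / B := by ring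
      linarith
  intro x Φ w0 hw0 hx hΦ
  have habs1 : ∀ w ∈ Icc c b, |g1 w| ≤ B := fun w hw => (hbd w hw).2.2.2.1
  have habs2 : ∀ w ∈ Icc c b, |g2 w| ≤ B := by
    intro w hw
    have h1 := (hbd w hw).2.2.2.2.1
    have h2 := (hbd w hw).2.2.2.2.2.1
    have h3 : 0 < 1 / B := by positivity
    rw [abs_of_pos (lt_of_lt_of_le h3 h1)]
    exact h2
  have habs3 : ∀ w ∈ Icc c b, |g3 w| ≤ B := fun w hw => (hbd w hw).2.2.2.2.2.2.1
  have habs4 : ∀ w ∈ Icc c b, |g4 w| ≤ B := fun w hw => (hbd w hw).2.2.2.2.2.2.2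
  set q : ℝ → ℝ := fun w => ∫ σ in (0 : ℝ)..1, σ ^ 0 * g2 (w0 + σ * (w - w0)) with hq
  set q1 : ℝ → ℝ := fun w => ∫ σ in (0 : ℝ)..1, σ ^ (0 + 1) * g3 (w0 + σ * (w - w0)) with hq1
  set q2 : ℝ → ℝ := fun w => ∫ σ in (0 : ℝ)..1, σ ^ (0 + 1 + 1) * g4 (w0 + σ * (w - w0)) with hq2
  set r : ℝ → ℝ := fun w => ∫ σ in (0 : ℝ)..1, σ ^ 0 * g1 (w0 + σ * (w - w0)) with hr
  set r1 : ℝ → ℝ := fun w => ∫ σ in (0 : ℝ)..1, σ ^ (0 + 1) * g2 (w0 + σ * (w - w0)) with hr1
  set r2 : ℝ → ℝ := fun w => ∫ σ in (0 : ℝ)..1, σ ^ (0 + 1 + 1) * g3 (w0 + σ * (w - w0)) with hr2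
  have bq : ∀ w ∈ Icc c b, 1 / B ≤ q w :=
    avg_lower hw0 g2 cg2 (fun w hw => (hbd w hw).2.2.2.2.1)
  have bq1 : ∀ w ∈ Icc c b, |q1 w| ≤ B := avg_abs hw0 g3 habs3 _
  have bq2 : ∀ w ∈ Icc c b, |q2 w| ≤ B := avg_abs hw0 g4 habs4 _
  have br : ∀ w ∈ Icc c b, |r w| ≤ B := avg_abs hw0 g1 habs1 _
  have br1 : ∀ w ∈ Icc c b, |r1 w| ≤ B := avg_abs hw0 g2 habs2 _
  have br2 : ∀ w ∈ Icc c b, |r2 w| ≤ B := avg_abs hw0 g3 habs3 _
  have dq : ∀ w ∈ Ioo c b, HasDerivAt q (q1 w) w := avg_deriv hw0 g2 g3 hdg2 cg3 habs3 0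
  have dq1 : ∀ w ∈ Ioo c b, HasDerivAt q1 (q2 w) w := avg_deriv hw0 g3 g4 hdg3 hg4c habs4 (0 + 1)
  have dr : ∀ w ∈ Ioo c b, HasDerivAt r (r1 w) w := avg_deriv hw0 g1 g2 hdg1 cg2 habs2 0
  have dr1 : ∀ w ∈ Ioo c b, HasDerivAt r1 (r2 w) w := avg_deriv hw0 g2 g3 hdg2 cg3 habs3 (0 + 1)
  have cq : ContinuousOn q (Icc c b) := avg_cont hcb' hw0 g2 cg2 0
  have cq1 : ContinuousOn q1 (Icc c b) := avg_cont hcb' hw0 g3 cg3 (0 + 1)
  have cr : ContinuousOn r (Icc c b) := avg_cont hcb' hw0 g1 cg1 0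
  have cr1 : ContinuousOn r1 (Icc c b) := avg_cont hcb' hw0 g2 cg2 (0 + 1)
  have hftc : ∀ w ∈ Icc c b, g1 w - g1 w0 = (w - w0) * q w := avg_ftc hw0 g1 g2 hdg1 cg2
  have hftr : ∀ w ∈ Icc c b, g w - g w0 = (w - w0) * r w := avg_ftc hw0 g g1 hdg cg1
  have qpos : ∀ w ∈ Icc c b, 0 < q w := fun w hw =>
    lt_of_lt_of_le (by positivity) (bq w hw)
  have qne : ∀ w ∈ Icc c b, q w ≠ 0 := fun w hw => (qpos w hw).ne'
  clear_value q q1 q2 r r1 r2
  -- the product `κ r`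
  set ρ : ℝ → ℝ := fun w => κ w * r w with hρ
  set ρ1 : ℝ → ℝ := fun w => κ1 w * r w + κ w * r1 w with hρ1
  set ρ2 : ℝ → ℝ := fun w => κ2 w * r w + 2 * (κ1 w * r1 w) + κ w * r2 w with hρ2
  have dρ : ∀ w ∈ Ioo c b, HasDerivAt ρ (ρ1 w) w := by
    intro w hw
    exact (hdκ w (Ioo_subset_Icc_self hw)).mul (dr w hw)
  have dρ1 : ∀ w ∈ Ioo c b, HasDerivAt ρ1 (ρ2 w) w := by
    intro w hw
    have h1 := ((hdκ1 w (Ioo_subset_Icc_self hw)).mul (dr w hw)).add
      ((hdκ w (Ioo_subset_Icc_self hw)).mul (dr1 w hw))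
    refine HasDerivAt.congr_deriv (f' := _) h1 ?_
    simp only [hρ2]
    ring
  have cρ : ContinuousOn ρ (Icc c b) := cκ.mul cr
  have cρ1 : ContinuousOn ρ1 (Icc c b) := (cκ1.mul cr).add (cκ.mul cr1)
  have bρ : ∀ w ∈ Icc c b, |ρ w| ≤ B ^ 2 := by
    intro w hw
    obtain ⟨b0, b1, b2, -⟩ := hbd w hw
    have p := br w hw
    simp only [hρ]
    rw [abs_mul, pow_two]
    gcongr
  have bρ1 : ∀ w ∈ Icc c b, |ρ1 w| ≤ 2 * B ^ 2 := by
    intro w hw
    obtain ⟨b0, b1, b2, -⟩ := hbd w hw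
    have p := br w hw
    have p1 := br1 w hw
    have t1 : |κ1 w * r w| ≤ B * B := by rw [abs_mul]; gcongr
    have t2 : |κ w * r1 w| ≤ B * B := by rw [abs_mul]; gcongr
    simp only [hρ1]
    have := abs_add_le (κ1 w * r w) (κ w * r1 w)
    nlinarith
  have bρ2 : ∀ w ∈ Icc c b, |ρ2 w| ≤ 4 * B ^ 2 := by
    intro w hw
    obtain ⟨b0, b1, b2, -⟩ := hbd w hw
    have p := br w hw
    have p1 := br1 w hw
    have p2 := br2 w hw
    have t1 : |κ2 w * r w| ≤ B * B := by rw [abs_mul]; gcongr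
    have t2 : |κ1 w * r1 w| ≤ B * B := by rw [abs_mul]; gcongr
    have t3 : |κ w * r2 w| ≤ B * B := by rw [abs_mul]; gcongr
    simp only [hρ2]
    obtain ⟨a1, a2⟩ := abs_le.1 t1
    obtain ⟨a3, a4⟩ := abs_le.1 t2
    obtain ⟨a5, a6⟩ := abs_le.1 t3
    rw [abs_le]
    constructor <;> nlinarith
  have hρb : ρ b = 0 := by simp [hρ, hκb]
  have hρc : ρ c = 0 := by simp [hρ, hκc]
  have hρ1b : ρ1 b = 0 := by simp [hρ1, hκb, hκ1b]
  clear_value ρ1 ρ2
  set u : ℝ → ℝ := fun w => ρ w / q w with hu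
  set u1 : ℝ → ℝ := fun w => ρ1 w / q w - ρ w * q1 w / q w ^ 2 with hu1
  set u2 : ℝ → ℝ := fun w => ρ2 w / q w - 2 * ρ1 w * q1 w / q w ^ 2 - ρ w * q2 w / q w ^ 2 +
    2 * ρ w * q1 w ^ 2 / q w ^ 3 with hu2
  have cu : ContinuousOn u (Icc c b) := cρ.div cq qne
  have cu1 : ContinuousOn u1 (Icc c b) :=
    (cρ1.div cq qne).sub ((cρ.mul cq1).div (cq.pow 2) (fun w hw => pow_ne_zero 2 (qne w hw)))
  have du : ∀ w ∈ Ioo c b, HasDerivAt u (u1 w) w := by
    intro w hw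
    have hw' := Ioo_subset_Icc_self hw
    have h1 := (dρ w hw).div (dq w hw) (qne w hw')
    have h2 : u1 w = (ρ1 w * q w - ρ w * q1 w) / q w ^ 2 := by
      have := qne w hw'
      simp only [hu1]
      field_simp
    rw [h2]
    exact h1
  have du1 : ∀ w ∈ Ioo c b, HasDerivAt u1 (u2 w) w := by
    intro w hw
    have hw' := Ioo_subset_Icc_self hw
    have h1 := (dρ1 w hw).div (dq w hw) (qne w hw')
    have h2 := ((dρ w hw).mul (dq1 w hw)).div ((dq w hw).pow 2) (pow_ne_zero 2 (qne w hw'))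
    have h3 := h1.sub h2
    refine HasDerivAt.congr_deriv (f' := _) h3 ?_
    have := qne w hw'
    simp only [hu2, Pi.pow_apply, Pi.mul_apply]
    field_simp
    push_cast
    ring
  have bu2 : ∀ w ∈ Icc c b, |u2 w| ≤ 11 * B ^ 7 := by
    intro w hw
    have b0 := bρ w hw
    have b1 := bρ1 w hw
    have b2 := bρ2 w hw
    have p1 := bq1 w hw
    have p2 := bq2 w hw
    have p0 := qpos w hw
    have pinv : (q w)⁻¹ ≤ B := by
      have := bq w hw
      rw [inv_le_comm₀ p0 hB0]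
      simpa using this
    have pinv0 : 0 ≤ (q w)⁻¹ := by positivity
    have e : u2 w = ρ2 w * (q w)⁻¹ - 2 * ρ1 w * q1 w * (q w)⁻¹ ^ 2 - ρ w * q2 w * (q w)⁻¹ ^ 2 +
        2 * ρ w * q1 w ^ 2 * (q w)⁻¹ ^ 3 := by
      simp only [hu2]
      field_simp
    have t1 : |ρ2 w * (q w)⁻¹| ≤ 4 * B ^ 2 * B := by
      rw [abs_mul, abs_of_nonneg pinv0]
      gcongr
    have t2 : |2 * ρ1 w * q1 w * (q w)⁻¹ ^ 2| ≤ 2 * (2 * B ^ 2) * B * B ^ 2 := by
      rw [abs_mul, abs_mul, abs_mul, abs_of_pos (zero_lt_two' ℝ),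
        abs_of_nonneg (pow_nonneg pinv0 2)]
      gcongr
    have t3 : |ρ w * q2 w * (q w)⁻¹ ^ 2| ≤ B ^ 2 * B * B ^ 2 := by
      rw [abs_mul, abs_mul, abs_of_nonneg (pow_nonneg pinv0 2)]
      gcongr
    have t4 : |2 * ρ w * q1 w ^ 2 * (q w)⁻¹ ^ 3| ≤ 2 * B ^ 2 * B ^ 2 * B ^ 3 := by
      rw [abs_mul, abs_mul, abs_mul, abs_of_pos (zero_lt_two' ℝ),
        abs_of_nonneg (pow_nonneg pinv0 3), abs_pow]
      gcongr
    have k1 : B ^ 3 ≤ B ^ 7 := pow_le_pow_right₀ hB (by norm_num)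
    have k2 : B ^ 5 ≤ B ^ 7 := pow_le_pow_right₀ hB (by norm_num)
    have k3 : 4 * B ^ 2 * B = 4 * B ^ 3 := by ring
    have k4 : 2 * (2 * B ^ 2) * B * B ^ 2 = 4 * B ^ 5 := by ring
    have k5 : B ^ 2 * B * B ^ 2 = B ^ 5 := by ring
    have k6 : 2 * B ^ 2 * B ^ 2 * B ^ 3 = 2 * B ^ 7 := by ring
    rw [k3] at t1
    rw [k4] at t2
    rw [k5] at t3
    rw [k6] at t4
    obtain ⟨a1, a2⟩ := abs_le.1 t1
    obtain ⟨a3, a4⟩ := abs_le.1 t2
    obtain ⟨a5, a6⟩ := abs_le.1 t3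
    obtain ⟨a7, a8⟩ := abs_le.1 t4
    rw [e, abs_le]
    constructor <;> linarith
  -- the derivative
  have hI := I_deriv2 hcb' κ g cκ cg x Z
  have hEΦ : HasDerivAt (fun t => ee (-(Φ t)))
      (((2 * Real.pi * (-(-(g w0))) : ℝ) : ℂ) * Complex.I * ee (-(Φ Z))) Z := hasDerivAt_ee hΦ.neg
  have hA := hEΦ.mul hI
  refine ⟨_, hA, ?_⟩
  have hR := hVp c b (8 * Real.sqrt B / Real.sqrt Z) (11 * B ^ 7) (fun w => (u1 w : ℂ))
    (fun w => x * w - Z * g w) hcb' (by positivity)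
    (Complex.continuous_ofReal.comp_continuousOn cu1)
    (by
      intro w hw
      have h2 := (du1 w hw).ofReal_comp
      refine ⟨h2.differentiableAt, ?_⟩
      rw [h2.deriv, Complex.norm_real, Real.norm_eq_abs]
      exact bu2 w (Ioo_subset_Icc_self hw))
    (cp x) (hE x)
  have hub : u b = 0 := by simp [hu, hρb]
  have huc : u c = 0 := by simp [hu, hρc]
  have hu1b : u1 b = 0 := by simp [hu1, hρb, hρ1b]
  simp only [hu1b, Complex.ofReal_zero, norm_zero, zero_add] at hR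
  -- integration by parts
  have cee : ContinuousOn (fun w => ee (x * w - Z * g w)) (Icc c b) :=
    continuous_ee.comp_continuousOn (cp x)
  have cu2' : ContinuousOn (fun w => (u w : ℂ)) (Icc c b) :=
    Complex.continuous_ofReal.comp_continuousOn cu
  have cu1' : ContinuousOn (fun w => (u1 w : ℂ)) (Icc c b) :=
    Complex.continuous_ofReal.comp_continuousOn cu1
  have cv' : ContinuousOn (fun w => ((2 * Real.pi * (x - Z * g1 w) : ℝ) : ℂ) * Complex.I *
      ee (x * w - Z * g w)) (Icc c b) := by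
    refine ContinuousOn.mul (ContinuousOn.mul ?_ continuousOn_const) cee
    refine Complex.continuous_ofReal.comp_continuousOn ?_
    exact continuousOn_const.mul (continuousOn_const.sub (continuousOn_const.mul cg1))
  have hparts := intervalIntegral.integral_mul_deriv_eq_deriv_mul_of_hasDeriv_right
    (a := c) (b := b) (u := fun w => (u w : ℂ)) (u' := fun w => (u1 w : ℂ))
    (v := fun w => ee (x * w - Z * g w))
    (v' := fun w => ((2 * Real.pi * (x - Z * g1 w) : ℝ) : ℂ) * Complex.I *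
      ee (x * w - Z * g w))
    (by rw [Set.uIcc_of_le hcb']; exact cu2')
    (by rw [Set.uIcc_of_le hcb']; exact cee)
    (by
      intro w hw
      rw [min_eq_left hcb', max_eq_right hcb'] at hw
      exact (du w hw).ofReal_comp.hasDerivWithinAt)
    (by
      intro w hw
      rw [min_eq_left hcb', max_eq_right hcb'] at hw
      exact (hasDerivAt_ee (hdp x w (Ioo_subset_Icc_self hw))).hasDerivWithinAt)
    (by
      apply ContinuousOn.intervalIntegrable
      rw [Set.uIcc_of_le hcb']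
      exact cu1')
    (by
      apply ContinuousOn.intervalIntegrable
      rw [Set.uIcc_of_le hcb']
      exact cv')
  simp only [hub, huc, Complex.ofReal_zero, zero_mul, sub_zero, zero_sub] at hparts
  -- the two integrands
  have ci1 : IntervalIntegrable (fun w => (κ w : ℂ) *
      (((2 * Real.pi * (-(g w)) : ℝ) : ℂ) * Complex.I * ee (x * w - Z * g w))) volume c b := by
    apply ContinuousOn.intervalIntegrable
    rw [Set.uIcc_of_le hcb']
    refine ContinuousOn.mul (Complex.continuous_ofReal.comp_continuousOn cκ)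
      (ContinuousOn.mul (ContinuousOn.mul ?_ continuousOn_const) cee)
    exact Complex.continuous_ofReal.comp_continuousOn (continuousOn_const.mul cg.neg)
  have ci2 : IntervalIntegrable (fun w => (κ w : ℂ) * ee (x * w - Z * g w)) volume c b := by
    apply ContinuousOn.intervalIntegrable
    rw [Set.uIcc_of_le hcb']
    exact ContinuousOn.mul (Complex.continuous_ofReal.comp_continuousOn cκ) cee
  have hkey : (∫ w in c..b, (κ w : ℂ) *
        (((2 * Real.pi * (-(g w)) : ℝ) : ℂ) * Complex.I * ee (x * w - Z * g w))) +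
      ((2 * Real.pi * (-(-(g w0))) : ℝ) : ℂ) * Complex.I *
        (∫ w in c..b, (κ w : ℂ) * ee (x * w - Z * g w)) =
      ((-(1 / Z) : ℝ) : ℂ) * ∫ w in c..b, (u1 w : ℂ) * ee (x * w - Z * g w) := by
    have e1 : (∫ w in c..b, (u1 w : ℂ) * ee (x * w - Z * g w)) =
        - ∫ w in c..b, (u w : ℂ) * (((2 * Real.pi * (x - Z * g1 w) : ℝ) : ℂ) * Complex.I *
          ee (x * w - Z * g w)) := by
      rw [hparts, neg_neg]
    rw [e1, ← intervalIntegral.integral_const_mul, ← intervalIntegral.integral_add ci1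
      (ci2.const_mul _), ← intervalIntegral.integral_neg, ← intervalIntegral.integral_const_mul]
    apply intervalIntegral.integral_congr
    intro w hw
    rw [Set.uIcc_of_le hcb'] at hw
    have f1 : x - Z * g1 w = - (Z * ((w - w0) * q w)) := by
      rw [← hftc w hw, ← hx]; ring
    have f5 : g w = g w0 + (w - w0) * r w := by
      have := hftr w hw
      linarith
    have f2 := qne w hw
    have f3 : (q w : ℂ) ≠ 0 := by exact_mod_cast f2
    have f4 : (Z : ℂ) ≠ 0 := by exact_mod_cast hZ.ne'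
    simp only [hu, hρ]
    rw [f1]
    generalize hee : ee (x * w - Z * g w) = E
    rw [f5]
    push_cast
    field_simp
    ring
  have hval : (((2 * Real.pi * (-(-(g w0))) : ℝ) : ℂ) * Complex.I * ee (-(Φ Z)) *
        (∫ w in c..b, (κ w : ℂ) * ee (x * w - Z * g w)) +
      ee (-(Φ Z)) * ∫ w in c..b, (κ w : ℂ) *
        (((2 * Real.pi * (-(g w)) : ℝ) : ℂ) * Complex.I * ee (x * w - Z * g w))) =
      ee (-(Φ Z)) * (((-(1 / Z) : ℝ) : ℂ) * ∫ w in c..b, (u1 w : ℂ) * ee (x * w - Z * g w)) := by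
    rw [← hkey]
    ring
  rw [hval, norm_mul, norm_ee, one_mul, norm_mul, Complex.norm_real, Real.norm_eq_abs,
    abs_neg, abs_of_pos (by positivity : (0 : ℝ) < 1 / Z)]
  calc 1 / Z * ‖∫ w in c..b, (u1 w : ℂ) * ee (x * w - Z * g w)‖
      ≤ 1 / Z * (8 * Real.sqrt B / Real.sqrt Z * (11 * B ^ 7 * (b - c))) := by
        gcongr
    _ = (88 * B ^ 7 * Real.sqrt B * (b - c)) / (Z * Real.sqrt Z) := by
        field_simp
        ring
    _ ≤ (1 + 88 * B ^ 7 * Real.sqrt B * (b - c)) / (Z * Real.sqrt Z) := by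
        apply div_le_div_of_nonneg_right _ (by positivity)
        linarith

end Pool.Agent.Work.MP_56b8f5_nt.UT
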