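import Pool.Agent.Work.MP_56b8f5_nt.UT.Stmts
import Pool.Agent.Work.MP_56b8f5_nt.UB.I_AM

/-!
MP_56b8f5_nt, block UT, item AX: amplitude of `JX` in the variable `y`.
-/

open MeasureTheory Set Filter Topology

noncomputable section

namespace Pool.Agent.Work.MP_56b8f5_nt.UT

open Pool.Agent.Work.MP_56b8f5_nt.UB

namespace AX_aux

open Pool.Agent.Work.MP_56b8f5_nt.UB.AM_aux

section fixed

variable {l0 : ℝ}

/-- elementary bounds on `[3/10, 67/10]` -/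
lemma bnds2 {w : ℝ} (h : 0 < l0) (h4 : l0 ≤ 1 / 4) (hw1 : 3 / 10 ≤ w) (hw2 : w ≤ 67 / 10) :
    |m0 l0 w| ≤ 4 ∧ |m1 l0 w| ≤ 32 ∧ |m2 l0 w| ≤ 192 ∧ |g1 l0 w| ≤ 16 ∧ 1 / 600 ≤ g2 l0 w ∧
      g2 l0 w ≤ 256 ∧ |g3 l0 w| ≤ 2560 ∧ |g4 l0 w| ≤ 65536 := by
  have hw : 0 < w := by linarith
  have hs := sinh_pos' h hw
  have hu0 : 0 < l0 * w / 2 := by positivity
  have hu1 : l0 * w / 2 ≤ 1 := by nlinarith
  have hS1 := le_sinh hu0.le
  have hS2 := sinh_le hu0.le hu1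
  have hD1 := Real.one_le_cosh (l0 * w / 2)
  have hD2 := cosh_le hu0.le hu1
  have hS3 : Real.sinh (l0 * w / 2) ≤ 3 / 2 := by nlinarith
  unfold m0 m1 m2 g1 g2 g3 g4
  set S := Real.sinh (l0 * w / 2)
  set D := Real.cosh (l0 * w / 2)
  have hl : l0 ≤ 7 * S := by nlinarith
  have hl2 : l0 ^ 2 ≤ (7 * S) ^ 2 := pow_le_pow_left₀ h.le hl 2
  have hl3 : l0 ^ 3 ≤ (7 * S) ^ 3 := pow_le_pow_left₀ h.le hl 3
  have hl4 : l0 ^ 4 ≤ (7 * S) ^ 4 := pow_le_pow_left₀ h.le hl 4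
  have hl5 : l0 ^ 5 ≤ (7 * S) ^ 5 := pow_le_pow_left₀ h.le hl 5
  have hSl : S ≤ 201 / 40 * l0 := by nlinarith
  have hSl3 : S ^ 3 ≤ (201 / 40 * l0) ^ 3 := pow_le_pow_left₀ hs.le hSl 3
  have hSS : S ^ 2 ≤ 9 / 4 := by nlinarith
  refine ⟨?_, ?_, ?_, ?_, ?_, ?_, ?_, ?_⟩
  · rw [abs_of_nonneg (by positivity), div_le_iff₀ (by positivity)]
    linarith
  · rw [abs_div, abs_mul, abs_neg, abs_of_nonneg (by positivity : 0 ≤ l0 ^ 2 / 4),
      abs_of_nonneg (by positivity : 0 ≤ S ^ 2), abs_of_nonneg (by positivity : 0 ≤ D),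
      div_le_iff₀ (by positivity)]
    nlinarith [mul_le_mul hl2 hD2 (by positivity) (by positivity)]
  · rw [abs_of_nonneg (by positivity), div_le_iff₀ (by positivity)]
    have h5 : (2 + S ^ 2) ≤ 17 / 4 := by linarith
    nlinarith [mul_le_mul hl3 h5 (by positivity) (by positivity), pow_pos hs 3]
  · rw [abs_div, abs_neg, abs_of_nonneg (by positivity : 0 ≤ l0 ^ 2 / 4),
      abs_of_nonneg (by positivity : 0 ≤ S ^ 2), div_le_iff₀ (by positivity)]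
    nlinarith [pow_pos hs 2]
  · rw [le_div_iff₀ (by positivity)]
    have h6 : l0 ^ 3 * 1 ≤ l0 ^ 3 * D := by gcongr
    nlinarith [pow_pos h 3]
  · rw [div_le_iff₀ (by positivity)]
    nlinarith [mul_le_mul hl3 hD2 (by positivity) (by positivity), pow_pos hs 3]
  · rw [abs_div, abs_mul, abs_neg, abs_of_nonneg (by positivity : 0 ≤ l0 ^ 4 / 8),
      abs_of_nonneg (by positivity : 0 ≤ S ^ 4), abs_of_nonneg (by positivity : 0 ≤ 3 + 2 * S ^ 2),
      div_le_iff₀ (by positivity)]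
    have h5 : (3 + 2 * S ^ 2) ≤ 15 / 2 := by linarith
    nlinarith [mul_le_mul hl4 h5 (by positivity) (by positivity), pow_pos hs 4]
  · rw [abs_of_nonneg (by positivity), div_le_iff₀ (by positivity)]
    have h5 : (S ^ 2 + 3) * D ≤ 21 / 4 * 2 :=
      mul_le_mul (by linarith) hD2 (by positivity) (by norm_num)
    nlinarith [mul_le_mul hl5 h5 (by positivity) (by positivity), pow_pos hs 5]

lemma sub_Icc {w : ℝ} (hw : w ∈ Icc (3 / 10 : ℝ) (67 / 10)) : 0 < w := by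
  linarith [hw.1]

lemma cont2_g4 (h : 0 < l0) : ContinuousOn (g4 l0) (Icc (3 / 10) (67 / 10)) := by
  unfold g4
  refine ContinuousOn.div ?_ ?_ ?_
  · fun_prop
  · fun_prop
  · intro w hw
    exact pow_ne_zero _ (sinh_pos' h (sub_Icc hw)).ne'

lemma cont2_m0 (h : 0 < l0) : ContinuousOn (m0 l0) (Icc (3 / 10) (67 / 10)) := by
  unfold m0
  refine ContinuousOn.div ?_ ?_ ?_
  · fun_prop
  · fun_prop
  · intro w hw
    have := (sinh_pos' h (sub_Icc hw) : 0 < Real.sinh (l0 * w / 2))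
    positivity

lemma cont2_m1 (h : 0 < l0) : ContinuousOn (m1 l0) (Icc (3 / 10) (67 / 10)) := by
  unfold m1
  refine ContinuousOn.div ?_ ?_ ?_
  · fun_prop
  · fun_prop
  · intro w hw
    exact pow_ne_zero _ (sinh_pos' h (sub_Icc hw)).ne'

lemma cont2_m2 (h : 0 < l0) : ContinuousOn (m2 l0) (Icc (3 / 10) (67 / 10)) := by
  unfold m2
  refine ContinuousOn.div ?_ ?_ ?_
  · fun_prop
  · fun_prop
  · intro w hw
    exact pow_ne_zero _ (sinh_pos' h (sub_Icc hw)).ne'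

end fixed

lemma ch2_cd : ContDiff ℝ ((⊤ : ℕ∞) : WithTop ℕ∞) ch2 := ch2B.contDiff

lemma ch2_zero {w : ℝ} (h : w ≤ 3 / 10 ∨ 67 / 10 ≤ w) : ch2 w = 0 := by
  refine ch2B.zero_of_le_dist ?_
  show (32 / 10 : ℝ) ≤ dist w (7 / 2)
  rw [Real.dist_eq]
  rcases h with h | h
  · rw [abs_of_nonpos (by linarith)]; linarith
  · rw [abs_of_nonneg (by linarith)]; linarith

lemma ch2_nonneg (w : ℝ) : 0 ≤ ch2 w := ch2B.nonneg

lemma ch21_zero {w : ℝ} (h : w ≤ 3 / 10 ∨ 67 / 10 ≤ w) : deriv ch2 w = 0 := by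
  apply IsLocalMin.deriv_eq_zero
  refine Filter.Eventually.of_forall fun y => ?_
  rw [ch2_zero h]
  exact ch2_nonneg y

/-- the amplitude without the factor `m0` -/
def B0 (Θ : ℝ → ℝ) (q w : ℝ) : ℝ := ch2 w * Θ (q * w)
def B1 (Θ : ℝ → ℝ) (q w : ℝ) : ℝ := deriv ch2 w * Θ (q * w) + ch2 w * (deriv Θ (q * w) * q)
def B2 (Θ : ℝ → ℝ) (q w : ℝ) : ℝ :=
  deriv (deriv ch2) w * Θ (q * w) + deriv ch2 w * (deriv Θ (q * w) * q) +
    (deriv ch2 w * (deriv Θ (q * w) * q) + ch2 w * (deriv (deriv Θ) (q * w) * q * q))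

lemma hB0 {Θ : ℝ → ℝ} (hΘ : ContDiff ℝ ((⊤ : ℕ∞) : WithTop ℕ∞) Θ) (q w : ℝ) :
    HasDerivAt (B0 Θ q) (B1 Θ q w) w :=
  ((smooth_facts ch2_cd).1 w).mul (hasDeriv_comp q w ((smooth_facts hΘ).1 _))

lemma hB1 {Θ : ℝ → ℝ} (hΘ : ContDiff ℝ ((⊤ : ℕ∞) : WithTop ℕ∞) Θ) (q w : ℝ) :
    HasDerivAt (B1 Θ q) (B2 Θ q w) w :=
  (((smooth_facts ch2_cd).2.1 w).mul (hasDeriv_comp q w ((smooth_facts hΘ).1 _))).add
    (((smooth_facts ch2_cd).1 w).mul
      ((hasDeriv_comp q w ((smooth_facts hΘ).2.1 _)).mul_const q))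

lemma cB {Θ : ℝ → ℝ} (hΘ : ContDiff ℝ ((⊤ : ℕ∞) : WithTop ℕ∞) Θ) (q : ℝ) :
    Continuous (B0 Θ q) ∧ Continuous (B1 Θ q) ∧ Continuous (B2 Θ q) := by
  obtain ⟨-, -, c0, c1, c2⟩ := smooth_facts ch2_cd
  obtain ⟨-, -, d0, d1, d2⟩ := smooth_facts hΘ
  refine ⟨?_, ?_, ?_⟩
  · unfold B0; fun_prop
  · unfold B1; fun_prop
  · unfold B2; fun_prop

lemma bnd_exists2 {Θ : ℝ → ℝ} (hΘ : ContDiff ℝ ((⊤ : ℕ∞) : WithTop ℕ∞) Θ) (C' : ℝ) :
    ∃ D : ℝ, 1 ≤ D ∧ ∀ q w : ℝ, 0 ≤ q → q ≤ C' → w ∈ Icc (3 / 10 : ℝ) (67 / 10) →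
      |B0 Θ q w| ≤ D ∧ |B1 Θ q w| ≤ D ∧ |B2 Θ q w| ≤ D := by
  obtain ⟨-, -, c0, c1, c2⟩ := smooth_facts ch2_cd
  obtain ⟨-, -, d0, d1, d2⟩ := smooth_facts hΘ
  have key : ∀ F : ℝ × ℝ → ℝ, Continuous F → ∃ D : ℝ, ∀ z ∈ Icc (0 : ℝ) C' ×ˢ Icc (3 / 10 : ℝ) (67 / 10),
      ‖F z‖ ≤ D := fun F hF =>
    (isCompact_Icc.prod isCompact_Icc).exists_bound_of_continuousOn hF.continuousOn
  obtain ⟨D0, h0⟩ := key (fun z => B0 Θ z.1 z.2) (by unfold B0; fun_prop)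
  obtain ⟨D1, h1⟩ := key (fun z => B1 Θ z.1 z.2) (by unfold B1; fun_prop)
  obtain ⟨D2, h2⟩ := key (fun z => B2 Θ z.1 z.2) (by unfold B2; fun_prop)
  refine ⟨max 1 (max D0 (max D1 D2)), le_max_left _ _, fun q w hq0 hq1 hw => ⟨?_, ?_, ?_⟩⟩
  · exact (h0 (q, w) ⟨⟨hq0, hq1⟩, hw⟩).trans (by simp)
  · exact (h1 (q, w) ⟨⟨hq0, hq1⟩, hw⟩).trans (by simp)
  · exact (h2 (q, w) ⟨⟨hq0, hq1⟩, hw⟩).trans (by simp)

/-- the amplitude -/
def kb (Θ : ℝ → ℝ) (q l0 w : ℝ) : ℝ := B0 Θ q w * m0 l0 w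
def kb1 (Θ : ℝ → ℝ) (q l0 w : ℝ) : ℝ := B1 Θ q w * m0 l0 w + B0 Θ q w * m1 l0 w
def kb2 (Θ : ℝ → ℝ) (q l0 w : ℝ) : ℝ :=
  B2 Θ q w * m0 l0 w + B1 Θ q w * m1 l0 w + (B1 Θ q w * m1 l0 w + B0 Θ q w * m2 l0 w)

/-- The normal form of `JX`. -/
lemma JX_eq (Θ : ℝ → ℝ) (T G N y s : ℝ) (hT : 0 < T) (hN : 0 < N) :
    JX Θ T G N y s = (starRingEnd ℂ) (∫ w in (3 / 10 : ℝ)..(67 / 10),
      (kb Θ (G * Real.sqrt (N / T)) (Real.sqrt (N / T)) w : ℂ) *
        ee ((-(s * Real.sqrt (N / T))) * w - y / Real.sqrt (N / T) * g (Real.sqrt (N / T)) w)) := by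
  set l0 := Real.sqrt (N / T) with hl0
  have hl : 0 < l0 := Real.sqrt_pos.mpr (by positivity)
  rw [intervalIntegral.integral_of_le (by norm_num), ← integral_conj]
  unfold JX
  rw [← hl0]
  set F : ℝ → ℂ := fun l => ((ch2 (l / l0) * Θ (G * l) / (2 * Real.sinh (l / 2)) : ℝ) : ℂ) *
      ee (s * l + y / 2 * cth l) with hF
  have h1 := MeasureTheory.integral_comp_mul_left_Ioi F 0 hl
  rw [mul_zero] at h1
  have h2 : ∫ l in Ioi (0 : ℝ), F l = (l0 : ℂ) * ∫ w in Ioi (0 : ℝ), F (l0 * w) := by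
    rw [h1, Complex.real_smul, ← mul_assoc]
    push_cast
    rw [mul_inv_cancel₀ (by exact_mod_cast hl.ne'), one_mul]
  rw [h2]
  have h3 : ∫ w in Ioi (0 : ℝ), F (l0 * w) = ∫ w in Ioc (3 / 10 : ℝ) (67 / 10), F (l0 * w) := by
    refine setIntegral_eq_of_subset_of_forall_sdiff_eq_zero measurableSet_Ioi ?_ ?_
    · intro w hw
      exact lt_trans (by norm_num) hw.1
    · intro w hw
      have hc : ch2 (l0 * w / l0) = 0 := by
        rw [mul_div_cancel_left₀ _ hl.ne']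
        apply ch2_zero
        by_contra hcon
        rw [not_or, not_le, not_le] at hcon
        exact hw.2 ⟨hcon.1, hcon.2.le⟩
      simp [hF, hc]
  rw [h3, ← integral_const_mul]
  refine setIntegral_congr_fun measurableSet_Ioc fun w hw => ?_
  have hw0 : 0 < w := lt_trans (by norm_num) hw.1
  simp only [hF]
  rw [map_mul, conj_ee, Complex.conj_ofReal, ← mul_assoc]
  congr 1
  · rw [mul_div_cancel_left₀ _ hl.ne']
    unfold kb B0 m0
    rw [← mul_assoc G]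
    push_cast
    ring
  · congr 1
    unfold g
    have : y / l0 * (l0 / 2 * cth (l0 * w)) = y / 2 * cth (l0 * w) := by
      field_simp
    rw [this]
    ring

/-- `coth(ls/2) = √(1 + 4s/n)` -/
lemma cth_ls (n s : ℝ) (hn : 0 < n) (hs : 0 < s) : cth (ls n s) = Real.sqrt (1 + 4 * s / n) := by
  have hz : 0 < Real.sqrt n / (2 * Real.sqrt s) := by positivity
  unfold cth ls
  rw [mul_div_cancel_left₀ _ (by norm_num : (2 : ℝ) ≠ 0), Real.sinh_arsinh, Real.cosh_arsinh]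
  rw [eq_comm, Real.sqrt_eq_iff_mul_self_eq (by positivity) (by positivity)]
  have hq : (Real.sqrt n / (2 * Real.sqrt s)) ^ 2 = n / (4 * s) := by
    rw [div_pow, mul_pow, Real.sq_sqrt hn.le, Real.sq_sqrt hs.le]; ring
  rw [div_mul_div_comm, Real.mul_self_sqrt (by positivity), ← pow_two, hq]
  field_simp
  ring

end AX_aux

open AX_aux Pool.Agent.Work.MP_56b8f5_nt.UB.AM_aux in
theorem iAX (hAL : UB.StAL) (hAL2 : StAL2) (hFn : StFn) : StAX := by
  intro φ Θ hφ C' hC'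
  obtain ⟨D, hD1, hD⟩ := bnd_exists2 hφ.smooth C'
  obtain ⟨CA, hCA1, hCA⟩ := hAL (3 / 10) (67 / 10) (65536 + 260 * D) (by norm_num) (by norm_num)
    (by linarith)
  obtain ⟨CB, hCB1, hCB⟩ := hAL2 (3 / 10) (67 / 10) (65536 + 260 * D) (by norm_num) (by norm_num)
    (by linarith)
  refine ⟨CA + CB + 4 * C' + 2, by linarith, ?_⟩
  intro T G N s y hT hG hGT hs hN hNy hyN hNC
  have hT0 : 0 < T := by linarith
  have hG0 : 0 < G := by linarith
  have hG4 : 4 * C' ≤ G := by linarith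
  have hN0 : (0 : ℝ) < N := by linarith
  have hy0 : (0 : ℝ) < y := by linarith
  have hpi := Real.pi_pos
  have hs0 : 0 < s := lt_of_lt_of_le (by positivity) hs.1
  set l0 := Real.sqrt (N / T) with hl0
  have hl : 0 < l0 := Real.sqrt_pos.mpr (by positivity)
  have hlsq : l0 ^ 2 = N / T := Real.sq_sqrt (by positivity)
  set Z := y / l0 with hZ
  have hZ0 : 0 < Z := by positivity
  have hZl : Z * l0 = y := by rw [hZ]; field_simp
  have hNZ : Real.sqrt (N * T) ≤ Z := by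
    rw [hZ, le_div_iff₀ hl, hl0, ← Real.sqrt_mul (by positivity)]
    have : N * T * (N / T) = N ^ 2 := by field_simp
    rw [this, Real.sqrt_sq hN0.le]
    exact hNy
  have hNT0 : 0 < Real.sqrt (N * T) := Real.sqrt_pos.mpr (by positivity)
  have hsNT0 : 0 < Real.sqrt (Real.sqrt (N * T)) := Real.sqrt_pos.mpr hNT0
  have hsZ : Real.sqrt (Real.sqrt (N * T)) ≤ Real.sqrt Z := Real.sqrt_le_sqrt hNZ
  have hGl : (G * l0) ^ 2 ≤ C' := by
    rw [mul_pow, hlsq]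
    rw [le_div_iff₀ (by positivity)] at hNC
    rw [← mul_div_assoc, div_le_iff₀ hT0]
    nlinarith [mul_pos hN0 (pow_pos hG0 2)]
  have hGl0 : 0 ≤ G * l0 := by positivity
  have hGl1 : G * l0 ≤ C' := by
    by_contra hcon
    push Not at hcon
    have : C' * C' < (G * l0) ^ 2 := by nlinarith
    nlinarith
  have hl4 : l0 ≤ 1 / 4 := by
    have h1 : 4 * C' * l0 ≤ C' := (mul_le_mul_of_nonneg_right hG4 hl.le).trans hGl1
    nlinarith
  set q := G * l0 with hq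
  have hder : ∀ w ∈ Icc (3 / 10 : ℝ) (67 / 10), HasDerivAt (kb Θ q l0) (kb1 Θ q l0 w) w ∧
      HasDerivAt (kb1 Θ q l0) (kb2 Θ q l0 w) w ∧ HasDerivAt (g l0) (g1 l0 w) w ∧
      HasDerivAt (g1 l0) (g2 l0 w) w ∧ HasDerivAt (g2 l0) (g3 l0 w) w ∧
      HasDerivAt (g3 l0) (g4 l0 w) w := by
    intro w hw
    have hw0 : 0 < w := sub_Icc hw
    exact ⟨(hB0 hφ.smooth q w).mul (hm0 hl hw0),
      ((hB1 hφ.smooth q w).mul (hm0 hl hw0)).add ((hB0 hφ.smooth q w).mul (hm1 hl hw0)),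
      hg hl hw0, hg1 hl hw0, hg2 hl hw0, hg3 hl hw0⟩
  have hck2 : ContinuousOn (kb2 Θ q l0) (Icc (3 / 10) (67 / 10)) := by
    obtain ⟨c0, c1, c2⟩ := cB hφ.smooth q
    unfold kb2
    exact ((c2.continuousOn.mul (cont2_m0 hl)).add (c1.continuousOn.mul (cont2_m1 hl))).add
      ((c1.continuousOn.mul (cont2_m1 hl)).add (c0.continuousOn.mul (cont2_m2 hl)))
  have hk0c : kb Θ q l0 (3 / 10) = 0 := by
    have h1 := ch2_zero (w := 3 / 10) (Or.inl le_rfl)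
    simp only [kb, B0, h1]
    ring
  have hk0b : kb Θ q l0 (67 / 10) = 0 := by
    have h1 := ch2_zero (w := 67 / 10) (Or.inr le_rfl)
    simp only [kb, B0, h1]
    ring
  have hk1c : kb1 Θ q l0 (3 / 10) = 0 := by
    have h1 := ch2_zero (w := 3 / 10) (Or.inl le_rfl)
    have h2 := ch21_zero (w := 3 / 10) (Or.inl le_rfl)
    simp only [kb1, B1, B0, h1, h2]
    ring
  have hk1b : kb1 Θ q l0 (67 / 10) = 0 := by
    have h1 := ch2_zero (w := 67 / 10) (Or.inr le_rfl)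
    have h2 := ch21_zero (w := 67 / 10) (Or.inr le_rfl)
    simp only [kb1, B1, B0, h1, h2]
    ring
  have hB : ∀ w ∈ Icc (3 / 10 : ℝ) (67 / 10), |kb Θ q l0 w| ≤ 65536 + 260 * D ∧
      |kb1 Θ q l0 w| ≤ 65536 + 260 * D ∧ |kb2 Θ q l0 w| ≤ 65536 + 260 * D ∧
      |g1 l0 w| ≤ 65536 + 260 * D ∧ 1 / (65536 + 260 * D) ≤ g2 l0 w ∧
      g2 l0 w ≤ 65536 + 260 * D ∧ |g3 l0 w| ≤ 65536 + 260 * D ∧
      |g4 l0 w| ≤ 65536 + 260 * D := by
    intro w hw
    obtain ⟨a0, a1, a2⟩ := hD q w hGl0 hGl1 hw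
    obtain ⟨b0, b1, b2, b3, b4, b5, b6, b7⟩ := bnds2 hl hl4 hw.1 hw.2
    have hmul : ∀ {u v a b : ℝ}, |u| ≤ a → |v| ≤ b → |u * v| ≤ a * b := by
      intro u v a b h1 h2
      rw [abs_mul]
      exact mul_le_mul h1 h2 (abs_nonneg _) ((abs_nonneg _).trans h1)
    refine ⟨?_, ?_, ?_, ?_, ?_, ?_, ?_, ?_⟩
    · have := hmul a0 b0
      unfold kb
      linarith
    · have h1 := hmul a1 b0
      have h2 := hmul a0 b1
      have h3 := abs_add_le (B1 Θ q w * m0 l0 w) (B0 Θ q w * m1 l0 w)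
      unfold kb1
      linarith
    · have h1 := hmul a2 b0
      have h2 := hmul a1 b1
      have h3 := hmul a0 b2
      have h4 := abs_add_le (B2 Θ q w * m0 l0 w) (B1 Θ q w * m1 l0 w)
      have h5 := abs_add_le (B1 Θ q w * m1 l0 w) (B0 Θ q w * m2 l0 w)
      have h6 := abs_add_le (B2 Θ q w * m0 l0 w + B1 Θ q w * m1 l0 w)
        (B1 Θ q w * m1 l0 w + B0 Θ q w * m2 l0 w)
      unfold kb2
      linarith
    · linarith
    · refine le_trans ?_ b4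
      rw [div_le_div_iff₀ (by linarith) (by norm_num)]
      linarith
    · linarith
    · linarith
    · linarith
  have hkey := hCA (kb Θ q l0) (kb1 Θ q l0) (kb2 Θ q l0) (g l0) (g1 l0) (g2 l0) (g3 l0) (g4 l0) Z hZ0
    hder hck2 (cont2_g4 hl) hk0c hk0b hk1c hk1b
    (fun w hw => ⟨(hB w hw).1, (hB w hw).2.1, (hB w hw).2.2.1, (hB w hw).2.2.2.2.1,
      (hB w hw).2.2.2.2.2.2.1, (hB w hw).2.2.2.2.2.2.2⟩)
  have hkey2 := hCB (kb Θ q l0) (kb1 Θ q l0) (kb2 Θ q l0) (g l0) (g1 l0) (g2 l0) (g3 l0) (g4 l0) Z hZ0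
    hder hck2 (cont2_g4 hl) hk0c hk0b hk1c hk1b hB
  have hJ : ∀ t : ℝ, JX Θ T G N t s = (starRingEnd ℂ) (∫ w in (3 / 10 : ℝ)..(67 / 10),
      (kb Θ q l0 w : ℂ) * ee ((-(s * l0)) * w - t / l0 * g l0 w)) := fun t =>
    JX_eq Θ T G N t s hT0 hN0
  have hsq0 : 0 < Real.sqrt Z := Real.sqrt_pos.mpr hZ0
  refine ⟨?_, ?_⟩
  · rw [hJ y, RCLike.norm_conj, ← hZ]
    refine (hkey.1 _).trans ?_
    exact div_le_div₀ (by linarith) (by linarith) hsNT0 hsZ
  · set w0 := ls y s / l0 with hw0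
    have hlw : l0 * w0 = ls y s := by rw [hw0, mul_div_cancel₀ _ hl.ne']
    have hz0 : 0 < Real.sqrt y / (2 * Real.sqrt s) := by positivity
    have hsh : Real.sinh (l0 * w0 / 2) = Real.sqrt y / (2 * Real.sqrt s) := by
      rw [hlw]
      unfold ls
      rw [mul_div_cancel_left₀ _ (by norm_num : (2 : ℝ) ≠ 0), Real.sinh_arsinh]
    have hrel : Real.sqrt y / (2 * Real.sqrt s) =
        l0 / 2 * (Real.sqrt (y / N) * Real.sqrt (T / s)) := by
      rw [hl0, Real.sqrt_div hN0.le, Real.sqrt_div hT0.le, Real.sqrt_div hy0.le]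
      have := Real.sqrt_pos.mpr hT0
      have := Real.sqrt_pos.mpr hN0
      field_simp
    have hTs1 : T / s ≤ 4 * Real.pi := by
      rw [div_le_iff₀ hs0]
      have := hs.1
      rw [div_le_iff₀ (by positivity)] at this
      linarith
    have hTs2 : 1 ≤ T / s := by
      rw [le_div_iff₀ hs0]
      have := hs.2
      rw [le_div_iff₀ hpi] at this
      nlinarith [Real.pi_gt_three]
    have hr1 : Real.sqrt (T / s) ≤ 4 := by
      rw [Real.sqrt_le_left (by norm_num)]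
      linarith [Real.pi_lt_four]
    have hr2 : 1 ≤ Real.sqrt (T / s) := by
      rw [Real.one_le_sqrt]; exact hTs2
    have hy1 : Real.sqrt (y / N) ≤ 3 / 2 := by
      rw [Real.sqrt_le_left (by norm_num), div_le_iff₀ hN0]
      linarith
    have hy2 : 1 ≤ Real.sqrt (y / N) := by
      rw [Real.one_le_sqrt, le_div_iff₀ hN0]
      linarith
    set ρ := Real.sqrt (y / N) * Real.sqrt (T / s) with hρ
    have hρ1 : 1 ≤ ρ := by nlinarith
    have hρ2 : ρ ≤ 6 := by nlinarith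
    have hlspos : 0 < ls y s := by
      unfold ls
      have : 0 < Real.arsinh (Real.sqrt y / (2 * Real.sqrt s)) := Real.arsinh_pos_iff.mpr hz0
      linarith
    have hw0pos : 0 < w0 := by positivity
    have hw0mem : w0 ∈ Icc (3 / 10 : ℝ) (67 / 10) := by
      have hu0 : 0 ≤ l0 * w0 / 2 := by positivity
      have hup := le_sinh hu0
      rw [hsh, hrel] at hup
      constructor
      · by_contra hcon
        push Not at hcon
        have h1 : l0 * w0 / 2 ≤ 1 := by nlinarith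
        have h2 := sinh_le hu0 h1
        rw [hsh, hrel] at h2
        nlinarith
      · have h1 : w0 ≤ ρ := by
          have : l0 * w0 ≤ l0 * ρ := by linarith
          exact le_of_mul_le_mul_left this hl
        linarith
    have hx0 : Z * g1 l0 w0 = -(s * l0) := by
      unfold g1
      rw [hsh]
      have hq' : (Real.sqrt y / (2 * Real.sqrt s)) ^ 2 = y / (4 * s) := by
        rw [div_pow, mul_pow, Real.sq_sqrt hy0.le, Real.sq_sqrt hs0.le]; ring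
      rw [hq', hZ]
      field_simp
    have hΦ : HasDerivAt (fun z : ℝ => -(FF (z * l0) s)) (-(g l0 w0)) Z := by
      have h1 : HasDerivAt (fun z : ℝ => z * l0) l0 Z := by
        simpa using (hasDerivAt_id Z).mul_const l0
      have h3 : HasDerivAt (fun z => FF z s) (Real.sqrt (1 + 4 * s / y) / 2) (Z * l0) := by
        rw [hZl]; exact (hFn s y hs0 hy0).1
      have h4 := (h3.comp Z h1).neg
      refine HasDerivAt.congr_deriv h4 ?_
      unfold g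
      rw [hlw, cth_ls y s hy0 hs0]
      ring
    obtain ⟨A', hA', hAb⟩ := hkey2 (-(s * l0)) (fun z : ℝ => -(FF (z * l0) s)) w0 hw0mem hx0 hΦ
    refine ⟨(starRingEnd ℂ) (l0⁻¹ • A'), ?_, ?_⟩
    · have h5 : HasDerivAt (fun t : ℝ => t / l0) l0⁻¹ y := by
        have h := (hasDerivAt_id y).div_const l0
        refine HasDerivAt.congr_deriv (f := fun t : ℝ => t / l0) h ?_
        simp
      have hA'' : HasDerivAt (fun z => ee (-(-(FF (z * l0) s))) *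
          ∫ w in (3 / 10 : ℝ)..(67 / 10), (kb Θ q l0 w : ℂ) * ee ((-(s * l0)) * w - z * g l0 w))
          A' (y / l0) := hA'
      have h6 := HasDerivAt.scomp y (h := fun t : ℝ => t / l0) hA'' h5
      have h7 : HasDerivAt (fun t : ℝ => star (ee (-(-(FF (t / l0 * l0) s))) *
          ∫ w in (3 / 10 : ℝ)..(67 / 10), (kb Θ q l0 w : ℂ) * ee ((-(s * l0)) * w - t / l0 * g l0 w)))
          (star (l0⁻¹ • A')) y := h6.star
      have h8 : (fun t : ℝ => ee (-(FF t s)) * JX Θ T G N t s) =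
          fun t : ℝ => star (ee (-(-(FF (t / l0 * l0) s))) *
          ∫ w in (3 / 10 : ℝ)..(67 / 10), (kb Θ q l0 w : ℂ) * ee ((-(s * l0)) * w - t / l0 * g l0 w)) := by
        funext t
        rw [hJ t, div_mul_cancel₀ _ hl.ne', neg_neg (FF t s)]
        show _ = (starRingEnd ℂ) (ee (FF t s) * _)
        rw [map_mul, conj_ee]
      rw [h8]
      exact h7
    · rw [RCLike.norm_conj, norm_smul, Real.norm_eq_abs, abs_of_pos (inv_pos.mpr hl)]
      have h1 : l0⁻¹ * ‖A'‖ ≤ l0⁻¹ * (CB / (Z * Real.sqrt Z)) :=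
        mul_le_mul_of_nonneg_left hAb (inv_pos.mpr hl).le
      have h2 : l0⁻¹ * (CB / (Z * Real.sqrt Z)) = CB / (y * Real.sqrt Z) := by
        rw [← hZl]
        field_simp
      rw [h2] at h1
      refine h1.trans ?_
      exact div_le_div₀ (by linarith) (by linarith) (by positivity)
        (mul_le_mul hNy hsZ hsNT0.le hy0.le)

end Pool.Agent.Work.MP_56b8f5_nt.UT
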