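import Pool.Agent.Work.MP_56b8f5_nt.UT.Stmts
import Pool.Agent.Work.MP_56b8f5_nt.UB.Vdc

/-!
MP_56b8f5_nt, block UT, item Bs: the sum over `b`, `n = ab` (helper24).
-/

open MeasureTheory Set Filter Topology

noncomputable section

namespace Pool.Agent.Work.MP_56b8f5_nt.UT

open Pool.Agent.Work.MP_56b8f5_nt.UB

namespace Bs_aux

lemma nee (x : ℝ) : ‖ee x‖ = 1 := Complex.norm_exp_ofReal_mul_I _

lemma ee_mul (x y : ℝ) : ee x * ee y = ee (x + y) := by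
  unfold ee
  rw [← Complex.exp_add]
  congr 1
  push_cast
  ring

lemma ee_zero' : ee 0 = 1 := by
  unfold ee
  simp

lemma ee_half (a b : ℕ) : ee ((a : ℝ) / 2 * b) = (-1 : ℂ) ^ (a * b) := by
  unfold ee
  have h : ((2 * Real.pi * ((a : ℝ) / 2 * b) : ℝ) : ℂ) * Complex.I
      = ((a * b : ℕ) : ℂ) * (Real.pi * Complex.I) := by
    push_cast
    ring
  rw [h, Complex.exp_nat_mul, Complex.exp_pi_mul_I]

/-- partial summation -/
lemma psum (z α : ℕ → ℂ) (n : ℕ) (M A D : ℝ) (hM : 0 ≤ M) (hA : 0 ≤ A) (hD : 0 ≤ D)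
    (hz : ∀ k ≤ n, ‖∑ i ∈ Finset.range k, z i‖ ≤ M) (hα : ∀ i < n, ‖α i‖ ≤ A)
    (hd : ∀ i, i + 1 < n → ‖α (i + 1) - α i‖ ≤ D) :
    ‖∑ i ∈ Finset.range n, α i * z i‖ ≤ M * (A + n * D) := by
  have h := Finset.sum_range_by_parts α z n
  simp only [smul_eq_mul] at h
  rw [h]
  rcases Nat.eq_zero_or_pos n with hn | hn
  · subst hn
    simp
    positivity
  · have h1 : ‖α (n - 1) * ∑ i ∈ Finset.range n, z i‖ ≤ A * M := by
      rw [norm_mul]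
      exact mul_le_mul (hα _ (by omega)) (hz n le_rfl) (norm_nonneg _) hA
    have h2 : ‖∑ i ∈ Finset.range (n - 1), (α (i + 1) - α i) * ∑ i ∈ Finset.range (i + 1), z i‖
        ≤ n * (D * M) := by
      refine (norm_sum_le _ _).trans ?_
      refine (Finset.sum_le_card_nsmul _ _ (D * M) ?_).trans ?_
      · intro i hi
        rw [Finset.mem_range] at hi
        rw [norm_mul]
        exact mul_le_mul (hd i (by omega)) (hz (i + 1) (by omega)) (norm_nonneg _) hD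
      · rw [Finset.card_range, nsmul_eq_mul]
        have h3 : ((n - 1 : ℕ) : ℝ) ≤ n := by exact_mod_cast Nat.sub_le n 1
        exact mul_le_mul_of_nonneg_right h3 (by positivity)
    calc ‖α (n - 1) * ∑ i ∈ Finset.range n, z i -
          ∑ i ∈ Finset.range (n - 1), (α (i + 1) - α i) * ∑ i ∈ Finset.range (i + 1), z i‖
        ≤ A * M + n * (D * M) := (norm_sub_le _ _).trans (add_le_add h1 h2)
      _ = M * (A + n * D) := by ring

/-- the exponential sum for one order of differences -/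
lemma expsum (hVJ : StVJ) (hFD : StFD) (k : ℕ) : ∃ C2 : ℝ, 1 ≤ C2 ∧
    ∀ (s B : ℝ) (a b1 b2 : ℕ), 1 ≤ a → 1 ≤ B → 0 < s → C2 * (a * B) ≤ s → b1 ≤ b2 →
    (∀ n, b1 ≤ n → n < b2 → B ≤ n ∧ (n : ℝ) ≤ 2 * B) → (b2 : ℝ) - b1 ≤ 2 * B →
    ‖∑ b ∈ Finset.Ico b1 b2, ee (FF ((a : ℝ) * b) s + (a : ℝ) / 2 * b)‖ ≤
      C2 * (B * (Real.sqrt (a * B * s) / B ^ (k + 2)) ^ (1 / ((2 : ℝ) ^ (k + 2) - 2)) +
        B ^ (1 - 1 / (2 : ℝ) ^ k) *
          (Real.sqrt (a * B * s) / B ^ (k + 2)) ^ (-(1 / ((2 : ℝ) ^ (k + 2) - 2)))) := by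
  obtain ⟨c, Cf, hc, hCf, hF⟩ := hFD k
  obtain ⟨Cv, hCv, hV⟩ := hVJ k (max 1 (Cf / c)) (le_max_left _ _)
  set Q : ℝ := 1 / ((2 : ℝ) ^ (k + 2) - 2) with hQ
  have hQ0 : 0 ≤ Q := by
    have : (4 : ℝ) ≤ 2 ^ (k + 2) := by
      rw [pow_add]
      have := one_le_pow₀ (M₀ := ℝ) (n := k) (a := 2) (by norm_num)
      nlinarith
    rw [hQ]
    apply div_nonneg one_pos.le
    linarith
  refine ⟨max Cf (Cv * (2 * c ^ Q + 2 * c ^ (-Q))), le_max_of_le_left hCf, ?_⟩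
  intro s B a b1 b2 ha hB hs hCs hb12 hb hL
  have hB0 : 0 < B := by linarith
  have ha0 : (0 : ℝ) < a := by exact_mod_cast ha
  set Lam : ℝ := Real.sqrt (a * B * s) / B ^ (k + 2) with hLam
  have hLam0 : 0 < Lam := by positivity
  have hd : ∀ n, b1 ≤ n → n + (k + 2) < b2 →
      c * Lam ≤ (-1) ^ (k + 1) * dd (k + 2) (fun b => FF ((a : ℝ) * b) s + (a : ℝ) / 2 * b) n ∧
      (-1) ^ (k + 1) * dd (k + 2) (fun b => FF ((a : ℝ) * b) s + (a : ℝ) / 2 * b) n ≤ Cf * Lam := by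
    intro n hn1 hn2
    have h1 := hb n hn1 (by omega)
    have h2 := hb (n + (k + 2)) (by omega) hn2
    have h3 : (n : ℝ) + (k + 2) ≤ 2 * B := by
      have := h2.2
      push_cast at this
      linarith
    exact hF s B ((a : ℝ) / 2) a n ha hB
      ((mul_le_mul_of_nonneg_right (le_max_left _ _) (by positivity)).trans hCs)
      (by linarith) (by linarith)
  have hCfc : Cf * Lam ≤ max 1 (Cf / c) * (c * Lam) := by
    have : Cf * Lam = Cf / c * (c * Lam) := by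
      field_simp
    rw [this]
    exact mul_le_mul_of_nonneg_right (le_max_right _ _) (by positivity)
  have hσ : ((-1 : ℝ) ^ (k + 1) = 1 ∨ (-1 : ℝ) ^ (k + 1) = -1) := neg_one_pow_eq_or ℝ (k + 1)
  have h := hV (fun b => FF ((a : ℝ) * b) s + (a : ℝ) / 2 * b) b1 b2 (2 * B) (c * Lam)
    ((-1) ^ (k + 1)) hσ hb12 hL (by linarith) (by positivity)
    (fun n hn1 hn2 => ⟨(hd n hn1 hn2).1, (hd n hn1 hn2).2.trans hCfc⟩)
  refine h.trans ?_
  have e1 : (c * Lam) ^ Q = c ^ Q * Lam ^ Q := Real.mul_rpow hc.le hLam0.le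
  have e2 : (c * Lam) ^ (-Q) = c ^ (-Q) * Lam ^ (-Q) := Real.mul_rpow hc.le hLam0.le
  have e3 : (2 * B) ^ (1 - 1 / (2 : ℝ) ^ k) ≤ 2 * B ^ (1 - 1 / (2 : ℝ) ^ k) := by
    rw [Real.mul_rpow (by norm_num) hB0.le]
    apply mul_le_mul_of_nonneg_right _ (by positivity)
    calc (2 : ℝ) ^ (1 - 1 / (2 : ℝ) ^ k) ≤ (2 : ℝ) ^ (1 : ℝ) := by
          apply Real.rpow_le_rpow_of_exponent_le (by norm_num)
          have : (0 : ℝ) ≤ 1 / 2 ^ k := by positivity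
          linarith
      _ = 2 := Real.rpow_one 2
  rw [e1, e2]
  have hx1 : 0 ≤ B * Lam ^ Q := by positivity
  have hx2 : 0 ≤ B ^ (1 - 1 / (2 : ℝ) ^ k) * Lam ^ (-Q) := by positivity
  have hc1 : 0 < c ^ Q := by positivity
  have hc2 : 0 < c ^ (-Q) := by positivity
  have h5 : 2 * B * (c ^ Q * Lam ^ Q) + (2 * B) ^ (1 - 1 / (2 : ℝ) ^ k) * (c ^ (-Q) * Lam ^ (-Q)) ≤
      (2 * c ^ Q + 2 * c ^ (-Q)) * (B * Lam ^ Q + B ^ (1 - 1 / (2 : ℝ) ^ k) * Lam ^ (-Q)) := by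
    have h6 : (2 * B) ^ (1 - 1 / (2 : ℝ) ^ k) * (c ^ (-Q) * Lam ^ (-Q)) ≤
        2 * B ^ (1 - 1 / (2 : ℝ) ^ k) * (c ^ (-Q) * Lam ^ (-Q)) :=
      mul_le_mul_of_nonneg_right e3 (by positivity)
    nlinarith [mul_nonneg hc1.le hx2, mul_nonneg hc2.le hx1]
  calc Cv * (2 * B * (c ^ Q * Lam ^ Q) + (2 * B) ^ (1 - 1 / (2 : ℝ) ^ k) * (c ^ (-Q) * Lam ^ (-Q)))
      ≤ Cv * ((2 * c ^ Q + 2 * c ^ (-Q)) *
          (B * Lam ^ Q + B ^ (1 - 1 / (2 : ℝ) ^ k) * Lam ^ (-Q))) :=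
        mul_le_mul_of_nonneg_left h5 (by linarith)
    _ = Cv * (2 * c ^ Q + 2 * c ^ (-Q)) *
          (B * Lam ^ Q + B ^ (1 - 1 / (2 : ℝ) ^ k) * Lam ^ (-Q)) := by ring
    _ ≤ _ := mul_le_mul_of_nonneg_right (le_max_right _ _) (by positivity)

/-- the numbers -/
lemma numer (k : ℕ) (hk1 : 1 ≤ k) (hk4 : k ≤ 4) (B Lam : ℝ) (hB : 1 ≤ B)
    (h1 : B ^ (-2 : ℝ) ≤ Lam) (h2 : Lam ≤ B ^ (-1 : ℝ)) :
    B * Lam ^ (1 / ((2 : ℝ) ^ (k + 2) - 2)) +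
      B ^ (1 - 1 / (2 : ℝ) ^ k) * Lam ^ (-(1 / ((2 : ℝ) ^ (k + 2) - 2))) ≤
      2 * B ^ (1 - 1 / 62 : ℝ) := by
  have hB0 : 0 < B := by linarith
  have hL0 : 0 < Lam := lt_of_lt_of_le (by positivity) h1
  set Q : ℝ := 1 / ((2 : ℝ) ^ (k + 2) - 2) with hQ
  have hQQ : 1 / 62 ≤ Q ∧ 1 - 1 / (2 : ℝ) ^ k + 2 * Q ≤ 1 - 1 / 62 := by
    rw [hQ]
    interval_cases k <;> constructor <;> norm_num
  have hQ0 : 0 ≤ Q := by linarith [hQQ.1]
  have i1 : Lam ^ Q ≤ B ^ (-Q) := by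
    calc Lam ^ Q ≤ (B ^ (-1 : ℝ)) ^ Q := Real.rpow_le_rpow hL0.le h2 hQ0
      _ = B ^ (-Q) := by
        rw [← Real.rpow_mul hB0.le]
        congr 1
        ring
  have i2 : Lam ^ (-Q) ≤ B ^ (2 * Q) := by
    calc Lam ^ (-Q) ≤ (B ^ (-2 : ℝ)) ^ (-Q) :=
          Real.rpow_le_rpow_of_nonpos (by positivity) h1 (by linarith)
      _ = B ^ (2 * Q) := by
        rw [← Real.rpow_mul hB0.le]
        congr 1
        ring
  have j1 : B * Lam ^ Q ≤ B ^ (1 - 1 / 62 : ℝ) := by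
    calc B * Lam ^ Q ≤ B * B ^ (-Q) := mul_le_mul_of_nonneg_left i1 hB0.le
      _ = B ^ (1 - Q) := by
        rw [sub_eq_add_neg, Real.rpow_add hB0, Real.rpow_one]
      _ ≤ B ^ (1 - 1 / 62 : ℝ) :=
        Real.rpow_le_rpow_of_exponent_le hB (by linarith [hQQ.1])
  have j2 : B ^ (1 - 1 / (2 : ℝ) ^ k) * Lam ^ (-Q) ≤ B ^ (1 - 1 / 62 : ℝ) := by
    calc B ^ (1 - 1 / (2 : ℝ) ^ k) * Lam ^ (-Q) ≤ B ^ (1 - 1 / (2 : ℝ) ^ k) * B ^ (2 * Q) :=
          mul_le_mul_of_nonneg_left i2 (by positivity)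
      _ = B ^ (1 - 1 / (2 : ℝ) ^ k + 2 * Q) := by
        rw [← Real.rpow_add hB0]
      _ ≤ B ^ (1 - 1 / 62 : ℝ) := Real.rpow_le_rpow_of_exponent_le hB hQQ.2
  linarith

/-- choice of the order -/
lemma choose_k (B F : ℝ) (hB : 1 ≤ B) (h1 : B ≤ F) (h5 : F ≤ B ^ 5) :
    ∃ k : ℕ, 1 ≤ k ∧ k ≤ 4 ∧ B ^ (-2 : ℝ) ≤ F / B ^ (k + 2) ∧ F / B ^ (k + 2) ≤ B ^ (-1 : ℝ) := by
  have hB0 : 0 < B := by linarith
  have e2 : B ^ (-2 : ℝ) = 1 / B ^ 2 := by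
    rw [Real.rpow_neg hB0.le, one_div]
    norm_num
  have e1 : B ^ (-1 : ℝ) = 1 / B := by
    rw [Real.rpow_neg_one, one_div]
  have main : ∀ k : ℕ, B ^ k ≤ F → F ≤ B ^ (k + 1) →
      B ^ (-2 : ℝ) ≤ F / B ^ (k + 2) ∧ F / B ^ (k + 2) ≤ B ^ (-1 : ℝ) := by
    intro k hl hu
    rw [e1, e2]
    constructor
    · rw [div_le_div_iff₀ (by positivity) (by positivity), one_mul, pow_add]
      exact mul_le_mul_of_nonneg_right hl (by positivity)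
    · rw [div_le_div_iff₀ (by positivity) (by positivity), one_mul]
      calc F * B ≤ B ^ (k + 1) * B := mul_le_mul_of_nonneg_right hu hB0.le
        _ = B ^ (k + 2) := by ring
  by_cases h2 : F ≤ B ^ 2
  · exact ⟨1, le_rfl, by norm_num, main 1 (by simpa using h1) h2⟩
  by_cases h3 : F ≤ B ^ 3
  · exact ⟨2, by norm_num, by norm_num, main 2 (not_le.1 h2).le h3⟩
  by_cases h4 : F ≤ B ^ 4
  · exact ⟨3, by norm_num, by norm_num, main 3 (not_le.1 h3).le h4⟩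
  · exact ⟨4, by norm_num, by norm_num, main 4 (not_le.1 h4).le h5⟩

/-- the powers of `T` -/
lemma powT (T N B : ℝ) (hT : 10 ^ 9 ≤ T) (hN1 : T ^ (1 / 3 - 1 / 500 : ℝ) ≤ N)
    (hN2 : N ≤ T ^ (1 / 3 + 1 / 500 : ℝ)) (hB : 0 < B) (hBN : N ≤ 2 * B ^ 2) :
    2 ≤ N ∧ N ≤ Real.sqrt T ∧ 32 * T ≤ N ^ 4 ∧
      B ^ (1 - 1 / 62 : ℝ) ≤ 2 * (B * T ^ (-(1 / 400) : ℝ)) := by
  have hT1 : (1 : ℝ) ≤ T := by linarith
  have hT0 : 0 < T := by linarith
  have h10 : ((10 : ℝ) ^ (9 : ℝ)) ≤ T := by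
    have : ((10 : ℝ) ^ (9 : ℝ)) = 10 ^ 9 := by
      rw [← Real.rpow_natCast]
      norm_num
    rw [this]
    exact hT
  have hNpos : 0 < N := lt_of_lt_of_le (by positivity) hN1
  refine ⟨?_, ?_, ?_, ?_⟩
  · have h1 : (2 : ℝ) ≤ T ^ (1 / 3 - 1 / 500 : ℝ) := by
      calc (2 : ℝ) ≤ 10 := by norm_num
        _ = (10 : ℝ) ^ (1 : ℝ) := (Real.rpow_one _).symm
        _ ≤ (10 : ℝ) ^ (9 * (1 / 3 - 1 / 500) : ℝ) :=
          Real.rpow_le_rpow_of_exponent_le (by norm_num) (by norm_num)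
        _ = ((10 : ℝ) ^ (9 : ℝ)) ^ (1 / 3 - 1 / 500 : ℝ) := by
          rw [← Real.rpow_mul (by norm_num)]
        _ ≤ T ^ (1 / 3 - 1 / 500 : ℝ) := Real.rpow_le_rpow (by positivity) h10 (by norm_num)
    exact h1.trans hN1
  · rw [Real.sqrt_eq_rpow]
    exact hN2.trans (Real.rpow_le_rpow_of_exponent_le hT1 (by norm_num))
  · have h1 : (T ^ (1 / 3 - 1 / 500 : ℝ)) ^ 4 ≤ N ^ 4 := pow_le_pow_left₀ (by positivity) hN1 4
    have h2 : (T ^ (1 / 3 - 1 / 500 : ℝ)) ^ 4 = T ^ ((1 / 3 - 1 / 500) * 4 - 1 : ℝ) * T := by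
      rw [← Real.rpow_natCast, ← Real.rpow_mul hT0.le]
      nth_rewrite 3 [← Real.rpow_one T]
      rw [← Real.rpow_add hT0]
      congr 1
      norm_num
    have h3 : (32 : ℝ) ≤ T ^ ((1 / 3 - 1 / 500) * 4 - 1 : ℝ) := by
      calc (32 : ℝ) ≤ 10 ^ 2 := by norm_num
        _ = (10 : ℝ) ^ (2 : ℝ) := by
          rw [← Real.rpow_natCast]
          norm_num
        _ ≤ (10 : ℝ) ^ (9 * ((1 / 3 - 1 / 500) * 4 - 1) : ℝ) :=
          Real.rpow_le_rpow_of_exponent_le (by norm_num) (by norm_num)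
        _ = ((10 : ℝ) ^ (9 : ℝ)) ^ ((1 / 3 - 1 / 500) * 4 - 1 : ℝ) := by
          rw [← Real.rpow_mul (by norm_num)]
        _ ≤ T ^ ((1 / 3 - 1 / 500) * 4 - 1 : ℝ) :=
          Real.rpow_le_rpow (by positivity) h10 (by norm_num)
    calc 32 * T ≤ T ^ ((1 / 3 - 1 / 500) * 4 - 1 : ℝ) * T :=
          mul_le_mul_of_nonneg_right h3 hT0.le
      _ = _ := h2.symm
      _ ≤ N ^ 4 := h1
  · have h1 : B ^ (1 - 1 / 62 : ℝ) = B * B ^ (-(1 / 62) : ℝ) := by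
      rw [sub_eq_add_neg, Real.rpow_add hB, Real.rpow_one]
    have h2 : B ^ (-(1 / 62) : ℝ) = (B ^ 2) ^ (-(1 / 124) : ℝ) := by
      rw [← Real.rpow_natCast, ← Real.rpow_mul hB.le]
      congr 1
      norm_num
    have h3 : T ^ (1 / 3 - 1 / 500 : ℝ) / 2 ≤ B ^ 2 := by
      linarith
    have h4 : (B ^ 2) ^ (-(1 / 124) : ℝ) ≤ (T ^ (1 / 3 - 1 / 500 : ℝ) / 2) ^ (-(1 / 124) : ℝ) :=
      Real.rpow_le_rpow_of_nonpos (by positivity) h3 (by norm_num)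
    have h5 : (T ^ (1 / 3 - 1 / 500 : ℝ) / 2) ^ (-(1 / 124) : ℝ) =
        T ^ ((1 / 3 - 1 / 500) * (-(1 / 124)) : ℝ) * 2 ^ (1 / 124 : ℝ) := by
      rw [Real.div_rpow (by positivity) (by norm_num), ← Real.rpow_mul hT0.le, div_eq_mul_inv,
        ← Real.rpow_neg (by norm_num)]
      congr 1
      norm_num
    have h6 : T ^ ((1 / 3 - 1 / 500) * (-(1 / 124)) : ℝ) ≤ T ^ (-(1 / 400) : ℝ) :=
      Real.rpow_le_rpow_of_exponent_le hT1 (by norm_num)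
    have h7 : (2 : ℝ) ^ (1 / 124 : ℝ) ≤ 2 := by
      calc (2 : ℝ) ^ (1 / 124 : ℝ) ≤ (2 : ℝ) ^ (1 : ℝ) :=
            Real.rpow_le_rpow_of_exponent_le (by norm_num) (by norm_num)
        _ = 2 := Real.rpow_one 2
    rw [h1, h2]
    calc B * (B ^ 2) ^ (-(1 / 124) : ℝ)
        ≤ B * (T ^ ((1 / 3 - 1 / 500) * (-(1 / 124)) : ℝ) * 2 ^ (1 / 124 : ℝ)) := by
          rw [← h5]
          exact mul_le_mul_of_nonneg_left h4 hB.le
      _ ≤ B * (T ^ (-(1 / 400) : ℝ) * 2) := by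
          apply mul_le_mul_of_nonneg_left _ hB.le
          exact mul_le_mul h6 h7 (by positivity) (by positivity)
      _ = 2 * (B * T ^ (-(1 / 400) : ℝ)) := by ring

end Bs_aux

open Bs_aux in
/-- ITEM Bs -/
theorem iBs (hVJ : StVJ) (hFD : StFD) (hAX : StAX) : StBs := by
  intro φ Θ hφ C' hC'
  obtain ⟨C1, hC1, hX⟩ := hAX φ Θ hφ C' hC'
  choose C2 hC2 hE using fun k => expsum hVJ hFD k
  set D : ℝ := C2 1 + C2 2 + C2 3 + C2 4 with hDdef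
  have h21 := hC2 1
  have h22 := hC2 2
  have h23 := hC2 3
  have h24 := hC2 4
  have hD1 : 1 ≤ D := by linarith
  have hD : ∀ k, 1 ≤ k → k ≤ 4 → C2 k ≤ D := by
    intro k hk1 hk4
    interval_cases k <;> linarith
  refine ⟨C1 + 10 ^ 9 + (13 * D) ^ 2 + 12 * C1 * D, by nlinarith [sq_nonneg (13 * D)], ?_⟩
  intro T G N s a b1 b2 hT hG hGT hs hNC hN1 hN2 ha haN hb
  have hpos1 : 0 ≤ (13 * D) ^ 2 := sq_nonneg _
  have hpos2 : 0 ≤ 12 * C1 * D := by positivity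
  have hT9 : 10 ^ 9 ≤ T := by linarith
  have hTD : (13 * D) ^ 2 ≤ T := by linarith
  have hTC1 : C1 ≤ T := by linarith
  have hGC1 : C1 ≤ G := by linarith
  have hT0 : 0 < T := by linarith
  have ha0 : (0 : ℝ) < a := by exact_mod_cast ha
  have ha1 : (1 : ℝ) ≤ a := by exact_mod_cast ha
  have hN0 : 0 < N := lt_of_lt_of_le (by positivity) hN1
  set B : ℝ := N / a with hBdef
  have hB0 : 0 < B := by positivity
  have haB : (a : ℝ) * B = N := by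
    rw [hBdef]
    field_simp
  have hBN : N ≤ 2 * B ^ 2 := by
    have h1 : N * (a : ℝ) ^ 2 ≤ N * (2 * N) := mul_le_mul_of_nonneg_left haN hN0.le
    have h2 : N = (a : ℝ) * B := haB.symm
    have h3 : N * (2 * N) = 2 * B ^ 2 * (a : ℝ) ^ 2 := by
      rw [h2]
      ring
    rw [h3] at h1
    exact le_of_mul_le_mul_right h1 (by positivity)
  obtain ⟨hN2', hNs, hN4, hB62⟩ := powT T N B hT9 hN1 hN2 hB0 hBN
  have hB1 : 1 ≤ B := by
    by_contra hcon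
    push Not at hcon
    have : B ^ 2 < 1 := by nlinarith
    linarith
  have hsT : T / 13 ≤ s := by
    have h1 := hs.1
    have h2 : T / 13 ≤ T / (4 * Real.pi) := by
      apply div_le_div_of_nonneg_left hT0.le (by positivity)
      have := Real.pi_lt_d2
      linarith
    linarith
  have hsT2 : s ≤ T := by
    have h1 := hs.2
    have h2 : 2 * T / Real.pi ≤ T := by
      rw [div_le_iff₀ Real.pi_pos]
      have := Real.pi_gt_three
      nlinarith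
    linarith
  have hs0 : 0 < s := by
    have : 0 < T / 13 := by positivity
    linarith
  have hDN : D * N ≤ s := by
    have h1 : 13 * D ≤ Real.sqrt T := Real.le_sqrt_of_sq_le hTD
    have h2 : D * N ≤ D * Real.sqrt T := mul_le_mul_of_nonneg_left hNs (by linarith)
    have h3 : 13 * D * Real.sqrt T ≤ Real.sqrt T * Real.sqrt T :=
      mul_le_mul_of_nonneg_right h1 (Real.sqrt_nonneg _)
    rw [Real.mul_self_sqrt hT0.le] at h3
    linarith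
  have hNs' : N ≤ s := by nlinarith
  set F : ℝ := Real.sqrt (a * B * s) with hFdef
  have hF2 : F ^ 2 = N * s := by
    rw [hFdef, haB, Real.sq_sqrt (by positivity)]
  have hF0 : 0 ≤ F := Real.sqrt_nonneg _
  have hBF : B ≤ F := by
    have h1 : B ≤ N := by
      rw [← haB]
      nlinarith
    have h2 : N ≤ F := by
      rw [hFdef, haB]
      apply Real.le_sqrt_of_sq_le
      nlinarith
    linarith
  have hFB5 : F ≤ B ^ 5 := by
    apply le_of_sq_le_sq _ (by positivity)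
    rw [hF2]
    have h1 : (N / 2) ^ 5 ≤ (B ^ 2) ^ 5 := pow_le_pow_left₀ (by positivity) (by linarith) 5
    have h2 : N * s ≤ N * T := mul_le_mul_of_nonneg_left hsT2 hN0.le
    have h3 : N * T ≤ (N / 2) ^ 5 := by
      have h4 : N * (32 * T) ≤ N * N ^ 4 := mul_le_mul_of_nonneg_left hN4 hN0.le
      have h5 : (N / 2) ^ 5 = N * N ^ 4 / 32 := by ring
      rw [h5, le_div_iff₀ (by norm_num)]
      linarith
    calc N * s ≤ (B ^ 2) ^ 5 := h2.trans (h3.trans h1)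
      _ = (B ^ 5) ^ 2 := by ring
  obtain ⟨k, hk1, hk4, hl1, hl2⟩ := choose_k B F hB1 hBF hFB5
  set q : ℝ := Real.sqrt (Real.sqrt (N * T)) with hq
  have hq0 : 0 < q := Real.sqrt_pos.2 (Real.sqrt_pos.2 (by positivity))
  rcases Nat.lt_or_ge b1 b2 with hb12 | hb12
  swap
  · rw [Finset.Ico_eq_empty_of_le hb12, Finset.sum_empty, norm_zero]
    positivity
  have hbb : ∀ n, b1 ≤ n → n < b2 → B ≤ n ∧ (n : ℝ) ≤ 2 * B := by
    intro n h1 h2
    have h3 := hb n (Finset.mem_Ico.2 ⟨h1, h2⟩)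
    rw [← haB] at h3
    constructor
    · exact le_of_mul_le_mul_left h3.1 ha0
    · have h4 : (a : ℝ) * n ≤ a * (2 * B) := by linarith [h3.2]
      exact le_of_mul_le_mul_left h4 ha0
  have hlen : (b2 : ℝ) - b1 ≤ 2 * B := by
    have h1 := (hbb b1 le_rfl hb12).1
    have h2 := (hbb (b2 - 1) (by omega) (by omega)).2
    have h3 : ((b2 - 1 : ℕ) : ℝ) = b2 - 1 := by
      rw [Nat.cast_sub (by omega)]
      norm_num
    rw [h3] at h2
    linarith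
  -- the partial sums
  have hpart : ∀ m ≤ b2 - b1, ‖∑ i ∈ Finset.range m,
      ee (FF ((a : ℝ) * ((b1 + i : ℕ) : ℝ)) s + (a : ℝ) / 2 * ((b1 + i : ℕ) : ℝ))‖ ≤
      2 * D * B ^ (1 - 1 / 62 : ℝ) := by
    intro m hm
    have h1 := hE k s B a b1 (b1 + m) ha hB1 hs0
      (by
        rw [haB]
        exact (mul_le_mul_of_nonneg_right (hD k hk1 hk4) hN0.le).trans hDN)
      (by omega) (fun n hn1 hn2 => hbb n hn1 (by omega))
      (by
        have : ((b1 + m : ℕ) : ℝ) ≤ b2 := by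
          have : b1 + m ≤ b2 := by omega
          exact_mod_cast this
        linarith)
    rw [Finset.sum_Ico_eq_sum_range, Nat.add_sub_cancel_left] at h1
    refine h1.trans ?_
    have h2 := numer k hk1 hk4 B (F / B ^ (k + 2)) hB1 hl1 hl2
    calc _ ≤ C2 k * (2 * B ^ (1 - 1 / 62 : ℝ)) :=
          mul_le_mul_of_nonneg_left h2 (by linarith [hC2 k])
      _ ≤ D * (2 * B ^ (1 - 1 / 62 : ℝ)) :=
          mul_le_mul_of_nonneg_right (hD k hk1 hk4) (by positivity)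
      _ = _ := by ring
  -- the amplitude
  have hAXy : ∀ y ∈ Icc N (2 * N), ‖JX Θ T G N y s‖ ≤ C1 / q ∧
      ∃ A' : ℂ, HasDerivAt (fun z => ee (-(FF z s)) * JX Θ T G N z s) A' y ∧
        ‖A'‖ ≤ C1 / (N * q) := by
    intro y hy
    exact hX T G N s y hTC1 hGC1 hGT hs (by linarith) hy.1 hy.2 hNC
  have hmem : ∀ i < b2 - b1, (a : ℝ) * ((b1 + i : ℕ) : ℝ) ∈ Icc N (2 * N) := by
    intro i hi
    exact hb (b1 + i) (Finset.mem_Ico.2 ⟨by omega, by omega⟩)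
  have hα : ∀ i < b2 - b1, ‖ee (-(FF ((a : ℝ) * ((b1 + i : ℕ) : ℝ)) s)) *
      JX Θ T G N ((a : ℝ) * ((b1 + i : ℕ) : ℝ)) s‖ ≤ C1 / q := by
    intro i hi
    rw [norm_mul, nee, one_mul]
    exact (hAXy _ (hmem i hi)).1
  have hdα : ∀ i, i + 1 < b2 - b1 →
      ‖ee (-(FF ((a : ℝ) * ((b1 + (i + 1) : ℕ) : ℝ)) s)) *
        JX Θ T G N ((a : ℝ) * ((b1 + (i + 1) : ℕ) : ℝ)) s -
        ee (-(FF ((a : ℝ) * ((b1 + i : ℕ) : ℝ)) s)) *
        JX Θ T G N ((a : ℝ) * ((b1 + i : ℕ) : ℝ)) s‖ ≤ a * (C1 / (N * q)) := by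
    intro i hi
    choose! A' hA' using fun y (hy : y ∈ Icc N (2 * N)) => (hAXy y hy).2
    have h1 := (convex_Icc N (2 * N)).norm_image_sub_le_of_norm_hasDerivWithin_le
      (f := fun z => ee (-(FF z s)) * JX Θ T G N z s) (f' := A') (C := C1 / (N * q))
      (fun y hy => (hA' y hy).1.hasDerivWithinAt) (fun y hy => (hA' y hy).2)
      (hmem i (by omega)) (hmem (i + 1) hi)
    refine h1.trans ?_
    have h2 : (a : ℝ) * ((b1 + (i + 1) : ℕ) : ℝ) - (a : ℝ) * ((b1 + i : ℕ) : ℝ) = a := by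
      push_cast
      ring
    rw [h2, Real.norm_eq_abs, abs_of_pos ha0, mul_comm]
  -- conclusion
  have hsum : ∑ b ∈ Finset.Ico b1 b2, (-1 : ℂ) ^ (a * b) * JX Θ T G N ((a : ℝ) * b) s =
      ∑ i ∈ Finset.range (b2 - b1), (ee (-(FF ((a : ℝ) * ((b1 + i : ℕ) : ℝ)) s)) *
        JX Θ T G N ((a : ℝ) * ((b1 + i : ℕ) : ℝ)) s) *
        ee (FF ((a : ℝ) * ((b1 + i : ℕ) : ℝ)) s + (a : ℝ) / 2 * ((b1 + i : ℕ) : ℝ)) := by
    rw [Finset.sum_Ico_eq_sum_range]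
    apply Finset.sum_congr rfl
    intro i _
    rw [← ee_mul, ee_half]
    have h1 : ee (-(FF ((a : ℝ) * ((b1 + i : ℕ) : ℝ)) s)) *
        ee (FF ((a : ℝ) * ((b1 + i : ℕ) : ℝ)) s) = 1 := by
      rw [ee_mul, neg_add_cancel, ee_zero']
    calc (-1 : ℂ) ^ (a * (b1 + i)) * JX Θ T G N ((a : ℝ) * ((b1 + i : ℕ) : ℝ)) s
        = (ee (-(FF ((a : ℝ) * ((b1 + i : ℕ) : ℝ)) s)) *
            ee (FF ((a : ℝ) * ((b1 + i : ℕ) : ℝ)) s)) *
          ((-1 : ℂ) ^ (a * (b1 + i)) * JX Θ T G N ((a : ℝ) * ((b1 + i : ℕ) : ℝ)) s) := by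
          rw [h1, one_mul]
      _ = _ := by ring
  rw [hsum]
  have hC10 : 0 ≤ C1 := by linarith
  have hfin := psum
    (fun i => ee (FF ((a : ℝ) * ((b1 + i : ℕ) : ℝ)) s + (a : ℝ) / 2 * ((b1 + i : ℕ) : ℝ)))
    (fun i => ee (-(FF ((a : ℝ) * ((b1 + i : ℕ) : ℝ)) s)) *
        JX Θ T G N ((a : ℝ) * ((b1 + i : ℕ) : ℝ)) s)
    (b2 - b1) (2 * D * B ^ (1 - 1 / 62 : ℝ)) (C1 / q) (a * (C1 / (N * q)))
    (by positivity) (by positivity) (by positivity) hpart hα hdα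
  refine hfin.trans ?_
  have hn : (((b2 - b1 : ℕ) : ℝ)) * (a * (C1 / (N * q))) ≤ 2 * (C1 / q) := by
    have h1 : ((b2 - b1 : ℕ) : ℝ) ≤ 2 * B := by
      rw [Nat.cast_sub hb12.le]
      exact hlen
    calc (((b2 - b1 : ℕ) : ℝ)) * (a * (C1 / (N * q)))
        ≤ (2 * B) * (a * (C1 / (N * q))) := mul_le_mul_of_nonneg_right h1 (by positivity)
      _ = 2 * ((a * B) * (C1 / (N * q))) := by ring
      _ = 2 * (C1 / q) := by
        rw [haB]
        field_simp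
  calc 2 * D * B ^ (1 - 1 / 62 : ℝ) * (C1 / q + ((b2 - b1 : ℕ) : ℝ) * (a * (C1 / (N * q))))
      ≤ 2 * D * B ^ (1 - 1 / 62 : ℝ) * (C1 / q + 2 * (C1 / q)) :=
        mul_le_mul_of_nonneg_left (by linarith) (by positivity)
    _ ≤ 2 * D * (2 * (B * T ^ (-(1 / 400) : ℝ))) * (C1 / q + 2 * (C1 / q)) := by
        apply mul_le_mul_of_nonneg_right _ (by positivity)
        exact mul_le_mul_of_nonneg_left hB62 (by positivity)
    _ = (12 * C1 * D) / q * B * T ^ (-(1 / 400) : ℝ) := by ring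
    _ ≤ (C1 + 10 ^ 9 + (13 * D) ^ 2 + 12 * C1 * D) / q * B * T ^ (-(1 / 400) : ℝ) := by
        apply mul_le_mul_of_nonneg_right _ (by positivity)
        apply mul_le_mul_of_nonneg_right _ hB0.le
        apply div_le_div_of_nonneg_right _ hq0.le
        nlinarith

end Pool.Agent.Work.MP_56b8f5_nt.UT
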