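import Pool.Agent.Work.MP_56b8f5_nt.UT.Stmts
import Pool.Agent.Work.MP_56b8f5_nt.UB.I_Dn

/-!
MP_56b8f5_nt, block UT, item Cx (change of the cutoff).  Author: helper95.
-/

set_option autoImplicit false

open MeasureTheory Set Filter Topology

noncomputable section

namespace Pool.Agent.Work.MP_56b8f5_nt.UT

open Pool.Agent.Work.MP_56b8f5_nt.UB

namespace Cx_aux

open Pool.Agent.Work.MP_56b8f5_nt.UB.Dn_aux

/-! ### the bump function -/

lemma ch2_nonneg (u : ℝ) : 0 ≤ ch2 u := ch2B.nonneg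

lemma ch2_le (u : ℝ) : ch2 u ≤ 1 := ch2B.le_one

lemma ch2_one {u : ℝ} (h1 : 6 / 10 ≤ u) (h2 : u ≤ 64 / 10) : ch2 u = 1 := by
  refine ch2B.one_of_mem_closedBall ?_
  rw [Metric.mem_closedBall, Real.dist_eq, abs_le]
  show -(29 / 10) ≤ u - 7 / 2 ∧ u - 7 / 2 ≤ 29 / 10
  constructor <;> linarith

lemma ch2_zero {u : ℝ} (h : u ≤ 3 / 10 ∨ 67 / 10 ≤ u) : ch2 u = 0 := by
  refine ch2B.zero_of_le_dist ?_
  rw [Real.dist_eq]
  show 32 / 10 ≤ |u - 7 / 2|
  rcases h with h | h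
  · rw [abs_of_nonpos (by linarith)]
    linarith
  · rw [abs_of_nonneg (by linarith)]
    linarith

lemma ch2_smooth : ContDiff ℝ 1 ch2 := ch2B.contDiff

lemma ch2_compact : HasCompactSupport ch2 := ch2B.hasCompactSupport

lemma ch2_hasDeriv (u : ℝ) : HasDerivAt ch2 (deriv ch2 u) u :=
  (ch2_smooth.differentiable (by norm_num) u).hasDerivAt

lemma ch2_deriv_cont : Continuous (deriv ch2) := ch2_smooth.continuous_deriv (by norm_num)

lemma ch2_deriv_bdd : ∃ D : ℝ, 0 ≤ D ∧ ∀ u, |deriv ch2 u| ≤ D := by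
  obtain ⟨D, hD⟩ := ch2_deriv_cont.bounded_above_of_compact_support ch2_compact.deriv
  exact ⟨D, (norm_nonneg _).trans (hD 0), fun u => hD u⟩

/-! ### the derivative of `Θ` -/

lemma th_smooth {φ Θ : ℝ → ℝ} (h : IsPhi φ Θ) : ContDiff ℝ 1 Θ :=
  h.smooth.of_le (by exact_mod_cast le_top)

lemma th_zero {φ Θ : ℝ → ℝ} (h : IsPhi φ Θ) {x : ℝ} (hx : 1 < x) : deriv Θ x = 0 := by
  have h1 : Θ =ᶠ[𝓝 x] fun _ => (0 : ℝ) := by
    filter_upwards [eventually_gt_nhds hx] with y hy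
    exact h.supp y (hy.le.trans (le_abs_self y))
  rw [h1.deriv_eq, deriv_const]

lemma th_bdd {φ Θ : ℝ → ℝ} (h : IsPhi φ Θ) : ∃ M : ℝ, 0 ≤ M ∧ ∀ x, 0 ≤ x → |deriv Θ x| ≤ M := by
  have hc : Continuous (deriv Θ) := (th_smooth h).continuous_deriv (by norm_num)
  obtain ⟨M, hM⟩ := (isCompact_Icc (a := (0 : ℝ)) (b := 1)).exists_bound_of_continuousOn
    hc.continuousOn
  refine ⟨max M 0, le_max_right _ _, fun x hx0 => ?_⟩
  by_cases hx : 1 < x
  · rw [th_zero h hx, abs_zero]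
    exact le_max_right _ _
  · push Not at hx
    exact (hM x ⟨hx0, hx⟩).trans (le_max_left _ _)

/-! ### the factor `Θ(Gl)/(2 sinh(l/2))` -/

/-- the factor -/
def Bf (Θ : ℝ → ℝ) (G l : ℝ) : ℝ := Θ (G * l) / (2 * Real.sinh (l / 2))

/-- its derivative -/
def Bf1 (Θ : ℝ → ℝ) (G l : ℝ) : ℝ :=
  (deriv Θ (G * l) * G * (2 * Real.sinh (l / 2)) - Θ (G * l) * Real.cosh (l / 2)) /
    (2 * Real.sinh (l / 2)) ^ 2

lemma sh_pos {l : ℝ} (hl : 0 < l) : 0 < Real.sinh (l / 2) := Real.sinh_pos_iff.2 (by linarith)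

lemma Bf_deriv {φ Θ : ℝ → ℝ} (h : IsPhi φ Θ) (G : ℝ) {l : ℝ} (hl : 0 < l) :
    HasDerivAt (Bf Θ G) (Bf1 Θ G l) l := by
  have h1 : HasDerivAt (fun x : ℝ => Θ (G * x)) (deriv Θ (G * l) * G) l := by
    have h2 : HasDerivAt (fun x : ℝ => G * x) G l := by
      simpa using (hasDerivAt_id l).const_mul G
    exact (((th_smooth h).differentiable (by norm_num) (G * l)).hasDerivAt).comp l h2
  have h3 : HasDerivAt (fun x : ℝ => 2 * Real.sinh (x / 2)) (Real.cosh (l / 2)) l := by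
    have h4 := ((Real.hasDerivAt_sinh (l / 2)).comp l ((hasDerivAt_id l).div_const 2)).const_mul 2
    refine h4.congr_deriv ?_
    ring
  have h5 := h1.div h3 (by have := sh_pos hl; positivity)
  exact h5

lemma Bf_cont {φ Θ : ℝ → ℝ} (h : IsPhi φ Θ) (G : ℝ) : ContinuousOn (Bf Θ G) (Ioi 0) :=
  fun _ hl => (Bf_deriv h G hl).continuousAt.continuousWithinAt

lemma Bf1_cont {φ Θ : ℝ → ℝ} (h : IsPhi φ Θ) (G : ℝ) : ContinuousOn (Bf1 Θ G) (Ioi 0) := by
  have hc : Continuous (deriv Θ) := (th_smooth h).continuous_deriv (by norm_num)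
  have hc0 : Continuous Θ := (th_smooth h).continuous
  have h1 : Continuous fun l : ℝ => deriv Θ (G * l) := hc.comp (by fun_prop)
  have h2 : Continuous fun l : ℝ => Θ (G * l) := hc0.comp (by fun_prop)
  have h3 : Continuous fun l : ℝ => 2 * Real.sinh (l / 2) := by fun_prop
  have h4 : Continuous fun l : ℝ => Real.cosh (l / 2) := by fun_prop
  refine ((((h1.mul continuous_const).mul h3).sub (h2.mul h4)).continuousOn).div
    (h3.pow 2).continuousOn fun l hl => ?_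
  have := sh_pos (show 0 < l from hl)
  positivity

lemma Bf_le (hPf : StPf) {Θ : ℝ → ℝ} {M G l : ℝ} (hM0 : 0 ≤ M) (hM : ∀ x, |Θ x| ≤ M)
    (hl : 0 < l) (hl2 : l ≤ 1 / 2) : |Bf Θ G l| ≤ M / l := by
  have h2 := ((hPf l hl).2.2.2 hl2).2.2.2.2.2.2
  have hs := sh_pos hl
  unfold Bf
  rw [abs_div, abs_of_pos (by positivity : (0 : ℝ) < 2 * Real.sinh (l / 2)), div_eq_mul_one_div,
    div_eq_mul_one_div M l]
  exact mul_le_mul (hM _) h2 (by positivity) hM0

lemma cosh_le_two {x : ℝ} (hx0 : 0 ≤ x) (hx : x ≤ 1) : Real.cosh x ≤ 2 := by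
  rw [Real.cosh_eq]
  have h1 : Real.exp x ≤ 2.72 := (Real.exp_le_exp.2 hx).trans
    (by linarith [Real.exp_one_lt_d9])
  have h2 : Real.exp (-x) ≤ 1 := by
    rw [Real.exp_le_one_iff]
    linarith
  linarith

lemma Bf1_le (hPf : StPf) {φ Θ : ℝ → ℝ} (h : IsPhi φ Θ) {M M1 G l : ℝ} (hM : ∀ x, |Θ x| ≤ M)
    (hM1 : ∀ x, 0 ≤ x → |deriv Θ x| ≤ M1) (hM10 : 0 ≤ M1) (hG : 0 < G)
    (hl : 0 < l) (hl2 : l ≤ 1 / 2) : |Bf1 Θ G l| ≤ (M1 + 2 * M) / l ^ 2 := by
  obtain ⟨-, h1, -, -, -, -, h2⟩ := (hPf l hl).2.2.2 hl2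
  have hs := sh_pos hl
  have hM0 : 0 ≤ M := (abs_nonneg _).trans (hM 0)
  have e : Bf1 Θ G l = deriv Θ (G * l) * G * (1 / (2 * Real.sinh (l / 2))) -
      Θ (G * l) * Real.cosh (l / 2) / 2 * (1 / (2 * Real.sinh (l / 2) ^ 2)) := by
    unfold Bf1
    field_simp
  have b1 : |deriv Θ (G * l) * G| ≤ M1 / l := by
    by_cases hc : 1 < G * l
    · rw [th_zero h hc, zero_mul, abs_zero]
      positivity
    · push Not at hc
      rw [abs_mul, abs_of_pos hG, le_div_iff₀ hl]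
      calc |deriv Θ (G * l)| * G * l = |deriv Θ (G * l)| * (G * l) := by ring
        _ ≤ M1 * 1 := mul_le_mul (hM1 _ (by positivity)) hc (by positivity) hM10
        _ = M1 := mul_one _
  have b2 : |Θ (G * l) * Real.cosh (l / 2) / 2| ≤ M := by
    rw [abs_div, abs_mul, abs_of_pos (Real.cosh_pos _), abs_of_pos (by norm_num : (0 : ℝ) < 2),
      div_le_iff₀ (by norm_num)]
    exact mul_le_mul (hM _) (cosh_le_two (by linarith) (by linarith)) (Real.cosh_pos _).le hM0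
  rw [e]
  calc |deriv Θ (G * l) * G * (1 / (2 * Real.sinh (l / 2))) -
        Θ (G * l) * Real.cosh (l / 2) / 2 * (1 / (2 * Real.sinh (l / 2) ^ 2))|
      ≤ |deriv Θ (G * l) * G * (1 / (2 * Real.sinh (l / 2)))| +
        |Θ (G * l) * Real.cosh (l / 2) / 2 * (1 / (2 * Real.sinh (l / 2) ^ 2))| := abs_sub _ _
    _ = |deriv Θ (G * l) * G| * (1 / (2 * Real.sinh (l / 2))) +
        |Θ (G * l) * Real.cosh (l / 2) / 2| * (1 / (2 * Real.sinh (l / 2) ^ 2)) := by
        rw [abs_mul (deriv Θ (G * l) * G), abs_mul (Θ (G * l) * Real.cosh (l / 2) / 2),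
          abs_of_pos (by positivity : (0 : ℝ) < 1 / (2 * Real.sinh (l / 2))),
          abs_of_pos (by positivity : (0 : ℝ) < 1 / (2 * Real.sinh (l / 2) ^ 2))]
    _ ≤ M1 / l * (1 / l) + M * (2 / l ^ 2) :=
        add_le_add (mul_le_mul b1 h2 (by positivity) (by positivity))
          (mul_le_mul b2 h1 (by positivity) hM0)
    _ = (M1 + 2 * M) / l ^ 2 := by
        field_simp

/-! ### the phase below the stationary point -/

lemma p1_low (hPf : StPf) {s T l0 l : ℝ} (hT : 0 < T) (hs : s ≤ 2 * T / Real.pi)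
    (hl : 0 < l) (hl2 : l ≤ 1 / 2) (hl3 : l ≤ 6 / 10 * l0) :
    T / 34 ≤ |p1 s (T * l0 ^ 2) l| := by
  have h1 := ((hPf l hl).2.2.2 hl2).1
  have hpi : 3.14 < Real.pi := Real.pi_gt_d2
  have hs2 : s ≤ 0.64 * T := by
    refine hs.trans ?_
    rw [div_le_iff₀ (by linarith)]
    nlinarith
  have hq : 1 ≤ l0 ^ 2 * (36 / 100) / l ^ 2 := by
    rw [le_div_iff₀ (by positivity)]
    nlinarith
  have hT2 : T ≤ T * (l0 ^ 2 * (36 / 100) / l ^ 2) := le_mul_of_one_le_right hT.le hq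
  have h2 : T * l0 ^ 2 / 2 * (1.9 / l ^ 2) ≤
      T * l0 ^ 2 / 2 * (1 / (2 * Real.sinh (l / 2) ^ 2)) :=
    mul_le_mul_of_nonneg_left h1 (by positivity)
  have h3 : T * l0 ^ 2 / 2 * (1.9 / l ^ 2) = 95 / 36 * (T * (l0 ^ 2 * (36 / 100) / l ^ 2)) := by
    field_simp
    ring
  refine le_trans ?_ (neg_le_abs _)
  unfold p1
  rw [h3] at h2
  linarith

/-- one piece -/
lemma piece (hPf : StPf) (hIP : StIP) {A A1 : ℝ → ℝ} {s T l0 α β c0 c1 : ℝ} (hT : 0 < T)
    (hl0 : 0 < l0) (h7 : 7 * l0 ≤ 1 / 2) (hα : l0 / 5 ≤ α) (hab : α ≤ β) (hβ : β ≤ 7 * l0)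
    (hd : ∀ l ∈ Icc α β, HasDerivAt A (A1 l) l) (hc : ContinuousOn A1 (Icc α β))
    (h0 : ∀ l ∈ Icc α β, |A l| ≤ c0 / l0) (h1 : ∀ l ∈ Icc α β, |A1 l| ≤ c1 / l0 ^ 2)
    (hAα : A α = 0) (hAβ : A β = 0)
    (hp : ∀ l ∈ Icc α β, T / 34 ≤ |p1 s (T * l0 ^ 2) l|) :
    ‖∫ x in α..β, (A x : ℂ) * ee (ph s (T * l0 ^ 2) x)‖ ≤
      7 * (34 * c1 + 34 ^ 2 * 313 * c0) / (T * l0) := by
  have hα0 : 0 < α := lt_of_lt_of_le (by positivity) hα
  have hs : Icc α β ⊆ Ioi 0 := fun x hx => hα0.trans_le hx.1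
  have hn : 0 < T * l0 ^ 2 := by positivity
  have hT34 : 0 < T / 34 := by positivity
  have hne : ∀ l ∈ Icc α β, p1 s (T * l0 ^ 2) l ≠ 0 := fun l hl =>
    abs_pos.1 (hT34.trans_le (hp l hl))
  have hαm : α ∈ Icc α β := ⟨le_rfl, hab⟩
  have hc00 : 0 ≤ c0 := by
    have := (abs_nonneg _).trans (h0 α hαm)
    rwa [le_div_iff₀ hl0, zero_mul] at this
  have hc10 : 0 ≤ c1 := by
    have := (abs_nonneg _).trans (h1 α hαm)
    rwa [le_div_iff₀ (by positivity), zero_mul] at this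
  have key := (hIP α β A A1 (fun _ => 0) (ph s (T * l0 ^ 2)) (p1 s (T * l0 ^ 2))
    (p2 (T * l0 ^ 2)) (fun _ => 0) hab
    (fun x hx => ⟨hd x hx, ph_deriv hPf s _ (hs hx), p1_deriv hPf s _ (hs hx), hne x hx⟩)
    hc ((p2_cont hPf _).mono hs)).1
  rw [hAα, hAβ, abs_zero, zero_div, zero_div, zero_add, zero_add] at key
  refine key.trans ?_
  have hAc : ContinuousOn A (Icc α β) := fun x hx => (hd x hx).continuousAt.continuousWithinAt
  have hcont : ContinuousOn (fun x => |A1 x| / |p1 s (T * l0 ^ 2) x| +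
      |A x| * |p2 (T * l0 ^ 2) x| / p1 s (T * l0 ^ 2) x ^ 2) (Icc α β) := by
    have q1 := (p1_cont hPf s (T * l0 ^ 2)).mono hs
    have q2 := (p2_cont hPf (T * l0 ^ 2)).mono hs
    exact (hc.abs.div q1.abs fun x hx => abs_ne_zero.2 (hne x hx)).add
      ((hAc.abs.mul q2.abs).div (q1.pow 2) fun x hx => pow_ne_zero 2 (hne x hx))
  have hb : ∀ x ∈ Icc α β, |A1 x| / |p1 s (T * l0 ^ 2) x| +
      |A x| * |p2 (T * l0 ^ 2) x| / p1 s (T * l0 ^ 2) x ^ 2 ≤
      (34 * c1 + 34 ^ 2 * 313 * c0) / (T * l0 ^ 2) := by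
    intro x hx
    have hx0 : 0 < x := hs hx
    have hx1 : x ≤ 1 / 2 := hx.2.trans (hβ.trans h7)
    have hx5 : l0 / 5 ≤ x := hα.trans hx.1
    have b1 : |A1 x| / |p1 s (T * l0 ^ 2) x| ≤ 34 * c1 / (T * l0 ^ 2) := by
      calc |A1 x| / |p1 s (T * l0 ^ 2) x| ≤ (c1 / l0 ^ 2) / (T / 34) :=
            div_le_div₀ (by positivity) (h1 x hx) hT34 (hp x hx)
        _ = 34 * c1 / (T * l0 ^ 2) := by
            field_simp
    have b3 : |p2 (T * l0 ^ 2) x| ≤ 313 * T / l0 := by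
      refine (p2_le hPf hn hx0 hx1).trans ?_
      rw [div_le_div_iff₀ (by positivity) hl0]
      have h3 : (l0 / 5) ^ 3 ≤ x ^ 3 := pow_le_pow_left₀ (by positivity) hx5 3
      have h4 : T * (l0 / 5) ^ 3 ≤ T * x ^ 3 := mul_le_mul_of_nonneg_left h3 hT.le
      have h5 : 0 ≤ T * x ^ 3 := by positivity
      calc 5 / 2 * (T * l0 ^ 2) * l0 = 312.5 * (T * (l0 / 5) ^ 3) := by ring
        _ ≤ 312.5 * (T * x ^ 3) := mul_le_mul_of_nonneg_left h4 (by norm_num)
        _ ≤ 313 * T * x ^ 3 := by linarith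
    have b2 : |A x| * |p2 (T * l0 ^ 2) x| / p1 s (T * l0 ^ 2) x ^ 2 ≤
        34 ^ 2 * 313 * c0 / (T * l0 ^ 2) := by
      have hsq : (T / 34) ^ 2 ≤ p1 s (T * l0 ^ 2) x ^ 2 := by
        rw [← sq_abs (p1 s (T * l0 ^ 2) x)]
        exact pow_le_pow_left₀ hT34.le (hp x hx) 2
      calc |A x| * |p2 (T * l0 ^ 2) x| / p1 s (T * l0 ^ 2) x ^ 2 ≤
          (c0 / l0 * (313 * T / l0)) / (T / 34) ^ 2 :=
            div_le_div₀ (by positivity) (mul_le_mul (h0 x hx) b3 (abs_nonneg _) (by positivity))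
              (by positivity) hsq
        _ = 34 ^ 2 * 313 * c0 / (T * l0 ^ 2) := by
            field_simp
    calc _ ≤ 34 * c1 / (T * l0 ^ 2) + 34 ^ 2 * 313 * c0 / (T * l0 ^ 2) := add_le_add b1 b2
      _ = (34 * c1 + 34 ^ 2 * 313 * c0) / (T * l0 ^ 2) := by ring
  have hint : IntervalIntegrable (fun x => |A1 x| / |p1 s (T * l0 ^ 2) x| +
      |A x| * |p2 (T * l0 ^ 2) x| / p1 s (T * l0 ^ 2) x ^ 2) volume α β := by
    refine ContinuousOn.intervalIntegrable ?_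
    rw [uIcc_of_le hab]
    exact hcont
  calc ∫ x in α..β, (|A1 x| / |p1 s (T * l0 ^ 2) x| +
      |A x| * |p2 (T * l0 ^ 2) x| / p1 s (T * l0 ^ 2) x ^ 2)
      ≤ ∫ _x in α..β, (34 * c1 + 34 ^ 2 * 313 * c0) / (T * l0 ^ 2) :=
        intervalIntegral.integral_mono_on hab hint intervalIntegrable_const hb
    _ = (β - α) * ((34 * c1 + 34 ^ 2 * 313 * c0) / (T * l0 ^ 2)) := by
        rw [intervalIntegral.integral_const, smul_eq_mul]
    _ ≤ 7 * l0 * ((34 * c1 + 34 ^ 2 * 313 * c0) / (T * l0 ^ 2)) :=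
        mul_le_mul_of_nonneg_right (by linarith) (by positivity)
    _ = 7 * (34 * c1 + 34 ^ 2 * 313 * c0) / (T * l0) := by
        field_simp

/-- reduction to a compact interval -/
lemma red {g : ℝ → ℂ} {α β : ℝ} (hα : 0 < α) (hab : α ≤ β) (hc : ContinuousOn g (Icc α β))
    (h0 : ∀ l, 0 < l → l ≤ α → g l = 0) (h1 : ∀ l, β < l → g l = 0) :
    IntegrableOn g (Ioi 0) ∧ ∫ l in Ioi (0 : ℝ), g l = ∫ l in α..β, g l := by
  have hi : IntegrableOn g (Ioc α β) := (hc.integrableOn_Icc).mono_set Ioc_subset_Icc_self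
  have hz : ∀ x ∈ Ioi (0 : ℝ) \ Ioc α β, g x = 0 := by
    rintro x ⟨hx, hx2⟩
    by_cases hxα : x ≤ α
    · exact h0 x hx hxα
    · refine h1 x ?_
      by_contra hc2
      exact hx2 ⟨not_le.1 hxα, not_lt.1 hc2⟩
  refine ⟨hi.of_forall_sdiff_eq_zero measurableSet_Ioi hz, ?_⟩
  rw [intervalIntegral.integral_of_le hab]
  exact setIntegral_eq_of_subset_of_forall_sdiff_eq_zero measurableSet_Ioi
    (fun x hx => hα.trans hx.1) hz

/-- integrability of a cut integrand -/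
lemma cutint (hPf : StPf) {φ Θ : ℝ → ℝ} (hΦ : IsPhi φ Θ) {u : ℝ → ℝ} (hu : Continuous u)
    {G s n α β : ℝ} (hα : 0 < α) (hab : α ≤ β) (h0 : ∀ l, l ≤ α → u l = 0)
    (h1 : ∀ l, β ≤ l → u l = 0) :
    IntegrableOn (fun l => ((u l * Θ (G * l) / (2 * Real.sinh (l / 2)) : ℝ) : ℂ) *
      ee (ph s n l)) (Ioi 0) := by
  have hcee : ContinuousOn (fun l => ee (ph s n l)) (Ioi 0) :=
    cont_ee.comp_continuousOn (ph_cont hPf s n)
  have hcΘ : Continuous fun l : ℝ => Θ (G * l) :=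
    hΦ.smooth.continuous.comp (by fun_prop)
  have hcsh : ContinuousOn (fun l : ℝ => 2 * Real.sinh (l / 2)) (Ioi 0) := by fun_prop
  have hshne : ∀ l ∈ Ioi (0 : ℝ), 2 * Real.sinh (l / 2) ≠ 0 := fun l hl => by
    have := sh_pos (show (0 : ℝ) < l from hl)
    positivity
  have hr : ContinuousOn (fun l => u l * Θ (G * l) / (2 * Real.sinh (l / 2))) (Ioi 0) :=
    (hu.mul hcΘ).continuousOn.div hcsh hshne
  have hc : ContinuousOn (fun l => ((u l * Θ (G * l) / (2 * Real.sinh (l / 2)) : ℝ) : ℂ) *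
      ee (ph s n l)) (Ioi 0) :=
    (Complex.continuous_ofReal.comp_continuousOn hr).mul hcee
  refine (red hα hab (hc.mono fun x hx => hα.trans_le hx.1) (fun l _ hl => ?_) fun l hl => ?_).1
  · simp only [h0 l hl]
    simp
  · simp only [h1 l hl.le]
    simp

/-- the difference of two cut integrals -/
lemma cutdiff (hPf : StPf) {φ Θ : ℝ → ℝ} (hΦ : IsPhi φ Θ) {u v : ℝ → ℝ} (hu : Continuous u)
    (hv : Continuous v) {G s n α β : ℝ} (hα : 0 < α) (hab : α ≤ β)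
    (h0 : ∀ l, l ≤ α → u l = 0 ∧ v l = 0) (h1 : ∀ l, β ≤ l → u l = 0 ∧ v l = 0) :
    (∫ l in Ioi (0 : ℝ), ((u l * Θ (G * l) / (2 * Real.sinh (l / 2)) : ℝ) : ℂ) *
      ee (ph s n l)) - (∫ l in Ioi (0 : ℝ), ((v l * Θ (G * l) / (2 * Real.sinh (l / 2)) : ℝ) : ℂ) *
      ee (ph s n l)) = ∫ l in α..β, (((u l - v l) * Bf Θ G l : ℝ) : ℂ) * ee (ph s n l) := by
  have hcee : ContinuousOn (fun l => ee (ph s n l)) (Ioi 0) :=
    cont_ee.comp_continuousOn (ph_cont hPf s n)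
  have hr : ContinuousOn (fun l => (u l - v l) * Bf Θ G l) (Ioi 0) :=
    (hu.sub hv).continuousOn.mul (Bf_cont hΦ G)
  have hc : ContinuousOn (fun l => (((u l - v l) * Bf Θ G l : ℝ) : ℂ) * ee (ph s n l)) (Ioi 0) :=
    (Complex.continuous_ofReal.comp_continuousOn hr).mul hcee
  have hred := red hα hab (hc.mono fun x hx => hα.trans_le hx.1)
    (fun l _ hl => by simp only [(h0 l hl).1, (h0 l hl).2]; simp)
    (fun l hl => by simp only [(h1 l hl.le).1, (h1 l hl.le).2]; simp)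
  rw [← hred.2, ← integral_sub (cutint hPf hΦ hu hα hab (fun l hl => (h0 l hl).1)
    fun l hl => (h1 l hl).1) (cutint hPf hΦ hv hα hab (fun l hl => (h0 l hl).2)
    fun l hl => (h1 l hl).2)]
  refine integral_congr_ae (Eventually.of_forall fun l => ?_)
  simp only [Bf]
  push_cast
  ring

/-- splitting at two points -/
lemma split3 {F : ℝ → ℂ} {l0 : ℝ} (hl0 : 0 < l0) (hFc : ContinuousOn F (Ioi 0))
    (hz : ∀ l, 6 / 10 * l0 ≤ l → l ≤ 9 / 2 * l0 → F l = 0) :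
    ∫ l in (l0 / 5)..(7 * l0), F l = (∫ l in (l0 / 5)..(6 / 10 * l0), F l) +
      ∫ l in (9 / 2 * l0)..(7 * l0), F l := by
  have hii : ∀ a b, l0 / 5 ≤ a → a ≤ b → IntervalIntegrable F volume a b := by
    intro a b ha hb
    refine ContinuousOn.intervalIntegrable ?_
    rw [uIcc_of_le hb]
    exact hFc.mono fun x hx => lt_of_lt_of_le (by positivity) (ha.trans hx.1)
  have hmid : ∫ l in (6 / 10 * l0)..(9 / 2 * l0), F l = 0 := by
    have : ∫ l in (6 / 10 * l0)..(9 / 2 * l0), F l =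
        ∫ l in (6 / 10 * l0)..(9 / 2 * l0), (0 : ℂ) := by
      refine intervalIntegral.integral_congr fun l hl => ?_
      rw [uIcc_of_le (by linarith)] at hl
      exact hz l hl.1 hl.2
    rw [this, intervalIntegral.integral_zero]
  rw [← intervalIntegral.integral_add_adjacent_intervals (hii (l0 / 5) (6 / 10 * l0) le_rfl
    (by linarith)) (hii (6 / 10 * l0) (7 * l0) (by linarith) (by linarith)),
    ← intervalIntegral.integral_add_adjacent_intervals (hii (6 / 10 * l0) (9 / 2 * l0)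
    (by linarith) (by linarith)) (hii (9 / 2 * l0) (7 * l0) (by linarith) (by linarith)),
    hmid, zero_add]

end Cx_aux

open Cx_aux in
open Pool.Agent.Work.MP_56b8f5_nt.UB.Dn_aux in
/-- Item Cx. -/
theorem iCx (hPf : UB.StPf) (hIP : UB.StIP) : StCx := by
  intro φ Θ hΦ C' hC'
  obtain ⟨D, hD0, hD⟩ := ch_deriv_bdd
  obtain ⟨D2, hD20, hD2⟩ := ch2_deriv_bdd
  obtain ⟨M, hM0, hM⟩ := theta_bdd hΦ
  obtain ⟨M1, hM10, hM1⟩ := th_bdd hΦ
  set c0 : ℝ := 5 * M with hc0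
  set c1 : ℝ := 5 * M * (D + 2 * D2) + 25 * (M1 + 2 * M) with hc1
  have hc00 : 0 ≤ c0 := by positivity
  have hc10 : 0 ≤ c1 := by positivity
  have hpos1 : 0 ≤ 14 * (34 * c1 + 34 ^ 2 * 313 * c0) := by positivity
  refine ⟨2 + 14 * C' + 14 * (34 * c1 + 34 ^ 2 * 313 * c0), by linarith, ?_⟩
  intro T G N s n hCT hCG hG2 hs hN hNn hn2N hNG
  have hT : 0 < T := by linarith
  have hG : 2 ≤ G := by linarith
  have hG0 : 0 < G := by linarith
  have hG14 : 14 * C' ≤ G := by linarith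
  have hn0 : (0 : ℝ) < n := by linarith
  have hN0 : 0 < N := by linarith
  set l0 : ℝ := Real.sqrt ((n : ℝ) / T) with hl0d
  set l1 : ℝ := Real.sqrt (N / T) with hl1d
  have hl0 : 0 < l0 := Real.sqrt_pos.2 (by positivity)
  have hl1 : 0 < l1 := Real.sqrt_pos.2 (by positivity)
  have hl0sq : l0 ^ 2 = (n : ℝ) / T := Real.sq_sqrt (by positivity)
  have hl1sq : l1 ^ 2 = N / T := Real.sq_sqrt (by positivity)
  have hn2 : T * l0 ^ 2 = (n : ℝ) := by
    rw [hl0sq]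
    field_simp
  have h10 : l1 ≤ l0 := Real.sqrt_le_sqrt (div_le_div_of_nonneg_right hNn hT.le)
  have h01 : l0 ^ 2 ≤ 2 * l1 ^ 2 := by
    rw [hl0sq, hl1sq]
    calc (n : ℝ) / T ≤ 2 * N / T := div_le_div_of_nonneg_right hn2N hT.le
      _ = 2 * (N / T) := by ring
  have hr1 : 4.5 * l0 ≤ 6.4 * l1 := by
    refine (pow_le_pow_iff_left₀ (by positivity) (by positivity) (two_ne_zero)).1 ?_
    have e1 : (4.5 * l0) ^ 2 = 20.25 * l0 ^ 2 := by ring
    have e2 : (6.4 * l1) ^ 2 = 40.96 * l1 ^ 2 := by ring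
    rw [e1, e2]
    linarith [sq_nonneg l1]
  have hr2 : 0.2 * l0 ≤ 0.3 * l1 := by
    refine (pow_le_pow_iff_left₀ (by positivity) (by positivity) (two_ne_zero)).1 ?_
    have e1 : (0.2 * l0) ^ 2 = 0.04 * l0 ^ 2 := by ring
    have e2 : (0.3 * l1) ^ 2 = 0.09 * l1 ^ 2 := by ring
    rw [e1, e2]
    linarith [sq_nonneg l1]
  have h7 : 7 * l0 ≤ 1 / 2 := by
    have h1 : l0 ^ 2 ≤ (1 / 14) ^ 2 := by
      rw [hl0sq, div_le_iff₀ hT]
      refine (hn2N.trans hNG).trans ?_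
      rw [div_le_iff₀ (by positivity)]
      have h2 : (14 * C') ^ 2 ≤ G ^ 2 := pow_le_pow_left₀ (by positivity) hG14 2
      have h3 : 196 * C' ≤ G ^ 2 := by
        have e1 : (14 * C') ^ 2 = 196 * (C' * C') := by ring
        have e2 : C' ≤ C' * C' := le_mul_of_one_le_right (by linarith) hC'
        linarith
      have h4 := mul_le_mul_of_nonneg_right h3 hT.le
      linarith
    have := (pow_le_pow_iff_left₀ hl0.le (by norm_num) (by norm_num)).1 h1
    linarith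
  obtain ⟨hs1, hs2⟩ := hs
  set A : ℝ → ℝ := fun l => (ch (l / l0) - ch2 (l / l1)) * Bf Θ G l with hA
  set A1 : ℝ → ℝ := fun l => (deriv ch (l / l0) / l0 - deriv ch2 (l / l1) / l1) * Bf Θ G l +
    (ch (l / l0) - ch2 (l / l1)) * Bf1 Θ G l with hA1
  have hAd : ∀ l, 0 < l → HasDerivAt A (A1 l) l := by
    intro l hl
    have h1 : HasDerivAt (fun x => ch (x / l0)) (deriv ch (l / l0) * (1 / l0)) l :=
      (ch_hasDeriv (l / l0)).comp l ((hasDerivAt_id l).div_const l0)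
    have h2 : HasDerivAt (fun x => ch2 (x / l1)) (deriv ch2 (l / l1) * (1 / l1)) l :=
      (ch2_hasDeriv (l / l1)).comp l ((hasDerivAt_id l).div_const l1)
    have h3 := (h1.sub h2).mul (Bf_deriv hΦ G hl)
    refine h3.congr_deriv ?_
    simp only [hA1, Pi.sub_apply]
    ring
  have hcch : Continuous fun l : ℝ => ch (l / l0) := ch_smooth.continuous.comp (by fun_prop)
  have hcch2 : Continuous fun l : ℝ => ch2 (l / l1) := ch2_smooth.continuous.comp (by fun_prop)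
  have hA1c : ContinuousOn A1 (Ioi 0) := by
    have h1 : Continuous fun l : ℝ => deriv ch (l / l0) := ch_deriv_cont.comp (by fun_prop)
    have h2 : Continuous fun l : ℝ => deriv ch2 (l / l1) := ch2_deriv_cont.comp (by fun_prop)
    exact (((h1.div_const _).sub (h2.div_const _)).continuousOn.mul (Bf_cont hΦ G)).add
      ((hcch.sub hcch2).continuousOn.mul (Bf1_cont hΦ G))
  have hch : ∀ l, |ch (l / l0) - ch2 (l / l1)| ≤ 1 := by
    intro l
    rw [abs_le]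
    constructor <;> linarith [ch_nonneg (l / l0), ch_le (l / l0), ch2_nonneg (l / l1),
      ch2_le (l / l1)]
  have hinv : ∀ l, l0 / 5 ≤ l → 1 / l ≤ 5 / l0 := by
    intro l hl
    have hl' : 0 < l := lt_of_lt_of_le (by positivity) hl
    rw [div_le_div_iff₀ hl' hl0]
    linarith
  have hBf : ∀ l, l0 / 5 ≤ l → l ≤ 1 / 2 → |Bf Θ G l| ≤ c0 / l0 := by
    intro l hl hl2
    have hl' : 0 < l := lt_of_lt_of_le (by positivity) hl
    calc |Bf Θ G l| ≤ M / l := Bf_le hPf hM0 hM hl' hl2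
      _ = M * (1 / l) := by ring
      _ ≤ M * (5 / l0) := mul_le_mul_of_nonneg_left (hinv l hl) hM0
      _ = c0 / l0 := by rw [hc0]; ring
  have hA0b : ∀ l, l0 / 5 ≤ l → l ≤ 1 / 2 → |A l| ≤ c0 / l0 := by
    intro l hl hl2
    simp only [hA]
    rw [abs_mul]
    calc |ch (l / l0) - ch2 (l / l1)| * |Bf Θ G l| ≤ 1 * (c0 / l0) :=
          mul_le_mul (hch l) (hBf l hl hl2) (abs_nonneg _) zero_le_one
      _ = c0 / l0 := one_mul _
  have hA1b : ∀ l, l0 / 5 ≤ l → l ≤ 1 / 2 → |A1 l| ≤ c1 / l0 ^ 2 := by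
    intro l hl hl2
    have hl' : 0 < l := lt_of_lt_of_le (by positivity) hl
    have hinv1 : 1 / l1 ≤ 2 / l0 := by
      rw [div_le_div_iff₀ hl1 hl0]
      norm_num at hr1 ⊢
      linarith
    have b1 : |deriv ch (l / l0) / l0 - deriv ch2 (l / l1) / l1| ≤ (D + 2 * D2) / l0 := by
      calc |deriv ch (l / l0) / l0 - deriv ch2 (l / l1) / l1|
          ≤ |deriv ch (l / l0) / l0| + |deriv ch2 (l / l1) / l1| := abs_sub _ _
        _ = |deriv ch (l / l0)| / l0 + |deriv ch2 (l / l1)| * (1 / l1) := by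
            rw [abs_div, abs_div, abs_of_pos hl0, abs_of_pos hl1]
            ring
        _ ≤ D / l0 + D2 * (2 / l0) :=
            add_le_add (div_le_div_of_nonneg_right (hD _) hl0.le)
              (mul_le_mul (hD2 _) hinv1 (by positivity) hD20)
        _ = (D + 2 * D2) / l0 := by ring
    have b2 : |Bf1 Θ G l| ≤ 25 * (M1 + 2 * M) / l0 ^ 2 := by
      calc |Bf1 Θ G l| ≤ (M1 + 2 * M) / l ^ 2 :=
            Bf1_le hPf hΦ hM hM1 hM10 hG0 hl' hl2
        _ = (M1 + 2 * M) * (1 / l) ^ 2 := by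
            rw [one_div, inv_pow]
            ring
        _ ≤ (M1 + 2 * M) * (5 / l0) ^ 2 :=
            mul_le_mul_of_nonneg_left (pow_le_pow_left₀ (by positivity) (hinv l hl) 2)
              (by positivity)
        _ = 25 * (M1 + 2 * M) / l0 ^ 2 := by
            rw [div_pow]
            ring
    simp only [hA1]
    calc |(deriv ch (l / l0) / l0 - deriv ch2 (l / l1) / l1) * Bf Θ G l +
          (ch (l / l0) - ch2 (l / l1)) * Bf1 Θ G l|
        ≤ |(deriv ch (l / l0) / l0 - deriv ch2 (l / l1) / l1) * Bf Θ G l| +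
          |(ch (l / l0) - ch2 (l / l1)) * Bf1 Θ G l| := abs_add_le _ _
      _ = |deriv ch (l / l0) / l0 - deriv ch2 (l / l1) / l1| * |Bf Θ G l| +
          |ch (l / l0) - ch2 (l / l1)| * |Bf1 Θ G l| := by rw [abs_mul, abs_mul]
      _ ≤ (D + 2 * D2) / l0 * (c0 / l0) + 1 * (25 * (M1 + 2 * M) / l0 ^ 2) :=
          add_le_add (mul_le_mul b1 (hBf l hl hl2) (abs_nonneg _) (by positivity))
            (mul_le_mul (hch l) b2 (abs_nonneg _) zero_le_one)
      _ = c1 / l0 ^ 2 := by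
          rw [hc0, hc1]
          field_simp
  -- zeros of the cutoff difference
  have hz1 : ∀ l, l ≤ l0 / 5 → ch (l / l0) = 0 ∧ ch2 (l / l1) = 0 := by
    intro l hl
    constructor
    · refine ch_zero (Or.inl ?_)
      rw [div_le_iff₀ hl0]
      linarith
    · refine ch2_zero (Or.inl ?_)
      rw [div_le_iff₀ hl1]
      norm_num at hr2 ⊢
      linarith
  have hz2 : ∀ l, 7 * l0 ≤ l → ch (l / l0) = 0 ∧ ch2 (l / l1) = 0 := by
    intro l hl
    constructor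
    · refine ch_zero (Or.inr ?_)
      rw [le_div_iff₀ hl0]
      linarith
    · refine ch2_zero (Or.inr ?_)
      rw [le_div_iff₀ hl1]
      linarith
  have hzm : ∀ l, 6 / 10 * l0 ≤ l → l ≤ 9 / 2 * l0 → A l = 0 := by
    intro l h1 h2
    simp only [hA]
    rw [ch_one, ch2_one, sub_self, zero_mul]
    · rw [le_div_iff₀ hl1]
      linarith
    · rw [div_le_iff₀ hl1]
      norm_num at hr1 ⊢
      linarith
    · rw [le_div_iff₀ hl0]
      linarith
    · rw [div_le_iff₀ hl0]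
      linarith
  -- the two integrals
  have hdec : JJ Θ T G n s - JX Θ T G N n s =
      ∫ l in (l0 / 5)..(7 * l0), (A l : ℂ) * ee (ph s n l) :=
    cutdiff hPf hΦ hcch hcch2 (by positivity) (by linarith) hz1 hz2
  have hFc : ContinuousOn (fun l => (A l : ℂ) * ee (ph s n l)) (Ioi 0) :=
    (Complex.continuous_ofReal.comp_continuousOn
      fun l hl => (hAd l hl).continuousAt.continuousWithinAt).mul
      (cont_ee.comp_continuousOn (ph_cont hPf s n))
  have hsplit := split3 hl0 hFc fun l h1 h2 => by simp only [hzm l h1 h2]; simp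
  have hp1 : ‖∫ l in (l0 / 5)..(6 / 10 * l0), (A l : ℂ) * ee (ph s n l)‖ ≤
      7 * (34 * c1 + 34 ^ 2 * 313 * c0) / (T * l0) := by
    have h := piece hPf hIP (A := A) (A1 := A1) (s := s) (α := l0 / 5) (β := 6 / 10 * l0) hT hl0 h7
      le_rfl (by linarith) (by linarith)
      (fun l hl => hAd l (lt_of_lt_of_le (by positivity) hl.1))
      (hA1c.mono fun l hl => lt_of_lt_of_le (by positivity) hl.1)
      (fun l hl => hA0b l hl.1 (by linarith [hl.2])) (fun l hl => hA1b l hl.1 (by linarith [hl.2]))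
      (by simp only [hA, (hz1 _ le_rfl).1, (hz1 _ le_rfl).2]; simp)
      (hzm _ le_rfl (by linarith))
      (fun l hl => p1_low hPf hT hs2 (lt_of_lt_of_le (by positivity) hl.1) (by linarith [hl.2])
        hl.2)
    rw [hn2] at h
    exact h
  have hp2 : ‖∫ l in (9 / 2 * l0)..(7 * l0), (A l : ℂ) * ee (ph s n l)‖ ≤
      7 * (34 * c1 + 34 ^ 2 * 313 * c0) / (T * l0) := by
    have h := piece hPf hIP (A := A) (A1 := A1) (s := s) (α := 9 / 2 * l0) (β := 7 * l0) hT hl0 h7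
      (by linarith) (by linarith) le_rfl
      (fun l hl => hAd l (lt_of_lt_of_le (by positivity) hl.1))
      (hA1c.mono fun l hl => lt_of_lt_of_le (by positivity) hl.1)
      (fun l hl => hA0b l (by linarith [hl.1]) (by linarith [hl.2]))
      (fun l hl => hA1b l (by linarith [hl.1]) (by linarith [hl.2]))
      (hzm _ (by linarith) le_rfl)
      (by simp only [hA, (hz2 _ le_rfl).1, (hz2 _ le_rfl).2]; simp)
      (fun l hl => p1_far hPf hT hs1 hl0 (lt_of_lt_of_le (by positivity) hl.1)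
        (by linarith [hl.2]) (by linarith [hl.1]))
    rw [hn2] at h
    exact h
  have hsq : Real.sqrt (N * T) ≤ T * l0 := by
    have e1 : T * l0 = Real.sqrt ((n : ℝ) * T) := by
      rw [← hn2]
      have : T * l0 ^ 2 * T = (T * l0) ^ 2 := by ring
      rw [this, Real.sqrt_sq (by positivity)]
    rw [e1]
    exact Real.sqrt_le_sqrt (mul_le_mul_of_nonneg_right hNn hT.le)
  have hsq0 : 0 < Real.sqrt (N * T) := Real.sqrt_pos.2 (by positivity)
  rw [hdec, hsplit]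
  calc _ ≤ 7 * (34 * c1 + 34 ^ 2 * 313 * c0) / (T * l0) +
        7 * (34 * c1 + 34 ^ 2 * 313 * c0) / (T * l0) :=
        (norm_add_le _ _).trans (add_le_add hp1 hp2)
    _ = 14 * (34 * c1 + 34 ^ 2 * 313 * c0) / (T * l0) := by ring
    _ ≤ 14 * (34 * c1 + 34 ^ 2 * 313 * c0) / Real.sqrt (N * T) :=
        div_le_div_of_nonneg_left hpos1 hsq0 hsq
    _ ≤ (2 + 14 * C' + 14 * (34 * c1 + 34 ^ 2 * 313 * c0)) / Real.sqrt (N * T) :=
        div_le_div_of_nonneg_right (by linarith) hsq0.le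

end Pool.Agent.Work.MP_56b8f5_nt.UT
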