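import Mathlib
import Pool.Agent.Work.MP_56b8f5_nt.UT.Stmts

/-! MP_56b8f5_nt, block UT, item FD: differences of `b ↦ FF(ab,s) + θ b`. -/

open MeasureTheory Set Filter Topology

noncomputable section

namespace Pool.Agent.Work.MP_56b8f5_nt.UT

open Pool.Agent.Work.MP_56b8f5_nt.UB

namespace FD_aux

/-- the tower -/
def Fk (G : ℕ → ℝ → ℝ) (s B θ a : ℝ) : ℕ → ℝ → ℝ
  | 0, b => FF (a * b) s + θ * b
  | 1, b => a * (Real.sqrt (1 + 4 * s / (a * b)) / 2) + θ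
  | (i + 2), b => -(1 / 2) * (Real.sqrt (a * B * s) / B ^ (i + 2)) * G i (b / B)

lemma key (s B a y : ℝ) (hs : 0 < s) (hB : 0 < B) (ha : 0 < a) (hy : 0 < y) :
    a * (-(s / ((a * y) ^ 2 * Real.sqrt (1 + 4 * s / (a * y)))) * a) =
      -(1 / 2) * (Real.sqrt (a * B * s) / B ^ (0 + 2)) *
        ((y / B) ^ (-(3 / 2) : ℝ) * (1 + a * B / (4 * s) * (y / B) ^ (1 : ℝ)) ^ (-(1 / 2) : ℝ)) := by
  obtain ⟨p, hp, rfl⟩ : ∃ p : ℝ, 0 < p ∧ a = p ^ 2 :=
    ⟨Real.sqrt a, Real.sqrt_pos.2 ha, (Real.sq_sqrt ha.le).symm⟩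
  obtain ⟨q, hq, rfl⟩ : ∃ q : ℝ, 0 < q ∧ s = q ^ 2 :=
    ⟨Real.sqrt s, Real.sqrt_pos.2 hs, (Real.sq_sqrt hs.le).symm⟩
  obtain ⟨r, hr, rfl⟩ : ∃ r : ℝ, 0 < r ∧ B = r ^ 2 :=
    ⟨Real.sqrt B, Real.sqrt_pos.2 hB, (Real.sq_sqrt hB.le).symm⟩
  obtain ⟨t, ht, rfl⟩ : ∃ t : ℝ, 0 < t ∧ y = t ^ 2 :=
    ⟨Real.sqrt y, Real.sqrt_pos.2 hy, (Real.sq_sqrt hy.le).symm⟩
  set u : ℝ := Real.sqrt (1 + p ^ 2 * t ^ 2 / (4 * q ^ 2)) with hu
  have hu0 : 0 < u := Real.sqrt_pos.2 (by positivity)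
  have e1 : Real.sqrt (1 + 4 * q ^ 2 / (p ^ 2 * t ^ 2)) = 2 * q / (p * t) * u := by
    have h2 : 1 + 4 * q ^ 2 / (p ^ 2 * t ^ 2) = (2 * q / (p * t)) ^ 2 * (1 + p ^ 2 * t ^ 2 / (4 * q ^ 2)) := by
      field_simp
      ring
    rw [h2, Real.sqrt_mul (by positivity), Real.sqrt_sq (by positivity)]
  have e2 : Real.sqrt (p ^ 2 * r ^ 2 * q ^ 2) = p * r * q := by
    rw [show p ^ 2 * r ^ 2 * q ^ 2 = (p * r * q) ^ 2 by ring, Real.sqrt_sq (by positivity)]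
  have e3 : (t ^ 2 / r ^ 2) ^ (-(3 / 2) : ℝ) = ((t / r) ^ 3)⁻¹ := by
    rw [show t ^ 2 / r ^ 2 = (t / r) ^ 2 by ring, Real.rpow_neg (by positivity)]
    congr 1
    rw [← Real.rpow_natCast (t / r) 2, ← Real.rpow_mul (by positivity)]
    rw [← Real.rpow_natCast (t / r) 3]
    congr 1
    norm_num
  have e4 : (1 + p ^ 2 * r ^ 2 / (4 * q ^ 2) * (t ^ 2 / r ^ 2) ^ (1 : ℝ)) ^ (-(1 / 2) : ℝ) = u⁻¹ := by
    rw [Real.rpow_one, Real.rpow_neg (by positivity), ← Real.sqrt_eq_rpow, hu]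
    congr 3
    field_simp
  rw [e1, e2, e3, e4]
  field_simp
  ring

lemma d0 (hFn : StFn) (G : ℕ → ℝ → ℝ) (s B θ a y : ℝ) (hs : 0 < s) (ha : 0 < a) (hy : 0 < y) :
    HasDerivAt (Fk G s B θ a 0) (Fk G s B θ a 1 y) y := by
  have h1 := (hFn s (a * y) hs (by positivity)).1
  have h2 : HasDerivAt (fun x : ℝ => a * x) (a * 1) y := (hasDerivAt_id y).const_mul a
  have h3 := h1.comp y h2
  have h4 : HasDerivAt (fun x : ℝ => θ * x) (θ * 1) y := (hasDerivAt_id y).const_mul θ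
  have h5 := h3.add h4
  refine (h5.congr_deriv ?_).congr_of_eventuallyEq ?_
  · simp only [Fk]
    ring
  · exact Filter.Eventually.of_forall fun x => by simp [Fk]

lemma d1 (hFn : StFn) (G : ℕ → ℝ → ℝ) (s B θ a y : ℝ) (hs : 0 < s) (hB : 0 < B) (ha : 0 < a) (hy : 0 < y)
    (hG : G 0 (y / B) = (y / B) ^ (-(3 / 2) : ℝ) *
      (1 + a * B / (4 * s) * (y / B) ^ (1 : ℝ)) ^ (-(1 / 2) : ℝ)) :
    HasDerivAt (Fk G s B θ a 1) (Fk G s B θ a 2 y) y := by
  have h1 := (hFn s (a * y) hs (by positivity)).2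
  have h2 : HasDerivAt (fun x : ℝ => a * x) (a * 1) y := (hasDerivAt_id y).const_mul a
  have h3 := ((h1.comp y h2).const_mul a).add_const θ
  refine (h3.congr_deriv ?_).congr_of_eventuallyEq ?_
  · have hk := key s B a y hs hB ha hy
    simp only [Fk, hG]
    rw [← hk]
    ring
  · exact Filter.Eventually.of_forall fun x => by simp [Fk]

lemma d2 (G : ℕ → ℝ → ℝ) (s B θ a y : ℝ) (hB : 0 < B) (i : ℕ)
    (hG : HasDerivAt (G i) (G (i + 1) (y / B)) (y / B)) :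
    HasDerivAt (Fk G s B θ a (i + 2)) (Fk G s B θ a (i + 3) y) y := by
  have h2 : HasDerivAt (fun x : ℝ => x / B) (1 / B) y := (hasDerivAt_id y).div_const B
  have h3 := (hG.comp y h2).const_mul (-(1 / 2) * (Real.sqrt (a * B * s) / B ^ (i + 2)))
  refine (h3.congr_deriv ?_).congr_of_eventuallyEq ?_
  · simp only [Fk]
    rw [show i + 3 = (i + 2) + 1 from rfl, pow_succ]
    field_simp
    ring
  · exact Filter.Eventually.of_forall fun x => by simp [Fk]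

end FD_aux

open FD_aux in
theorem iFD (hFn : StFn) (hTW : StTW) (hMD : StMD) : StFD := by
  intro k
  obtain ⟨ε0, c, C, hε0, hc, hcC, H⟩ := hTW (3 / 2) 1 (by norm_num) k
  refine ⟨c / 2, max (C / 2) (max 1 (1 / (4 * ε0))), by positivity,
    le_trans (le_max_left _ _) (le_max_right _ _), ?_⟩
  intro s B θ a n ha hB hs hn1 hn2
  have haR : (1 : ℝ) ≤ (a : ℝ) := by exact_mod_cast ha
  have ha0 : (0 : ℝ) < (a : ℝ) := by linarith
  have hB0 : 0 < B := by linarith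
  have haB : 0 < (a : ℝ) * B := by positivity
  have hM1 : (1 : ℝ) ≤ max (C / 2) (max 1 (1 / (4 * ε0))) :=
    le_trans (le_max_left _ _) (le_max_right _ _)
  have hM2 : 1 / (4 * ε0) ≤ max (C / 2) (max 1 (1 / (4 * ε0))) :=
    le_trans (le_max_right _ _) (le_max_right _ _)
  have hs0 : 0 < s := lt_of_lt_of_le (by positivity) (le_trans (mul_le_mul_of_nonneg_right hM1 haB.le) hs)
  have hε1 : (a : ℝ) * B / (4 * s) ≤ ε0 := by
    have h1 : 1 / (4 * ε0) * ((a : ℝ) * B) ≤ s := le_trans (mul_le_mul_of_nonneg_right hM2 haB.le) hs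
    rw [div_le_iff₀ (by positivity)]
    have h2 : (a : ℝ) * B ≤ s * (4 * ε0) := by
      rw [div_mul_eq_mul_div, one_mul, div_le_iff₀ (by positivity)] at h1
      exact h1
    nlinarith
  obtain ⟨G, hG0, hGd, hGk⟩ := H ((a : ℝ) * B / (4 * s)) (by positivity) hε1
  have hmem : ∀ y ∈ Icc (B / 2) (3 * B), y / B ∈ Icc (1 / 4 : ℝ) 4 := by
    intro y hy
    constructor
    · rw [le_div_iff₀ hB0]; linarith [hy.1]
    · rw [div_le_iff₀ hB0]; linarith [hy.2]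
  have hpos : ∀ y ∈ Icc (B / 2) (3 * B), 0 < y := fun y hy => by linarith [hy.1]
  have hder : ∀ i < k + 2, ∀ y ∈ Icc (B / 2) (3 * B),
      HasDerivAt (Fk G s B θ a i) (Fk G s B θ a (i + 1) y) y := by
    intro i hi y hy
    match i, hi with
    | 0, _ => exact d0 hFn G s B θ a y hs0 ha0 (hpos y hy)
    | 1, _ =>
      exact d1 hFn G s B θ a y hs0 hB0 ha0 (hpos y hy) (hG0 (y / B) (hmem y hy))
    | (i + 2), hi => exact d2 G s B θ a y hB0 i (hGd i (by omega) (y / B) (hmem y hy))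
  set R : ℝ := Real.sqrt ((a : ℝ) * B * s) / B ^ (k + 2) with hR
  have hR0 : 0 ≤ R := by positivity
  have hCm : C / 2 ≤ max (C / 2) (max 1 (1 / (4 * ε0))) := le_max_left _ _
  have hb : ∀ y ∈ Icc (B / 2) (3 * B), c / 2 * R ≤ (-1) ^ (k + 1) * Fk G s B θ a (k + 2) y ∧
      (-1) ^ (k + 1) * Fk G s B θ a (k + 2) y ≤ C / 2 * R := by
    intro y hy
    have h := hGk (y / B) (hmem y hy)
    have e : (-1) ^ (k + 1) * Fk G s B θ a (k + 2) y = 1 / 2 * R * ((-1) ^ k * G k (y / B)) := by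
      simp only [Fk, hR]
      rw [pow_succ]
      ring
    rw [e]
    constructor
    · nlinarith [mul_le_mul_of_nonneg_left h.1 hR0]
    · nlinarith [mul_le_mul_of_nonneg_left h.2 hR0]
  have hn2' : (n : ℝ) + ((k + 2 : ℕ) : ℝ) ≤ 3 * B := by push_cast; linarith
  rcases neg_one_pow_eq_or ℝ (k + 1) with h1 | h1
  · have := hMD (k + 2) (Fk G s B θ a) (B / 2) (3 * B) (c / 2 * R) (C / 2 * R) hder
      (fun y hy => by have := hb y hy; rw [h1] at this; constructor <;> linarith [this.1, this.2])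
      n hn1 hn2'
    simp only [Fk] at this
    rw [h1]
    constructor
    · linarith [this.1]
    · have h3 : C / 2 * R ≤ max (C / 2) (max 1 (1 / (4 * ε0))) * R := mul_le_mul_of_nonneg_right hCm hR0
      linarith [this.2]
  · have := hMD (k + 2) (Fk G s B θ a) (B / 2) (3 * B) (-(C / 2 * R)) (-(c / 2 * R)) hder
      (fun y hy => by have := hb y hy; rw [h1] at this; constructor <;> linarith [this.1, this.2])
      n hn1 hn2'
    simp only [Fk] at this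
    rw [h1]
    constructor
    · linarith [this.2]
    · have h3 : C / 2 * R ≤ max (C / 2) (max 1 (1 / (4 * ε0))) * R := mul_le_mul_of_nonneg_right hCm hR0
      linarith [this.1]

end Pool.Agent.Work.MP_56b8f5_nt.UT
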