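import Pool.Agent.Work.MP_56b8f5_nt.UT.Stmts

/-!
MP_56b8f5_nt, block UT, item Fd: range II.  Author: helper91.
-/

open MeasureTheory Set Filter Topology

noncomputable section

namespace Pool.Agent.Work.MP_56b8f5_nt.UT

open Pool.Agent.Work.MP_56b8f5_nt.UB

namespace Fd_aux

theorem ev_rpow (A c : ℝ) (hc : 0 < c) : ∀ᶠ T : ℝ in atTop, A ≤ T ^ c :=
  (tendsto_rpow_atTop hc).eventually_ge_atTop A

/-- the thresholds -/
theorem thr (CF CH σ : ℝ) (hσ : 0 < σ) : ∃ T0 : ℝ, 2 ≤ T0 ∧ ∀ T : ℝ, T0 ≤ T →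
    136 * CF ≤ T ^ (1 / 4000 : ℝ) ∧ 16 * CH ≤ T ^ (1 / 2 : ℝ) ∧
    4 * CF ^ 2 * CH ≤ T ^ (σ / 250) := by
  have h := (ev_rpow (136 * CF) (1 / 4000) (by norm_num)).and
    ((ev_rpow (16 * CH) (1 / 2) (by norm_num)).and
      (ev_rpow (4 * CF ^ 2 * CH) (σ / 250) (by positivity)))
  obtain ⟨T0, hT0⟩ := eventually_atTop.1 h
  exact ⟨max T0 2, le_max_right _ _, fun T hT => hT0 T (le_trans (le_max_left _ _) hT)⟩

theorem pw {T : ℝ} (hT : 0 < T) (a : ℝ) (k : ℕ) : (T ^ a) ^ k = T ^ (a * k) := by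
  rw [← Real.rpow_natCast, ← Real.rpow_mul hT.le]

theorem ex1 {τ : ℝ} (h0 : 0 < τ) (h : τ ≤ 1 / 2000) : (1 / 3 - 1 / 600 : ℝ) * τ ≤ 1 / 6000 := by
  linarith

theorem ex2 {τ σ : ℝ} (h0 : 0 < τ) (h1 : 0 < σ) (h : τ ≤ σ) :
    (1 + τ) * (1 / 2 - σ) ≤ 1 / 2 + -(σ / 2) := by
  have := mul_pos h0 h1
  linarith

/-- the error of the linearisation; `P = M₀ ^ τ` -/
theorem err {CF T N Q sN sT M P X x : ℝ} (hCF : 2 ≤ CF) (hT : 1 ≤ T) (hN : 1 ≤ N)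
    (hNT : T ^ (1 / 3 + 1 / 1200 : ℝ) ≤ N) (hQ2 : Q ^ 2 = sN * sT) (hQ : 0 < Q)
    (hsN : sN ^ 2 = N) (hsN0 : 0 < sN) (hsT : sT ^ 2 = T) (hsT0 : 0 < sT)
    (hM : M * N ^ 2 = T * P) (hM0 : 0 < M) (hP0 : 0 < P)
    (hP1 : 1 ≤ P) (hP : P ≤ T ^ (1 / 6000 : ℝ))
    (h136 : 136 * CF ≤ T ^ (1 / 4000 : ℝ)) (hX : sT / 4 ≤ X) (hx0 : 0 ≤ x) (hx : x ≤ M * sN) :
    CF * (N / Q) * (x ^ 2 * (N * sN) / X ^ 3 + x / X) ≤ 1 / 2 := by
  have hT0 : 0 < T := by linarith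
  have hN0 : 0 < N := by linarith
  have hX0 : 0 < X := lt_of_lt_of_le (by positivity) hX
  -- `sT ≤ T ^ (-1/800) * (sN)^3` and `sT ≤ ... Q^6`
  have hQ4 : Q ^ 4 = N * T := by
    calc Q ^ 4 = (Q ^ 2) ^ 2 := by ring
      _ = sN ^ 2 * sT ^ 2 := by rw [hQ2]; ring
      _ = N * T := by rw [hsN, hsT]
  -- key quantity: `q = Q / N`, `q ^ 4 = T / N ^ 3 ≤ T ^ (-1/400)`
  have hq4 : (Q / N) ^ 4 ≤ T ^ (-(1 / 400) : ℝ) := by
    rw [div_pow, hQ4, div_le_iff₀ (by positivity)]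
    have h1 : T ^ (1 + 1 / 400 : ℝ) ≤ N ^ 3 := by
      calc T ^ (1 + 1 / 400 : ℝ) = (T ^ (1 / 3 + 1 / 1200 : ℝ)) ^ 3 := by
            rw [pw hT0]; norm_num
        _ ≤ N ^ 3 := pow_le_pow_left₀ (by positivity) hNT 3
    have h2 : T ^ (-(1 / 400) : ℝ) * T ^ (1 + 1 / 400 : ℝ) = T := by
      rw [← Real.rpow_add hT0]; norm_num
    calc N * T = N * (T ^ (-(1 / 400) : ℝ) * T ^ (1 + 1 / 400 : ℝ)) := by rw [h2]
      _ ≤ N * (T ^ (-(1 / 400) : ℝ) * N ^ 3) := by gcongr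
      _ = T ^ (-(1 / 400) : ℝ) * N ^ 4 := by ring
  have hq : Q / N ≤ T ^ (-(1 / 1600) : ℝ) := by
    refine (pow_le_pow_iff_left₀ (by positivity) (by positivity) (n := 4) (by norm_num)).1 ?_
    rw [pw hT0]
    refine le_trans hq4 (le_of_eq ?_)
    norm_num
  -- first part: `(N / Q) * (M sN)^2 N sN / (sT^3/64) = 64 (Q / N) P^2`
  have h5 : (N / Q) * (x ^ 2 * (N * sN) / X ^ 3) ≤ 64 * ((Q / N) * P ^ 2) := by
    have h7 : sT ^ 3 / 64 ≤ X ^ 3 := by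
      calc sT ^ 3 / 64 = (sT / 4) ^ 3 := by rw [div_pow]; norm_num
        _ ≤ X ^ 3 := pow_le_pow_left₀ (by positivity) hX 3
    have h8 : x ^ 2 * (N * sN) / X ^ 3 ≤ (M * sN) ^ 2 * (N * sN) / (sT ^ 3 / 64) := by gcongr
    have h9 : (N / Q) * ((M * sN) ^ 2 * (N * sN) / (sT ^ 3 / 64)) = 64 * ((Q / N) * P ^ 2) := by
      have hP' : P = M * N ^ 2 / T := by rw [hM]; field_simp
      rw [hP', ← hsT, ← hsN]
      field_simp
      rw [show Q ^ 2 = sN * sT from hQ2]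
    calc (N / Q) * (x ^ 2 * (N * sN) / X ^ 3)
        ≤ (N / Q) * ((M * sN) ^ 2 * (N * sN) / (sT ^ 3 / 64)) := by gcongr
      _ = _ := h9
  have h6 : (N / Q) * (x / X) ≤ 4 * ((Q / N) * P) := by
    have h8 : x / X ≤ (M * sN) / (sT / 4) := by gcongr
    have h9 : (N / Q) * ((M * sN) / (sT / 4)) = 4 * ((Q / N) * P) := by
      have hP' : P = M * N ^ 2 / T := by rw [hM]; field_simp
      rw [hP', ← hsT, ← hsN]
      field_simp
      rw [show Q ^ 2 = sN * sT from hQ2]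
    calc (N / Q) * (x / X) ≤ (N / Q) * ((M * sN) / (sT / 4)) := by gcongr
      _ = _ := h9
  have hPP : P ≤ P ^ 2 := by nlinarith
  have h10 : (Q / N) * P ^ 2 ≤ T ^ (-(1 / 4000) : ℝ) := by
    calc (Q / N) * P ^ 2 ≤ T ^ (-(1 / 1600) : ℝ) * (T ^ (1 / 6000 : ℝ)) ^ 2 := by gcongr
      _ ≤ T ^ (-(1 / 4000) : ℝ) := by
          rw [pw hT0, ← Real.rpow_add hT0]
          exact Real.rpow_le_rpow_of_exponent_le hT (by norm_num)
  have h11 : T ^ (1 / 4000 : ℝ) * T ^ (-(1 / 4000) : ℝ) = 1 := by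
    rw [← Real.rpow_add hT0]; norm_num
  have h12 : (Q / N) * P ≤ (Q / N) * P ^ 2 := by gcongr
  calc CF * (N / Q) * (x ^ 2 * (N * sN) / X ^ 3 + x / X)
      = CF * ((N / Q) * (x ^ 2 * (N * sN) / X ^ 3) + (N / Q) * (x / X)) := by ring
    _ ≤ CF * (64 * ((Q / N) * P ^ 2) + 4 * ((Q / N) * P ^ 2)) := by
        have : 0 ≤ CF := by linarith
        refine mul_le_mul_of_nonneg_left ?_ this
        linarith
    _ = (136 * CF) * ((Q / N) * P ^ 2) / 2 := by ring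
    _ ≤ (136 * CF) * T ^ (-(1 / 4000) : ℝ) / 2 := by gcongr
    _ ≤ T ^ (1 / 4000 : ℝ) * T ^ (-(1 / 4000) : ℝ) / 2 := by gcongr
    _ = 1 / 2 := by rw [h11]

end Fd_aux

/-- Item Fd. -/
theorem iFd (hHN : StHN) (hFw : UB.StFw) (hWc : UB.StWc) (hMb : UB.StMb) : StFd := by
  obtain ⟨σ, CH, hσ, hσ4, hCH, hH⟩ := hHN 63 (by norm_num)
  obtain ⟨CW, hCW, hW⟩ := hWc
  obtain ⟨τ, hτ⟩ : ∃ τ, τ = min σ (1 / 2000) := ⟨_, rfl⟩
  have hτ0 : 0 < τ := by rw [hτ]; exact lt_min hσ (by norm_num)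
  have hτσ : τ ≤ σ := by rw [hτ]; exact min_le_left _ _
  have hτ2 : τ ≤ 1 / 2000 := by rw [hτ]; exact min_le_right _ _
  refine ⟨τ / 125, by positivity, ?_⟩
  intro φ Θ hφ C' hC'
  obtain ⟨CF, hCF, hF⟩ := hFw φ Θ hφ C' hC'
  obtain ⟨CM, hCM, hMb'⟩ := hMb φ Θ hφ C' hC'
  obtain ⟨T0, hT02, hT0⟩ := Fd_aux.thr CF CH σ hσ
  obtain ⟨K, hK⟩ : ∃ K, K = CW * (4 * CH * CF ^ 2) := ⟨_, rfl⟩
  have hK0 : 0 < K := by rw [hK]; positivity
  refine ⟨max T0 (max CF (max CM K)), le_trans hT02 (le_max_left _ _), ?_⟩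
  intro T G N u a hT hG hGT hN1 hNC hN2 hNT ha hu
  have hTT0 : T0 ≤ T := le_trans (le_max_left _ _) hT
  have hTF : CF ≤ T := le_trans (le_trans (le_max_left _ _) (le_max_right _ _)) hT
  have hTM : CM ≤ T :=
    le_trans (le_trans (le_trans (le_max_left _ _) (le_max_right _ _)) (le_max_right _ _)) hT
  have hGF : CF ≤ G := le_trans (le_trans (le_max_left _ _) (le_max_right _ _)) hG
  have hGM : CM ≤ G :=
    le_trans (le_trans (le_trans (le_max_left _ _) (le_max_right _ _)) (le_max_right _ _)) hG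
  obtain ⟨h136, h16, h4F⟩ := hT0 T hTT0
  have hT1 : 1 ≤ T := by linarith
  have hTp : 0 < T := by linarith
  have hNp : 0 < N := by linarith
  -- abbreviations
  obtain ⟨M0, hM0⟩ : ∃ M0, M0 = T / N ^ 2 := ⟨_, rfl⟩
  obtain ⟨P, hP⟩ : ∃ P, P = M0 ^ τ := ⟨_, rfl⟩
  obtain ⟨M, hM⟩ : ∃ M, M = M0 ^ (1 + τ) := ⟨_, rfl⟩
  obtain ⟨sN, hsN⟩ : ∃ sN, sN = Real.sqrt N := ⟨_, rfl⟩
  obtain ⟨sT, hsT⟩ : ∃ sT, sT = Real.sqrt T := ⟨_, rfl⟩
  obtain ⟨Q, hQ⟩ : ∃ Q, Q = Real.sqrt (Real.sqrt (N * T)) := ⟨_, rfl⟩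
  have hsN1 : 1 ≤ sN := by rw [hsN]; exact Real.one_le_sqrt.2 hN1
  have hsT1 : 1 ≤ sT := by rw [hsT]; exact Real.one_le_sqrt.2 hT1
  have hsN0 : 0 < sN := by linarith
  have hsT0 : 0 < sT := by linarith
  have hsT2 : sT ^ 2 = T := by rw [hsT, Real.sq_sqrt hTp.le]
  have hsN2 : sN ^ 2 = N := by rw [hsN, Real.sq_sqrt hNp.le]
  have hsT' : sT = T ^ (1 / 2 : ℝ) := by rw [hsT, Real.sqrt_eq_rpow]
  have hQ2 : Q ^ 2 = sN * sT := by
    rw [hQ, Real.sq_sqrt (Real.sqrt_nonneg _), Real.sqrt_mul hNp.le, hsN, hsT]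
  have hQ0 : 0 < Q := by
    rw [hQ]; exact Real.sqrt_pos.2 (Real.sqrt_pos.2 (by positivity))
  have hM0p : 0 < M0 := by rw [hM0]; positivity
  have hM0N : M0 * N ^ 2 = T := by rw [hM0]; field_simp
  have hPp : 0 < P := by rw [hP]; positivity
  have hMP : M = M0 * P := by rw [hM, hP, Real.rpow_add hM0p, Real.rpow_one]
  have hMp : 0 < M := by rw [hMP]; positivity
  have hMN2 : M * N ^ 2 = T * P := by rw [hMP, ← hM0N]; ring
  -- size of `M₀`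
  have hM0lo : T ^ (1 / 125 : ℝ) ≤ M0 := by
    rw [hM0, le_div_iff₀ (by positivity)]
    calc T ^ (1 / 125 : ℝ) * N ^ 2 ≤ T ^ (1 / 125 : ℝ) * (T ^ (1 / 2 - 1 / 250 : ℝ)) ^ 2 := by
          gcongr
      _ = T := by
          rw [Fd_aux.pw hTp, ← Real.rpow_add hTp]
          norm_num
  have hM0hi : M0 ≤ T ^ (1 / 3 - 1 / 600 : ℝ) := by
    rw [hM0, div_le_iff₀ (by positivity)]
    calc T = T ^ (1 / 3 - 1 / 600 : ℝ) * (T ^ (1 / 3 + 1 / 1200 : ℝ)) ^ 2 := by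
          rw [Fd_aux.pw hTp, ← Real.rpow_add hTp]
          norm_num
      _ ≤ T ^ (1 / 3 - 1 / 600 : ℝ) * N ^ 2 := by gcongr
  have hM01 : 1 ≤ M0 := le_trans (Real.one_le_rpow hT1 (by norm_num)) hM0lo
  have hP1 : 1 ≤ P := by rw [hP]; exact Real.one_le_rpow hM01 hτ0.le
  have hM1 : 1 ≤ M := by rw [hM]; exact Real.one_le_rpow hM01 (by linarith)
  have hM0M : M0 ≤ M := by rw [hMP]; exact le_mul_of_one_le_right hM0p.le hP1
  have hPhi : P ≤ T ^ (1 / 6000 : ℝ) := by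
    rw [hP]
    calc M0 ^ τ ≤ (T ^ (1 / 3 - 1 / 600 : ℝ)) ^ τ := by gcongr
      _ = T ^ ((1 / 3 - 1 / 600 : ℝ) * τ) := by rw [← Real.rpow_mul hTp.le]
      _ ≤ T ^ (1 / 6000 : ℝ) := Real.rpow_le_rpow_of_exponent_le hT1 (Fd_aux.ex1 hτ0 hτ2)
  have hPlo : T ^ (τ / 125) ≤ P := by
    rw [hP]
    calc T ^ (τ / 125) = (T ^ (1 / 125 : ℝ)) ^ τ := by
          rw [← Real.rpow_mul hTp.le]; congr 1; ring
      _ ≤ M0 ^ τ := by gcongr
  have hN3 : T ^ (1 / 3 : ℝ) ≤ N :=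
    le_trans (Real.rpow_le_rpow_of_exponent_le hT1 (by norm_num)) hN2
  have hMleN : M ≤ N := by
    refine le_trans ?_ hN3
    rw [hMP]
    calc M0 * P ≤ T ^ (1 / 3 - 1 / 600 : ℝ) * T ^ (1 / 6000 : ℝ) := by gcongr
      _ ≤ T ^ (1 / 3 : ℝ) := by
          rw [← Real.rpow_add hTp]
          exact Real.rpow_le_rpow_of_exponent_le hT1 (by norm_num)
  have hNM : N ≤ M ^ (63 : ℝ) := by
    calc N ≤ T ^ (1 / 2 - 1 / 250 : ℝ) := hNT
      _ ≤ (T ^ (1 / 125 : ℝ)) ^ (63 : ℝ) := by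
          rw [← Real.rpow_mul hTp.le]
          exact Real.rpow_le_rpow_of_exponent_le hT1 (by norm_num)
      _ ≤ M0 ^ (63 : ℝ) := by gcongr
      _ ≤ M ^ (63 : ℝ) := by gcongr
  -- the window length
  have hL0 : 0 < M * sN := by positivity
  have hLle : M * sN ≤ sT := by
    -- `M sN = T P / (N^2) sN`, `N ^ 3 ≥ T ^ (1 + 1/400)`
    have h1 : T ^ (1 + 1 / 400 : ℝ) ≤ N ^ 3 := by
      calc T ^ (1 + 1 / 400 : ℝ) = (T ^ (1 / 3 + 1 / 1200 : ℝ)) ^ 3 := by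
            rw [Fd_aux.pw hTp]; norm_num
        _ ≤ N ^ 3 := pow_le_pow_left₀ (by positivity) hN2 3
    refine (pow_le_pow_iff_left₀ (by positivity) (by positivity) (n := 2) (by norm_num)).1 ?_
    rw [mul_pow, hsN2, hsT2]
    have h2 : M ^ 2 * N * N ^ 3 = T ^ 2 * P ^ 2 := by
      calc M ^ 2 * N * N ^ 3 = (M * N ^ 2) ^ 2 := by ring
        _ = _ := by rw [hMN2]; ring
    have h3 : P ^ 2 ≤ T ^ (1 / 3000 : ℝ) := by
      calc P ^ 2 ≤ (T ^ (1 / 6000 : ℝ)) ^ 2 := by gcongr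
        _ = T ^ (1 / 3000 : ℝ) := by rw [Fd_aux.pw hTp]; norm_num
    have h4 : T ^ 2 * P ^ 2 ≤ T * N ^ 3 := by
      calc T ^ 2 * P ^ 2 ≤ T ^ 2 * T ^ (1 / 3000 : ℝ) := by gcongr
        _ = T * (T ^ (1 : ℝ) * T ^ (1 / 3000 : ℝ)) := by rw [Real.rpow_one]; ring
        _ ≤ T * T ^ (1 + 1 / 400 : ℝ) := by
            rw [← Real.rpow_add hTp]
            exact mul_le_mul_of_nonneg_left
              (Real.rpow_le_rpow_of_exponent_le hT1 (by norm_num)) hTp.le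
        _ ≤ T * N ^ 3 := by gcongr
    have h5 : M ^ 2 * N * N ^ 3 ≤ T * N ^ 3 := by rw [h2]; exact h4
    exact le_of_mul_le_mul_right h5 (by positivity)
  have hSm : MeasurableSet (BS Θ T G a N u) := (hMb' T G hTM hGM hGT).2 N u a hN1 hNC |>.2
  -- the bound for a window
  obtain ⟨B, hB⟩ : ∃ B, B = 4 * CH * CF ^ 2 * N / (sT * u ^ 2) := ⟨_, rfl⟩
  have hB0 : 0 < B := by rw [hB]; positivity
  have key : ∀ X : ℝ, 0 < X → X ^ 2 ∈ sI T →
      Rr {x : ℝ | x ∈ Icc 0 (M * sN) ∧ (X + x) ^ 2 ∈ BS Θ T G a N u} ≤ B := by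
    intro X hX hXs
    obtain ⟨a', ha', hF'⟩ := hF T G N X a hTF hGF hGT hN1 hNC ha hX hXs
    have hX16 : T / 16 ≤ X ^ 2 := by
      refine le_trans ?_ hXs.1
      rw [div_le_div_iff_of_pos_left hTp (by norm_num) (by positivity)]
      have := Real.pi_lt_four
      linarith
    have hX4 : sT / 4 ≤ X := by
      have h2 : (sT / 4) ^ 2 ≤ X ^ 2 := by
        rw [div_pow, hsT2]
        linarith
      exact (pow_le_pow_iff_left₀ (by positivity) hX.le (by norm_num)).1 h2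
    have hWm : MeasurableSet {x : ℝ | x ∈ Icc 0 (M * sN) ∧ (X + x) ^ 2 ∈ BS Θ T G a N u} :=
      measurableSet_Icc.inter
        ((show Measurable fun x : ℝ => (X + x) ^ 2 by fun_prop) hSm)
    obtain ⟨V, hV⟩ : ∃ V, V = u * Q / (2 * CF) := ⟨_, rfl⟩
    have hV0 : 0 < V := by rw [hV]; positivity
    have hV2 : V ^ 2 = u ^ 2 * (sN * sT) / (4 * CF ^ 2) := by
      rw [hV, div_pow, mul_pow, hQ2]; ring
    have hmain : V ^ 2 * Rr {x : ℝ | x ∈ Icc 0 (M * sN) ∧ (X + x) ^ 2 ∈ BS Θ T G a N u} ≤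
        CH * (N * Real.sqrt N) := by
      refine hH X N M V a' _ hN1 hX ?_ hM1 hMleN hNM hV0 ?_ ha' hWm ?_ ?_
      · -- `C N ≤ X²`
        have h2 : 16 * CH * N ≤ T := by
          calc 16 * CH * N ≤ T ^ (1 / 2 : ℝ) * T ^ (1 / 2 - 1 / 250 : ℝ) := by gcongr
            _ ≤ T ^ (1 : ℝ) := by
                rw [← Real.rpow_add hTp]
                exact Real.rpow_le_rpow_of_exponent_le hT1 (by norm_num)
            _ = T := Real.rpow_one T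
        linarith
      · -- the condition on `V²`
        have h1 : Real.sqrt M * M ^ (-σ) ≤ (sT / N) * M0 ^ (-(σ / 2)) := by
          have h2 : Real.sqrt M * M ^ (-σ) = M0 ^ ((1 + τ) * (1 / 2 - σ)) := by
            rw [Real.sqrt_eq_rpow, ← Real.rpow_add hMp, hM, ← Real.rpow_mul hM0p.le]
            congr 1
          have h3 : sT / N = M0 ^ (1 / 2 : ℝ) := by
            rw [← Real.sqrt_eq_rpow, hM0, Real.sqrt_div hTp.le, Real.sqrt_sq hNp.le, hsT]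
          rw [h2, h3, ← Real.rpow_add hM0p]
          exact Real.rpow_le_rpow_of_exponent_le hM01 (Fd_aux.ex2 hτ0 hσ hτσ)
        have h4 : M0 ^ (-(σ / 2)) * (4 * CF ^ 2 * CH) ≤ 1 := by
          have h5 : T ^ (σ / 250) ≤ M0 ^ (σ / 2) := by
            calc T ^ (σ / 250) = (T ^ (1 / 125 : ℝ)) ^ (σ / 2) := by
                  rw [← Real.rpow_mul hTp.le]; congr 1; ring
              _ ≤ M0 ^ (σ / 2) := by gcongr
          rw [Real.rpow_neg hM0p.le, inv_mul_le_iff₀ (by positivity), mul_one]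
          exact le_trans h4F h5
        rw [hV2, le_div_iff₀ (by positivity), ← hsN]
        have hu2 : 1 ≤ u ^ 2 := one_le_pow₀ hu
        calc CH * (N * sN * (Real.sqrt M * M ^ (-σ))) * (4 * CF ^ 2)
            ≤ CH * (N * sN * ((sT / N) * M0 ^ (-(σ / 2)))) * (4 * CF ^ 2) := by gcongr
          _ = sN * sT * (M0 ^ (-(σ / 2)) * (4 * CF ^ 2 * CH)) := by field_simp
          _ ≤ sN * sT * 1 := by gcongr
          _ = 1 * (sN * sT) := by ring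
          _ ≤ u ^ 2 * (sN * sT) := by gcongr
      · rw [← hsN]
        exact fun x hx => hx.1
      · intro x hx
        obtain ⟨hx1, hx2⟩ := hx
        have h1 := hF' x hx1.1 hx2.1
        have h2 : u ≤ ‖SJ Θ T G a N ((X + x) ^ 2)‖ := hx2.2
        have h3 := Fd_aux.err hCF hT1 hN1 hN2 hQ2 hQ0 hsN2 hsN0 hsT2 hsT0 hMN2 hMp hPp hP1 hPhi
          h136 hX4 hx1.1 hx1.2
        rw [← hQ, ← hsN] at h1
        have h4 : ‖SJ Θ T G a N ((X + x) ^ 2)‖ - ‖((CF / Q : ℝ) : ℂ) * SS X N a' x‖ ≤ 1 / 2 :=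
          le_trans (norm_sub_norm_le _ _) (le_trans h1 h3)
        rw [norm_mul, Complex.norm_real, Real.norm_of_nonneg (by positivity)] at h4
        have h5 : u / 2 ≤ CF / Q * ‖SS X N a' x‖ := by linarith
        rw [hV, div_le_iff₀ (by positivity)]
        have h6 : u / 2 * Q ≤ CF / Q * ‖SS X N a' x‖ * Q := by gcongr
        have h7 : CF / Q * ‖SS X N a' x‖ * Q = CF * ‖SS X N a' x‖ := by field_simp
        rw [h7] at h6
        linarith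
    rw [← hsN] at hmain
    have hBeq : V ^ 2 * B = CH * (N * sN) := by
      rw [hV2, hB]
      field_simp
    have h8 : V ^ 2 * Rr {x : ℝ | x ∈ Icc 0 (M * sN) ∧ (X + x) ^ 2 ∈ BS Θ T G a N u} ≤
        V ^ 2 * B := by rw [hBeq]; exact hmain
    exact le_of_mul_le_mul_left h8 (by positivity)
  have hfin := hW T (M * sN) B (BS Θ T G a N u) hT1 hL0 (by rw [← hsT]; exact hLle) hB0.le hSm
    (fun s hs => hs.1) key
  have hKm : K ≤ max T0 (max CF (max CM K)) :=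
    le_trans (le_trans (le_max_right _ _) (le_max_right _ _)) (le_max_right _ _)
  have hPinv : 1 / P ≤ T ^ (-(τ / 125)) := by
    rw [Real.rpow_neg hTp.le, one_div]
    exact inv_anti₀ (by positivity) hPlo
  rw [← hsN, ← hsT]
  calc u * Rr (BS Θ T G a N u) ≤ u * (CW * (T / (M * sN)) * B) := by gcongr
    _ = K * (1 / P) * (N ^ 2 * sN / sT) * (1 / u) := by
        have hMe : M = T * P / N ^ 2 := by rw [← hMN2]; field_simp
        rw [hB, hK, hMe, ← hsN2]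
        field_simp
    _ ≤ K * T ^ (-(τ / 125)) * (N ^ 2 * sN / sT) * 1 := by
        have : 1 / u ≤ 1 := by rw [div_le_one (by linarith)]; exact hu
        gcongr
    _ = K * T ^ (-(τ / 125)) * (N ^ 2 * sN / sT) := mul_one _
    _ ≤ max T0 (max CF (max CM K)) * T ^ (-(τ / 125)) * (N ^ 2 * sN / sT) := by
        gcongr

end Pool.Agent.Work.MP_56b8f5_nt.UT
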