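import Pool.Agent.Work.MP_56b8f5_nt.UT.Stmts2

/-!
MP_56b8f5_nt, block UT, item Fin: the combined statement (StMA and StMU together).
-/

open MeasureTheory Set Filter Topology

noncomputable section

namespace Pool.Agent.Work.MP_56b8f5_nt.UT

open Pool.Agent.Work.MP_56b8f5_nt.UB

/-- All moments between `4` and `12 + δ`: exponent `1 + (A-4)/8 - max(min(A-4, 12-A)/800, δ(A-4)) + ε`. -/
def StFin : Prop := ∃ δ : ℝ, 0 < δ ∧ ∀ A ε : ℝ, 4 ≤ A → A ≤ 12 + δ → 0 < ε → ∃ C : ℝ, ∀ T : ℝ, 1 ≤ T →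
  ∫ t in (0 : ℝ)..T, ‖riemannZeta (1 / 2 + t * Complex.I)‖ ^ A ≤
    C * T ^ (1 + (A - 4) / 8 - max (min (A - 4) (12 - A) / 800) (δ * (A - 4)) + ε)

theorem iFin (hMA : UB.StMA) (hMU : StMU) : StFin := by
  obtain ⟨δ, hδ, h⟩ := hMU
  refine ⟨δ, hδ, ?_⟩
  intro A ε hA4 hA12 hε
  by_cases hc : δ * (A - 4) ≤ min (A - 4) (12 - A) / 800
  · have hA : A ≤ 12 := by
      have h1 : min (A - 4) (12 - A) ≤ 12 - A := min_le_right _ _
      have h2 : 0 ≤ δ * (A - 4) := mul_nonneg hδ.le (by linarith)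
      linarith
    rw [max_eq_left hc]
    exact hMA A ε hA4 hA hε
  · push Not at hc
    rw [max_eq_right hc.le]
    exact h A ε hA4 hA12 hε

end Pool.Agent.Work.MP_56b8f5_nt.UT
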