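import Mathlib
import Pool.Agent.Work.MP_56b8f5_nt.UT.Stmts

open MeasureTheory Set Filter Topology

noncomputable section

namespace Pool.Agent.Work.MP_56b8f5_nt.UT

open Pool.Agent.Work.MP_56b8f5_nt.UB

namespace Fn_aux

/-- the derivative of `√(1 + 4 s / y)` -/
theorem dsq (s n : ℝ) (hs : 0 < s) (hn : 0 < n) :
    HasDerivAt (fun y => Real.sqrt (1 + 4 * s / y)) (-(2 * s / (n ^ 2 * Real.sqrt (1 + 4 * s / n)))) n := by
  have h1 : HasDerivAt (fun y : ℝ => 1 + 4 * s / y) (-(4 * s / n ^ 2)) n := by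
    have h0 := ((hasDerivAt_inv (ne_of_gt hn)).const_mul (4 * s)).const_add 1
    have e : (4 * s) * (-(n ^ 2)⁻¹) = -(4 * s / n ^ 2) := by
      rw [div_eq_mul_inv]; ring
    rw [e] at h0
    refine h0.congr_of_eventuallyEq (Eventually.of_forall fun y => ?_)
    simp only [div_eq_mul_inv]
  have hp : 0 < 1 + 4 * s / n := by positivity
  have h2 := h1.sqrt (ne_of_gt hp)
  have hq : 0 < Real.sqrt (1 + 4 * s / n) := Real.sqrt_pos.2 hp
  have e : -(4 * s / n ^ 2) / (2 * Real.sqrt (1 + 4 * s / n)) =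
      -(2 * s / (n ^ 2 * Real.sqrt (1 + 4 * s / n))) := by
    field_simp
    ring
  rw [e] at h2
  exact h2

/-- `coth` at the stationary point -/
theorem cthls (s y : ℝ) (hs : 0 < s) (hy : 0 < y) : cth (ls y s) = Real.sqrt (1 + 4 * s / y) := by
  have hsy : 0 < Real.sqrt y := Real.sqrt_pos.2 hy
  have hss : 0 < Real.sqrt s := Real.sqrt_pos.2 hs
  have e : ls y s / 2 = Real.arsinh (Real.sqrt y / (2 * Real.sqrt s)) := by
    unfold ls; ring
  unfold cth
  rw [e, Real.cosh_arsinh, Real.sinh_arsinh]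
  have hu : 0 < Real.sqrt y / (2 * Real.sqrt s) := by positivity
  rw [div_eq_iff (ne_of_gt hu)]
  rw [show Real.sqrt (1 + 4 * s / y) * (Real.sqrt y / (2 * Real.sqrt s)) =
    Real.sqrt (1 + 4 * s / y) * Real.sqrt ((Real.sqrt y / (2 * Real.sqrt s)) ^ 2) by
      rw [Real.sqrt_sq hu.le]]
  rw [← Real.sqrt_mul (by positivity)]
  congr 1
  rw [div_pow, mul_pow, Real.sq_sqrt hy.le, Real.sq_sqrt hs.le]
  field_simp
  ring

theorem dls (s n : ℝ) (hs : 0 < s) (hn : 0 < n) :
    HasDerivAt (fun y => ls y s) (1 / (n * Real.sqrt (1 + 4 * s / n))) n := by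
  have hsn : 0 < Real.sqrt n := Real.sqrt_pos.2 hn
  have hss : 0 < Real.sqrt s := Real.sqrt_pos.2 hs
  have h1 : HasDerivAt (fun y : ℝ => Real.sqrt y / (2 * Real.sqrt s))
      (1 / (2 * Real.sqrt n) / (2 * Real.sqrt s)) n :=
    (Real.hasDerivAt_sqrt (ne_of_gt hn)).div_const _
  have h2 := (h1.arsinh).const_mul 2
  have hu : 0 < Real.sqrt n / (2 * Real.sqrt s) := by positivity
  have hsq : Real.sqrt (1 + (Real.sqrt n / (2 * Real.sqrt s)) ^ 2) =
      Real.sqrt (1 + 4 * s / n) * (Real.sqrt n / (2 * Real.sqrt s)) := by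
    have h3 := cthls s n hs hn
    have e : ls n s / 2 = Real.arsinh (Real.sqrt n / (2 * Real.sqrt s)) := by
      unfold ls; ring
    unfold cth at h3
    rw [e, Real.cosh_arsinh, Real.sinh_arsinh, div_eq_iff (ne_of_gt hu)] at h3
    exact h3
  have hq : 0 < Real.sqrt (1 + 4 * s / n) := Real.sqrt_pos.2 (by positivity)
  have e : 2 * ((Real.sqrt (1 + (Real.sqrt n / (2 * Real.sqrt s)) ^ 2))⁻¹ •
      (1 / (2 * Real.sqrt n) / (2 * Real.sqrt s))) = 1 / (n * Real.sqrt (1 + 4 * s / n)) := by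
    rw [hsq, smul_eq_mul]
    have hn2 : n = Real.sqrt n * Real.sqrt n := (Real.mul_self_sqrt hn.le).symm
    generalize Real.sqrt (1 + 4 * s / n) = Q at hq ⊢
    generalize Real.sqrt n = R at hn2 hsn ⊢
    subst hn2
    field_simp
    try ring
  rw [← e]
  exact h2

end Fn_aux

theorem iFn : StFn := by
  intro s n hs hn
  have hq : 0 < Real.sqrt (1 + 4 * s / n) := Real.sqrt_pos.2 (by positivity)
  refine ⟨?_, ?_⟩
  · have h1 := (Fn_aux.dls s n hs hn).const_mul s
    have h2 := ((hasDerivAt_id n).div_const 2).mul (Fn_aux.dsq s n hs hn)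
    have h3 := h1.add h2
    have e : s * (1 / (n * Real.sqrt (1 + 4 * s / n))) + (1 / 2 * Real.sqrt (1 + 4 * s / n) +
        id n / 2 * -(2 * s / (n ^ 2 * Real.sqrt (1 + 4 * s / n)))) = Real.sqrt (1 + 4 * s / n) / 2 := by
      simp only [id]
      field_simp
      ring
    rw [e] at h3
    refine h3.congr_of_eventuallyEq ?_
    filter_upwards [lt_mem_nhds hn] with y hy
    show FF y s = _
    unfold FF
    rw [Fn_aux.cthls s y hs hy]
    rfl
  · have h1 := (Fn_aux.dsq s n hs hn).div_const 2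
    have e : -(2 * s / (n ^ 2 * Real.sqrt (1 + 4 * s / n))) / 2 =
        -(s / (n ^ 2 * Real.sqrt (1 + 4 * s / n))) := by
      field_simp
    rw [e] at h1
    exact h1

end Pool.Agent.Work.MP_56b8f5_nt.UT
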