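import Pool.Agent.Work.MP_56b8f5_nt.UT.Stmts

/-!
MP_56b8f5_nt, block UT, item Hy: the hyperbola method.
-/

set_option autoImplicit false

open Finset

noncomputable section

namespace Pool.Agent.Work.MP_56b8f5_nt.UT

open Pool.Agent.Work.MP_56b8f5_nt.UB

namespace Hy_aux

/-- the pairs `(a,b)` with `n0 < a b <= n1` -/
def PP (n0 n1 : ℕ) : Finset (ℕ × ℕ) :=
  (Icc 1 n1 ×ˢ Icc 1 n1).filter (fun p => n0 < p.1 * p.2 ∧ p.1 * p.2 ≤ n1)

theorem mem_PP (n0 n1 : ℕ) (p : ℕ × ℕ) :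
    p ∈ PP n0 n1 ↔ 1 ≤ p.1 ∧ 1 ≤ p.2 ∧ n0 < p.1 * p.2 ∧ p.1 * p.2 ≤ n1 := by
  unfold PP
  rw [mem_filter, mem_product, mem_Icc, mem_Icc]
  constructor
  · rintro ⟨⟨⟨h1, h2⟩, h3, h4⟩, h5, h6⟩
    exact ⟨h1, h3, h5, h6⟩
  · rintro ⟨h1, h2, h3, h4⟩
    refine ⟨⟨⟨h1, ?_⟩, h2, ?_⟩, h3, h4⟩
    · nlinarith
    · nlinarith

theorem step1 (F : ℕ → ℂ) (n0 n1 : ℕ) :
    ∑ n ∈ Ioc n0 n1, (n.divisors.card : ℂ) * F n = ∑ p ∈ PP n0 n1, F (p.1 * p.2) := by
  rw [← sum_fiberwise_of_maps_to (s := PP n0 n1) (t := Ioc n0 n1) (g := fun p => p.1 * p.2)]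
  · refine sum_congr rfl fun n hn => ?_
    rw [mem_Ioc] at hn
    have h1 : (PP n0 n1).filter (fun p => p.1 * p.2 = n) = n.divisorsAntidiagonal := by
      ext p
      rw [mem_filter, mem_PP, Nat.mem_divisorsAntidiagonal]
      constructor
      · rintro ⟨_, h⟩
        exact ⟨h, by omega⟩
      · rintro ⟨h, h0⟩
        have ha : p.1 ≠ 0 := by
          rintro h'
          rw [h', zero_mul] at h
          omega
        have hb : p.2 ≠ 0 := by
          rintro h'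
          rw [h', mul_zero] at h
          omega
        exact ⟨⟨by omega, by omega, by omega, by omega⟩, h⟩
    rw [h1]
    have h2 : ∑ p ∈ n.divisorsAntidiagonal, F (p.1 * p.2) =
        ∑ _p ∈ n.divisorsAntidiagonal, F n := by
      refine sum_congr rfl fun p hp => ?_
      rw [(Nat.mem_divisorsAntidiagonal.1 hp).1]
    rw [h2, sum_const, nsmul_eq_mul, ← Nat.map_div_right_divisors, card_map]
  · intro p hp
    rw [mem_PP] at hp
    rw [mem_Ioc]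
    exact ⟨hp.2.2.1, hp.2.2.2⟩

theorem stepLt (F : ℕ → ℂ) (n0 n1 : ℕ) :
    ∑ p ∈ (PP n0 n1).filter (fun p => p.1 < p.2), F (p.1 * p.2) =
      ∑ a ∈ Icc 1 (Nat.sqrt n1), ∑ b ∈ Ico (max (a + 1) (n0 / a + 1)) (n1 / a + 1),
        F (a * b) := by
  refine sum_finset_product _ _ _ ?_
  rintro ⟨a, b⟩
  rw [mem_filter, mem_PP, mem_Icc, mem_Ico, max_le_iff]
  simp only
  constructor
  · rintro ⟨⟨h1, h2, h3, h4⟩, h5⟩
    refine ⟨⟨h1, ?_⟩, ⟨by omega, ?_⟩, ?_⟩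
    · rw [Nat.le_sqrt]
      nlinarith
    · have : n0 / a < b := by
        rw [Nat.div_lt_iff_lt_mul (by omega), mul_comm]
        exact h3
      omega
    · have : b ≤ n1 / a := by
        rw [Nat.le_div_iff_mul_le (by omega), mul_comm]
        exact h4
      omega
  · rintro ⟨⟨h1, _⟩, ⟨h3, h4⟩, h5⟩
    have e1 : n0 / a < b := by omega
    have e2 : b ≤ n1 / a := by omega
    rw [Nat.div_lt_iff_lt_mul (by omega), mul_comm] at e1
    rw [Nat.le_div_iff_mul_le (by omega), mul_comm] at e2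
    exact ⟨⟨h1, by omega, e1, e2⟩, by omega⟩

theorem stepGt (F : ℕ → ℂ) (n0 n1 : ℕ) :
    ∑ p ∈ (PP n0 n1).filter (fun p => p.2 < p.1), F (p.1 * p.2) =
      ∑ p ∈ (PP n0 n1).filter (fun p => p.1 < p.2), F (p.1 * p.2) := by
  refine sum_nbij' Prod.swap Prod.swap ?_ ?_ ?_ ?_ ?_
  · intro p hp
    rw [mem_filter, mem_PP] at hp ⊢
    obtain ⟨⟨h1, h2, h3, h4⟩, h5⟩ := hp
    simp only [Prod.fst_swap, Prod.snd_swap]
    rw [mul_comm] at h3 h4
    exact ⟨⟨h2, h1, h3, h4⟩, h5⟩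
  · intro p hp
    rw [mem_filter, mem_PP] at hp ⊢
    obtain ⟨⟨h1, h2, h3, h4⟩, h5⟩ := hp
    simp only [Prod.fst_swap, Prod.snd_swap]
    rw [mul_comm] at h3 h4
    exact ⟨⟨h2, h1, h3, h4⟩, h5⟩
  · intro p _
    exact Prod.swap_swap p
  · intro p _
    exact Prod.swap_swap p
  · intro p _
    simp only [Prod.fst_swap, Prod.snd_swap]
    rw [mul_comm]

theorem stepEq (F : ℕ → ℂ) (n0 n1 : ℕ) :
    ∑ p ∈ (PP n0 n1).filter (fun p => p.1 = p.2), F (p.1 * p.2) =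
      ∑ a ∈ (Icc 1 (Nat.sqrt n1)).filter (fun a => n0 < a * a), F (a * a) := by
  refine sum_nbij' Prod.fst (fun a => (a, a)) ?_ ?_ ?_ ?_ ?_
  · rintro ⟨a, b⟩ hp
    rw [mem_filter, mem_PP] at hp
    obtain ⟨⟨h1, h2, h3, h4⟩, h5⟩ := hp
    simp only at h1 h2 h3 h4 h5 ⊢
    subst h5
    rw [mem_filter, mem_Icc, Nat.le_sqrt]
    exact ⟨⟨h1, h4⟩, h3⟩
  · intro a ha
    rw [mem_filter, mem_Icc, Nat.le_sqrt] at ha
    rw [mem_filter, mem_PP]
    exact ⟨⟨ha.1.1, ha.1.1, ha.2, ha.1.2⟩, rfl⟩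
  · rintro ⟨a, b⟩ hp
    rw [mem_filter] at hp
    have : a = b := hp.2
    simp [this]
  · intro a _
    rfl
  · rintro ⟨a, b⟩ hp
    rw [mem_filter] at hp
    have : a = b := hp.2
    simp [this]

end Hy_aux

open Hy_aux in
theorem iHy : StHy := by
  intro F n0 n1
  rw [step1, ← sum_filter_add_sum_filter_not (PP n0 n1) (fun p => p.1 < p.2)]
  have h1 : ∑ p ∈ (PP n0 n1).filter (fun p => ¬ p.1 < p.2), F (p.1 * p.2) =
      ∑ p ∈ (PP n0 n1).filter (fun p => p.2 < p.1), F (p.1 * p.2) +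
      ∑ p ∈ (PP n0 n1).filter (fun p => p.1 = p.2), F (p.1 * p.2) := by
    rw [← sum_filter_add_sum_filter_not ((PP n0 n1).filter (fun p => ¬ p.1 < p.2))
      (fun p => p.2 < p.1), filter_filter, filter_filter]
    congr 1
    · refine sum_congr (filter_congr fun p _ => ?_) fun _ _ => rfl
      omega
    · refine sum_congr (filter_congr fun p _ => ?_) fun _ _ => rfl
      omega
  rw [h1, stepGt, stepLt, stepEq]
  ring

end Pool.Agent.Work.MP_56b8f5_nt.UT
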