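import Pool.Agent.Work.MP_56b8f5_nt.UT.Stmts

/-!
MP_56b8f5_nt, block UT, item JC: bound for `J(V)` with a saving.
-/

open MeasureTheory Set Filter Topology

noncomputable section

namespace Pool.Agent.Work.MP_56b8f5_nt.UT

open Pool.Agent.Work.MP_56b8f5_nt.UB

namespace JC_aux

/-- a positive real is a power of `T > 1` -/
theorem pow_rep {T x : ℝ} (hT : 1 < T) (hx : 0 < x) : ∃ y : ℝ, x = T ^ y := by
  refine ⟨Real.log x / Real.log T, ?_⟩
  have hl : 0 < Real.log T := Real.log_pos hT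
  rw [Real.rpow_def_of_pos (by linarith)]
  rw [mul_div_cancel₀ _ hl.ne']
  rw [Real.exp_log hx]

theorem exp_le {T a b : ℝ} (hT : 1 < T) (h : T ^ a ≤ T ^ b) : a ≤ b := by
  by_contra hc
  push Not at hc
  exact absurd (Real.rpow_lt_rpow_of_exponent_lt hT hc) (not_lt.mpr h)

theorem le_exp {T a b : ℝ} (hT : 1 < T) (h : a ≤ b) : T ^ a ≤ T ^ b :=
  Real.rpow_le_rpow_of_exponent_le hT.le h

theorem sqrt_pow {T a : ℝ} (hT : 0 < T) : Real.sqrt (T ^ a) = T ^ (a / 2) := by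
  rw [Real.sqrt_eq_rpow, ← Real.rpow_mul hT.le]
  congr 1
  ring

theorem sqrt_T {T : ℝ} : Real.sqrt T = T ^ (1 / 2 : ℝ) := Real.sqrt_eq_rpow T

theorem sq_pow {T a : ℝ} (hT : 0 < T) : (T ^ a) ^ 2 = T ^ (2 * a) := by
  rw [← Real.rpow_natCast, ← Real.rpow_mul hT.le]
  congr 1
  push_cast
  ring

/-- `N² √N / √T` for `N = T^ν` -/
theorem f_pow {T ν : ℝ} (hT : 0 < T) :
    (T ^ ν) ^ 2 * Real.sqrt (T ^ ν) / Real.sqrt T = T ^ (5 * ν / 2 - 1 / 2) := by
  rw [sqrt_pow hT, sqrt_T, sq_pow hT, ← Real.rpow_add hT, ← Real.rpow_sub hT]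
  congr 1
  ring

/-- monotonicity of `N² √N / √T` -/
theorem f_mono {T x y : ℝ} (hx : 0 ≤ x) (hxy : x ≤ y) :
    x ^ 2 * Real.sqrt x / Real.sqrt T ≤ y ^ 2 * Real.sqrt y / Real.sqrt T := by
  apply div_le_div_of_nonneg_right _ (Real.sqrt_nonneg T)
  apply mul_le_mul _ (Real.sqrt_le_sqrt hxy) (Real.sqrt_nonneg x) (by positivity)
  exact pow_le_pow_left₀ hx hxy 2

theorem big (s K : ℝ) (hs : 0 < s) : ∃ C : ℝ, 2 ≤ C ∧ ∀ T : ℝ, C ≤ T → K ≤ T ^ s := by
  have h := (tendsto_rpow_atTop hs).eventually (eventually_ge_atTop K)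
  obtain ⟨C, hC⟩ := (eventually_atTop.mp h)
  exact ⟨max 2 C, le_max_left _ _, fun T hT => hC T (le_trans (le_max_right _ _) hT)⟩

end JC_aux

open JC_aux

theorem iJC (hPhi : UB.StPhi) (hMb : UB.StMb) (hFd : StFd) (hFb : UB.StFb) (hFc : UB.StFc) (hFJ : UB.StFJ)
    (hSW : StSW) : StJC := by
  have _ := hMb
  obtain ⟨φ, Θ, hφ⟩ := hPhi
  obtain ⟨δ0, hδ0, hFd⟩ := hFd
  obtain ⟨Csw, hCsw2, hSW⟩ := hSW
  obtain ⟨ε, hε0, hεδ, hε1⟩ : ∃ ε : ℝ, 0 < ε ∧ 5 * ε ≤ δ0 ∧ 5 * ε ≤ 1 / 20000 := by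
    refine ⟨min δ0 (1 / 20000) / 5, by positivity, ?_, ?_⟩
    · have := min_le_left δ0 (1 / 20000); linarith
    · have := min_le_right δ0 (1 / 20000); linarith
  obtain ⟨C', CJ, hC', hCJ2, hFJ⟩ := hFJ φ Θ hφ ε hε0 (by linarith)
  obtain ⟨C1, hC1, hFd⟩ := hFd φ Θ hφ C' hC'
  obtain ⟨C2, hC2, hFb⟩ := hFb φ Θ hφ C' ε hC' hε0 (by linarith)
  obtain ⟨C3, hC3, hFc⟩ := hFc φ Θ hφ C' ε hC' hε0 (by linarith)
  obtain ⟨D1, hD1, hbig1⟩ := big (1 / 8) (max C1 (max C2 C3)) (by norm_num)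
  obtain ⟨D2, hD2, hbig2⟩ := big (1 / 1000) C' (by norm_num)
  set K : ℝ := 2 * (C1 + C2 + C3) with hK
  have hK0 : 0 ≤ K := by rw [hK]; linarith
  set CF : ℝ := CJ * (K * (C' ^ 2 * Real.sqrt C')) with hCF
  refine ⟨2 * ε, by linarith, max Csw (max CJ (max C1 (max C2 (max C3 (max D1 (max D2 CF)))))),
    le_trans hCsw2 (le_max_left _ _), ?_⟩
  intro T V hT hV1 hV2
  have hTs : Csw ≤ T := le_trans (le_max_left _ _) hT
  have hT' := le_trans (le_max_right _ _) hT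
  have hTJ : CJ ≤ T := le_trans (le_max_left _ _) hT'
  have hT' := le_trans (le_max_right _ _) hT'
  have hT1 : C1 ≤ T := le_trans (le_max_left _ _) hT'
  have hT' := le_trans (le_max_right _ _) hT'
  have hT2 : C2 ≤ T := le_trans (le_max_left _ _) hT'
  have hT' := le_trans (le_max_right _ _) hT'
  have hT3 : C3 ≤ T := le_trans (le_max_left _ _) hT'
  have hT' := le_trans (le_max_right _ _) hT'
  have hTD1 : D1 ≤ T := le_trans (le_max_left _ _) hT'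
  have hT' := le_trans (le_max_right _ _) hT'
  have hTD2 : D2 ≤ T := le_trans (le_max_left _ _) hT'
  have hCFle : CF ≤ max Csw (max CJ (max C1 (max C2 (max C3 (max D1 (max D2 CF)))))) := by
    iterate 6 apply le_trans _ (le_max_right _ _)
    exact le_max_right _ _
  have hC0 : 0 ≤ max Csw (max CJ (max C1 (max C2 (max C3 (max D1 (max D2 CF)))))) :=
    le_trans (by linarith) (le_max_left Csw _)
  have hTgt : 1 < T := by linarith
  have hTpos : 0 < T := by linarith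
  have hVpos : 0 < V := lt_of_lt_of_le (Real.rpow_pos_of_pos hTpos _) hV1
  rcases le_or_gt (T ^ (1 / 6 - 1 / 4000 : ℝ)) V with hVb | hVb
  · have : JV T V = 0 := by
      unfold JV
      have hE : {t : ℝ | t ∈ Icc T (2 * T) ∧ V ≤ ‖EM.P (T ^ 2) t‖ ∧ ‖EM.P (T ^ 2) t‖ < 2 * V} = ∅ := by
        ext t
        simp only [Set.mem_ofPred_eq, Set.mem_empty_iff_false, iff_false]
        rintro ⟨ht, h1, -⟩
        have := hSW T t hTs ht.1 ht.2
        linarith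
      rw [hE]
      simp
    rw [this]
    have : 0 ≤ T ^ (2 - 2 * ε) := Real.rpow_nonneg hTpos.le _
    positivity
  -- main case
  obtain ⟨v, hv⟩ := pow_rep hTgt hVpos
  have hv1 : 1 / 8 - 1 / 800 ≤ v := by rw [hv] at hV1; exact exp_le hTgt hV1
  have hv2 : v < 1 / 6 - 1 / 4000 := by
    rw [hv] at hVb
    by_contra hc
    push Not at hc
    exact absurd (le_exp hTgt hc) (not_le.mpr hVb)
  set G : ℝ := V ^ 2 * T ^ (-(ε / 4)) with hG
  have hGe : G = T ^ (2 * v - ε / 4) := by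
    rw [hG, hv, sq_pow hTpos, ← Real.rpow_add hTpos]
    congr 1
  have hG1 : max C1 (max C2 C3) ≤ G := by
    refine le_trans (hbig1 T hTD1) ?_
    rw [hGe]
    exact le_exp hTgt (by linarith)
  have hGC1 : C1 ≤ G := le_trans (le_max_left _ _) hG1
  have hGC2 : C2 ≤ G := le_trans (le_trans (le_max_left _ _) (le_max_right _ _)) hG1
  have hGC3 : C3 ≤ G := le_trans (le_trans (le_max_right _ _) (le_max_right _ _)) hG1
  have hG2e : G ^ 2 = T ^ (4 * v - ε / 2) := by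
    rw [hGe, sq_pow hTpos]
    congr 1
    ring
  have hG2 : G ^ 2 ≤ T := by
    rw [hG2e]
    calc T ^ (4 * v - ε / 2) ≤ T ^ (1 : ℝ) := le_exp hTgt (by linarith)
      _ = T := Real.rpow_one T
  have hGpos : 0 < G := by rw [hGe]; exact Real.rpow_pos_of_pos hTpos _
  set N0 : ℝ := C' * T / G ^ 2 with hN0
  have hN0e : N0 = C' * T ^ (1 + ε / 2 - 4 * v) := by
    rw [hN0, hG2e, mul_div_assoc]
    congr 1
    nth_rewrite 1 [← Real.rpow_one T]
    rw [← Real.rpow_sub hTpos]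
    congr 1
    ring
  have hN0lo : T ^ (1 / 3 + 1 / 1000 : ℝ) ≤ N0 := by
    rw [hN0e]
    calc T ^ (1 / 3 + 1 / 1000 : ℝ) ≤ T ^ (1 + ε / 2 - 4 * v) := le_exp hTgt (by linarith)
      _ = 1 * T ^ (1 + ε / 2 - 4 * v) := (one_mul _).symm
      _ ≤ C' * T ^ (1 + ε / 2 - 4 * v) :=
        mul_le_mul_of_nonneg_right hC' (Real.rpow_nonneg hTpos.le _)
  have hN0hi : N0 ≤ T ^ (1 / 2 + 1 / 150 : ℝ) := by
    rw [hN0e]
    calc C' * T ^ (1 + ε / 2 - 4 * v) ≤ T ^ (1 / 1000 : ℝ) * T ^ (1 + ε / 2 - 4 * v) :=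
        mul_le_mul_of_nonneg_right (hbig2 T hTD2) (Real.rpow_nonneg hTpos.le _)
      _ = T ^ (1 / 1000 + (1 + ε / 2 - 4 * v) : ℝ) := (Real.rpow_add hTpos _ _).symm
      _ ≤ T ^ (1 / 2 + 1 / 150 : ℝ) := le_exp hTgt (by linarith)
  have hN0pos : 0 < N0 := lt_of_lt_of_le (Real.rpow_pos_of_pos hTpos _) hN0lo
  set F0 : ℝ := N0 ^ 2 * Real.sqrt N0 / Real.sqrt T with hF0
  have hF00 : 0 ≤ F0 := by rw [hF0]; positivity
  set β : ℝ := K * (T ^ (-(5 * ε)) * F0) with hβ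
  have hp5 : 0 ≤ T ^ (-(5 * ε)) := Real.rpow_nonneg hTpos.le _
  have hβ0 : 0 ≤ β := by rw [hβ]; positivity
  have key := hFJ T V β hTJ (le_trans (le_exp hTgt (by linarith)) hV1) hV2 hβ0 ?_
  · -- conclusion
    refine le_trans key ?_
    have e1 : F0 = (C' ^ 2 * Real.sqrt C') * T ^ (5 * (1 + ε / 2 - 4 * v) / 2 - 1 / 2) := by
      rw [hF0, hN0e, ← f_pow (T := T) (ν := 1 + ε / 2 - 4 * v) hTpos,
        Real.sqrt_mul (by linarith : (0 : ℝ) ≤ C')]
      ring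
    have e2 : T ^ (2 - 2 * ε) / V ^ 10 = T ^ (2 - 2 * ε - 10 * v) := by
      rw [hv, ← Real.rpow_natCast, ← Real.rpow_mul hTpos.le, ← Real.rpow_sub hTpos]
      congr 1
      push_cast
      ring
    rw [mul_div_assoc, e2]
    have e3 : CJ * T ^ ε * β = CF * (T ^ ε * T ^ (-(5 * ε)) * T ^ (5 * (1 + ε / 2 - 4 * v) / 2 - 1 / 2)) := by
      rw [hβ, e1, hCF]
      ring
    rw [e3, ← Real.rpow_add hTpos, ← Real.rpow_add hTpos]
    apply mul_le_mul hCFle _ (Real.rpow_nonneg hTpos.le _) hC0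
    exact le_exp hTgt (by linarith)
  · -- the blocks
    intro j a u ha hu hj
    set N : ℝ := (2 : ℝ) ^ j with hN
    have hN1 : 1 ≤ N := by rw [hN]; exact one_le_pow₀ (by norm_num)
    have hNpos : 0 < N := by linarith
    have hNN0 : N ≤ N0 := by linarith
    obtain ⟨ν, hν⟩ := pow_rep hTgt hNpos
    have hfN : N ^ 2 * Real.sqrt N / Real.sqrt T = T ^ (5 * ν / 2 - 1 / 2) := by rw [hν]; exact f_pow hTpos
    have hfNN0 : N ^ 2 * Real.sqrt N / Real.sqrt T ≤ F0 := f_mono hNpos.le hNN0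
    rcases le_or_gt N (T ^ (1 / 3 + 1 / 1200 : ℝ)) with hNa | hNa
    · -- classical range
      have hνa : ν ≤ 1 / 3 + 1 / 1200 := by rw [hν] at hNa; exact exp_le hTgt hNa
      have h1 := hFc T G N u a hT3 hGC3 hG2 hN1 hj (le_trans hNa (le_exp hTgt (by linarith))) ha hu
      refine le_trans h1 ?_
      have h2 : T ^ (10 * ε) * (N ^ 2 * Real.sqrt N / Real.sqrt T) ≤ T ^ (-(5 * ε)) * F0 := by
        have h3 : T ^ (5 * (1 / 3 + 1 / 1000) / 2 - 1 / 2 : ℝ) ≤ F0 := by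
          rw [← f_pow hTpos]
          exact f_mono (Real.rpow_nonneg hTpos.le _) hN0lo
        refine le_trans ?_ (mul_le_mul_of_nonneg_left h3 hp5)
        rw [hfN, ← Real.rpow_add hTpos, ← Real.rpow_add hTpos]
        exact le_exp hTgt (by linarith)
      rw [hβ, mul_assoc]
      have hCK : C3 ≤ K := by rw [hK]; linarith
      exact mul_le_mul hCK h2 (by positivity) hK0
    rcases le_or_gt N (T ^ (1 / 2 - 1 / 250 : ℝ)) with hNb | hNb
    · -- the range of `StFd`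
      have h1 := hFd T G N u a hT1 hGC1 hG2 hN1 hj hNa.le hNb ha hu
      refine le_trans h1 ?_
      have h2 : T ^ (-δ0) * (N ^ 2 * Real.sqrt N / Real.sqrt T) ≤ T ^ (-(5 * ε)) * F0 := by
        apply mul_le_mul (le_exp hTgt (by linarith)) hfNN0 (by positivity) hp5
      rw [hβ, mul_assoc]
      have hCK : C1 ≤ K := by rw [hK]; linarith
      exact mul_le_mul hCK h2 (by positivity) hK0
    · -- the range of `StFb`
      have hνb : 1 / 2 - 1 / 250 ≤ ν := by rw [hν] at hNb; exact exp_le hTgt hNb.le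
      have h1 := hFb T G N u a hT2 hGC2 hG2 hN1 hj
        (le_trans (le_exp hTgt (by norm_num)) hNb.le) (le_trans hNN0 hN0hi) ha hu
      refine le_trans h1 ?_
      have hρ : N / Real.sqrt T = T ^ (ν - 1 / 2) := by
        rw [sqrt_T]
        nth_rewrite 1 [hν]
        rw [← Real.rpow_sub hTpos]
      have hρ2 : (N / Real.sqrt T) ^ (5 / 4 : ℝ) = T ^ (5 / 4 * (ν - 1 / 2)) := by
        rw [hρ, ← Real.rpow_mul hTpos.le]
        congr 1
        ring
      have h2 : T ^ (3 / 4 + ε) * (T ^ (-(1 / 160) : ℝ) * (N / Real.sqrt T) ^ (5 / 4 : ℝ) + T ^ (-(1 / 60) : ℝ)) ≤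
          2 * (T ^ (-(5 * ε)) * F0) := by
        have h4 : T ^ (-(5 * ε)) * T ^ (5 * ν / 2 - 1 / 2) ≤ T ^ (-(5 * ε)) * F0 := by
          rw [← hfN]
          exact mul_le_mul_of_nonneg_left hfNN0 hp5
        have h5 : T ^ (3 / 4 + ε) * (T ^ (-(1 / 160) : ℝ) * (N / Real.sqrt T) ^ (5 / 4 : ℝ)) ≤
            T ^ (-(5 * ε)) * T ^ (5 * ν / 2 - 1 / 2) := by
          rw [hρ2, ← Real.rpow_add hTpos, ← Real.rpow_add hTpos, ← Real.rpow_add hTpos]
          exact le_exp hTgt (by linarith)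
        have h6 : T ^ (3 / 4 + ε) * T ^ (-(1 / 60) : ℝ) ≤ T ^ (-(5 * ε)) * T ^ (5 * ν / 2 - 1 / 2) := by
          rw [← Real.rpow_add hTpos, ← Real.rpow_add hTpos]
          exact le_exp hTgt (by linarith)
        linarith
      rw [mul_assoc]
      have hCK : 2 * C2 ≤ K := by rw [hK]; linarith
      calc C2 * (T ^ (3 / 4 + ε) * (T ^ (-(1 / 160) : ℝ) * (N / Real.sqrt T) ^ (5 / 4 : ℝ) + T ^ (-(1 / 60) : ℝ)))
          ≤ C2 * (2 * (T ^ (-(5 * ε)) * F0)) := mul_le_mul_of_nonneg_left h2 (by linarith)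
        _ = 2 * C2 * (T ^ (-(5 * ε)) * F0) := by ring
        _ ≤ K * (T ^ (-(5 * ε)) * F0) := mul_le_mul_of_nonneg_right hCK (by positivity)
        _ = β := rfl

end Pool.Agent.Work.MP_56b8f5_nt.UT
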