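import Mathlib
import Pool.Agent.Work.MP_56b8f5_nt.UT.Stmts

/-! MP_56b8f5_nt, block UT, item KC: kernel bound with a saving. -/

open MeasureTheory Set Filter Topology

noncomputable section

namespace Pool.Agent.Work.MP_56b8f5_nt.UT

open Pool.Agent.Work.MP_56b8f5_nt.UB

namespace KC_aux

lemma conj_ee (y : ℝ) : (starRingEnd ℂ) (ee y) = ee (-y) := by
  unfold ee
  rw [← Complex.exp_conj]
  congr 1
  rw [map_mul, Complex.conj_ofReal, Complex.conj_I]
  push_cast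
  ring

lemma norm_ee (y : ℝ) : ‖ee y‖ = 1 := by
  unfold ee
  exact Complex.norm_exp_ofReal_mul_I _

lemma ee_neg_mul (y : ℝ) : ee y * ee (-y) = 1 := by
  unfold ee
  rw [← Complex.exp_add]
  have : (((2 * Real.pi * y : ℝ) : ℂ) * Complex.I + ((2 * Real.pi * -y : ℝ) : ℂ) * Complex.I) = 0 := by
    push_cast
    ring
  rw [this, Complex.exp_zero]

lemma norm_KS_neg (X N x : ℝ) : ‖KS X N (-x)‖ = ‖KS X N x‖ := by
  have h : KS X N (-x) = (starRingEnd ℂ) (KS X N x) := by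
    unfold KS
    rw [Complex.conj_tsum]
    congr 1
    funext n
    rw [map_mul, Complex.conj_ofReal, conj_ee]
    congr 2
    ring
  rw [h, RCLike.norm_conj]

/-- Abel summation, equality -/
lemma abel_eq (A g : ℕ → ℂ) (a n : ℕ) (h : a ≤ n) :
    ∑ i ∈ Finset.Ico a (n + 1), A i * g i =
      A n * (∑ i ∈ Finset.Ico a (n + 1), g i) -
        ∑ i ∈ Finset.Ico a n, (A (i + 1) - A i) * (∑ l ∈ Finset.Ico a (i + 1), g l) := by
  induction n, h using Nat.le_induction with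
  | base => simp
  | succ n hn ih =>
    rw [Finset.sum_Ico_succ_top (by omega : a ≤ n + 1), ih,
      Finset.sum_Ico_succ_top (by omega : a ≤ n + 1) g,
      Finset.sum_Ico_succ_top (by omega : a ≤ n) (fun i => (A (i + 1) - A i) * (∑ l ∈ Finset.Ico a (i + 1), g l))]
    ring

/-- Abel summation, bound -/
lemma abel_le (A g : ℕ → ℂ) (a b : ℕ) (D M V : ℝ) (hab : a < b) (hD : 0 ≤ D)
    (hG : ∀ m, a ≤ m → m ≤ b → ‖∑ i ∈ Finset.Ico a m, g i‖ ≤ D)
    (hA : ‖A (b - 1)‖ ≤ M) (hV : ∀ i, a ≤ i → i + 1 < b → ‖A (i + 1) - A i‖ ≤ V) (hV0 : 0 ≤ V) :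
    ‖∑ i ∈ Finset.Ico a b, A i * g i‖ ≤ (M + (b - a) * V) * D := by
  obtain ⟨n, rfl⟩ : ∃ n, b = n + 1 := ⟨b - 1, by omega⟩
  have han : a ≤ n := by omega
  rw [abel_eq A g a n han]
  have h1 : ‖A n * (∑ i ∈ Finset.Ico a (n + 1), g i)‖ ≤ M * D := by
    rw [norm_mul]
    have := hG (n + 1) (by omega) le_rfl
    simp only [Nat.add_sub_cancel] at hA
    have hM : 0 ≤ M := le_trans (norm_nonneg _) hA
    exact mul_le_mul hA this (norm_nonneg _) hM
  have h2 : ‖∑ i ∈ Finset.Ico a n, (A (i + 1) - A i) * (∑ l ∈ Finset.Ico a (i + 1), g l)‖ ≤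
      ∑ i ∈ Finset.Ico a n, V * D := by
    refine norm_sum_le_of_le _ (fun i hi => ?_)
    rw [Finset.mem_Ico] at hi
    rw [norm_mul]
    exact mul_le_mul (hV i hi.1 (by omega)) (hG (i + 1) (by omega) (by omega)) (norm_nonneg _) hV0
  rw [Finset.sum_const, Nat.card_Ico, nsmul_eq_mul] at h2
  have h3 : ((n - a : ℕ) : ℝ) = (n : ℝ) - a := by
    rw [Nat.cast_sub han]
  rw [h3] at h2
  push_cast
  calc _ ≤ _ := norm_sub_le _ _
    _ ≤ M * D + ((n : ℝ) - a) * (V * D) := add_le_add h1 h2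
    _ ≤ (M + ((n : ℝ) + 1 - a) * V) * D := by nlinarith [mul_nonneg hV0 hD]

lemma Qpos (k : ℕ) (hk : 1 ≤ k) : (6 : ℝ) ≤ (2 : ℝ) ^ (k + 2) - 2 := by
  have h : (2 : ℝ) ^ 3 ≤ (2 : ℝ) ^ (k + 2) := pow_le_pow_right₀ (by norm_num) (by omega)
  norm_num at h
  linarith

lemma Qexp (k : ℕ) (hk : 1 ≤ k) : 1 - 1 / (2 : ℝ) ^ k + 2 * (1 / ((2 : ℝ) ^ (k + 2) - 2)) ≤
    1 - 1 / ((2 : ℝ) ^ (k + 2) - 2) := by
  have hQ := Qpos k hk
  have h2 : (2 : ℝ) ≤ (2 : ℝ) ^ k := by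
    calc (2 : ℝ) = 2 ^ 1 := by norm_num
      _ ≤ 2 ^ k := pow_le_pow_right₀ (by norm_num) hk
  have hQ' : (2 : ℝ) ^ (k + 2) = 4 * 2 ^ k := by ring
  have h3 : 3 * (1 / ((2 : ℝ) ^ (k + 2) - 2)) ≤ 1 / (2 : ℝ) ^ k := by
    rw [mul_one_div, div_le_div_iff₀ (by linarith) (by linarith)]
    rw [hQ']
    linarith
  linarith

lemma rp_le_max (c e : ℝ) (hc : 0 < c) (he0 : 0 ≤ e) (he1 : e ≤ 1) : c ^ e ≤ max 1 c := by
  calc c ^ e ≤ (max 1 c) ^ e := Real.rpow_le_rpow hc.le (le_max_right _ _) he0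
    _ ≤ (max 1 c) ^ (1 : ℝ) := Real.rpow_le_rpow_of_exponent_le (le_max_left _ _) he1
    _ = max 1 c := Real.rpow_one _

/-- the numerical part -/
lemma numk (k : ℕ) (hk : 1 ≤ k) (c N t : ℝ) (hc : 0 < c) (ht : 1 ≤ t)
    (hN1 : t ^ (k - 1) ≤ N) (hN2 : N ≤ t ^ k) :
    0 < c * (N * t / t ^ (k + 2)) ∧
    2 * t * (c * (N * t / t ^ (k + 2))) ^ (1 / ((2 : ℝ) ^ (k + 2) - 2)) +
      (2 * t) ^ (1 - 1 / (2 : ℝ) ^ k) * (c * (N * t / t ^ (k + 2))) ^ (-(1 / ((2 : ℝ) ^ (k + 2) - 2))) ≤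
      (2 * max 1 c + 2 * max 1 (1 / c)) * t ^ (1 - 1 / ((2 : ℝ) ^ (k + 2) - 2)) := by
  have ht0 : 0 < t := by linarith
  have hQ := Qpos k hk
  have hE := Qexp k hk
  set e : ℝ := 1 / ((2 : ℝ) ^ (k + 2) - 2) with he
  have he0 : 0 < e := by rw [he]; apply one_div_pos.mpr; linarith
  have he1 : e ≤ 1 := by
    rw [he, div_le_one (by linarith)]; linarith
  have hup : N * t / t ^ (k + 2) ≤ t ^ (-1 : ℝ) := by
    rw [Real.rpow_neg_one, div_le_iff₀ (by positivity)]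
    calc N * t ≤ t ^ k * t := mul_le_mul_of_nonneg_right hN2 ht0.le
      _ = t⁻¹ * t ^ (k + 2) := by field_simp; ring
  have hlo : t ^ (-2 : ℝ) ≤ N * t / t ^ (k + 2) := by
    have h2 : t ^ (-2 : ℝ) = (t ^ 2)⁻¹ := by
      rw [Real.rpow_neg ht0.le]
      norm_num
    rw [h2, le_div_iff₀ (by positivity)]
    have : t ^ (k - 1) * t = t ^ k := by
      rw [← pow_succ]
      congr 1
      omega
    calc (t ^ 2)⁻¹ * t ^ (k + 2) = t ^ k := by field_simp; ring
      _ = t ^ (k - 1) * t := this.symm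
      _ ≤ N * t := mul_le_mul_of_nonneg_right hN1 ht0.le
  set y : ℝ := N * t / t ^ (k + 2) with hy
  have hypos : 0 < y := lt_of_lt_of_le (Real.rpow_pos_of_pos ht0 _) hlo
  refine ⟨mul_pos hc hypos, ?_⟩
  have h1 : (c * y) ^ e ≤ max 1 c * t ^ (-e) := by
    rw [Real.mul_rpow hc.le hypos.le]
    refine mul_le_mul (rp_le_max c e hc he0.le he1) ?_ (by positivity) (le_trans zero_le_one (le_max_left _ _))
    calc y ^ e ≤ (t ^ (-1 : ℝ)) ^ e := Real.rpow_le_rpow hypos.le hup he0.le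
      _ = t ^ (-e) := by rw [← Real.rpow_mul ht0.le]; congr 1; ring
  have h2 : (c * y) ^ (-e) ≤ max 1 (1 / c) * t ^ (2 * e) := by
    rw [Real.mul_rpow hc.le hypos.le]
    refine mul_le_mul ?_ ?_ (by positivity) (le_trans zero_le_one (le_max_left _ _))
    · have : c ^ (-e) = (1 / c) ^ e := by
        rw [Real.rpow_neg hc.le, one_div, Real.inv_rpow hc.le]
      rw [this]
      exact rp_le_max (1 / c) e (by positivity) he0.le he1
    · calc y ^ (-e) ≤ (t ^ (-2 : ℝ)) ^ (-e) :=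
            Real.rpow_le_rpow_of_nonpos (Real.rpow_pos_of_pos ht0 _) hlo (by linarith)
        _ = t ^ (2 * e) := by rw [← Real.rpow_mul ht0.le]; congr 1; ring
  have h3 : (2 * t) ^ (1 - 1 / (2 : ℝ) ^ k) ≤ 2 * t ^ (1 - 1 / (2 : ℝ) ^ k) := by
    have h2k : (1 : ℝ) ≤ (2 : ℝ) ^ k := one_le_pow₀ (by norm_num)
    have hf0 : 0 ≤ 1 - 1 / (2 : ℝ) ^ k := by
      have : 1 / (2 : ℝ) ^ k ≤ 1 := by rw [div_le_one (by linarith)]; exact h2k
      linarith
    have hf1 : 1 - 1 / (2 : ℝ) ^ k ≤ 1 := by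
      have : 0 < 1 / (2 : ℝ) ^ k := by positivity
      linarith
    rw [Real.mul_rpow (by norm_num) ht0.le]
    refine mul_le_mul_of_nonneg_right ?_ (by positivity)
    calc (2 : ℝ) ^ (1 - 1 / (2 : ℝ) ^ k) ≤ (2 : ℝ) ^ (1 : ℝ) :=
          Real.rpow_le_rpow_of_exponent_le (by norm_num) hf1
      _ = 2 := Real.rpow_one _
  have hm1 : 0 ≤ max 1 c := le_trans zero_le_one (le_max_left _ _)
  have hm2 : 0 ≤ max 1 (1 / c) := le_trans zero_le_one (le_max_left _ _)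
  calc 2 * t * (c * y) ^ e + (2 * t) ^ (1 - 1 / (2 : ℝ) ^ k) * (c * y) ^ (-e)
      ≤ 2 * t * (max 1 c * t ^ (-e)) + (2 * t ^ (1 - 1 / (2 : ℝ) ^ k)) * (max 1 (1 / c) * t ^ (2 * e)) := by
        refine add_le_add (mul_le_mul_of_nonneg_left h1 (by positivity)) ?_
        exact mul_le_mul h3 h2 (by positivity) (by positivity)
    _ = 2 * max 1 c * (t ^ (1 : ℝ) * t ^ (-e)) +
        2 * max 1 (1 / c) * (t ^ (1 - 1 / (2 : ℝ) ^ k) * t ^ (2 * e)) := by
        rw [Real.rpow_one]; ring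
    _ = 2 * max 1 c * t ^ (1 - e) + 2 * max 1 (1 / c) * t ^ (1 - 1 / (2 : ℝ) ^ k + 2 * e) := by
        rw [← Real.rpow_add ht0, ← Real.rpow_add ht0]
        rfl
    _ ≤ 2 * max 1 c * t ^ (1 - e) + 2 * max 1 (1 / c) * t ^ (1 - e) := by
        have := Real.rpow_le_rpow_of_exponent_le ht hE
        have h4 : 2 * max 1 (1 / c) * t ^ (1 - 1 / (2 : ℝ) ^ k + 2 * e) ≤ 2 * max 1 (1 / c) * t ^ (1 - e) :=
          mul_le_mul_of_nonneg_left this (by positivity)
        linarith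
    _ = (2 * max 1 c + 2 * max 1 (1 / c)) * t ^ (1 - e) := by ring

/-- the exponential sums, one `k` -/
lemma sumk (hVJ : StVJ) (hPM : StPM) (k : ℕ) (hk : 1 ≤ k) : ∃ D C' : ℝ, 0 ≤ D ∧ 1 ≤ C' ∧
    ∀ (X N t : ℝ) (a b : ℕ), 1 ≤ N → 0 < X → C' * N ≤ X ^ 2 → 1 ≤ t → t ^ (k - 1) ≤ N → N ≤ t ^ k →
    1 ≤ a → t / 2 ≤ a → a ≤ b → (b : ℝ) ≤ 2 * t + 1 →
    ‖∑ m ∈ Finset.Ico a b, ee (Ph X m (t * Real.sqrt N))‖ ≤ D * t ^ (1 - 1 / ((2 : ℝ) ^ (k + 2) - 2)) := by
  obtain ⟨c, C, hc, hC, hP⟩ := hPM k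
  obtain ⟨CV, hCV, hV⟩ := hVJ k (max 1 (C / c)) (le_max_left _ _)
  refine ⟨CV * (2 * max 1 c + 2 * max 1 (1 / c)), C, by positivity, hC, ?_⟩
  intro X N t a b hN hX hCN ht hN1 hN2 ha hta hab hb
  have ht0 : 0 < t := by linarith
  obtain ⟨hpos, hnum⟩ := numk k hk c N t hc ht hN1 hN2
  have hsig : ((-1 : ℝ) ^ k = 1 ∨ (-1 : ℝ) ^ k = -1) := neg_one_pow_eq_or ℝ k
  have ha1 : (1 : ℝ) ≤ a := by exact_mod_cast ha
  have key := hV (fun m => Ph X m (t * Real.sqrt N)) a b (2 * t) (c * (N * t / t ^ (k + 2))) ((-1) ^ k) hsig hab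
    (by linarith) (by linarith) hpos (by
      intro n hn hnb
      have hn1 : t / 2 ≤ (n : ℝ) := le_trans hta (by exact_mod_cast hn)
      have hn2 : (n : ℝ) + (k + 2) ≤ 2 * t := by
        have : n + (k + 2) + 1 ≤ b := hnb
        have h' : ((n : ℝ) + (k + 2) + 1) ≤ b := by exact_mod_cast this
        linarith
      obtain ⟨h1, h2⟩ := hP X N t n hN hX hCN ht hn1 hn2
      refine ⟨h1, h2.trans ?_⟩
      have hy : 0 < N * t / t ^ (k + 2) := by positivity
      calc C * (N * t / t ^ (k + 2)) = (C / c) * (c * (N * t / t ^ (k + 2))) := by field_simp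
        _ ≤ max 1 (C / c) * (c * (N * t / t ^ (k + 2))) :=
          mul_le_mul_of_nonneg_right (le_max_right _ _) (by positivity))
  refine key.trans ?_
  calc _ ≤ CV * ((2 * max 1 c + 2 * max 1 (1 / c)) * t ^ (1 - 1 / ((2 : ℝ) ^ (k + 2) - 2))) :=
        mul_le_mul_of_nonneg_left hnum (by linarith)
    _ = _ := by ring

/-- the right `k` -/
lemma findk (B N t : ℝ) (hB : 1 ≤ B) (hN : 1 ≤ N) (ht : 1 ≤ t) (hNB : N ≤ t ^ B) :
    ∃ i : ℕ, i < ⌈B⌉₊ ∧ t ^ (i + 1 - 1) ≤ N ∧ N ≤ t ^ (i + 1) := by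
  have hK : 1 ≤ ⌈B⌉₊ := by
    rw [Nat.one_le_ceil_iff]; linarith
  have hex : ∃ i : ℕ, N ≤ t ^ (i + 1) := by
    refine ⟨⌈B⌉₊ - 1, ?_⟩
    rw [Nat.sub_add_cancel hK]
    calc N ≤ t ^ B := hNB
      _ ≤ t ^ ((⌈B⌉₊ : ℕ) : ℝ) := Real.rpow_le_rpow_of_exponent_le ht (Nat.le_ceil B)
      _ = t ^ ⌈B⌉₊ := Real.rpow_natCast _ _
  classical
  refine ⟨Nat.find hex, ?_, ?_, Nat.find_spec hex⟩
  · have : Nat.find hex ≤ ⌈B⌉₊ - 1 := by
      apply Nat.find_min'
      rw [Nat.sub_add_cancel hK]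
      calc N ≤ t ^ B := hNB
        _ ≤ t ^ ((⌈B⌉₊ : ℕ) : ℝ) := Real.rpow_le_rpow_of_exponent_le ht (Nat.le_ceil B)
        _ = t ^ ⌈B⌉₊ := Real.rpow_natCast _ _
    omega
  · rcases Nat.eq_zero_or_pos (Nat.find hex) with h | h
    · rw [h]; simpa using hN
    · have h2 := Nat.find_min hex (m := Nat.find hex - 1) (by omega)
      rw [not_le] at h2
      have h3 : Nat.find hex - 1 + 1 = Nat.find hex := by omega
      rw [h3] at h2
      have h4 : Nat.find hex + 1 - 1 = Nat.find hex := by omega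
      rw [h4]
      exact h2.le

/-- the sum of the truncated kernels -/
lemma sumKJ (X N t : ℝ) (hN : 1 ≤ N) (ht : 1 ≤ t) :
    ∑ m ∈ Finset.Icc 1 ⌊2 * t⌋₊, (KJ X N m (t * Real.sqrt N) + (starRingEnd ℂ) (KJ X N m (-(t * Real.sqrt N)))) =
      ∑ m ∈ Finset.Ico ⌈t / 2⌉₊ (⌊2 * t⌋₊ + 1), KK X N m (t * Real.sqrt N) := by
  have hs : 0 < Real.sqrt N := Real.sqrt_pos.mpr (by linarith)
  have ha1 : 1 ≤ ⌈t / 2⌉₊ := by
    rw [Nat.one_le_ceil_iff]; linarith
  have h1 : ∀ m ∈ Finset.Icc 1 ⌊2 * t⌋₊,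
      (KJ X N m (t * Real.sqrt N) + (starRingEnd ℂ) (KJ X N m (-(t * Real.sqrt N)))) =
      if ⌈t / 2⌉₊ ≤ m then KK X N m (t * Real.sqrt N) else 0 := by
    intro m hm
    rw [Finset.mem_Icc] at hm
    have hm1 : (1 : ℝ) ≤ m := by exact_mod_cast hm.1
    have hm2 : (m : ℝ) ≤ 2 * t := (Nat.le_floor_iff (by linarith)).mp hm.2
    have hneg : KJ X N m (-(t * Real.sqrt N)) = 0 := by
      unfold KJ
      rw [if_neg]
      intro h
      have h2 := h.1
      have : 0 < (m : ℝ) * Real.sqrt N / 2 := by positivity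
      have h3 : 0 < t * Real.sqrt N := by positivity
      linarith
    rw [hneg, map_zero, add_zero]
    unfold KJ
    by_cases hc : ⌈t / 2⌉₊ ≤ m
    · rw [if_pos hc, if_pos]
      have hc' : t / 2 ≤ (m : ℝ) := Nat.ceil_le.mp hc
      constructor
      · nlinarith
      · nlinarith
    · rw [if_neg hc, if_neg]
      intro h
      apply hc
      rw [Nat.ceil_le]
      have h2 := h.2
      have h3 : t ≤ 2 * (m : ℝ) := le_of_mul_le_mul_right (by linarith) hs
      linarith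
  rw [Finset.sum_congr rfl h1, ← Finset.sum_filter]
  apply Finset.sum_congr _ (fun _ _ => rfl)
  ext m
  simp only [Finset.mem_filter, Finset.mem_Icc, Finset.mem_Ico]
  omega

lemma sqrt_id (N t σ : ℝ) (hN : 1 ≤ N) (ht : 1 ≤ t) :
    Real.sqrt (N / t) * t ^ (1 - σ) = Real.sqrt (N * t) * t ^ (-σ) := by
  have ht0 : 0 < t := by linarith
  have h1 : Real.sqrt (N / t) * t = Real.sqrt (N * t) := by
    have : Real.sqrt (N * t) = Real.sqrt (N / t * t ^ 2) := by
      congr 1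
      field_simp
    rw [this, Real.sqrt_mul (by positivity), Real.sqrt_sq ht0.le]
  have h2 : t ^ (1 - σ) = t * t ^ (-σ) := by
    have : (1 - σ : ℝ) = 1 + (-σ) := by ring
    rw [this, Real.rpow_add ht0, Real.rpow_one]
  rw [h2, ← mul_assoc, h1]

end KC_aux

open KC_aux in
/-- ITEM KC (kernel bound with a saving) -/
theorem iKC (hVJ : StVJ) (hPM : StPM) (hKm : StKm) (hK2 : UB.StK2) (hK3 : UB.StK3) (hKD : UB.StKD) : StKC := by
  intro B hB
  obtain ⟨Cm, hCm, hKm⟩ := hKm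
  obtain ⟨C2, hC2, hK2⟩ := hK2
  obtain ⟨C3, hC3, hK3⟩ := hK3
  obtain ⟨CD, hCD, hKD⟩ := hKD
  choose D C' hD hC' hS using (fun k : ℕ => sumk hVJ hPM (k + 1) (by omega))
  set K : ℕ := ⌈B⌉₊ with hKdef
  have hK1 : 1 ≤ K := by
    rw [hKdef, Nat.one_le_ceil_iff]; linarith
  set Dt : ℝ := ∑ i ∈ Finset.range K, D i with hDt
  set Ct : ℝ := ∑ i ∈ Finset.range K, C' i with hCt
  have hDt0 : 0 ≤ Dt := Finset.sum_nonneg (fun i _ => hD i)
  have hCt0 : 0 ≤ Ct := Finset.sum_nonneg (fun i _ => by linarith [hC' i])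
  have hQK := Qpos K hK1
  set σ : ℝ := 1 / ((2 : ℝ) ^ (K + 2) - 2) with hσ
  have hσ0 : 0 < σ := by rw [hσ]; apply one_div_pos.mpr; linarith
  have hσ1 : σ ≤ 1 / 4 := by
    rw [hσ]
    exact one_div_le_one_div_of_le (by norm_num) (by linarith)
  set C : ℝ := Ct + CD + C2 + C3 + Cm + Dt * (2 * C3 + 8 * Cm) with hC
  have hDC : 0 ≤ Dt * (2 * C3 + 8 * Cm) := by positivity
  refine ⟨σ, C, hσ0, hσ1, by linarith, ?_⟩
  -- the positive case
  have main : ∀ X N t : ℝ, 1 ≤ N → 0 < X → C * N ≤ X ^ 2 → 1 ≤ t → t ≤ N → N ≤ t ^ B →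
      ‖KS X N (t * Real.sqrt N)‖ ≤ C * (Real.sqrt (N * t) * t ^ (-σ)) := by
    intro X N t hN hX hCN ht htN hNB
    have ht0 : 0 < t := by linarith
    have hN0 : 0 < N := by linarith
    have hs : 0 < Real.sqrt N := Real.sqrt_pos.mpr hN0
    have hle : ∀ c : ℝ, c ≤ C → c * N ≤ X ^ 2 := fun c hc =>
      (mul_le_mul_of_nonneg_right hc hN0.le).trans hCN
    obtain ⟨i, hi, hi1, hi2⟩ := findk B N t hB hN ht hNB
    have hiC : C' i ≤ Ct := Finset.single_le_sum (f := C') (fun j _ => by linarith [hC' j]) (Finset.mem_range.mpr hi)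
    have hiD : D i ≤ Dt := Finset.single_le_sum (f := D) (fun j _ => hD j) (Finset.mem_range.mpr hi)
    set x : ℝ := t * Real.sqrt N with hx
    have hx0 : 0 < x := by positivity
    set a : ℕ := ⌈t / 2⌉₊ with ha
    set b : ℕ := ⌊2 * t⌋₊ + 1 with hb
    have ha1 : 1 ≤ a := by
      rw [ha, Nat.one_le_ceil_iff]; linarith
    have hta : t / 2 ≤ (a : ℝ) := Nat.le_ceil _
    have hab : a < b := by
      rw [hb, Nat.lt_succ_iff, ha, Nat.ceil_le]
      have := Nat.sub_one_lt_floor (2 * t)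
      linarith
    have hb2 : (b : ℝ) ≤ 2 * t + 1 := by
      rw [hb]; push_cast
      have := Nat.floor_le (a := 2 * t) (by linarith)
      linarith
    have hbm : ∀ m : ℕ, m < b → (m : ℝ) ≤ 2 * t := by
      intro m hm
      have h1 : m ≤ ⌊2 * t⌋₊ := by omega
      exact (Nat.le_floor_iff (by linarith)).mp h1
    -- bound for the interval sums
    have hG : ∀ m, a ≤ m → m ≤ b → ‖∑ l ∈ Finset.Ico a m, ee (Ph X l x)‖ ≤ Dt * t ^ (1 - σ) := by
      intro m ham hmb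
      have hmb' : (m : ℝ) ≤ 2 * t + 1 := le_trans (by exact_mod_cast hmb) hb2
      refine (hS i X N t a m hN hX (hle _ (by linarith)) ht hi1 hi2 ha1 hta ham hmb').trans ?_
      refine mul_le_mul hiD ?_ (by positivity) hDt0
      apply Real.rpow_le_rpow_of_exponent_le ht
      have hQi := Qpos (i + 1) (by omega)
      have h2 : (2 : ℝ) ^ (i + 1 + 2) ≤ (2 : ℝ) ^ (K + 2) := pow_le_pow_right₀ (by norm_num) (by omega)
      have h3 : σ ≤ 1 / ((2 : ℝ) ^ (i + 1 + 2) - 2) := by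
        rw [hσ]
        exact one_div_le_one_div_of_le (by linarith) (by linarith)
      linarith
    set A : ℕ → ℂ := fun m => ee (-(Ph X m x)) * KK X N m x with hA
    set r : ℝ := Real.sqrt (N / t) with hr
    have hr0 : 0 < r := Real.sqrt_pos.mpr (by positivity)
    have hAb : ∀ m : ℕ, a ≤ m → ‖A m‖ ≤ 2 * C3 * r := by
      intro m hm
      have hm1 : (1 : ℝ) ≤ m := by exact_mod_cast le_trans ha1 hm
      have hm2 : t / 2 ≤ (m : ℝ) := hta.trans (by exact_mod_cast hm)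
      rw [hA]
      simp only
      rw [norm_mul, norm_ee, one_mul]
      have h1 := (hK3 X N hN hX (hle _ (by linarith))).1 (m : ℤ) (by
        intro h
        have : m = 0 := by exact_mod_cast h
        omega) x
      refine h1.trans ?_
      have h2 : Real.sqrt (N / |(((m : ℤ)) : ℝ)|) ≤ 2 * r := by
        have h3 : |(((m : ℤ)) : ℝ)| = (m : ℝ) := by
          push_cast
          exact abs_of_nonneg (by linarith)
        rw [h3, hr]
        have h4 : (2 : ℝ) * Real.sqrt (N / t) = Real.sqrt (4 * (N / t)) := by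
          rw [Real.sqrt_mul (by norm_num)]
          congr 1
          rw [show (4 : ℝ) = 2 ^ 2 by norm_num, Real.sqrt_sq (by norm_num)]
        rw [h4]
        apply Real.sqrt_le_sqrt
        rw [← mul_div_assoc, div_le_div_iff₀ (by linarith) ht0]
        nlinarith
      calc C3 * Real.sqrt (N / |(((m : ℤ)) : ℝ)|) ≤ C3 * (2 * r) := mul_le_mul_of_nonneg_left h2 (by linarith)
        _ = 2 * C3 * r := by ring
    have hAv : ∀ m : ℕ, a ≤ m → m + 1 < b → ‖A (m + 1) - A m‖ ≤ 4 * Cm * r / t := by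
      intro m hm hmb
      have hm1 : (1 : ℝ) ≤ m := by exact_mod_cast le_trans ha1 hm
      have hm2 : t / 2 ≤ (m : ℝ) := hta.trans (by exact_mod_cast hm)
      have hm3 : ((m : ℝ) + 1) ≤ 2 * t := by
        have := hbm (m + 1) hmb
        push_cast at this
        exact this
      have h1 := hKm X N x m hN hX (hle _ (by linarith)) (le_trans ha1 hm) (by rw [hx]; nlinarith) (by rw [hx]; nlinarith)
      have h2 : A (m + 1) - A m = ee (-(Ph X ((m : ℝ) + 1) x)) * KK X N ((m : ℤ) + 1) x -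
          ee (-(Ph X m x)) * KK X N m x := by
        rw [hA]
        simp only
        push_cast
        rfl
      rw [h2]
      refine h1.trans ?_
      have h3 : Real.sqrt N = r * Real.sqrt t := by
        rw [hr, ← Real.sqrt_mul (by positivity)]
        congr 1
        field_simp
      have hst : 0 < Real.sqrt t := Real.sqrt_pos.mpr ht0
      have h4 : Real.sqrt t / 2 ≤ Real.sqrt m := by
        have h5 : Real.sqrt t / 2 = Real.sqrt (t / 4) := by
          rw [Real.sqrt_div ht0.le]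
          congr 1
          rw [show (4 : ℝ) = 2 ^ 2 by norm_num, Real.sqrt_sq (by norm_num)]
        rw [h5]
        exact Real.sqrt_le_sqrt (by linarith)
      have h5 : t / 2 * (Real.sqrt t / 2) ≤ (m : ℝ) * Real.sqrt m :=
        mul_le_mul hm2 h4 (by positivity) (by linarith)
      rw [h3]
      calc Cm * (r * Real.sqrt t) / ((m : ℝ) * Real.sqrt m)
          ≤ Cm * (r * Real.sqrt t) / (t / 2 * (Real.sqrt t / 2)) := by
            apply div_le_div_of_nonneg_left (by positivity) (by positivity) h5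
        _ = 4 * Cm * r / t := by field_simp; ring
    have hsum : ‖∑ m ∈ Finset.Ico a b, KK X N m x‖ ≤ (2 * C3 + 8 * Cm) * r * (Dt * t ^ (1 - σ)) := by
      have h1 : ∑ m ∈ Finset.Ico a b, KK X N m x = ∑ m ∈ Finset.Ico a b, A m * ee (Ph X m x) := by
        apply Finset.sum_congr rfl
        intro m _
        rw [hA]
        simp only
        rw [mul_comm, ← mul_assoc, ee_neg_mul, one_mul]
      rw [h1]
      have h2 := abel_le A (fun m => ee (Ph X m x)) a b (Dt * t ^ (1 - σ)) (2 * C3 * r) (4 * Cm * r / t) hab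
        (by positivity) hG (hAb (b - 1) (by omega)) hAv (by positivity)
      refine h2.trans ?_
      refine mul_le_mul_of_nonneg_right ?_ (by positivity)
      have ha1' : (1 : ℝ) ≤ a := by exact_mod_cast ha1
      have h3 : ((b : ℝ) - a) * (4 * Cm * r / t) ≤ (2 * t) * (4 * Cm * r / t) :=
        mul_le_mul_of_nonneg_right (by linarith) (by positivity)
      have h4 : (2 * t) * (4 * Cm * r / t) = 8 * Cm * r := by field_simp; ring
      calc 2 * C3 * r + ((b : ℝ) - a) * (4 * Cm * r / t) ≤ 2 * C3 * r + 8 * Cm * r := by linarith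
        _ = (2 * C3 + 8 * Cm) * r := by ring
    have hid := sqrt_id N t σ hN ht
    have hone : 1 ≤ Real.sqrt (N * t) * t ^ (-σ) := by
      have h1 : t ≤ Real.sqrt (N * t) := by
        rw [Real.le_sqrt ht0.le (by positivity)]
        nlinarith
      have h2 : t ^ (-(1 : ℝ)) ≤ t ^ (-σ) := Real.rpow_le_rpow_of_exponent_le ht (by linarith)
      calc (1 : ℝ) = t * t ^ (-(1 : ℝ)) := by rw [Real.rpow_neg_one]; field_simp
        _ ≤ Real.sqrt (N * t) * t ^ (-σ) := mul_le_mul h1 h2 (by positivity) (by positivity)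
    set Z : ℝ := Real.sqrt (N * t) * t ^ (-σ) with hZ
    have hsum' : ‖∑ m ∈ Finset.Ico a b, KK X N m x‖ ≤ Dt * (2 * C3 + 8 * Cm) * Z := by
      refine hsum.trans (le_of_eq ?_)
      rw [← hid]
      ring
    have hKK0 : ‖KK X N 0 x‖ ≤ C2 := by
      refine ((hK2 X N hN hX (hle _ (by linarith))).1 x).trans ?_
      rw [div_le_iff₀ (by positivity)]
      have h1 : |x| * Real.sqrt N = t * N := by
        rw [abs_of_pos hx0, hx, mul_assoc, Real.mul_self_sqrt hN0.le]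
      rw [h1]
      have h4 : N ≤ t * N := by nlinarith
      have h2 : N ≤ (1 + t * N) ^ 2 := by nlinarith [sq_nonneg (t * N)]
      exact mul_le_mul_of_nonneg_left h2 (by linarith)
    have hD1 := hKD X N t x hN hX (hle _ (by linarith)) ht (by rw [abs_of_pos hx0])
    rw [hx, sumKJ X N t hN ht, ← hx, ← ha] at hD1
    have hD2 : CD / N ≤ CD := div_le_self (by linarith) hN
    have h3 : KS X N x = (KS X N x - KK X N 0 x - ∑ m ∈ Finset.Ico a b, KK X N m x) + KK X N 0 x +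
        ∑ m ∈ Finset.Ico a b, KK X N m x := by ring
    rw [h3]
    calc _ ≤ ‖KS X N x - KK X N 0 x - ∑ m ∈ Finset.Ico a b, KK X N m x‖ + ‖KK X N 0 x‖ +
          ‖∑ m ∈ Finset.Ico a b, KK X N m x‖ := norm_add₃_le
      _ ≤ CD + C2 + Dt * (2 * C3 + 8 * Cm) * Z := by linarith
      _ ≤ C * Z := by
        rw [hC]
        nlinarith
  intro X N t x hN hX hCN ht htN hNB hxt
  rcases abs_eq (by positivity : 0 ≤ t * Real.sqrt N) |>.mp hxt with h | h
  · rw [h]; exact main X N t hN hX hCN ht htN hNB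
  · rw [h, norm_KS_neg]; exact main X N t hN hX hCN ht htN hNB

end Pool.Agent.Work.MP_56b8f5_nt.UT
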