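import Pool.Agent.Work.MP_56b8f5_nt.UT.Stmts

/-!
MP_56b8f5_nt, block UT, item KL: the inequality of Kusmin and Landau (increasing differences in
`[θ, 1 - θ]`).
-/

noncomputable section

namespace Pool.Agent.Work.MP_56b8f5_nt.UT

open Pool.Agent.Work.MP_56b8f5_nt.UB
open Finset

namespace KL_aux

theorem norm_ee (x : ℝ) : ‖ee x‖ = 1 := by
  unfold ee
  exact Complex.norm_exp_ofReal_mul_I _

theorem ee_add (x y : ℝ) : ee (x + y) = ee x * ee y := by
  unfold ee
  rw [← Complex.exp_add]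
  congr 1
  push_cast
  ring

/-- the cotangent `cot (π d)` -/
def ct (d : ℝ) : ℝ := Real.cos (Real.pi * d) / Real.sin (Real.pi * d)

/-- `1 / (1 - e(d))` -/
def cc (d : ℝ) : ℂ := (1 + (ct d : ℂ) * Complex.I) / 2

theorem sin_ge {d θ : ℝ} (hθ : 0 < θ) (hθ2 : θ ≤ 1 / 2) (h0 : θ ≤ d) (h1 : d ≤ 1 - θ) :
    2 * θ ≤ Real.sin (Real.pi * d) := by
  have hpi := Real.pi_pos
  rcases le_total d (1 / 2) with h | h
  · have h3 := Real.mul_le_sin (x := Real.pi * d) (by nlinarith) (by nlinarith)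
    have h4 : 2 / Real.pi * (Real.pi * d) = 2 * d := by field_simp
    rw [h4] at h3
    linarith
  · have h3 := Real.mul_le_sin (x := Real.pi * (1 - d)) (by nlinarith) (by nlinarith)
    have h4 : 2 / Real.pi * (Real.pi * (1 - d)) = 2 * (1 - d) := by field_simp
    have h5 : Real.sin (Real.pi * (1 - d)) = Real.sin (Real.pi * d) := by
      rw [← Real.sin_pi_sub]
      congr 1
      ring
    rw [h4, h5] at h3
    linarith

theorem ct_abs {d θ : ℝ} (hθ : 0 < θ) (hθ2 : θ ≤ 1 / 2) (h0 : θ ≤ d) (h1 : d ≤ 1 - θ) :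
    |ct d| ≤ 1 / (2 * θ) := by
  have hs := sin_ge hθ hθ2 h0 h1
  have hs0 : 0 < Real.sin (Real.pi * d) := by linarith
  unfold ct
  rw [abs_div, abs_of_pos hs0]
  exact div_le_div₀ zero_le_one (Real.abs_cos_le_one _) (by linarith) hs

theorem ct_anti {d d' : ℝ} (h0 : 0 < d) (h1 : d ≤ d') (h2 : d' < 1) : ct d' ≤ ct d := by
  have hpi := Real.pi_pos
  have hs : 0 < Real.sin (Real.pi * d) :=
    Real.sin_pos_of_pos_of_lt_pi (by positivity) (by nlinarith)
  have hs' : 0 < Real.sin (Real.pi * d') :=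
    Real.sin_pos_of_pos_of_lt_pi (by nlinarith) (by nlinarith)
  have hd : 0 ≤ Real.sin (Real.pi * d' - Real.pi * d) :=
    Real.sin_nonneg_of_nonneg_of_le_pi (by nlinarith) (by nlinarith)
  rw [Real.sin_sub] at hd
  unfold ct
  rw [div_le_div_iff₀ hs' hs]
  linarith

theorem cc_mul {d : ℝ} (h0 : 0 < d) (h1 : d < 1) : (1 - ee d) * cc d = 1 := by
  have hpi := Real.pi_pos
  have hs0 : Real.sin (Real.pi * d) ≠ 0 :=
    (Real.sin_pos_of_pos_of_lt_pi (by positivity) (by nlinarith)).ne'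
  have he : ee d =
      ((Real.cos (Real.pi * d) : ℂ) + (Real.sin (Real.pi * d) : ℂ) * Complex.I) ^ 2 := by
    unfold ee
    rw [Complex.ofReal_cos, Complex.ofReal_sin, ← Complex.exp_mul_I, ← Complex.exp_nat_mul]
    congr 1
    push_cast
    ring
  rw [he]
  unfold cc ct
  have hsc : (Real.sin (Real.pi * d) : ℂ) ≠ 0 := by exact_mod_cast hs0
  have hcs : (Real.cos (Real.pi * d) : ℂ) ^ 2 = 1 - (Real.sin (Real.pi * d) : ℂ) ^ 2 := by
    have := Real.cos_sq_add_sin_sq (Real.pi * d)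
    have h2 : (Real.cos (Real.pi * d) : ℂ) ^ 2 + (Real.sin (Real.pi * d) : ℂ) ^ 2 = 1 := by
      exact_mod_cast this
    linear_combination h2
  rw [Complex.ofReal_div]
  generalize (Real.sin (Real.pi * d) : ℂ) = s at hsc hcs ⊢
  generalize (Real.cos (Real.pi * d) : ℂ) = c at hcs ⊢
  have hI : Complex.I ^ 2 = -1 := Complex.I_sq
  have e1 : 1 - (c + s * Complex.I) ^ 2 = 2 * s * (s - c * Complex.I) := by
    linear_combination (-1 : ℂ) * hcs - s ^ 2 * hI
  have e2 : 2 * s * (s - c * Complex.I) * ((1 + c / s * Complex.I) / 2) =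
      (s - c * Complex.I) * (s + c * Complex.I) := by
    field_simp
  rw [e1, e2]
  linear_combination hcs - c ^ 2 * hI

theorem cc_norm {d θ : ℝ} (hθ : 0 < θ) (hθ2 : θ ≤ 1 / 2) (h0 : θ ≤ d) (h1 : d ≤ 1 - θ) :
    ‖cc d‖ ≤ 1 / 2 + 1 / (4 * θ) := by
  unfold cc
  rw [norm_div, Complex.norm_ofNat]
  have h2 := ct_abs hθ hθ2 h0 h1
  have h4 : ‖(1 + (ct d : ℂ) * Complex.I)‖ ≤ 1 + |ct d| := by
    refine (norm_add_le _ _).trans ?_
    rw [norm_one, norm_mul, Complex.norm_I, mul_one, Complex.norm_real, Real.norm_eq_abs]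
  have h5 : 1 / (2 * θ) = 2 * (1 / (4 * θ)) := by field_simp; norm_num
  linarith

theorem abel (E c : ℕ → ℂ) (hE : ∀ n, ‖E n‖ = 1) (K : ℕ) :
    ‖∑ n ∈ range (K + 1), (E n - E (n + 1)) * c n + E (K + 1) * c K‖ ≤
      ‖c 0‖ + ∑ n ∈ range K, ‖c (n + 1) - c n‖ := by
  have key : ∑ n ∈ range (K + 1), (E n - E (n + 1)) * c n + E (K + 1) * c K =
      E 0 * c 0 + ∑ n ∈ range K, E (n + 1) * (c (n + 1) - c n) := by
    induction K with
    | zero =>
      simp only [zero_add, range_one, sum_singleton, range_zero, sum_empty, add_zero]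
      ring
    | succ K ih =>
      rw [sum_range_succ, sum_range_succ (fun n => E (n + 1) * (c (n + 1) - c n)), ← add_assoc,
        ← ih]
      ring
  rw [key]
  refine (norm_add_le _ _).trans ?_
  rw [norm_mul, hE, one_mul]
  refine add_le_add le_rfl ?_
  refine (norm_sum_le _ _).trans ?_
  apply sum_le_sum
  intro n _
  rw [norm_mul, hE, one_mul]

theorem shift (h : ℕ → ℝ) (M : ℕ) (θ : ℝ) (hl : 0 < θ) (hl2 : θ ≤ 1 / 2)
    (h1 : ∀ n, n + 1 < M → θ ≤ h (n + 1) - h n ∧ h (n + 1) - h n ≤ 1 - θ)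
    (h2 : ∀ n, n + 2 < M → h (n + 1) - h n ≤ h (n + 2) - h (n + 1)) :
    ‖∑ n ∈ range M, ee (h n)‖ ≤ 3 / θ := by
  have hinv : 2 ≤ 1 / θ := by
    rw [le_div_iff₀ hl]; linarith
  have e2 : 3 / θ = 3 * (1 / θ) := by ring
  rcases M with _ | _ | K
  · simp
    positivity
  · simp [norm_ee]
    linarith
  · -- M = K + 2
    set c : ℕ → ℂ := fun n => cc (h (n + 1) - h n) with hc
    set E : ℕ → ℂ := fun n => ee (h n) with hEd
    have hE : ∀ n, ‖E n‖ = 1 := fun n => norm_ee _
    have hterm : ∀ n ∈ range (K + 1), ee (h n) = (E n - E (n + 1)) * c n := by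
      intro n hn
      rw [mem_range] at hn
      obtain ⟨ha, hb⟩ := h1 n (by omega)
      have hm := cc_mul (lt_of_lt_of_le hl ha) (by linarith : h (n + 1) - h n < 1)
      have he : E (n + 1) = E n * ee (h (n + 1) - h n) := by
        simp only [hEd]
        rw [← ee_add]
        congr 1
        ring
      rw [he]
      have : (E n - E n * ee (h (n + 1) - h n)) * c n =
          E n * ((1 - ee (h (n + 1) - h n)) * cc (h (n + 1) - h n)) := by
        simp only [hc]; ring
      rw [this, hm, mul_one]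
    have hsum : ∑ n ∈ range (K + 1 + 1), ee (h n) =
        (∑ n ∈ range (K + 1), (E n - E (n + 1)) * c n + E (K + 1) * c K) - E (K + 1) * c K +
          E (K + 1) := by
      rw [sum_range_succ, sum_congr rfl hterm]
      simp only [hEd]
      ring
    have hc0 : ‖c 0‖ ≤ 1 / 2 + 1 / (4 * θ) := by
      obtain ⟨ha, hb⟩ := h1 0 (by omega)
      exact cc_norm hl hl2 ha hb
    have hcK : ‖c K‖ ≤ 1 / 2 + 1 / (4 * θ) := by
      obtain ⟨ha, hb⟩ := h1 K (by omega)
      exact cc_norm hl hl2 ha hb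
    have hdiff : ∀ n ∈ range K, ‖c (n + 1) - c n‖ =
        (ct (h (n + 1) - h n) - ct (h (n + 1 + 1) - h (n + 1))) / 2 := by
      intro n hn
      rw [mem_range] at hn
      obtain ⟨ha, hb⟩ := h1 n (by omega)
      obtain ⟨ha', hb'⟩ := h1 (n + 1) (by omega)
      have hm := h2 n (by omega)
      have hmono : ct (h (n + 1 + 1) - h (n + 1)) ≤ ct (h (n + 1) - h n) :=
        ct_anti (lt_of_lt_of_le hl ha) hm (by linarith)
      have : c (n + 1) - c n =
          (((ct (h (n + 1 + 1) - h (n + 1)) - ct (h (n + 1) - h n)) / 2 : ℝ) : ℂ) *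
            Complex.I := by
        simp only [hc]
        unfold cc
        push_cast
        ring
      rw [this, norm_mul, Complex.norm_I, mul_one, Complex.norm_real, Real.norm_of_nonpos]
      · ring
      · linarith
    have hS : ∑ n ∈ range K, ‖c (n + 1) - c n‖ ≤ 1 / (2 * θ) := by
      rw [sum_congr rfl hdiff, ← sum_div]
      have ht : ∑ n ∈ range K, (ct (h (n + 1) - h n) - ct (h (n + 1 + 1) - h (n + 1))) =
          ct (h (0 + 1) - h 0) - ct (h (K + 1) - h K) :=
        sum_range_sub' (fun n => ct (h (n + 1) - h n)) K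
      rw [ht]
      obtain ⟨ha, hb⟩ := h1 K (by omega)
      obtain ⟨ha', hb'⟩ := h1 0 (by omega)
      have h3 := abs_le.1 (ct_abs hl hl2 ha hb)
      have h4 := abs_le.1 (ct_abs hl hl2 ha' hb')
      linarith [h3.1, h4.2]
    have hab := abel E c hE K
    rw [hsum]
    have hn1 : ‖(∑ n ∈ range (K + 1), (E n - E (n + 1)) * c n + E (K + 1) * c K) -
        E (K + 1) * c K + E (K + 1)‖
        ≤ ‖∑ n ∈ range (K + 1), (E n - E (n + 1)) * c n + E (K + 1) * c K‖ + ‖c K‖ + 1 := by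
      refine (norm_add_le _ _).trans ?_
      rw [hE]
      refine add_le_add ?_ le_rfl
      refine (norm_sub_le _ _).trans ?_
      rw [norm_mul, hE, one_mul]
    have h6 : 1 / (4 * θ) = (1 / θ) / 4 := by field_simp
    have h7 : 1 / (2 * θ) = (1 / θ) / 2 := by field_simp
    rw [h6] at hc0 hcK
    rw [h7] at hS
    rw [e2]
    linarith

end KL_aux

/-- **KL.** -/
theorem iKL : StKL := by
  refine ⟨3, by norm_num, ?_⟩
  intro g a b θ hl hl2 h1 h2
  rw [sum_Ico_eq_sum_range]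
  apply KL_aux.shift (fun n => g (a + n)) (b - a) θ hl hl2
  · intro n hn
    exact h1 (a + n) (by omega) (by omega)
  · intro n hn
    exact h2 (a + n) (by omega) (by omega)

end Pool.Agent.Work.MP_56b8f5_nt.UT
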