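import Pool.Agent.Work.MP_56b8f5_nt.UT.Stmts
import Pool.Agent.Work.MP_56b8f5_nt.UB.I_K3

/-!
Block UT, item Km: variation in `m` of the amplitude of the kernel.
-/

open MeasureTheory Set Filter Topology

noncomputable section

namespace Pool.Agent.Work.MP_56b8f5_nt.UT

open Pool.Agent.Work.MP_56b8f5_nt.UB

namespace Km_aux

theorem scale {N m C1 : ℝ} (hN : 0 < N) (hm : 0 < m) :
    N * (C1 / (m * N * Real.sqrt (m * N)) * N) = C1 * Real.sqrt N / (m * Real.sqrt m) := by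
  rw [Real.sqrt_mul hm.le]
  have h1 : 0 < Real.sqrt N := Real.sqrt_pos.mpr hN
  have h2 : 0 < Real.sqrt m := Real.sqrt_pos.mpr hm
  have h3 : Real.sqrt N ^ 2 = N := Real.sq_sqrt hN.le
  field_simp
  rw [h3]
  ring

end Km_aux

open Km_aux in
theorem iKm (hAL2 : StAL2) (hKn2 : StKn2) (hPd : StPd) (hKa : UB.StKa) : StKm := by
  obtain ⟨C0, B, hC0, hB, hKn⟩ := hKn2
  obtain ⟨C1, hC1, hAL⟩ := hAL2 (1 / 2) 4 B (by norm_num) (by norm_num) hB
  refine ⟨max 4 (max C0 C1), le_trans (by norm_num) (le_max_left _ _), ?_⟩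
  intro X N x m hN hX hXN hm hx1 hx2
  have hN0 : 0 < N := by linarith
  have hs : 0 < Real.sqrt N := Real.sqrt_pos.mpr hN0
  have hss : Real.sqrt N * Real.sqrt N = N := Real.mul_self_sqrt hN0.le
  have h4 : 4 * N ≤ X ^ 2 := le_trans (mul_le_mul_of_nonneg_right (le_max_left _ _) hN0.le) hXN
  have hc0 : C0 * N ≤ X ^ 2 :=
    le_trans (mul_le_mul_of_nonneg_right (le_trans (le_max_left _ _) (le_max_right _ _)) hN0.le) hXN
  have hC1le : C1 ≤ max 4 (max C0 C1) := le_trans (le_max_right _ _) (le_max_right _ _)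
  obtain ⟨κ, κ1, κ2, g, g1, g2, g3, g4, hd, hκ2, hg4, hk0, hk4, hk10, hk14, hbd, hKK⟩ :=
    hKn X N hN hX hc0
  have hm0 : (0 : ℝ) < m := by exact_mod_cast hm
  set A : ℝ → ℂ := fun z => ee (-(Ph X (z / N) x)) *
    ∫ w in (1 / 2 : ℝ)..4, (κ w : ℂ) * ee (x * Real.sqrt N * w - z * g w) with hA
  have hder : ∀ z ∈ Icc ((m : ℝ) * N) (((m : ℝ) + 1) * N), ∃ A' : ℂ, HasDerivAt A A' z ∧
      ‖A'‖ ≤ C1 / (m * N * Real.sqrt (m * N)) := by
    intro z hz
    have hz0 : 0 < z := lt_of_lt_of_le (mul_pos hm0 hN0) hz.1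
    have hzN : 0 < z / N := div_pos hz0 hN0
    have hzN1 : (m : ℝ) ≤ z / N := by rw [le_div_iff₀ hN0]; exact hz.1
    have hzN2 : z / N ≤ (m : ℝ) + 1 := by rw [div_le_iff₀ hN0]; exact hz.2
    obtain ⟨-, -, -, -, -, -, hka⟩ := hKa X hX
    obtain ⟨hk1, -, -⟩ := hka (z / N) x hzN
    have hw0 : ws X (z / N) x / Real.sqrt N ∈ Icc (1 / 2 : ℝ) 4 := by
      refine K3_aux.ws_mem hN hX h4 hzN ?_ ?_
      · refine le_trans ?_ hx1
        gcongr
      · refine le_trans hx2 ?_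
        gcongr
    have hsw : Real.sqrt N * (ws X (z / N) x / Real.sqrt N) = ws X (z / N) x := by
      field_simp
    obtain ⟨-, -, -, -, -, -, -, -, hgw, hg1w⟩ := hbd _ hw0
    rw [hsw] at hgw hg1w
    have hg1 : z * g1 (ws X (z / N) x / Real.sqrt N) = x * Real.sqrt N := by
      rw [hg1w, hk1]
      have e1 : z * (x / (z / N) / Real.sqrt N) = N * x / Real.sqrt N := by
        field_simp
      rw [e1, div_eq_iff hs.ne']
      nlinarith [hss]
    have hΦ : HasDerivAt (fun y => Ph X (y / N) x) (-(g (ws X (z / N) x / Real.sqrt N))) z := by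
      have h1 : HasDerivAt (fun y : ℝ => y / N) (1 / N) z := (hasDerivAt_id _).div_const _
      have h2 : HasDerivAt (fun y => Ph X y x) (-(nn X (ws X (z / N) x))) (z / N) :=
        (hPd X x (z / N) hX hzN).1
      have h3 := h2.comp z h1
      rw [hgw, show -(nn X (ws X (z / N) x) / N) = -(nn X (ws X (z / N) x)) * (1 / N) by ring]
      exact h3
    obtain ⟨A', hA', hA'n⟩ := hAL κ κ1 κ2 g g1 g2 g3 g4 z hz0 hd hκ2 hg4 hk0 hk4 hk10 hk14
      (fun w hw => ⟨(hbd w hw).1, (hbd w hw).2.1, (hbd w hw).2.2.1, (hbd w hw).2.2.2.1,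
        (hbd w hw).2.2.2.2.1, (hbd w hw).2.2.2.2.2.1, (hbd w hw).2.2.2.2.2.2.1,
        (hbd w hw).2.2.2.2.2.2.2.1⟩)
      (x * Real.sqrt N) (fun y => Ph X (y / N) x) (ws X (z / N) x / Real.sqrt N) hw0 hg1 hΦ
    refine ⟨A', hA', le_trans hA'n ?_⟩
    have hmN : 0 < (m : ℝ) * N := mul_pos hm0 hN0
    have hsm : 0 < Real.sqrt ((m : ℝ) * N) := Real.sqrt_pos.mpr hmN
    refine div_le_div_of_nonneg_left (by linarith) (mul_pos hmN hsm) ?_
    exact mul_le_mul hz.1 (Real.sqrt_le_sqrt hz.1) hsm.le hz0.le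
  choose! A' hA1 hA2 using hder
  have hmem1 : (m : ℝ) * N ∈ Icc ((m : ℝ) * N) (((m : ℝ) + 1) * N) :=
    ⟨le_rfl, by nlinarith⟩
  have hmem2 : ((m : ℝ) + 1) * N ∈ Icc ((m : ℝ) * N) (((m : ℝ) + 1) * N) :=
    ⟨by nlinarith, le_rfl⟩
  have hmv := (convex_Icc ((m : ℝ) * N) (((m : ℝ) + 1) * N)).norm_image_sub_le_of_norm_hasDerivWithin_le
    (fun z hz => (hA1 z hz).hasDerivWithinAt) hA2 hmem1 hmem2
  have hlen : ‖((m : ℝ) + 1) * N - (m : ℝ) * N‖ = N := by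
    rw [show ((m : ℝ) + 1) * N - (m : ℝ) * N = N by ring, Real.norm_of_nonneg hN0.le]
  rw [hlen] at hmv
  have e1 : ee (-(Ph X ((m : ℝ) + 1) x)) * KK X N ((m : ℤ) + 1) x = N * A (((m : ℝ) + 1) * N) := by
    rw [hKK, hA]
    simp only
    rw [show ((m : ℝ) + 1) * N / N = (m : ℝ) + 1 by field_simp]
    push_cast
    ring
  have e2 : ee (-(Ph X (m : ℝ) x)) * KK X N (m : ℤ) x = N * A ((m : ℝ) * N) := by
    rw [hKK, hA]
    simp only
    rw [show (m : ℝ) * N / N = (m : ℝ) by field_simp]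
    push_cast
    ring
  rw [e1, e2, ← mul_sub, norm_mul, Complex.norm_real, Real.norm_of_nonneg hN0.le]
  calc N * ‖A (((m : ℝ) + 1) * N) - A ((m : ℝ) * N)‖
      ≤ N * (C1 / (m * N * Real.sqrt (m * N)) * N) := by gcongr
    _ = C1 * Real.sqrt N / (m * Real.sqrt m) := scale hN0 hm0
    _ ≤ max 4 (max C0 C1) * Real.sqrt N / (m * Real.sqrt m) := by gcongr

end Pool.Agent.Work.MP_56b8f5_nt.UT
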