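import Pool.Agent.Work.MP_56b8f5_nt.UT.Stmts
import Pool.Agent.Work.MP_56b8f5_nt.UB.I_Kn
import Pool.Agent.Work.MP_56b8f5_nt.UB.I_Ka

/-!
MP_56b8f5_nt, block UT, item Kn2: normal form of the kernel with explicit `g`.
-/

open MeasureTheory Set Filter Topology

noncomputable section

namespace Pool.Agent.Work.MP_56b8f5_nt.UT

open Pool.Agent.Work.MP_56b8f5_nt.UB

open Kn_aux in
theorem iKn2 : StKn2 := by
  have hKa : StKa := iKa
  obtain ⟨M1, hM1, hb1⟩ := bdd_of_zero om1_cont (fun u hu => om1_zero (hu.imp le_of_lt le_of_lt))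
  obtain ⟨M2, hM2, hb2⟩ := bdd_of_zero om2_cont (fun u hu => om2_zero hu)
  refine ⟨100, 10 + 16 * M1 + 64 * M2, by norm_num, by linarith, ?_⟩
  intro X N hN hX hC
  obtain ⟨a1, _, _, _, _, _, _⟩ := hKa X hX
  have hN0 : 0 < N := by linarith
  set r : ℝ := Real.sqrt N with hrdef
  have hr0 : 0 < r := Real.sqrt_pos.2 hN0
  have hrN : r * r = N := Real.mul_self_sqrt hN0.le
  set h : ℝ := r / (2 * X) with hdef
  have hh : 0 < h := by positivity
  have hh2 : h ≤ 1 / 20 := by
    rw [hdef, div_le_iff₀ (by positivity)]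
    have : 10 * r ≤ X := by
      apply le_of_sq_le_sq _ hX.le
      nlinarith
    linarith
  have hG : ∀ w, G h w = nn X (r * w) / N := by
    intro w
    unfold G nn
    rw [hdef, ← hrN]
    have e : r / (2 * X) * w = r * w / (2 * X) := by ring
    rw [e]
    field_simp
  have hG1 : ∀ w, G1 h w = nd X (r * w) / r := by
    intro w
    unfold G1 nd
    rw [hdef]
    have e : r / (2 * X) * w = r * w / (2 * X) := by ring
    rw [e]
    field_simp
  have hGa : G h (vv X (N / 2) / r) = 1 / 2 := by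
    rw [hG, mul_div_cancel₀ _ hr0.ne', a1 _ (by positivity)]
    field_simp
  have hGb : G h (vv X (5 / 2 * N) / r) = 5 / 2 := by
    rw [hG, mul_div_cancel₀ _ hr0.ne', a1 _ (by positivity)]
    field_simp
  have hwa0 : 0 ≤ vv X (N / 2) / r := div_nonneg (vv_nonneg hX) hr0.le
  have hwb0 : 0 ≤ vv X (5 / 2 * N) / r := div_nonneg (vv_nonneg hX) hr0.le
  set wa : ℝ := vv X (N / 2) / r with hwa
  set wb : ℝ := vv X (5 / 2 * N) / r with hwb
  have w1 : 1 / 2 < wa := by
    by_contra hcon
    push Not at hcon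
    have := G_mono hh hwa0 hcon
    have := G_half hh hh2
    linarith
  have w2 : wa < wb := by
    by_contra hcon
    push Not at hcon
    have := G_mono hh hwb0 hcon
    linarith
  have w3 : wb < 4 := by
    by_contra hcon
    push Not at hcon
    have := G_mono hh (by norm_num) hcon
    have := G_four hh
    linarith
  have hvan : ∀ w : ℝ, w ∉ Ioo wa wb → k0 h w = 0 ∧ k1 h w = 0 := by
    intro w hw
    unfold k0 k1
    by_cases hw0 : 0 < w
    · rw [if_pos hw0, if_pos hw0]
      have hu : G h w ≤ 1 / 2 ∨ 5 / 2 ≤ G h w := by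
        rw [mem_Ioo, not_and_or, not_lt, not_lt] at hw
        rcases hw with hw | hw
        · left
          rw [← hGa]
          exact G_mono hh hw0.le hw
        · right
          rw [← hGb]
          exact G_mono hh hwb0 hw
      rw [om_zero hu, om1_zero hu]
      constructor <;> ring
    · rw [if_neg hw0, if_neg hw0]
      exact ⟨rfl, rfl⟩
  refine ⟨k0 h, k1 h, k2 h, G h, G1 h, G2 h, G3 h, G4 h, ?_, contk2 hh,
    (contG4 h).continuousOn, (hvan _ fun hh' => absurd hh'.1 (not_lt.2 w1.le)).1,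
    (hvan _ fun hh' => absurd hh'.2 (not_lt.2 w3.le)).1,
    (hvan _ fun hh' => absurd hh'.1 (not_lt.2 w1.le)).2,
    (hvan _ fun hh' => absurd hh'.2 (not_lt.2 w3.le)).2, ?_, ?_⟩
  · intro w hw
    have hw0 : 0 < w := by linarith [hw.1]
    exact ⟨dk0 hh hw0, dk1 hh hw0, dG hh w, dG1 hh w, dG2 h w, dG3 h w⟩
  · intro w hw
    have hw0 : 0 < w := by linarith [hw.1]
    obtain ⟨c1, s1⟩ := sinh_bd hh hh2 hw0.le hw.2
    have s0 : 0 ≤ Real.sinh (h * w) := Real.sinh_nonneg_iff.2 (by positivity)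
    have c0 : 1 ≤ Real.cosh (h * w) := Real.one_le_cosh _
    have b1 : |G1 h w| ≤ 4 := by
      rw [abs_of_nonneg (G1_nonneg hh hw0.le)]
      unfold G1
      rw [div_le_iff₀ (by positivity)]
      nlinarith [hw.2]
    have b2 : |G2 h w| ≤ 1 := by
      unfold G2
      rw [abs_of_nonneg (by positivity)]
      linarith
    have b3 : |G3 h w| ≤ 1 := by
      unfold G3
      rw [abs_of_nonneg (by positivity)]
      have : Real.sinh (h * w) ≤ 1 := by nlinarith [hw.2]
      nlinarith
    have b4 : |G4 h w| ≤ 1 := by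
      unfold G4
      rw [abs_of_nonneg (by positivity)]
      have : h ^ 2 ≤ 1 := by nlinarith
      nlinarith [sq_nonneg h]
    have bo : |om (G h w)| ≤ 1 := by
      rw [abs_of_nonneg (om_nonneg _)]
      exact om_le_one _
    have bo1 := hb1 (G h w)
    have bo2 := hb2 (G h w)
    refine ⟨?_, ?_, ?_, ?_, ?_, ?_, ?_, ?_, hG w, hG1 w⟩
    · rw [k0, if_pos hw0, abs_mul]
      have : |om (G h w)| * |G1 h w| ≤ 1 * 4 := by gcongr
      linarith
    · rw [k1, if_pos hw0]
      refine (abs_add_le _ _).trans ?_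
      rw [abs_mul, abs_mul, abs_pow]
      have t1 : |om1 (G h w)| * |G1 h w| ^ 2 ≤ M1 * 4 ^ 2 := by gcongr
      have t2 : |om (G h w)| * |G2 h w| ≤ 1 * 1 := by gcongr
      linarith
    · rw [k2, if_pos hw0]
      refine (abs_add_le _ _).trans ?_
      refine (add_le_add_left (abs_add_le _ _) _).trans ?_
      rw [abs_mul, abs_mul, abs_mul, abs_mul, abs_mul, abs_pow]
      have t1 : |om2 (G h w)| * |G1 h w| ^ 3 ≤ M2 * 4 ^ 3 := by gcongr
      have t2 : |(3 : ℝ)| * |om1 (G h w)| * |G1 h w| * |G2 h w| ≤ 3 * M1 * 4 * 1 := by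
        rw [abs_of_nonneg (by norm_num : (0 : ℝ) ≤ 3)]
        gcongr
      have t3 : |om (G h w)| * |G3 h w| ≤ 1 * 1 := by gcongr
      linarith
    · linarith
    · have : (1 : ℝ) / (10 + 16 * M1 + 64 * M2) ≤ 1 / 2 := by
        apply one_div_le_one_div_of_le <;> linarith
      refine this.trans ?_
      unfold G2
      linarith
    · have := le_abs_self (G2 h w)
      linarith
    · linarith
    · linarith
  · intro m x
    unfold KK
    set F : ℝ → ℂ := fun v => (kap X N v : ℂ) * ee (x * v - m * nn X v) with hF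
    set Q : ℝ → ℂ := fun w => (k0 h w : ℂ) * ee (x * r * w - m * N * G h w) with hQ
    have e1 := integral_comp_mul_left_Ioi F 0 hr0
    rw [mul_zero] at e1
    have e2 : ∫ w in Ioi (0 : ℝ), F (r * w) = ∫ w in Ioi (0 : ℝ), (r : ℂ) * Q w := by
      apply setIntegral_congr_fun measurableSet_Ioi
      intro w hw
      simp only [hF, hQ, kap, k0, if_pos (mem_Ioi.1 hw)]
      rw [← hG w]
      have e3 : nd X (r * w) = r * G1 h w := by
        rw [hG1]; field_simp
      have e4 : x * (r * w) - m * nn X (r * w) = x * r * w - m * N * G h w := by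
        rw [hG]; field_simp
      rw [e3, e4]
      push_cast
      ring
    have e5 : ∫ w in Ioi (0 : ℝ), (r : ℂ) * Q w = (r : ℂ) * ∫ w in Ioi (0 : ℝ), Q w :=
      integral_const_mul _ _
    have e6 : ∫ w in Ioi (0 : ℝ), Q w = ∫ w in (1 / 2 : ℝ)..4, Q w := by
      rw [intervalIntegral.integral_of_le (by norm_num)]
      apply setIntegral_eq_of_subset_of_forall_sdiff_eq_zero measurableSet_Ioi
      · intro w hw
        exact mem_Ioi.2 (by linarith [hw.1])
      · intro w hw
        have : w ∉ Ioo wa wb := by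
          intro hw2
          apply hw.2
          exact ⟨by linarith [hw2.1], by linarith [hw2.2]⟩
        simp only [hQ, (hvan w this).1]
        simp
    have e7 : ∫ v in Ioi (0 : ℝ), F v = (r : ℂ) * ∫ w in Ioi (0 : ℝ), F (r * w) := by
      rw [e1, Complex.real_smul]
      rw [← mul_assoc]
      have : (r : ℂ) * ((r⁻¹ : ℝ) : ℂ) = 1 := by
        rw [← Complex.ofReal_mul, mul_inv_cancel₀ hr0.ne', Complex.ofReal_one]
      rw [this, one_mul]
    rw [e7, e2, e5, e6, ← mul_assoc, ← Complex.ofReal_mul, hrN]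

end Pool.Agent.Work.MP_56b8f5_nt.UT
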