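import Pool.Agent.Work.MP_56b8f5_nt.UT.Stmts
import Pool.Agent.Work.MP_56b8f5_nt.UB.I_MA

/-!
MP_56b8f5_nt, block UT, item MC: the twelfth moment.
-/

open MeasureTheory Set Filter Topology

noncomputable section

namespace Pool.Agent.Work.MP_56b8f5_nt.UT

open Pool.Agent.Work.MP_56b8f5_nt.UB

namespace MC_aux

open Pool.Agent.Work.MP_56b8f5_nt.UB.MA_aux

lemma block (hSup : UB.StSup) (hPc : EM.StPc) (A e E0 C1 T0 : ℝ) (hA4 : 4 ≤ A)
    (he : 0 < e) (hC1 : 0 ≤ C1) (hE0 : 1 + e * A ≤ E0 + 2 * e)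
    (hpc : ∀ T V : ℝ, T0 ≤ T → 1 ≤ T → T ^ e ≤ V → V ≤ T ^ (1 / 4 : ℝ) →
      (2 * V) ^ (A - 2) * JV T V ≤ C1 * T ^ (E0 + e)) :
    ∃ C : ℝ, 2 ≤ C ∧ ∀ T : ℝ, C ≤ T → ∫ t in T..(2 * T), ‖EM.P (T ^ 2) t‖ ^ A ≤
      C * T ^ (E0 + 2 * e) := by
  obtain ⟨C2, hC2, hS⟩ := hSup
  refine ⟨|T0| + C2 + 1 + (2 / e + 1) * C1, ?_, ?_⟩
  · have : 0 ≤ (2 / e + 1) * C1 := by positivity
    have := abs_nonneg T0
    linarith
  intro T hT
  have hKe : 0 ≤ (2 / e + 1) * C1 := by positivity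
  have hab := abs_nonneg T0
  have hTC1 : T0 ≤ T := by
    have := le_abs_self T0
    linarith
  have hTC2 : C2 ≤ T := by linarith
  have hT1 : 1 ≤ T := by linarith
  have hT0 : 0 < T := by linarith
  obtain ⟨J, hJ1, hJ2⟩ := logb T e he hT1
  have hPcc := (hPc (T ^ 2) (by nlinarith)).1
  have hW0 : 0 < T ^ e := Real.rpow_pos_of_pos hT0 _
  have hW1 : 1 ≤ T ^ e := Real.one_le_rpow hT1 he.le
  -- pointwise
  have hpt : ∀ t ∈ Icc T (2 * T), ‖EM.P (T ^ 2) t‖ ^ A ≤ (T ^ e) ^ A +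
      ∑ j ∈ Finset.range J, (2 * (2 ^ j * T ^ e)) ^ (A - 2) *
        (if 2 ^ j * T ^ e ≤ ‖EM.P (T ^ 2) t‖ ∧ ‖EM.P (T ^ 2) t‖ < 2 * (2 ^ j * T ^ e) then
          ‖EM.P (T ^ 2) t‖ ^ 2 else 0) := by
    intro t ht
    apply ptw A _ _ J (by linarith) (norm_nonneg _) hW0
    have h1 := hS T t hTC2 ht.1 ht.2
    have h2 : T ^ (1 / 4 : ℝ) ≤ T := by
      calc T ^ (1 / 4 : ℝ) ≤ T ^ (1 : ℝ) := Real.rpow_le_rpow_of_exponent_le hT1 (by norm_num)
        _ = T := Real.rpow_one T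
    have h3 : (2 : ℝ) ^ J ≤ 2 ^ J * T ^ e := le_mul_of_one_le_right (by positivity) hW1
    linarith
  -- each dyadic piece
  have hpiece : ∀ j ∈ Finset.range J, (2 * (2 ^ j * T ^ e)) ^ (A - 2) * JV T (2 ^ j * T ^ e) ≤
      C1 * T ^ (E0 + e) := by
    intro j _
    set V : ℝ := 2 ^ j * T ^ e with hV
    have hV0 : 0 < V := by positivity
    have hVe : T ^ e ≤ V := le_mul_of_one_le_left hW0.le (one_le_pow₀ (by norm_num))
    by_cases hVs : V ≤ T ^ (1 / 4 : ℝ)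
    · exact hpc T V hTC1 hT1 hVe hVs
    · push Not at hVs
      have h0 : JV T V = 0 := by
        unfold JV
        have : {t : ℝ | t ∈ Icc T (2 * T) ∧ V ≤ ‖EM.P (T ^ 2) t‖ ∧ ‖EM.P (T ^ 2) t‖ < 2 * V} = ∅ := by
          ext t
          simp only [mem_ofPred_eq, mem_empty_iff_false, iff_false]
          rintro ⟨ht, h1, _⟩
          have := hS T t hTC2 ht.1 ht.2
          linarith
        rw [this]
        simp
      rw [h0, mul_zero]
      positivity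
  -- integrate
  have hle : T ≤ 2 * T := by linarith
  have hint1 : IntervalIntegrable (fun t => ‖EM.P (T ^ 2) t‖ ^ A) volume T (2 * T) :=
    (hPcc.norm.rpow_const (fun _ => Or.inr (by linarith))).intervalIntegrable _ _
  have hint2 : ∀ j ∈ Finset.range J, IntervalIntegrable (fun t => (2 * (2 ^ j * T ^ e)) ^ (A - 2) *
        (if 2 ^ j * T ^ e ≤ ‖EM.P (T ^ 2) t‖ ∧ ‖EM.P (T ^ 2) t‖ < 2 * (2 ^ j * T ^ e) then
          ‖EM.P (T ^ 2) t‖ ^ 2 else 0)) volume T (2 * T) := by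
    intro j _
    exact (intJ T (2 ^ j * T ^ e) hT0.le hPcc).1.const_mul _
  have hint3 : IntervalIntegrable (fun t => ∑ j ∈ Finset.range J, (2 * (2 ^ j * T ^ e)) ^ (A - 2) *
        (if 2 ^ j * T ^ e ≤ ‖EM.P (T ^ 2) t‖ ∧ ‖EM.P (T ^ 2) t‖ < 2 * (2 ^ j * T ^ e) then
          ‖EM.P (T ^ 2) t‖ ^ 2 else 0)) volume T (2 * T) := by
    have h := IntervalIntegrable.sum (Finset.range J) hint2
    have hfun : (∑ j ∈ Finset.range J, fun t => (2 * (2 ^ j * T ^ e)) ^ (A - 2) *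
        (if 2 ^ j * T ^ e ≤ ‖EM.P (T ^ 2) t‖ ∧ ‖EM.P (T ^ 2) t‖ < 2 * (2 ^ j * T ^ e) then
          ‖EM.P (T ^ 2) t‖ ^ 2 else 0)) = (fun t => ∑ j ∈ Finset.range J,
          (2 * (2 ^ j * T ^ e)) ^ (A - 2) *
        (if 2 ^ j * T ^ e ≤ ‖EM.P (T ^ 2) t‖ ∧ ‖EM.P (T ^ 2) t‖ < 2 * (2 ^ j * T ^ e) then
          ‖EM.P (T ^ 2) t‖ ^ 2 else 0)) := by
      funext t
      rw [Finset.sum_apply]
    rw [← hfun]
    exact h
  have hstep : ∫ t in T..(2 * T), ‖EM.P (T ^ 2) t‖ ^ A ≤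
      T * (T ^ e) ^ A + ∑ j ∈ Finset.range J, (2 * (2 ^ j * T ^ e)) ^ (A - 2) *
        JV T (2 ^ j * T ^ e) := by
    calc ∫ t in T..(2 * T), ‖EM.P (T ^ 2) t‖ ^ A ≤ ∫ t in T..(2 * T), ((T ^ e) ^ A +
          ∑ j ∈ Finset.range J, (2 * (2 ^ j * T ^ e)) ^ (A - 2) *
            (if 2 ^ j * T ^ e ≤ ‖EM.P (T ^ 2) t‖ ∧ ‖EM.P (T ^ 2) t‖ < 2 * (2 ^ j * T ^ e) then
              ‖EM.P (T ^ 2) t‖ ^ 2 else 0)) :=
          intervalIntegral.integral_mono_on hle hint1 (intervalIntegrable_const.add hint3) hpt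
      _ = T * (T ^ e) ^ A + ∑ j ∈ Finset.range J, (2 * (2 ^ j * T ^ e)) ^ (A - 2) *
            JV T (2 ^ j * T ^ e) := by
          rw [intervalIntegral.integral_add intervalIntegrable_const hint3,
            intervalIntegral.integral_const, intervalIntegral.integral_finsetSum hint2]
          congr 1
          · rw [smul_eq_mul]; ring
          · apply Finset.sum_congr rfl
            intro j _
            rw [intervalIntegral.integral_const_mul, (intJ T (2 ^ j * T ^ e) hT0.le hPcc).2]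
  have hsum : ∑ j ∈ Finset.range J, (2 * (2 ^ j * T ^ e)) ^ (A - 2) * JV T (2 ^ j * T ^ e) ≤
      (2 / e + 1) * C1 * T ^ (E0 + 2 * e) := by
    calc ∑ j ∈ Finset.range J, (2 * (2 ^ j * T ^ e)) ^ (A - 2) * JV T (2 ^ j * T ^ e)
        ≤ ∑ j ∈ Finset.range J, C1 * T ^ (E0 + e) := Finset.sum_le_sum hpiece
      _ = (J : ℝ) * (C1 * T ^ (E0 + e)) := by rw [Finset.sum_const, Finset.card_range, nsmul_eq_mul]
      _ ≤ ((2 / e + 1) * T ^ e) * (C1 * T ^ (E0 + e)) :=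
          mul_le_mul_of_nonneg_right hJ2 (by positivity)
      _ = (2 / e + 1) * C1 * (T ^ e * T ^ (E0 + e)) := by ring
      _ = (2 / e + 1) * C1 * T ^ (e + (E0 + e)) := by rw [Real.rpow_add hT0 e (E0 + e)]
      _ = (2 / e + 1) * C1 * T ^ (E0 + 2 * e) := by
          rw [show e + (E0 + e) = E0 + 2 * e by ring]
  have hfirst : T * (T ^ e) ^ A ≤ T ^ (E0 + 2 * e) := by
    rw [← Real.rpow_mul hT0.le]
    calc T * T ^ (e * A) = T ^ (1 : ℝ) * T ^ (e * A) := by rw [Real.rpow_one]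
      _ = T ^ (1 + e * A) := (Real.rpow_add hT0 _ _).symm
      _ ≤ T ^ (E0 + 2 * e) := Real.rpow_le_rpow_of_exponent_le hT1 hE0
  have hTE : 0 ≤ T ^ (E0 + 2 * e) := Real.rpow_nonneg hT0.le _
  calc ∫ t in T..(2 * T), ‖EM.P (T ^ 2) t‖ ^ A ≤ T ^ (E0 + 2 * e) +
        (2 / e + 1) * C1 * T ^ (E0 + 2 * e) := by linarith
    _ = (1 + (2 / e + 1) * C1) * T ^ (E0 + 2 * e) := by ring
    _ ≤ (|T0| + C2 + 1 + (2 / e + 1) * C1) * T ^ (E0 + 2 * e) :=
        mul_le_mul_of_nonneg_right (by linarith) hTE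

lemma zblock (hZ : EM.StZ) (hPc : EM.StPc) (A E C1 : ℝ) (hA4 : 4 ≤ A) (hE : 1 ≤ E) (hC1 : 2 ≤ C1)
    (hB : ∀ T : ℝ, C1 ≤ T → ∫ t in T..(2 * T), ‖EM.P (T ^ 2) t‖ ^ A ≤ C1 * T ^ E) :
    ∃ C : ℝ, 2 ≤ C ∧ ∀ T : ℝ, C ≤ T →
      ∫ t in T..(2 * T), ‖riemannZeta (1 / 2 + t * Complex.I)‖ ^ A ≤ C * T ^ E := by
  obtain ⟨C2, hC2, hZ2⟩ := hZ
  set D : ℝ := 3 * C2 with hD
  have hD0 : 0 ≤ D := by positivity
  have h2A : 0 ≤ (2 : ℝ) ^ A := Real.rpow_nonneg (by norm_num) _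
  have h2A1 : 1 ≤ (2 : ℝ) ^ A := Real.one_le_rpow (by norm_num) (by linarith)
  have hDA : 0 ≤ D ^ A := Real.rpow_nonneg hD0 _
  refine ⟨2 ^ A * (C1 + D ^ A), ?_, ?_⟩
  · nlinarith
  intro T hT
  have hTC1 : C1 ≤ T := by nlinarith
  have hT1 : 1 ≤ T := by linarith
  have hT0 : 0 < T := by linarith
  have hle : T ≤ 2 * T := by linarith
  have hPcc := (hPc (T ^ 2) (by nlinarith)).1
  have hsq : Real.sqrt (T ^ 2) = T := Real.sqrt_sq hT0.le
  have hpt : ∀ t ∈ Icc T (2 * T), ‖riemannZeta (1 / 2 + t * Complex.I)‖ ^ A ≤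
      2 ^ A * (‖EM.P (T ^ 2) t‖ ^ A + D ^ A) := by
    intro t ht
    have ht0 : 0 < t := lt_of_lt_of_le hT0 ht.1
    have ht1 : 1 ≤ t := le_trans hT1 ht.1
    have h1 := hZ2 (T ^ 2) (by nlinarith) t (by rw [abs_of_pos ht0]; exact ht1)
    rw [hsq, abs_of_pos ht0] at h1
    have h2 : t / T ≤ 2 := by rw [div_le_iff₀ hT0]; exact ht.2
    have h3 : T / t ^ 3 ≤ 1 := by
      rw [div_le_iff₀ (by positivity), one_mul]
      calc T ≤ t := ht.1
        _ = t ^ 1 := (pow_one t).symm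
        _ ≤ t ^ 3 := pow_le_pow_right₀ ht1 (by norm_num)
    have h4 : C2 * (t / T + T / t ^ 3) ≤ D := by
      rw [hD]; nlinarith
    have h5 : ‖riemannZeta (1 / 2 + t * Complex.I)‖ ≤ ‖EM.P (T ^ 2) t‖ + D := by
      have := norm_sub_norm_le (riemannZeta (1 / 2 + t * Complex.I)) (EM.P (T ^ 2) t)
      linarith
    calc ‖riemannZeta (1 / 2 + t * Complex.I)‖ ^ A ≤ (‖EM.P (T ^ 2) t‖ + D) ^ A :=
          Real.rpow_le_rpow (norm_nonneg _) h5 (by linarith)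
      _ ≤ _ := addpow _ _ _ (norm_nonneg _) hD0 (by linarith)
  have hint1 : IntervalIntegrable (fun t : ℝ => ‖riemannZeta (1 / 2 + t * Complex.I)‖ ^ A) volume
      T (2 * T) := (zcont.rpow_const (fun _ => Or.inr (by linarith))).intervalIntegrable _ _
  have hint2 : IntervalIntegrable (fun t => ‖EM.P (T ^ 2) t‖ ^ A) volume T (2 * T) :=
    (hPcc.norm.rpow_const (fun _ => Or.inr (by linarith))).intervalIntegrable _ _
  have hTE : T ≤ T ^ E := by
    calc T = T ^ (1 : ℝ) := (Real.rpow_one T).symm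
      _ ≤ T ^ E := Real.rpow_le_rpow_of_exponent_le hT1 hE
  calc ∫ t in T..(2 * T), ‖riemannZeta (1 / 2 + t * Complex.I)‖ ^ A
      ≤ ∫ t in T..(2 * T), 2 ^ A * (‖EM.P (T ^ 2) t‖ ^ A + D ^ A) :=
        intervalIntegral.integral_mono_on hle hint1
          ((hint2.add intervalIntegrable_const).const_mul _) hpt
    _ = 2 ^ A * ((∫ t in T..(2 * T), ‖EM.P (T ^ 2) t‖ ^ A) + T * D ^ A) := by
        rw [intervalIntegral.integral_const_mul,
          intervalIntegral.integral_add hint2 intervalIntegrable_const,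
          intervalIntegral.integral_const, smul_eq_mul]
        ring
    _ ≤ 2 ^ A * (C1 * T ^ E + T ^ E * D ^ A) := by
        apply mul_le_mul_of_nonneg_left _ h2A
        have h1 := hB T hTC1
        have h2 : T * D ^ A ≤ T ^ E * D ^ A := mul_le_mul_of_nonneg_right hTE hDA
        linarith
    _ = 2 ^ A * (C1 + D ^ A) * T ^ E := by ring

lemma final (A E C1 : ℝ) (hA4 : 4 ≤ A) (hE1 : 1 ≤ E) (hC1 : 2 ≤ C1)
    (hB : ∀ T : ℝ, C1 ≤ T →
      ∫ t in T..(2 * T), ‖riemannZeta (1 / 2 + t * Complex.I)‖ ^ A ≤ C1 * T ^ E) :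
    ∃ C : ℝ, ∀ T : ℝ, 1 ≤ T →
      ∫ t in (0 : ℝ)..T, ‖riemannZeta (1 / 2 + t * Complex.I)‖ ^ A ≤ C * T ^ E := by
  have hcont : Continuous fun t : ℝ => ‖riemannZeta (1 / 2 + t * Complex.I)‖ ^ A :=
    zcont.rpow_const (fun _ => Or.inr (by linarith))
  have hnn : ∀ t : ℝ, 0 ≤ ‖riemannZeta (1 / 2 + t * Complex.I)‖ ^ A :=
    fun t => Real.rpow_nonneg (norm_nonneg _) _
  set F : ℝ → ℝ := fun T => ∫ t in (0 : ℝ)..T, ‖riemannZeta (1 / 2 + t * Complex.I)‖ ^ A with hF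
  have hFint : ∀ a b : ℝ, IntervalIntegrable
      (fun t : ℝ => ‖riemannZeta (1 / 2 + t * Complex.I)‖ ^ A) volume a b :=
    fun a b => hcont.intervalIntegrable a b
  have hFmono : ∀ a b : ℝ, a ≤ b → F a ≤ F b := by
    intro a b hab
    have h1 := intervalIntegral.integral_add_adjacent_intervals (hFint 0 a) (hFint a b)
    have h2 : 0 ≤ ∫ t in a..b, ‖riemannZeta (1 / 2 + t * Complex.I)‖ ^ A :=
      intervalIntegral.integral_nonneg hab (fun t _ => hnn t)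
    show (∫ t in (0 : ℝ)..a, ‖riemannZeta (1 / 2 + t * Complex.I)‖ ^ A) ≤
      ∫ t in (0 : ℝ)..b, ‖riemannZeta (1 / 2 + t * Complex.I)‖ ^ A
    linarith
  set B : ℝ := F (2 * C1) with hBd
  have hB0 : 0 ≤ B := by
    rw [hBd, hF]
    exact intervalIntegral.integral_nonneg (by linarith) (fun t _ => hnn t)
  have key : ∀ n : ℕ, ∀ T : ℝ, 1 ≤ T → T ≤ 2 ^ n * (2 * C1) → F T ≤ B + C1 * T ^ E := by
    intro n
    induction n with
    | zero =>
      intro T hT hTn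
      have h1 : F T ≤ B := hFmono T (2 * C1) (by simpa using hTn)
      have h2 : 0 ≤ C1 * T ^ E := mul_nonneg (by linarith) (Real.rpow_nonneg (by linarith) _)
      linarith
    | succ n ih =>
      intro T hT hTn
      by_cases hc : T ≤ 2 * C1
      · have h1 : F T ≤ B := hFmono T (2 * C1) hc
        have h2 : 0 ≤ C1 * T ^ E := mul_nonneg (by linarith) (Real.rpow_nonneg (by linarith) _)
        linarith
      · push Not at hc
        have hT2 : C1 ≤ T / 2 := by linarith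
        have hT21 : 1 ≤ T / 2 := by linarith
        have h1 := ih (T / 2) hT21 (by
          rw [pow_succ] at hTn
          linarith)
        have h2 := hB (T / 2) hT2
        have h3 : (2 : ℝ) * (T / 2) = T := by ring
        rw [h3] at h2
        have h4 := intervalIntegral.integral_add_adjacent_intervals (hFint 0 (T / 2))
          (hFint (T / 2) T)
        have h6 : (T / 2) ^ E ≤ T ^ E / 2 := by
          rw [Real.div_rpow (by linarith) (by norm_num)]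
          apply div_le_div_of_nonneg_left (Real.rpow_nonneg (by linarith) _) (by norm_num)
          calc (2 : ℝ) = 2 ^ (1 : ℝ) := (Real.rpow_one 2).symm
            _ ≤ 2 ^ E := Real.rpow_le_rpow_of_exponent_le (by norm_num) hE1
        have h8 : C1 * (T / 2) ^ E ≤ C1 * (T ^ E / 2) :=
          mul_le_mul_of_nonneg_left h6 (by linarith)
        have h9 : F T = F (T / 2) + ∫ t in (T / 2)..T, ‖riemannZeta (1 / 2 + t * Complex.I)‖ ^ A :=
          h4.symm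
        rw [h9]
        linarith
  refine ⟨B + C1, ?_⟩
  intro T hT
  obtain ⟨n, hn⟩ := pow_unbounded_of_one_lt T (by norm_num : (1 : ℝ) < 2)
  have h1 : T ≤ 2 ^ n * (2 * C1) := by
    have : (2 : ℝ) ^ n ≤ 2 ^ n * (2 * C1) := le_mul_of_one_le_right (by positivity) (by linarith)
    linarith
  have h2 := key n T hT h1
  have h3 : 1 ≤ T ^ E := Real.one_le_rpow hT (by linarith)
  calc ∫ t in (0 : ℝ)..T, ‖riemannZeta (1 / 2 + t * Complex.I)‖ ^ A ≤ B + C1 * T ^ E := h2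
    _ ≤ B * T ^ E + C1 * T ^ E := by nlinarith
    _ = (B + C1) * T ^ E := by ring

end MC_aux

open MC_aux in
theorem iMC (hJC : StJC) (hJB : UB.StJB) (hSup : UB.StSup) (hZ : EM.StZ) (hPc : EM.StPc) :
    StMC := by
  obtain ⟨δ0, hδ0, C0, hC0, hJ0⟩ := hJC
  set δ : ℝ := min δ0 (1 / 100) / 4 with hδ
  have hm1 : min δ0 (1 / 100) ≤ δ0 := min_le_left _ _
  have hm2 : min δ0 (1 / 100) ≤ 1 / 100 := min_le_right _ _
  have hm3 : 0 < min δ0 (1 / 100) := lt_min hδ0 (by norm_num)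
  have hδp : 0 < δ := by rw [hδ]; linarith
  have hδ1 : 4 * δ ≤ δ0 := by rw [hδ]; linarith
  have hδ2 : 4 * δ ≤ 1 / 100 := by rw [hδ]; linarith
  refine ⟨δ, hδp, ?_⟩
  intro A hA1 hA2
  set e : ℝ := δ / 20 with he
  have he0 : 0 < e := by rw [he]; linarith
  have he1 : e < 1 / 100 := by rw [he]; linarith
  obtain ⟨C1, hC1, hJ⟩ := hJB e he0 he1
  set K : ℝ := 2 ^ (A - 2) * (C0 + C1) with hK
  have h2p : 0 ≤ (2 : ℝ) ^ (A - 2) := Real.rpow_nonneg (by norm_num) _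
  have hK0 : 0 ≤ K := mul_nonneg h2p (by linarith)
  have hpc : ∀ T V : ℝ, C0 + C1 ≤ T → 1 ≤ T → T ^ e ≤ V → V ≤ T ^ (1 / 4 : ℝ) →
      (2 * V) ^ (A - 2) * JV T V ≤ K * T ^ (2 - 3 * δ + e) := by
    intro T V hT hT1 hVe hVs
    have hT0 : 0 < T := by linarith
    have hV0 : 0 < V := lt_of_lt_of_le (Real.rpow_pos_of_pos hT0 _) hVe
    have hTE : 0 ≤ T ^ (2 - 3 * δ + e) := Real.rpow_nonneg hT0.le _
    by_cases c1 : V ≤ T ^ (1 / 8 - 1 / 800 : ℝ)
    · have b1 := (hJ T V (by linarith) hVe hVs).1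
      have h := UB.MA_aux.comb T V C1 A (1 + e) ((1 / 8 - 1 / 800) * (A - 4)) (2 - 3 * δ + e)
        (JV T V) 2 hT1 hV0 (by linarith) b1
        (by
          rw [Real.rpow_mul hT0.le]
          have : A - 2 - ((2 : ℕ) : ℝ) = A - 4 := by push_cast; ring
          rw [this]
          exact Real.rpow_le_rpow hV0.le c1 (by linarith))
        (by linarith)
      refine h.trans (mul_le_mul_of_nonneg_right ?_ hTE)
      rw [hK]
      exact mul_le_mul_of_nonneg_left (by linarith) h2p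
    · push Not at c1
      have b1 := hJ0 T V (by linarith) c1.le hVs
      have h := UB.MA_aux.comb T V C0 A (2 - δ0) (1 / 4 * (A - 12)) (2 - 3 * δ + e)
        (JV T V) 10 hT1 hV0 (by linarith) b1
        (by
          rw [Real.rpow_mul hT0.le]
          have : A - 2 - ((10 : ℕ) : ℝ) = A - 12 := by push_cast; ring
          rw [this]
          exact Real.rpow_le_rpow hV0.le hVs (by linarith))
        (by linarith)
      refine h.trans (mul_le_mul_of_nonneg_right ?_ hTE)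
      rw [hK]
      exact mul_le_mul_of_nonneg_left (by linarith) h2p
  have hE0 : 1 + e * A ≤ (2 - 3 * δ) + 2 * e := by
    have h1 : e * A ≤ e * 13 := mul_le_mul_of_nonneg_left (by linarith) he0.le
    have h2 : e * 13 ≤ 1 / 100 := by rw [he]; linarith
    linarith
  obtain ⟨C3, hC3, hB3⟩ := block hSup hPc A e (2 - 3 * δ) K (C0 + C1) (by linarith) he0 hK0 hE0 hpc
  obtain ⟨C4, hC4, hB4⟩ := zblock hZ hPc A (2 - 3 * δ + 2 * e) C3 (by linarith) (by linarith) hC3 hB3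
  apply final A (2 - δ) C4 (by linarith) (by linarith) hC4
  intro T hT
  refine (hB4 T hT).trans (mul_le_mul_of_nonneg_left ?_ (by linarith))
  exact Real.rpow_le_rpow_of_exponent_le (by linarith) (by rw [he]; linarith)

end Pool.Agent.Work.MP_56b8f5_nt.UT
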