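import Mathlib
import Pool.Agent.Work.MP_56b8f5_nt.UT.Stmts

open MeasureTheory Set Filter Topology

noncomputable section

namespace Pool.Agent.Work.MP_56b8f5_nt.UT

open Pool.Agent.Work.MP_56b8f5_nt.UB

theorem iMD : StMD := by
  intro j
  induction j with
  | zero =>
    intro F a b c C _ hF n ha hb
    simp only [dd]
    refine hF n ⟨ha, ?_⟩
    simpa using hb
  | succ k ih =>
    intro F a b c C hD hF n ha hb
    have hb' : (n : ℝ) + k ≤ b - 1 := by
      push_cast at hb
      linarith
    have key := ih (fun i y => F i (y + 1) - F i y) a (b - 1) c C ?_ ?_ n ha hb'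
    · have e : dd (k + 1) (fun i => F 0 i) n =
          dd k (fun i => (fun i y => F i (y + 1) - F i y) 0 (i : ℝ)) n := by
        simp only [dd, Nat.cast_add, Nat.cast_one]
      rw [e]
      exact key
    · intro i hi y hy
      have h1 : HasDerivAt (F i) (F (i + 1) (y + 1)) (y + 1) :=
        hD i (by omega) (y + 1) ⟨by linarith [hy.1], by linarith [hy.2]⟩
      have h2 : HasDerivAt (F i) (F (i + 1) y) y :=
        hD i (by omega) y ⟨hy.1, by linarith [hy.2]⟩
      exact (h1.comp_add_const y 1).sub h2
    · intro y hy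
      have hI : ∀ z ∈ Icc y (y + 1), z ∈ Icc a b := fun z hz =>
        ⟨by linarith [hy.1, hz.1], by linarith [hy.2, hz.2]⟩
      have hder : ∀ z ∈ Icc y (y + 1), HasDerivAt (F k) (F (k + 1) z) z := fun z hz =>
        hD k (by omega) z (hI z hz)
      obtain ⟨ξ, hξ, hs⟩ := exists_hasDerivAt_eq_slope (F k) (F (k + 1)) (by linarith : y < y + 1)
        (fun z hz => (hder z hz).continuousAt.continuousWithinAt)
        (fun z hz => hder z ⟨hz.1.le, hz.2.le⟩)
      have hs' : F k (y + 1) - F k y = F (k + 1) ξ := by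
        rw [hs]; simp
      have := hF ξ (hI ξ ⟨hξ.1.le, hξ.2.le⟩)
      simp only [hs']
      exact this

end Pool.Agent.Work.MP_56b8f5_nt.UT
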