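import Mathlib
import Pool.Agent.Work.MP_56b8f5_nt.UT.Stmts

/-!
MP_56b8f5_nt, block UT, item PM: differences of the phase in `m`.  Author: helper64.
-/

open MeasureTheory Set Filter Topology

noncomputable section

namespace Pool.Agent.Work.MP_56b8f5_nt.UT

open Pool.Agent.Work.MP_56b8f5_nt.UB

namespace PM_aux

theorem dd_mul (a : ℝ) : ∀ (k : ℕ) (f : ℕ → ℝ) (n : ℕ),
    dd k (fun i => a * f i) n = a * dd k f n := by
  intro k
  induction k with
  | zero => intro f n; rfl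
  | succ k ih =>
    intro f n
    show dd k (fun i => a * f (i + 1) - a * f i) n = a * dd k (fun i => f (i + 1) - f i) n
    rw [← ih]
    congr 1
    funext i
    ring

/-- the tower of derivatives -/
def FT (X x t : ℝ) (G : ℕ → ℝ → ℝ) : ℕ → ℝ → ℝ
  | 0, y => Ph X y x
  | 1, y => -(nn X (ws X y x))
  | i + 2, y => 2 * x ^ 2 / t ^ (3 + i) * G i (y / t)

end PM_aux

open PM_aux

theorem iPM (hPd : StPd) (hTW : StTW) (hMD : StMD) : StPM := by
  intro k
  obtain ⟨ε0, c, C, hε0, hc, hcC, hG⟩ := hTW 3 (-2) (by norm_num) k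
  refine ⟨2 * c, max 1 (max (1 / ε0) (2 * C)), by positivity, le_max_left _ _, ?_⟩
  intro X N t n hN hX hCN ht hn1 hn2
  have ht0 : 0 < t := by linarith
  have hX2 : 0 < X ^ 2 := by positivity
  have hN0 : 0 ≤ N := by linarith
  obtain ⟨x, hx⟩ : ∃ x, x = t * Real.sqrt N := ⟨_, rfl⟩
  have hx2 : x ^ 2 = t ^ 2 * N := by rw [hx, mul_pow, Real.sq_sqrt hN0]
  have hε : 0 ≤ N / X ^ 2 := by positivity
  have hε1 : N / X ^ 2 ≤ ε0 := by
    rw [div_le_iff₀ hX2]
    have h1 : 1 / ε0 * N ≤ X ^ 2 := by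
      refine le_trans (mul_le_mul_of_nonneg_right ?_ hN0) hCN
      exact le_trans (le_max_left _ _) (le_max_right _ _)
    calc N = ε0 * (1 / ε0 * N) := by field_simp
      _ ≤ ε0 * X ^ 2 := mul_le_mul_of_nonneg_left h1 hε0.le
  obtain ⟨G, hG0, hGd, hGb⟩ := hG (N / X ^ 2) hε hε1
  rw [← hx]
  have hu : ∀ y ∈ Icc (t / 2) (2 * t), y / t ∈ Icc (1 / 4 : ℝ) 4 := by
    intro y hy
    constructor
    · rw [le_div_iff₀ ht0]; linarith [hy.1]
    · rw [div_le_iff₀ ht0]; linarith [hy.2]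
  have hy0 : ∀ y ∈ Icc (t / 2) (2 * t), 0 < y := fun y hy => by linarith [hy.1]
  -- the second derivative
  have h2 : ∀ y ∈ Icc (t / 2) (2 * t),
      2 * x ^ 2 / (y ^ 3 * Real.sqrt (1 + (x / (y * X)) ^ 2)) =
        2 * x ^ 2 / t ^ (3 + 0) * G 0 (y / t) := by
    intro y hy
    have hyp := hy0 y hy
    have hup : 0 < y / t := by positivity
    rw [hG0 _ (hu y hy)]
    have e1 : (y / t) ^ (-2 : ℝ) = t ^ 2 / y ^ 2 := by
      rw [Real.rpow_neg hup.le]
      rw [show (2 : ℝ) = ((2 : ℕ) : ℝ) by norm_num, Real.rpow_natCast]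
      field_simp
    have e2 : (y / t) ^ (-3 : ℝ) = t ^ 3 / y ^ 3 := by
      rw [Real.rpow_neg hup.le]
      rw [show (3 : ℝ) = ((3 : ℕ) : ℝ) by norm_num, Real.rpow_natCast]
      field_simp
    have e3 : 1 + N / X ^ 2 * (t ^ 2 / y ^ 2) = 1 + (x / (y * X)) ^ 2 := by
      rw [div_pow, hx2]
      field_simp
    have e4 : 0 < 1 + (x / (y * X)) ^ 2 := by positivity
    rw [e1, e2, e3, Real.rpow_neg e4.le, ← Real.sqrt_eq_rpow]
    have e5 : 0 < Real.sqrt (1 + (x / (y * X)) ^ 2) := Real.sqrt_pos.mpr e4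
    simp only [add_zero]
    field_simp
  have hcoef : 2 * x ^ 2 / t ^ (3 + k) = 2 * (N * t / t ^ (k + 2)) := by
    rw [hx2, pow_add t 3 k, pow_add t k 2]
    field_simp
  have hpos : 0 ≤ 2 * (N * t / t ^ (k + 2)) := by positivity
  have key := hMD (k + 2) (fun i y => (-1) ^ k * FT X x t G i y) (t / 2) (2 * t)
    (2 * (N * t / t ^ (k + 2)) * c) (2 * (N * t / t ^ (k + 2)) * C) ?_ ?_ n hn1
    (by push_cast; linarith)
  · have e6 : dd (k + 2) (fun i : ℕ => (-1) ^ k * FT X x t G 0 (i : ℝ)) n =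
        (-1) ^ k * dd (k + 2) (fun m : ℕ => Ph X m x) n :=
      dd_mul ((-1) ^ k) (k + 2) (fun m : ℕ => Ph X m x) n
    beta_reduce at key
    rw [e6] at key
    constructor
    · calc 2 * c * (N * t / t ^ (k + 2)) = 2 * (N * t / t ^ (k + 2)) * c := by ring
        _ ≤ _ := key.1
    · refine key.2.trans ?_
      have e7 : 2 * (N * t / t ^ (k + 2)) * C = 2 * C * (N * t / t ^ (k + 2)) := by ring
      rw [e7]
      refine mul_le_mul_of_nonneg_right ?_ (by positivity)
      exact le_trans (le_max_right _ _) (le_max_right _ _)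
  · intro i hi y hy
    have hyp := hy0 y hy
    refine HasDerivAt.const_mul _ ?_
    match i, hi with
    | 0, _ => exact (hPd X x y hX hyp).1
    | 1, _ =>
      have h3 := (hPd X x y hX hyp).2.2
      rw [h2 y hy] at h3
      exact h3
    | i + 2, hi =>
      have hik : i < k := by omega
      have h4 := hGd i hik (y / t) (hu y hy)
      have h5 : HasDerivAt (fun z : ℝ => z / t) (1 / t) y := by
        simpa using (hasDerivAt_id y).div_const t
      have h6 : HasDerivAt (fun z => G i (z / t)) (G (i + 1) (y / t) * (1 / t)) y :=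
        HasDerivAt.comp y h4 h5
      have h7 := h6.const_mul (2 * x ^ 2 / t ^ (3 + i))
      have e8 : 2 * x ^ 2 / t ^ (3 + i) * (G (i + 1) (y / t) * (1 / t)) =
          FT X x t G (i + 2 + 1) y := by
        show _ = 2 * x ^ 2 / t ^ (3 + (i + 1)) * G (i + 1) (y / t)
        rw [show 3 + (i + 1) = (3 + i) + 1 by ring]
        field_simp
        ring
      rw [e8] at h7
      exact h7
  · intro y hy
    have h8 := hGb (y / t) (hu y hy)
    have e9 : (-1 : ℝ) ^ k * FT X x t G (k + 2) y =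
        2 * (N * t / t ^ (k + 2)) * ((-1) ^ k * G k (y / t)) := by
      show (-1 : ℝ) ^ k * (2 * x ^ 2 / t ^ (3 + k) * G k (y / t)) = _
      rw [hcoef]
      ring
    beta_reduce
    rw [e9]
    exact ⟨mul_le_mul_of_nonneg_left h8.1 hpos, mul_le_mul_of_nonneg_left h8.2 hpos⟩

end Pool.Agent.Work.MP_56b8f5_nt.UT
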