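import Pool.Agent.Work.MP_56b8f5_nt.UT.Stmts
import Pool.Agent.Work.MP_56b8f5_nt.UB.I_FJa
import Pool.Agent.Work.MP_56b8f5_nt.EM.I_PC

/-!
MP_56b8f5_nt, block UT, item SW: a subconvex bound below `1/6`.
-/

open MeasureTheory Set Filter Topology

noncomputable section

namespace Pool.Agent.Work.MP_56b8f5_nt.UT

open Pool.Agent.Work.MP_56b8f5_nt.UB

theorem iSW (hPhi : UB.StPhi) (hDD : UB.StDD) (hRp : UB.StRp) (hSm : StSm) : StSW := by
  obtain ⟨φ, Θ, hφ⟩ := hPhi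
  obtain ⟨C', C1, hC', hC1, hdd⟩ := hDD φ Θ hφ
  obtain ⟨C2, hC2, hsm⟩ := hSm φ Θ hφ C' hC'
  obtain ⟨C3, hC3, hrp⟩ := hRp (1 / 10) (by norm_num)
  have e1 : ∀ᶠ T : ℝ in atTop, C' ≤ T ^ (1 / 2000 : ℝ) :=
    (tendsto_rpow_atTop (by norm_num)).eventually_ge_atTop C'
  have e2 : ∀ᶠ T : ℝ in atTop, C1 + C2 ≤ T ^ (1 / 3 - 3 / 4000 : ℝ) :=
    (tendsto_rpow_atTop (by norm_num)).eventually_ge_atTop _
  have e3 : ∀ᶠ T : ℝ in atTop, 2 * C1 * C3 + C3 < T ^ (1 / 8000 : ℝ) :=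
    (tendsto_rpow_atTop (by norm_num)).eventually_gt_atTop _
  have e4 : ∀ᶠ T : ℝ in atTop, ‖Real.log T‖ ≤ 1 * ‖T ^ (1 / 16000 : ℝ)‖ :=
    (isLittleO_log_rpow_atTop (by norm_num)).bound one_pos
  obtain ⟨T0, hT0⟩ := eventually_atTop.1 (e1.and (e2.and (e3.and e4)))
  refine ⟨max (max T0 3) (C1 + C2 + C3), (by norm_num : (2 : ℝ) ≤ 3).trans
    ((le_max_right T0 3).trans (le_max_left _ _)), ?_⟩
  intro T t hT ht1 ht2
  have hTT0 : T0 ≤ T := (le_max_left T0 3).trans ((le_max_left _ _).trans hT)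
  have hT3 : (3 : ℝ) ≤ T := (le_max_right T0 3).trans ((le_max_left _ _).trans hT)
  have hTC : C1 + C2 + C3 ≤ T := (le_max_right _ _).trans hT
  obtain ⟨g1, g2, g3, g4⟩ := hT0 T hTT0
  have hTpos : 0 < T := by linarith
  have hT1 : 1 ≤ T := by linarith
  set G : ℝ := T ^ (1 / 3 - 3 / 4000 : ℝ) with hG
  have hGpos : 0 < G := Real.rpow_pos_of_pos hTpos _
  have hG1 : 1 ≤ G := by linarith
  have hGsq : G ^ 2 = T ^ (2 / 3 - 6 / 4000 : ℝ) := by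
    rw [hG, ← Real.rpow_natCast, ← Real.rpow_mul hTpos.le]; norm_num
  have hG2 : G ^ 2 ≤ T := by
    rw [hGsq]
    calc T ^ (2 / 3 - 6 / 4000 : ℝ) ≤ T ^ (1 : ℝ) :=
          Real.rpow_le_rpow_of_exponent_le hT1 (by norm_num)
      _ = T := Real.rpow_one T
  have hTG : T / G ^ 2 = T ^ (1 / 3 + 6 / 4000 : ℝ) := by
    rw [hGsq]
    nth_rewrite 1 [← Real.rpow_one T]
    rw [← Real.rpow_sub hTpos]; norm_num
  have hn0 : 0 ≤ C' * T / G ^ 2 := by positivity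
  have hn1 : C' * T / G ^ 2 ≤ T ^ (1 / 3 + 1 / 500 : ℝ) := by
    rw [mul_div_assoc, hTG]
    calc C' * T ^ (1 / 3 + 6 / 4000 : ℝ) ≤ T ^ (1 / 2000 : ℝ) * T ^ (1 / 3 + 6 / 4000 : ℝ) :=
          mul_le_mul_of_nonneg_right g1 (Real.rpow_nonneg hTpos.le _)
      _ = T ^ (1 / 3 + 1 / 500 : ℝ) := by
          rw [← Real.rpow_add hTpos]; norm_num
  have hfl : ((⌊C' * T / G ^ 2⌋₊ : ℕ) : ℝ) ≤ C' * T / G ^ 2 := Nat.floor_le hn0
  have hs : t / (2 * Real.pi) ∈ sI T := by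
    have hpi := Real.pi_pos
    constructor
    · rw [div_le_div_iff₀ (by positivity) (by positivity)]
      nlinarith
    · rw [div_le_div_iff₀ (by positivity) hpi]
      nlinarith
  have hD : ‖DS Θ T G C' t‖ ≤ 1 := by
    unfold DS
    exact hsm T G (t / (2 * Real.pi)) ⌊C' * T / G ^ 2⌋₊ (by linarith) (by linarith) hG2 hs hfl
      (hfl.trans hn1)
  have hIG : IG φ T G t ≤ C1 * G * Real.log T + C1 * G * ‖DS Θ T G C' t‖ :=
    hdd T G t (by linarith) (by linarith) hG2 (by linarith) (by linarith)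
  have hR := hrp T t (by linarith)
  set L := Real.log T with hL
  have hL1 : 1 ≤ L := by
    rw [hL, Real.le_log_iff_exp_le hTpos]
    exact Real.exp_one_lt_three.le.trans hT3
  have hTe : T ^ (1 / 10 : ℝ) ≤ G :=
    Real.rpow_le_rpow_of_exponent_le hT1 (by norm_num)
  have hTe0 : 0 ≤ T ^ (1 / 10 : ℝ) := Real.rpow_nonneg hTpos.le _
  have hint : (∫ u in (-(T ^ (1 / 10 : ℝ)))..(T ^ (1 / 10 : ℝ)), ‖EM.P (T ^ 2) (t + u)‖ ^ 2) ≤
      IG φ T G t := by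
    rw [intervalIntegral.integral_comp_add_left (fun x => ‖EM.P (T ^ 2) x‖ ^ 2) t,
      intervalIntegral.integral_of_le (by linarith), ← integral_Icc_eq_integral_Ioc]
    exact FJa_aux.IG_ge EM.iPC hφ hT1 hGpos t _ _ (by linarith) (by linarith)
  have hG4 : G * T ^ (1 / 4000 : ℝ) = (T ^ (1 / 6 - 1 / 4000 : ℝ)) ^ 2 := by
    rw [hG, ← Real.rpow_add hTpos, ← Real.rpow_natCast, ← Real.rpow_mul hTpos.le]; norm_num
  have hL2 : L ^ 2 ≤ T ^ (1 / 8000 : ℝ) := by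
    have h1 : L ≤ T ^ (1 / 16000 : ℝ) := by
      have := g4
      rw [one_mul, Real.norm_of_nonneg (by linarith), Real.norm_of_nonneg
        (Real.rpow_nonneg hTpos.le _)] at this
      exact this
    calc L ^ 2 ≤ (T ^ (1 / 16000 : ℝ)) ^ 2 := pow_le_pow_left₀ (by linarith) h1 2
      _ = T ^ (1 / 8000 : ℝ) := by
          rw [← Real.rpow_natCast, ← Real.rpow_mul hTpos.le]; norm_num
  have hkey : ‖EM.P (T ^ 2) t‖ ^ 2 < (T ^ (1 / 6 - 1 / 4000 : ℝ)) ^ 2 := by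
    have hC1G : 0 ≤ C1 * G := by positivity
    have a1 : IG φ T G t ≤ 2 * C1 * G * L := by
      have : C1 * G * ‖DS Θ T G C' t‖ ≤ C1 * G * L :=
        mul_le_mul_of_nonneg_left (hD.trans hL1) hC1G
      linarith
    have a2 : C3 * L * (∫ u in (-(T ^ (1 / 10 : ℝ)))..(T ^ (1 / 10 : ℝ)),
        ‖EM.P (T ^ 2) (t + u)‖ ^ 2) ≤ C3 * L * (2 * C1 * G * L) :=
      mul_le_mul_of_nonneg_left (hint.trans a1) (by positivity)
    have a3 : C3 ≤ C3 * (G * L ^ 2) := by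
      have : 1 ≤ G * L ^ 2 := by
        have h2 : 1 ≤ L ^ 2 := by nlinarith
        nlinarith
      nlinarith
    have a4 : ‖EM.P (T ^ 2) t‖ ^ 2 ≤ (2 * C1 * C3 + C3) * (G * L ^ 2) := by nlinarith
    have a5 : (2 * C1 * C3 + C3) * (G * L ^ 2) ≤ (2 * C1 * C3 + C3) * (G * T ^ (1 / 8000 : ℝ)) := by
      have : G * L ^ 2 ≤ G * T ^ (1 / 8000 : ℝ) := mul_le_mul_of_nonneg_left hL2 hGpos.le
      exact mul_le_mul_of_nonneg_left this (by positivity)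
    have a6 : (2 * C1 * C3 + C3) * (G * T ^ (1 / 8000 : ℝ)) < T ^ (1 / 8000 : ℝ) * (G * T ^ (1 / 8000 : ℝ)) :=
      mul_lt_mul_of_pos_right g3 (by positivity)
    have a7 : T ^ (1 / 8000 : ℝ) * (G * T ^ (1 / 8000 : ℝ)) = G * T ^ (1 / 4000 : ℝ) := by
      have : T ^ (1 / 4000 : ℝ) = T ^ (1 / 8000 : ℝ) * T ^ (1 / 8000 : ℝ) := by
        rw [← Real.rpow_add hTpos]; norm_num
      rw [this]; ring
    rw [← hG4, ← a7]
    linarith
  exact lt_of_pow_lt_pow_left₀ 2 (Real.rpow_nonneg hTpos.le _) hkey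

end Pool.Agent.Work.MP_56b8f5_nt.UT
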