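import Pool.Agent.Work.MP_56b8f5_nt.UT.Stmts
import Pool.Agent.Work.MP_cb106b_nt.Ct.DivB

/-!
MP_56b8f5_nt, block UT, item Sm: the small part of the dual sum.
-/

open MeasureTheory Set Filter Topology

noncomputable section

namespace Pool.Agent.Work.MP_56b8f5_nt.UT

open Pool.Agent.Work.MP_56b8f5_nt.UB

namespace Sm_aux

lemma sqrt_sqrt (x : ℝ) (hx : 0 ≤ x) : Real.sqrt (Real.sqrt x) = x ^ (1 / 4 : ℝ) := by
  rw [Real.sqrt_eq_rpow, Real.sqrt_eq_rpow, ← Real.rpow_mul hx]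
  norm_num

lemma sum_quarter (m : ℕ) :
    ∑ n ∈ Finset.Icc 1 m, ((n : ℝ) ^ (-(1 / 4) : ℝ)) ≤ 2 * (m : ℝ) ^ (3 / 4 : ℝ) := by
  induction m with
  | zero => simp
  | succ m ih =>
    rw [Finset.sum_Icc_succ_top (by omega)]
    have h1 : (m : ℝ) ^ (3 / 4 : ℝ) * ((m : ℝ) + 1) ^ (1 / 4 : ℝ) ≤ 3 / 4 * m + 1 / 4 * ((m : ℝ) + 1) :=
      Real.geom_mean_le_arith_mean2_weighted (by norm_num) (by norm_num) (by positivity) (by positivity)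
        (by norm_num)
    have hp : 0 < ((m : ℝ) + 1) := by positivity
    have h2 : ((m : ℝ) + 1) ^ (3 / 4 : ℝ) = ((m : ℝ) + 1) * ((m : ℝ) + 1) ^ (-(1 / 4) : ℝ) := by
      have := Real.rpow_add hp 1 (-(1 / 4))
      rw [Real.rpow_one] at this
      rw [← this]; norm_num
    have h3 : (m : ℝ) ^ (3 / 4 : ℝ) ≤
        (3 / 4 * m + 1 / 4 * ((m : ℝ) + 1)) * ((m : ℝ) + 1) ^ (-(1 / 4) : ℝ) := by
      have h4 : ((m : ℝ) + 1) ^ (1 / 4 : ℝ) * ((m : ℝ) + 1) ^ (-(1 / 4) : ℝ) = 1 := by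
        rw [← Real.rpow_add hp]; norm_num
      calc (m : ℝ) ^ (3 / 4 : ℝ) = (m : ℝ) ^ (3 / 4 : ℝ) *
            (((m : ℝ) + 1) ^ (1 / 4 : ℝ) * ((m : ℝ) + 1) ^ (-(1 / 4) : ℝ)) := by rw [h4, mul_one]
        _ = (m : ℝ) ^ (3 / 4 : ℝ) * ((m : ℝ) + 1) ^ (1 / 4 : ℝ) * ((m : ℝ) + 1) ^ (-(1 / 4) : ℝ) := by ring
        _ ≤ _ := by gcongr
    have h5 : 0 < ((m : ℝ) + 1) ^ (-(1 / 4) : ℝ) := by positivity
    push_cast
    rw [h2]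
    nlinarith

lemma sum_inv (m : ℕ) (T : ℝ) (hT : 1 ≤ T) (hm : (m : ℝ) ≤ T) :
    ∑ a ∈ Finset.Icc 1 m, ((a : ℝ))⁻¹ ≤ 1 + Real.log T := by
  have h := harmonic_le_one_add_log m
  rw [harmonic_eq_sum_Icc] at h
  push_cast at h
  refine h.trans ?_
  rcases Nat.eq_zero_or_pos m with h0 | h0
  · subst h0
    simp
    exact Real.log_nonneg hT
  · have : Real.log m ≤ Real.log T := Real.log_le_log (by exact_mod_cast h0) hm
    linarith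

lemma npow (T N p : ℝ) (hT : 1 ≤ T) (hN : 0 ≤ N) (hN2 : N ≤ T ^ (1 / 3 + 1 / 500 : ℝ)) (hp : 0 ≤ p) :
    N ^ p ≤ T ^ ((1 / 3 + 1 / 500) * p : ℝ) := by
  calc N ^ p ≤ (T ^ (1 / 3 + 1 / 500 : ℝ)) ^ p := Real.rpow_le_rpow hN hN2 hp
    _ = T ^ ((1 / 3 + 1 / 500) * p : ℝ) := (Real.rpow_mul (by linarith) _ _).symm

/-- the error of the change of the cutoff -/
lemma e1 (T N : ℝ) (hT : 1 ≤ T) (hN : 1 ≤ N) (hN2 : N ≤ T ^ (1 / 3 + 1 / 500 : ℝ)) :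
    N * (T ^ (1 / 10000 : ℝ) / Real.sqrt (N * T)) ≤ T ^ (-(1 / 1000) : ℝ) := by
  have hT0 : 0 < T := by linarith
  have hN0 : 0 < N := by linarith
  have h1 : N / Real.sqrt (N * T) = N ^ (1 / 2 : ℝ) * T ^ (-(1 / 2) : ℝ) := by
    rw [Real.sqrt_eq_rpow, Real.mul_rpow hN0.le hT0.le, Real.rpow_neg hT0.le]
    have h2 : N = N ^ (1 / 2 : ℝ) * N ^ (1 / 2 : ℝ) := by
      rw [← Real.rpow_add hN0]; norm_num
    have h3 : 0 < N ^ (1 / 2 : ℝ) := by positivity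
    have h4 : 0 < T ^ (1 / 2 : ℝ) := by positivity
    rw [div_eq_iff (by positivity)]
    field_simp
    linarith [h2]
  calc N * (T ^ (1 / 10000 : ℝ) / Real.sqrt (N * T)) = T ^ (1 / 10000 : ℝ) * (N / Real.sqrt (N * T)) := by ring
    _ = T ^ (1 / 10000 : ℝ) * (N ^ (1 / 2 : ℝ) * T ^ (-(1 / 2) : ℝ)) := by rw [h1]
    _ ≤ T ^ (1 / 10000 : ℝ) * (T ^ ((1 / 3 + 1 / 500) * (1 / 2) : ℝ) * T ^ (-(1 / 2) : ℝ)) := by
        gcongr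
        exact npow T N _ hT hN0.le hN2 (by norm_num)
    _ = T ^ ((1 / 10000) + ((1 / 3 + 1 / 500) * (1 / 2) + -(1 / 2)) : ℝ) := by
        rw [Real.rpow_add hT0, Real.rpow_add hT0]
    _ ≤ T ^ (-(1 / 1000) : ℝ) := Real.rpow_le_rpow_of_exponent_le hT (by norm_num)

/-- the squares -/
lemma e3 (T N : ℝ) (hT : 1 ≤ T) (hN : 1 ≤ N) (hN2 : N ≤ T ^ (1 / 3 + 1 / 500 : ℝ)) :
    Real.sqrt N / Real.sqrt (Real.sqrt (N * T)) ≤ T ^ (-(1 / 1000) : ℝ) := by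
  have hT0 : 0 < T := by linarith
  have hN0 : 0 < N := by linarith
  have h1 : Real.sqrt N / Real.sqrt (Real.sqrt (N * T)) = N ^ (1 / 4 : ℝ) * T ^ (-(1 / 4) : ℝ) := by
    rw [sqrt_sqrt _ (by positivity), Real.sqrt_eq_rpow, Real.mul_rpow hN0.le hT0.le, Real.rpow_neg hT0.le]
    have h2 : N ^ (1 / 2 : ℝ) = N ^ (1 / 4 : ℝ) * N ^ (1 / 4 : ℝ) := by
      rw [← Real.rpow_add hN0]; norm_num
    have h3 : 0 < N ^ (1 / 4 : ℝ) := by positivity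
    have h4 : 0 < T ^ (1 / 4 : ℝ) := by positivity
    rw [h2, div_eq_iff (by positivity)]
    field_simp
  rw [h1]
  calc N ^ (1 / 4 : ℝ) * T ^ (-(1 / 4) : ℝ) ≤ T ^ ((1 / 3 + 1 / 500) * (1 / 4) : ℝ) * T ^ (-(1 / 4) : ℝ) := by
        gcongr
        exact npow T N _ hT hN0.le hN2 (by norm_num)
    _ = T ^ ((1 / 3 + 1 / 500) * (1 / 4) + -(1 / 4) : ℝ) := by rw [Real.rpow_add hT0]
    _ ≤ T ^ (-(1 / 1000) : ℝ) := Real.rpow_le_rpow_of_exponent_le hT (by norm_num)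

/-- the main part -/
lemma e2 (T N : ℝ) (hT : 1 ≤ T) (hN : 1 ≤ N) (hN2 : N ≤ T ^ (1 / 3 + 1 / 500 : ℝ)) :
    N / Real.sqrt (Real.sqrt (N * T)) * T ^ (-(1 / 400) : ℝ) ≤ T ^ (-(1 / 1000) : ℝ) := by
  have hT0 : 0 < T := by linarith
  have hN0 : 0 < N := by linarith
  have h1 : N / Real.sqrt (Real.sqrt (N * T)) = N ^ (3 / 4 : ℝ) * T ^ (-(1 / 4) : ℝ) := by
    rw [sqrt_sqrt _ (by positivity), Real.mul_rpow hN0.le hT0.le, Real.rpow_neg hT0.le]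
    have h2 : N = N ^ (3 / 4 : ℝ) * N ^ (1 / 4 : ℝ) := by
      rw [← Real.rpow_add hN0]; norm_num
    have h3 : 0 < N ^ (1 / 4 : ℝ) := by positivity
    have h4 : 0 < T ^ (1 / 4 : ℝ) := by positivity
    rw [div_eq_iff (by positivity)]
    field_simp
    linarith [h2]
  rw [h1]
  calc N ^ (3 / 4 : ℝ) * T ^ (-(1 / 4) : ℝ) * T ^ (-(1 / 400) : ℝ) ≤
        T ^ ((1 / 3 + 1 / 500) * (3 / 4) : ℝ) * T ^ (-(1 / 4) : ℝ) * T ^ (-(1 / 400) : ℝ) := by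
        gcongr
        exact npow T N _ hT hN0.le hN2 (by norm_num)
    _ = T ^ ((1 / 3 + 1 / 500) * (3 / 4) + -(1 / 4) + -(1 / 400) : ℝ) := by
        rw [Real.rpow_add hT0, Real.rpow_add hT0]
    _ ≤ T ^ (-(1 / 1000) : ℝ) := Real.rpow_le_rpow_of_exponent_le hT (by norm_num)

/-- the short sum -/
lemma e0 (T : ℝ) (m : ℕ) (hT : 1 ≤ T) (hm : (m : ℝ) ≤ T ^ (1 / 3 - 1 / 500 : ℝ)) :
    T ^ (1 / 10000 : ℝ) * (T ^ (-(1 / 4) : ℝ) * (m : ℝ) ^ (3 / 4 : ℝ)) ≤ T ^ (-(1 / 1000) : ℝ) := by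
  have hT0 : 0 < T := by linarith
  calc T ^ (1 / 10000 : ℝ) * (T ^ (-(1 / 4) : ℝ) * (m : ℝ) ^ (3 / 4 : ℝ)) ≤
      T ^ (1 / 10000 : ℝ) * (T ^ (-(1 / 4) : ℝ) * (T ^ (1 / 3 - 1 / 500 : ℝ)) ^ (3 / 4 : ℝ)) := by gcongr
    _ = T ^ ((1 / 10000) + (-(1 / 4) + (1 / 3 - 1 / 500) * (3 / 4)) : ℝ) := by
        rw [Real.rpow_add hT0, Real.rpow_add hT0, Real.rpow_mul hT0.le]
    _ ≤ T ^ (-(1 / 1000) : ℝ) := Real.rpow_le_rpow_of_exponent_le hT (by norm_num)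

/-- divisor bound for `n ≤ T` -/
lemma divT (D T : ℝ) (hD : 1 ≤ D) (hT : 1 ≤ T)
    (hdiv : ∀ N : ℕ, 1 ≤ N → ((N.divisors.card : ℕ) : ℝ) ≤ D * (N : ℝ) ^ (1 / 10000 : ℝ)) (n : ℕ)
    (hn : (n : ℝ) ≤ T) : ((n.divisors.card : ℕ) : ℝ) ≤ D * T ^ (1 / 10000 : ℝ) := by
  rcases Nat.eq_zero_or_pos n with h | h
  · subst h
    simp
    positivity
  · refine (hdiv n h).trans ?_
    gcongr

/-- the short sum -/
lemma short (Θ : ℝ → ℝ) (C1 D : ℝ) (hC1 : 2 ≤ C1) (hD : 1 ≤ D)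
    (hdiv : ∀ N : ℕ, 1 ≤ N → ((N.divisors.card : ℕ) : ℝ) ≤ D * (N : ℝ) ^ (1 / 10000 : ℝ))
    (T G s : ℝ) (m : ℕ) (hT : 1 ≤ T)
    (ham : ∀ n : ℕ, 1 ≤ n → n ≤ m → ‖JJ Θ T G n s‖ ≤ C1 / Real.sqrt (Real.sqrt (n * T)))
    (hm : (m : ℝ) ≤ T ^ (1 / 3 - 1 / 500 : ℝ)) :
    ‖∑ n ∈ Finset.Icc 1 m, (-1 : ℂ) ^ n * (n.divisors.card : ℂ) * JJ Θ T G n s‖ ≤
      2 * D * C1 * T ^ (-(1 / 1000) : ℝ) := by
  have hT0 : 0 < T := by linarith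
  have hmT : (m : ℝ) ≤ T := by
    refine hm.trans ?_
    calc T ^ (1 / 3 - 1 / 500 : ℝ) ≤ T ^ (1 : ℝ) := Real.rpow_le_rpow_of_exponent_le hT (by norm_num)
      _ = T := Real.rpow_one T
  refine (norm_sum_le _ _).trans ?_
  have h1 : ∀ n ∈ Finset.Icc 1 m, ‖(-1 : ℂ) ^ n * (n.divisors.card : ℂ) * JJ Θ T G n s‖ ≤
      D * C1 * T ^ (1 / 10000 : ℝ) * T ^ (-(1 / 4) : ℝ) * (n : ℝ) ^ (-(1 / 4) : ℝ) := by
    intro n hn
    rw [Finset.mem_Icc] at hn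
    have hn0 : (0 : ℝ) < n := by exact_mod_cast hn.1
    have hnT : (n : ℝ) ≤ T := le_trans (by exact_mod_cast hn.2) hmT
    rw [norm_mul, norm_mul, norm_pow, norm_neg, norm_one, one_pow, one_mul, Complex.norm_natCast]
    have h2 := divT D T hD hT hdiv n hnT
    have h3 := ham n hn.1 hn.2
    have h4 : C1 / Real.sqrt (Real.sqrt (n * T)) = C1 * (T ^ (-(1 / 4) : ℝ) * (n : ℝ) ^ (-(1 / 4) : ℝ)) := by
      rw [sqrt_sqrt _ (by positivity), Real.mul_rpow hn0.le hT0.le, Real.rpow_neg hT0.le, Real.rpow_neg hn0.le]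
      field_simp
    rw [h4] at h3
    calc ((n.divisors.card : ℕ) : ℝ) * ‖JJ Θ T G n s‖ ≤
        (D * T ^ (1 / 10000 : ℝ)) * (C1 * (T ^ (-(1 / 4) : ℝ) * (n : ℝ) ^ (-(1 / 4) : ℝ))) := by
          gcongr
      _ = _ := by ring
  refine (Finset.sum_le_sum h1).trans ?_
  rw [← Finset.mul_sum]
  have h5 := sum_quarter m
  have h6 := e0 T m hT hm
  calc D * C1 * T ^ (1 / 10000 : ℝ) * T ^ (-(1 / 4) : ℝ) * ∑ n ∈ Finset.Icc 1 m, ((n : ℝ) ^ (-(1 / 4) : ℝ)) ≤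
      D * C1 * T ^ (1 / 10000 : ℝ) * T ^ (-(1 / 4) : ℝ) * (2 * (m : ℝ) ^ (3 / 4 : ℝ)) := by gcongr
    _ = 2 * D * C1 * (T ^ (1 / 10000 : ℝ) * (T ^ (-(1 / 4) : ℝ) * (m : ℝ) ^ (3 / 4 : ℝ))) := by ring
    _ ≤ _ := by gcongr

/-- one block -/
lemma block (hHy : StHy) (Θ : ℝ → ℝ) (C2 C3 C4 D : ℝ) (hC2 : 2 ≤ C2) (hC3 : 2 ≤ C3)
    (hC4 : 2 ≤ C4) (hD : 1 ≤ D)
    (hdiv : ∀ N : ℕ, 1 ≤ N → ((N.divisors.card : ℕ) : ℝ) ≤ D * (N : ℝ) ^ (1 / 10000 : ℝ))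
    (T G s N : ℝ) (m : ℕ) (hT : 1 ≤ T) (hN : 1 ≤ N)
    (hcx : ∀ n : ℕ, N ≤ n → (n : ℝ) ≤ 2 * N → ‖JJ Θ T G n s - JX Θ T G N n s‖ ≤ C2 / Real.sqrt (N * T))
    (hax : ∀ y : ℝ, N ≤ y → y ≤ 2 * N → ‖JX Θ T G N y s‖ ≤ C3 / Real.sqrt (Real.sqrt (N * T)))
    (hbs : ∀ a b1 b2 : ℕ, 1 ≤ a → (a : ℝ) ^ 2 ≤ 2 * N →
      (∀ b ∈ Finset.Ico b1 b2, N ≤ (a : ℝ) * b ∧ (a : ℝ) * b ≤ 2 * N) →
      ‖∑ b ∈ Finset.Ico b1 b2, (-1 : ℂ) ^ (a * b) * JX Θ T G N ((a : ℝ) * b) s‖ ≤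
        C4 / Real.sqrt (Real.sqrt (N * T)) * (N / a) * T ^ (-(1 / 400) : ℝ))
    (hN2 : N ≤ T ^ (1 / 3 + 1 / 500 : ℝ)) (hm1 : N < m) (hm2 : (m : ℝ) ≤ 2 * N) (hmT : (m : ℝ) ≤ T) :
    ‖∑ n ∈ Finset.Ioc ⌊N⌋₊ m, (-1 : ℂ) ^ n * (n.divisors.card : ℂ) * JJ Θ T G n s‖ ≤
      (2 * D * C2 + 2 * C4 + 2 * C3) * (1 + Real.log T) * T ^ (-(1 / 1000) : ℝ) := by
  have hT0 : 0 < T := by linarith
  have hN0 : 0 < N := by linarith
  have hL : 0 ≤ Real.log T := Real.log_nonneg hT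
  have hTm : 0 < T ^ (-(1 / 1000) : ℝ) := by positivity
  -- split
  have hsplit : ∑ n ∈ Finset.Ioc ⌊N⌋₊ m, (-1 : ℂ) ^ n * (n.divisors.card : ℂ) * JJ Θ T G n s =
      ∑ n ∈ Finset.Ioc ⌊N⌋₊ m, (-1 : ℂ) ^ n * (n.divisors.card : ℂ) * (JJ Θ T G n s - JX Θ T G N n s) +
      ∑ n ∈ Finset.Ioc ⌊N⌋₊ m, (n.divisors.card : ℂ) * ((-1 : ℂ) ^ n * JX Θ T G N n s) := by
    rw [← Finset.sum_add_distrib]
    refine Finset.sum_congr rfl fun n _ => ?_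
    ring
  have hmem : ∀ n : ℕ, ⌊N⌋₊ < n → N ≤ (n : ℝ) := fun n hn => (Nat.lt_of_floor_lt hn).le
  -- first part
  have hP1 : ‖∑ n ∈ Finset.Ioc ⌊N⌋₊ m, (-1 : ℂ) ^ n * (n.divisors.card : ℂ) *
      (JJ Θ T G n s - JX Θ T G N n s)‖ ≤ 2 * D * C2 * T ^ (-(1 / 1000) : ℝ) := by
    refine (norm_sum_le _ _).trans ?_
    have h1 : ∀ n ∈ Finset.Ioc ⌊N⌋₊ m, ‖(-1 : ℂ) ^ n * (n.divisors.card : ℂ) *
        (JJ Θ T G n s - JX Θ T G N n s)‖ ≤ (D * T ^ (1 / 10000 : ℝ)) * (C2 / Real.sqrt (N * T)) := by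
      intro n hn
      rw [Finset.mem_Ioc] at hn
      have hnm : (n : ℝ) ≤ m := by exact_mod_cast hn.2
      rw [norm_mul, norm_mul, norm_pow, norm_neg, norm_one, one_pow, one_mul, Complex.norm_natCast]
      exact mul_le_mul (divT D T hD hT hdiv n (hnm.trans hmT)) (hcx n (hmem n hn.1) (hnm.trans hm2))
        (norm_nonneg _) (by positivity)
    refine (Finset.sum_le_card_nsmul _ _ _ h1).trans ?_
    rw [Nat.card_Ioc, nsmul_eq_mul]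
    have h2 : (((m - ⌊N⌋₊ : ℕ)) : ℝ) ≤ 2 * N := by
      refine le_trans ?_ hm2
      exact_mod_cast Nat.sub_le _ _
    calc (((m - ⌊N⌋₊ : ℕ)) : ℝ) * ((D * T ^ (1 / 10000 : ℝ)) * (C2 / Real.sqrt (N * T))) ≤
        (2 * N) * ((D * T ^ (1 / 10000 : ℝ)) * (C2 / Real.sqrt (N * T))) := by gcongr
      _ = 2 * D * C2 * (N * (T ^ (1 / 10000 : ℝ) / Real.sqrt (N * T))) := by ring
      _ ≤ 2 * D * C2 * T ^ (-(1 / 1000) : ℝ) := by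
        gcongr
        exact e1 T N hT hN hN2
  -- hyperbola
  have hH := hHy (fun n => (-1 : ℂ) ^ n * JX Θ T G N n s) ⌊N⌋₊ m
  have hsq : ∀ a ∈ Finset.Icc 1 (Nat.sqrt m), (a : ℝ) ^ 2 ≤ 2 * N := by
    intro a ha
    rw [Finset.mem_Icc] at ha
    have : a * a ≤ m := Nat.le_sqrt.mp ha.2
    have h2 : (a : ℝ) ^ 2 ≤ m := by
      rw [pow_two]; exact_mod_cast this
    exact h2.trans hm2
  have hP2 : ‖∑ a ∈ Finset.Icc 1 (Nat.sqrt m), ∑ b ∈ Finset.Ico (max (a + 1) (⌊N⌋₊ / a + 1)) (m / a + 1),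
      (-1 : ℂ) ^ (a * b) * JX Θ T G N ((a * b : ℕ) : ℝ) s‖ ≤
      C4 * (1 + Real.log T) * T ^ (-(1 / 1000) : ℝ) := by
    refine (norm_sum_le _ _).trans ?_
    have h1 : ∀ a ∈ Finset.Icc 1 (Nat.sqrt m), ‖∑ b ∈ Finset.Ico (max (a + 1) (⌊N⌋₊ / a + 1)) (m / a + 1),
        (-1 : ℂ) ^ (a * b) * JX Θ T G N ((a * b : ℕ) : ℝ) s‖ ≤
        C4 * (N / Real.sqrt (Real.sqrt (N * T)) * T ^ (-(1 / 400) : ℝ)) * (a : ℝ)⁻¹ := by
      intro a ha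
      have ha' := Finset.mem_Icc.mp ha
      have ha0 : 0 < a := ha'.1
      have h2 := hbs a (max (a + 1) (⌊N⌋₊ / a + 1)) (m / a + 1) ha'.1 (hsq a ha) (by
        intro b hb
        rw [Finset.mem_Ico] at hb
        have hb1 : ⌊N⌋₊ / a + 1 ≤ b := le_trans (le_max_right _ _) hb.1
        have hb2 : b ≤ m / a := Nat.lt_succ_iff.mp hb.2
        have hb3 : ⌊N⌋₊ < a * b := by
          have : ⌊N⌋₊ / a < b := hb1
          rw [Nat.div_lt_iff_lt_mul ha0] at this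
          rwa [mul_comm]
        have hb4 : a * b ≤ m := by
          have := (Nat.le_div_iff_mul_le ha0).mp hb2
          rwa [mul_comm]
        constructor
        · have := hmem _ hb3
          exact_mod_cast this
        · refine le_trans ?_ hm2
          exact_mod_cast hb4)
      have h3 : ∑ b ∈ Finset.Ico (max (a + 1) (⌊N⌋₊ / a + 1)) (m / a + 1),
          (-1 : ℂ) ^ (a * b) * JX Θ T G N ((a * b : ℕ) : ℝ) s =
          ∑ b ∈ Finset.Ico (max (a + 1) (⌊N⌋₊ / a + 1)) (m / a + 1),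
          (-1 : ℂ) ^ (a * b) * JX Θ T G N ((a : ℝ) * b) s := by
        refine Finset.sum_congr rfl fun b _ => ?_
        push_cast
        rfl
      rw [h3]
      refine h2.trans (le_of_eq ?_)
      rw [div_eq_mul_inv N (a : ℝ)]
      ring
    refine (Finset.sum_le_sum h1).trans ?_
    rw [← Finset.mul_sum]
    have h4 : ((Nat.sqrt m : ℕ) : ℝ) ≤ T := by
      refine le_trans ?_ hmT
      exact_mod_cast Nat.sqrt_le_self m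
    have h5 := sum_inv (Nat.sqrt m) T hT h4
    have h6 := e2 T N hT hN hN2
    calc C4 * (N / Real.sqrt (Real.sqrt (N * T)) * T ^ (-(1 / 400) : ℝ)) *
          ∑ a ∈ Finset.Icc 1 (Nat.sqrt m), ((a : ℝ))⁻¹ ≤
        C4 * T ^ (-(1 / 1000) : ℝ) * (1 + Real.log T) := by gcongr
      _ = _ := by ring
  have hP3 : ‖∑ a ∈ (Finset.Icc 1 (Nat.sqrt m)).filter (fun a => ⌊N⌋₊ < a * a),
      (-1 : ℂ) ^ (a * a) * JX Θ T G N ((a * a : ℕ) : ℝ) s‖ ≤ 2 * C3 * T ^ (-(1 / 1000) : ℝ) := by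
    refine (norm_sum_le _ _).trans ?_
    have h1 : ∀ a ∈ (Finset.Icc 1 (Nat.sqrt m)).filter (fun a => ⌊N⌋₊ < a * a),
        ‖(-1 : ℂ) ^ (a * a) * JX Θ T G N ((a * a : ℕ) : ℝ) s‖ ≤ C3 / Real.sqrt (Real.sqrt (N * T)) := by
      intro a ha
      rw [Finset.mem_filter] at ha
      rw [norm_mul, norm_pow, norm_neg, norm_one, one_pow, one_mul]
      refine hax _ (hmem _ ha.2) ?_
      have := hsq a ha.1
      push_cast
      rw [← pow_two]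
      exact this
    refine (Finset.sum_le_card_nsmul _ _ _ h1).trans ?_
    rw [nsmul_eq_mul]
    have h2 : ((((Finset.Icc 1 (Nat.sqrt m)).filter (fun a => ⌊N⌋₊ < a * a)).card : ℕ) : ℝ) ≤
        2 * Real.sqrt N := by
      have h3 : ((Finset.Icc 1 (Nat.sqrt m)).filter (fun a => ⌊N⌋₊ < a * a)).card ≤ Nat.sqrt m := by
        refine (Finset.card_filter_le _ _).trans ?_
        simp
      have h4 : ((Nat.sqrt m : ℕ) : ℝ) ≤ Real.sqrt m := Real.nat_sqrt_le_real_sqrt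
      have h5 : Real.sqrt m ≤ 2 * Real.sqrt N := by
        have : (2 : ℝ) * Real.sqrt N = Real.sqrt (4 * N) := by
          rw [Real.sqrt_mul (by norm_num)]
          congr 1
          rw [show (4 : ℝ) = 2 ^ 2 by norm_num, Real.sqrt_sq (by norm_num)]
        rw [this]
        apply Real.sqrt_le_sqrt
        linarith
      have h3' : ((((Finset.Icc 1 (Nat.sqrt m)).filter (fun a => ⌊N⌋₊ < a * a)).card : ℕ) : ℝ) ≤
          ((Nat.sqrt m : ℕ) : ℝ) := by exact_mod_cast h3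
      linarith
    have h6 := e3 T N hT hN hN2
    calc _ ≤ (2 * Real.sqrt N) * (C3 / Real.sqrt (Real.sqrt (N * T))) := by gcongr
      _ = 2 * C3 * (Real.sqrt N / Real.sqrt (Real.sqrt (N * T))) := by ring
      _ ≤ _ := by gcongr
  have hP4 : ‖∑ n ∈ Finset.Ioc ⌊N⌋₊ m, (n.divisors.card : ℂ) * ((-1 : ℂ) ^ n * JX Θ T G N n s)‖ ≤
      2 * (C4 * (1 + Real.log T) * T ^ (-(1 / 1000) : ℝ)) + 2 * C3 * T ^ (-(1 / 1000) : ℝ) := by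
    rw [hH]
    refine (norm_add_le _ _).trans ?_
    rw [norm_mul]
    have : ‖(2 : ℂ)‖ = 2 := by simp
    rw [this]
    gcongr
  rw [hsplit]
  refine (norm_add_le _ _).trans ?_
  have hx : 0 ≤ Real.log T * T ^ (-(1 / 1000) : ℝ) := by positivity
  have hD2 : 0 ≤ D * C2 := by positivity
  have hy1 : 0 ≤ D * C2 * (Real.log T * T ^ (-(1 / 1000) : ℝ)) := by positivity
  have hy2 : 0 ≤ C3 * (Real.log T * T ^ (-(1 / 1000) : ℝ)) := by positivity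
  nlinarith [hP1, hP4]

/-- induction over the blocks -/
lemma blocks (f : ℕ → ℂ) (N0 β σ : ℝ) (n1 : ℕ) (hN0 : 1 ≤ N0) (hβ : 0 ≤ β)
    (h0 : ∀ m : ℕ, m ≤ n1 → (m : ℝ) ≤ N0 → ‖∑ n ∈ Finset.Icc 1 m, f n‖ ≤ σ)
    (hb : ∀ (N : ℝ) (m : ℕ), N0 ≤ N → N < m → (m : ℝ) ≤ 2 * N → m ≤ n1 →
      ‖∑ n ∈ Finset.Ioc ⌊N⌋₊ m, f n‖ ≤ β) :
    ∀ (j : ℕ) (m : ℕ), m ≤ n1 → (m : ℝ) ≤ 2 ^ j * N0 → ‖∑ n ∈ Finset.Icc 1 m, f n‖ ≤ σ + j * β := by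
  intro j
  induction j with
  | zero =>
    intro m hm1 hm2
    have := h0 m hm1 (by simpa using hm2)
    simpa using this
  | succ j ih =>
    intro m hm1 hm2
    by_cases h : (m : ℝ) ≤ 2 ^ j * N0
    · have := ih m hm1 h
      push_cast
      linarith
    · push Not at h
      have hN : N0 ≤ 2 ^ j * N0 := by
        have : (1 : ℝ) ≤ 2 ^ j := one_le_pow₀ (by norm_num)
        nlinarith
      have hfl : ((⌊2 ^ j * N0⌋₊ : ℕ) : ℝ) ≤ 2 ^ j * N0 := Nat.floor_le (by linarith)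
      have hfm : ⌊2 ^ j * N0⌋₊ ≤ m := by
        have : ((⌊2 ^ j * N0⌋₊ : ℕ) : ℝ) < m := lt_of_le_of_lt hfl h
        exact_mod_cast this.le
      have h1 := ih ⌊2 ^ j * N0⌋₊ (hfm.trans hm1) hfl
      have h2 := hb (2 ^ j * N0) m hN h (by rw [pow_succ] at hm2; linarith) hm1
      have e1 : ∀ k : ℕ, Finset.Icc 1 k = Finset.Ioc 0 k := by
        intro k; ext x; simp only [Finset.mem_Icc, Finset.mem_Ioc]; omega
      have h3 : ∑ n ∈ Finset.Icc 1 m, f n = ∑ n ∈ Finset.Icc 1 ⌊2 ^ j * N0⌋₊, f n +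
          ∑ n ∈ Finset.Ioc ⌊2 ^ j * N0⌋₊ m, f n := by
        rw [e1, e1, Finset.sum_Ioc_consecutive f (Nat.zero_le _) hfm]
      rw [h3]
      refine (norm_add_le _ _).trans ?_
      push_cast
      linarith

/-- number of blocks -/
lemma numJ (T : ℝ) (hT : 1 ≤ T) : ∃ J : ℕ, T ≤ 2 ^ J ∧ (J : ℝ) ≤ 2 * (1 + Real.log T) := by
  have hT0 : 0 < T := by linarith
  have hL : 0 ≤ Real.log T := Real.log_nonneg hT
  have h2 : (0.6931471803 : ℝ) < Real.log 2 := Real.log_two_gt_d9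
  have h2' : 0 < Real.log 2 := by linarith
  refine ⟨⌈Real.log T / Real.log 2⌉₊, ?_, ?_⟩
  · have h3 : Real.log T / Real.log 2 ≤ (⌈Real.log T / Real.log 2⌉₊ : ℝ) := Nat.le_ceil _
    rw [div_le_iff₀ h2'] at h3
    calc T = Real.exp (Real.log T) := (Real.exp_log hT0).symm
      _ ≤ Real.exp ((⌈Real.log T / Real.log 2⌉₊ : ℝ) * Real.log 2) := Real.exp_le_exp.mpr h3
      _ = 2 ^ ⌈Real.log T / Real.log 2⌉₊ := by
        rw [mul_comm, Real.exp_mul, Real.exp_log (by norm_num), Real.rpow_natCast]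
  · have h4 : (⌈Real.log T / Real.log 2⌉₊ : ℝ) < Real.log T / Real.log 2 + 1 :=
      Nat.ceil_lt_add_one (by positivity)
    have h5 : Real.log T / Real.log 2 ≤ 2 * Real.log T := by
      rw [div_le_iff₀ h2']
      nlinarith
    linarith

/-- for large `T` the logarithms are harmless -/
lemma final (K : ℝ) (hK : 1 ≤ K) (T : ℝ) (hT : 1 ≤ T) (hT2 : (4001 ^ 2 * K) ^ 2000 ≤ T) :
    K * (1 + Real.log T) ^ 2 * T ^ (-(1 / 1000) : ℝ) ≤ 1 := by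
  have hT0 : 0 < T := by linarith
  have hL : 0 ≤ Real.log T := Real.log_nonneg hT
  have h1 : Real.log T ≤ T ^ (1 / 4000 : ℝ) / (1 / 4000) := Real.log_le_rpow_div hT0.le (by norm_num)
  have h2 : 1 ≤ T ^ (1 / 4000 : ℝ) := Real.one_le_rpow hT (by norm_num)
  have h3 : 1 + Real.log T ≤ 4001 * T ^ (1 / 4000 : ℝ) := by
    have : T ^ (1 / 4000 : ℝ) / (1 / 4000) = 4000 * T ^ (1 / 4000 : ℝ) := by ring
    linarith
  have h4 : (1 + Real.log T) ^ 2 ≤ 4001 ^ 2 * T ^ (1 / 2000 : ℝ) := by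
    calc (1 + Real.log T) ^ 2 ≤ (4001 * T ^ (1 / 4000 : ℝ)) ^ 2 := by gcongr
      _ = 4001 ^ 2 * (T ^ (1 / 4000 : ℝ) * T ^ (1 / 4000 : ℝ)) := by ring
      _ = 4001 ^ 2 * T ^ (1 / 2000 : ℝ) := by
        rw [← Real.rpow_add hT0]; norm_num
  obtain ⟨Q, hQ⟩ : ∃ Q : ℝ, Q = 4001 ^ 2 * K := ⟨_, rfl⟩
  rw [← hQ] at hT2
  have hQ0 : 0 ≤ Q := by rw [hQ]; positivity
  have h5 : Q ≤ T ^ (1 / 2000 : ℝ) := by
    have h6 : (Q ^ 2000) ^ (1 / 2000 : ℝ) ≤ T ^ (1 / 2000 : ℝ) :=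
      Real.rpow_le_rpow (by positivity) hT2 (by norm_num)
    have h7 : (Q ^ 2000) ^ (1 / 2000 : ℝ) = Q := by
      rw [← Real.rpow_natCast Q 2000, ← Real.rpow_mul hQ0]
      have h9 : (((2000 : ℕ) : ℝ) * (1 / 2000)) = 1 := by norm_num
      rw [h9, Real.rpow_one]
    rwa [h7] at h6
  have h8 : T ^ (1 / 2000 : ℝ) * T ^ (1 / 2000 : ℝ) * T ^ (-(1 / 1000) : ℝ) = 1 := by
    rw [← Real.rpow_add hT0, ← Real.rpow_add hT0]; norm_num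
  calc K * (1 + Real.log T) ^ 2 * T ^ (-(1 / 1000) : ℝ) ≤
      K * (4001 ^ 2 * T ^ (1 / 2000 : ℝ)) * T ^ (-(1 / 1000) : ℝ) := by gcongr
    _ = Q * T ^ (1 / 2000 : ℝ) * T ^ (-(1 / 1000) : ℝ) := by rw [hQ]; ring
    _ ≤ T ^ (1 / 2000 : ℝ) * T ^ (1 / 2000 : ℝ) * T ^ (-(1 / 1000) : ℝ) := by gcongr
    _ = 1 := h8

end Sm_aux

open Sm_aux in
theorem iSm (hHy : StHy) (hBs : StBs) (hCx : StCx) (hAX : StAX) (hAM : UB.StAM) : StSm := by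
  intro φ Θ hΘ C' hC'
  obtain ⟨C1, hC1, h1⟩ := hAM φ Θ hΘ C' hC'
  obtain ⟨C2, hC2, h2⟩ := hCx φ Θ hΘ (2 * C') (by linarith)
  obtain ⟨C3, hC3, h3⟩ := hAX φ Θ hΘ (2 * C') (by linarith)
  obtain ⟨C4, hC4, h4⟩ := hBs φ Θ hΘ (2 * C') (by linarith)
  obtain ⟨D, hD, hdiv⟩ := Pool.Agent.Work.MP_cb106b_nt.Ct.divisor_bound (1 / 10000) (by norm_num)
  obtain ⟨B, hB⟩ : ∃ B : ℝ, B = 2 * D * C2 + 2 * C4 + 2 * C3 := ⟨_, rfl⟩
  have hDC2 : 0 ≤ D * C2 := by positivity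
  have hDC1 : 0 ≤ D * C1 := by positivity
  have hB0 : 1 ≤ B := by rw [hB]; nlinarith
  obtain ⟨K, hK⟩ : ∃ K : ℝ, K = 2 * D * C1 + 2 * B := ⟨_, rfl⟩
  have hK1 : 1 ≤ K := by rw [hK]; nlinarith
  obtain ⟨Q, hQ⟩ : ∃ Q : ℝ, Q = (4001 ^ 2 * K) ^ 2000 := ⟨_, rfl⟩
  have hQ0 : 0 ≤ Q := by rw [hQ]; positivity
  refine ⟨C1 + C2 + C3 + C4 + Q, by linarith, ?_⟩
  intro T G s n1 hT hG hGT hs hn1 hn2
  have hT1 : 1 ≤ T := by linarith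
  have hT0 : 0 < T := by linarith
  have hG0 : 0 < G := by linarith
  have hL : 0 ≤ Real.log T := Real.log_nonneg hT1
  have hYT : T ^ (1 / 3 + 1 / 500 : ℝ) ≤ T := by
    calc T ^ (1 / 3 + 1 / 500 : ℝ) ≤ T ^ (1 : ℝ) := Real.rpow_le_rpow_of_exponent_le hT1 (by norm_num)
      _ = T := Real.rpow_one T
  have hN0 : 1 ≤ T ^ (1 / 3 - 1 / 500 : ℝ) := Real.one_le_rpow hT1 (by norm_num)
  have hTm : 0 < T ^ (-(1 / 1000) : ℝ) := by positivity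
  obtain ⟨J, hJ1, hJ2⟩ := numJ T hT1
  have key := blocks (fun n => (-1 : ℂ) ^ n * (n.divisors.card : ℂ) * JJ Θ T G n s)
    (T ^ (1 / 3 - 1 / 500 : ℝ)) (B * (1 + Real.log T) * T ^ (-(1 / 1000) : ℝ))
    (2 * D * C1 * T ^ (-(1 / 1000) : ℝ)) n1 hN0 (by positivity) (by
      intro m hm1 hm2
      refine short Θ C1 D hC1 hD hdiv T G s m hT1 ?_ hm2
      intro n hn hnm
      refine (h1 T G s n (by linarith) (by linarith) hGT hs hn ?_).1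
      refine le_trans ?_ hn1
      exact_mod_cast hnm.trans hm1) (by
      intro N m hN hNm hm2 hmn
      have hN1 : 1 ≤ N := hN0.trans hN
      have hmn' : (m : ℝ) ≤ n1 := by exact_mod_cast hmn
      have hNn : N ≤ n1 := by linarith
      have h2N : 2 * N ≤ 2 * C' * T / G ^ 2 := by
        have : 2 * C' * T / G ^ 2 = 2 * (C' * T / G ^ 2) := by ring
        rw [this]
        linarith
      have hN2 : N ≤ T ^ (1 / 3 + 1 / 500 : ℝ) := hNn.trans hn2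
      rw [hB]
      refine block hHy Θ C2 C3 C4 D hC2 hC3 hC4 hD hdiv T G s N m hT1 hN1 ?_ ?_ ?_ hN2 hNm hm2
        (hmn'.trans (hn2.trans hYT))
      · intro n hn hn'
        exact h2 T G N s n (by linarith) (by linarith) hGT hs hN1 hn hn' h2N
      · intro y hy hy'
        exact (h3 T G N s y (by linarith) (by linarith) hGT hs hN1 hy hy' h2N).1
      · intro a b1 b2 ha ha2 hb
        exact h4 T G N s a b1 b2 (by linarith) (by linarith) hGT hs h2N hN hN2 ha ha2 hb) J n1 le_rfl (by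
      have : (n1 : ℝ) ≤ 2 ^ J := hn2.trans (hYT.trans hJ1)
      nlinarith)
  refine key.trans ?_
  have hfin := final K hK1 T hT1 (by rw [← hQ]; linarith)
  refine le_trans ?_ hfin
  have hx : 0 ≤ B * (1 + Real.log T) * T ^ (-(1 / 1000) : ℝ) := by positivity
  have h5 : (J : ℝ) * (B * (1 + Real.log T) * T ^ (-(1 / 1000) : ℝ)) ≤
      2 * (1 + Real.log T) * (B * (1 + Real.log T) * T ^ (-(1 / 1000) : ℝ)) := by gcongr
  have h6 : 2 * D * C1 * T ^ (-(1 / 1000) : ℝ) ≤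
      2 * D * C1 * (1 + Real.log T) ^ 2 * T ^ (-(1 / 1000) : ℝ) := by
    have : 1 ≤ (1 + Real.log T) ^ 2 := by nlinarith
    have h7 : 0 ≤ 2 * D * C1 * T ^ (-(1 / 1000) : ℝ) := by positivity
    nlinarith
  rw [hK]
  linarith [h5, h6]

end Pool.Agent.Work.MP_56b8f5_nt.UT
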