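import Pool.Agent.Work.MP_56b8f5_nt.UT.Stmts

/-!
MP_56b8f5_nt, block UT, item TW: the tower of derivatives of `y^(-α) (1 + ε y^β)^(-1/2)`.
-/

open MeasureTheory Set Filter Topology

noncomputable section

namespace Pool.Agent.Work.MP_56b8f5_nt.UT

open Pool.Agent.Work.MP_56b8f5_nt.UB

namespace TW_aux

/-- the polynomials `P_i` -/
def PP (α β : ℝ) : ℕ → Polynomial ℝ
  | 0 => 1
  | i + 1 => (1 + Polynomial.X) * (-(Polynomial.C (α + i)) * PP α β i +
      Polynomial.C β * Polynomial.X * Polynomial.derivative (PP α β i)) -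
      Polynomial.C ((1 / 2 + i) * β) * Polynomial.X * PP α β i

lemma PP_pos (α β : ℝ) (hα : 0 < α) (k : ℕ) : 0 < (-1) ^ k * (PP α β k).eval 0 := by
  induction k with
  | zero => simp [PP]
  | succ k ih =>
    have h1 : (PP α β (k + 1)).eval 0 = -(α + k) * (PP α β k).eval 0 := by
      simp [PP]
    have h2 : 0 < α + k := by positivity
    have h3 : (-1 : ℝ) ^ (k + 1) * (-(α + k) * (PP α β k).eval 0) =
        (α + k) * ((-1) ^ k * (PP α β k).eval 0) := by ring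
    rw [h1, h3]
    exact mul_pos h2 ih

/-- the tower -/
def GG (α β ε : ℝ) (i : ℕ) (y : ℝ) : ℝ :=
  y ^ (-α - i) * (1 + ε * y ^ β) ^ (-(1 / 2) - i : ℝ) * (PP α β i).eval (ε * y ^ β)

lemma GG_deriv (α β ε : ℝ) (hε : 0 ≤ ε) (i : ℕ) (y : ℝ) (hy : 0 < y) :
    HasDerivAt (GG α β ε i) (GG α β ε (i + 1) y) y := by
  have hw : HasDerivAt (fun y : ℝ => ε * y ^ β) (ε * (β * y ^ (β - 1))) y :=
    (Real.hasDerivAt_rpow_const (x := y) (p := β) (Or.inl hy.ne')).const_mul ε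
  have hyb : 0 < y ^ β := Real.rpow_pos_of_pos hy _
  have hw0 : 0 ≤ ε * y ^ β := by positivity
  have hw1 : (0 : ℝ) < 1 + ε * y ^ β := by linarith
  have h1 : HasDerivAt (fun y : ℝ => y ^ (-α - i)) ((-α - i) * y ^ (-α - i - 1)) y :=
    Real.hasDerivAt_rpow_const (Or.inl hy.ne')
  have h2 := (hw.const_add 1).rpow_const (p := (-(1 / 2) - i : ℝ)) (Or.inl hw1.ne')
  have h3 := ((PP α β i).hasDerivAt (ε * y ^ β)).comp y hw
  have h4 := (h1.mul h2).mul h3
  have e1 : y ^ (β - 1) = y ^ β / y := Real.rpow_sub_one hy.ne' _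
  have e2 : y ^ (-α - i - 1) = y ^ (-α - i) / y := Real.rpow_sub_one hy.ne' _
  have e3 : (1 + ε * y ^ β) ^ (-(1 / 2) - i - 1 : ℝ) =
      (1 + ε * y ^ β) ^ (-(1 / 2) - i : ℝ) / (1 + ε * y ^ β) := Real.rpow_sub_one hw1.ne' _
  have e4 : (-α - ((i + 1 : ℕ) : ℝ)) = -α - i - 1 := by push_cast; ring
  have e5 : (-(1 / 2) - ((i + 1 : ℕ) : ℝ)) = -(1 / 2) - i - 1 := by push_cast; ring
  have e6 : (PP α β (i + 1)).eval (ε * y ^ β) =
      (1 + ε * y ^ β) * (-(α + i) * (PP α β i).eval (ε * y ^ β) +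
        β * (ε * y ^ β) * (Polynomial.derivative (PP α β i)).eval (ε * y ^ β)) -
      (1 / 2 + i) * β * (ε * y ^ β) * (PP α β i).eval (ε * y ^ β) := by
    simp [PP]
  have key : GG α β ε (i + 1) y = ((-α - i) * y ^ (-α - i - 1) *
      (1 + ε * y ^ β) ^ (-(1 / 2) - i : ℝ) + y ^ (-α - i) * (ε * (β * y ^ (β - 1)) *
        (-(1 / 2) - i) * (1 + ε * y ^ β) ^ (-(1 / 2) - i - 1 : ℝ))) * (PP α β i).eval (ε * y ^ β) +
      y ^ (-α - i) * (1 + ε * y ^ β) ^ (-(1 / 2) - i : ℝ) *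
        ((Polynomial.derivative (PP α β i)).eval (ε * y ^ β) * (ε * (β * y ^ (β - 1)))) := by
    unfold GG
    rw [e4, e5, e6, e1, e2, e3]
    field_simp
    ring
  rw [key]
  exact h4

end TW_aux

open TW_aux in
theorem iTW : StTW := by
  intro α β hα k
  have hp := PP_pos α β hα k
  set p : ℝ := (-1) ^ k * (PP α β k).eval 0 with hpdef
  -- continuity at zero
  have hcont : ContinuousAt (fun w : ℝ => (-1) ^ k * (PP α β k).eval w) 0 := by
    have : Continuous (fun w : ℝ => (-1) ^ k * (PP α β k).eval w) :=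
      continuous_const.mul (PP α β k).continuous
    exact this.continuousAt
  obtain ⟨w0, hw0, hw⟩ := Metric.continuousAt_iff.1 hcont (p / 2) (by positivity)
  set M : ℝ := max ((4 : ℝ) ^ β) ((4 : ℝ) ^ (-β)) with hM
  have hM0 : 0 < M := lt_max_of_lt_left (Real.rpow_pos_of_pos (by norm_num) _)
  have hyM : ∀ y ∈ Icc (1 / 4 : ℝ) 4, y ^ β ≤ M := by
    intro y hy
    have hy0 : (0 : ℝ) < y := by linarith [hy.1]
    rcases le_total 0 β with hb | hb
    · exact le_trans (Real.rpow_le_rpow hy0.le hy.2 hb) (le_max_left _ _)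
    · have h1 : y ^ β ≤ (1 / 4 : ℝ) ^ β := Real.rpow_le_rpow_of_nonpos (by norm_num) hy.1 hb
      have h2 : (1 / 4 : ℝ) ^ β = (4 : ℝ) ^ (-β) := by
        rw [one_div, Real.inv_rpow (by norm_num), Real.rpow_neg (by norm_num)]
      exact le_trans (h1.trans_eq h2) (le_max_right _ _)
  refine ⟨min 1 (w0 / 2) / M, (4 : ℝ) ^ (-α - k) * (2 : ℝ) ^ (-(1 / 2) - k : ℝ) * (p / 2),
    (1 / 4 : ℝ) ^ (-α - k) * 1 * (2 * p), by positivity, by positivity, ?_, ?_⟩
  · -- c ≤ C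
    have a1 : (4 : ℝ) ^ (-α - k) ≤ (1 / 4 : ℝ) ^ (-α - k) :=
      Real.rpow_le_rpow_of_nonpos (by norm_num) (by norm_num) (by
        have : (0 : ℝ) ≤ k := Nat.cast_nonneg k
        linarith)
    have a2 : (2 : ℝ) ^ (-(1 / 2) - k : ℝ) ≤ 1 :=
      Real.rpow_le_one_of_one_le_of_nonpos (by norm_num) (by
        have : (0 : ℝ) ≤ k := Nat.cast_nonneg k
        linarith)
    have a3 : p / 2 ≤ 2 * p := by linarith
    gcongr
  · intro ε hε0 hε
    refine ⟨GG α β ε, ?_, ?_, ?_⟩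
    · intro y hy
      simp [GG, PP]
    · intro i _ y hy
      exact GG_deriv α β ε hε0 i y (by linarith [hy.1])
    · intro y hy
      have hy0 : (0 : ℝ) < y := by linarith [hy.1]
      have hk : (0 : ℝ) ≤ k := Nat.cast_nonneg k
      have hyb : 0 < y ^ β := Real.rpow_pos_of_pos hy0 _
      have hwnn : 0 ≤ ε * y ^ β := by positivity
      have hwle : ε * y ^ β ≤ min 1 (w0 / 2) := by
        calc ε * y ^ β ≤ min 1 (w0 / 2) / M * M :=
              mul_le_mul hε (hyM y hy) hyb.le (by positivity)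
          _ = min 1 (w0 / 2) := by field_simp
      have hw1 : ε * y ^ β ≤ 1 := hwle.trans (min_le_left _ _)
      have hw2 : ε * y ^ β ≤ w0 / 2 := hwle.trans (min_le_right _ _)
      have hd : dist (ε * y ^ β) 0 < w0 := by
        rw [Real.dist_eq, sub_zero, abs_of_nonneg hwnn]
        linarith
      have h1 := hw hd
      rw [Real.dist_eq, ← hpdef, abs_lt] at h1
      have b1 : p / 2 ≤ (-1) ^ k * (PP α β k).eval (ε * y ^ β) := by linarith [h1.1]
      have b2 : (-1) ^ k * (PP α β k).eval (ε * y ^ β) ≤ 2 * p := by linarith [h1.2]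
      have a1 : (4 : ℝ) ^ (-α - k) ≤ y ^ (-α - k) :=
        Real.rpow_le_rpow_of_nonpos hy0 hy.2 (by linarith)
      have a1' : y ^ (-α - k) ≤ (1 / 4 : ℝ) ^ (-α - k) :=
        Real.rpow_le_rpow_of_nonpos (by norm_num) hy.1 (by linarith)
      have a2 : (2 : ℝ) ^ (-(1 / 2) - k : ℝ) ≤ (1 + ε * y ^ β) ^ (-(1 / 2) - k : ℝ) :=
        Real.rpow_le_rpow_of_nonpos (by linarith) (by linarith) (by linarith)
      have a2' : (1 + ε * y ^ β) ^ (-(1 / 2) - k : ℝ) ≤ 1 :=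
        Real.rpow_le_one_of_one_le_of_nonpos (by linarith) (by linarith)
      have c0 : 0 < y ^ (-α - k) := Real.rpow_pos_of_pos hy0 _
      have c1 : 0 < (1 + ε * y ^ β) ^ (-(1 / 2) - k : ℝ) := Real.rpow_pos_of_pos (by linarith) _
      have hG : (-1) ^ k * GG α β ε k y = y ^ (-α - k) * (1 + ε * y ^ β) ^ (-(1 / 2) - k : ℝ) *
          ((-1) ^ k * (PP α β k).eval (ε * y ^ β)) := by
        unfold GG; ring
      rw [hG]
      constructor
      · have d0 : (0 : ℝ) < (4 : ℝ) ^ (-α - k) := Real.rpow_pos_of_pos (by norm_num) _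
        have d1 : (0 : ℝ) < (2 : ℝ) ^ (-(1 / 2) - k : ℝ) := Real.rpow_pos_of_pos (by norm_num) _
        exact mul_le_mul (mul_le_mul a1 a2 d1.le c0.le) b1 (by linarith) (by positivity)
      · have d0 : (0 : ℝ) < (1 / 4 : ℝ) ^ (-α - k) := Real.rpow_pos_of_pos (by norm_num) _
        exact mul_le_mul (mul_le_mul a1' a2' c1.le d0.le) b2 (by linarith) (by positivity)

end Pool.Agent.Work.MP_56b8f5_nt.UT
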