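import Pool.Agent.Work.MP_56b8f5_nt.UT.Stmts

/-! Block UT, item VB: second difference test. -/

open MeasureTheory Set Filter Topology

noncomputable section

namespace Pool.Agent.Work.MP_56b8f5_nt.UT

open Pool.Agent.Work.MP_56b8f5_nt.UB

namespace VB_aux

lemma norm_ee (x : ℝ) : ‖ee x‖ = 1 := by
  unfold ee
  exact Complex.norm_exp_ofReal_mul_I _

lemma ee_shift (x : ℝ) (k : ℤ) : ee (x - k) = ee x := by
  unfold ee
  have h : (((2 * Real.pi * (x - k) : ℝ) : ℂ) * Complex.I) =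
      (((2 * Real.pi * x : ℝ) : ℂ) * Complex.I) - k * (2 * Real.pi * Complex.I) := by
    push_cast
    ring
  rw [h]
  exact Complex.exp_periodic.sub_int_mul_eq k

/-- trivial bound -/
lemma norm_sum_ee_le (f : ℕ → ℝ) (s : Finset ℕ) : ‖∑ n ∈ s, ee (f n)‖ ≤ s.card := by
  refine (norm_sum_le _ _).trans ?_
  simp [norm_ee]

lemma mono_of_step (D : ℕ → ℝ) (a e : ℕ) (hm : ∀ n, a ≤ n → n + 1 < e → D n ≤ D (n + 1)) :
    ∀ i j, a ≤ i → i ≤ j → j < e → D i ≤ D j := by
  intro i j hi hij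
  induction j, hij using Nat.le_induction with
  | base => intro _; exact le_rfl
  | succ j hj ih =>
    intro hje
    exact (ih (by omega)).trans (hm j (by omega) hje)

/-- fibres of a monotone function over an order connected set are intervals -/
lemma fiber_Ico (D : ℕ → ℝ) (a e : ℕ) (hm : ∀ n, a ≤ n → n + 1 < e → D n ≤ D (n + 1))
    (P : ℝ → Prop) [DecidablePred P] (hP : ∀ x y z : ℝ, P x → P z → x ≤ y → y ≤ z → P y) :
    ∃ c d : ℕ, (Finset.Ico a e).filter (fun n => P (D n)) = Finset.Ico c d := by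
  have hmono := mono_of_step D a e hm
  rcases ((Finset.Ico a e).filter (fun n => P (D n))).eq_empty_or_nonempty with h | h
  · exact ⟨0, 0, by simp [h]⟩
  · set S := (Finset.Ico a e).filter (fun n => P (D n)) with hS
    refine ⟨S.min' h, S.max' h + 1, ?_⟩
    have hmS : ∀ n, n ∈ S ↔ (a ≤ n ∧ n < e) ∧ P (D n) := by
      intro n
      rw [hS, Finset.mem_filter, Finset.mem_Ico]
    have h1 := (hmS _).mp (S.min'_mem h)
    have h2 := (hmS _).mp (S.max'_mem h)
    ext n
    rw [Finset.mem_Ico]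
    constructor
    · intro hn
      exact ⟨S.min'_le n hn, Nat.lt_succ_of_le (S.le_max' n hn)⟩
    · rintro ⟨hn1, hn2⟩
      rw [hmS]
      have hn3 : n ≤ S.max' h := Nat.lt_succ_iff.mp hn2
      refine ⟨⟨h1.1.1.trans hn1, lt_of_le_of_lt hn3 h2.1.2⟩, ?_⟩
      exact hP _ _ _ h1.2 h2.2 (hmono _ _ h1.1.1 hn1 (lt_of_le_of_lt hn3 h2.1.2))
        (hmono _ _ (h1.1.1.trans hn1) hn3 h2.1.2)

/-- lower bound for the growth -/
lemma growth (D : ℕ → ℝ) (a e : ℕ) (lam : ℝ) (hm : ∀ n, a ≤ n → n + 1 < e → lam ≤ D (n + 1) - D n) :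
    ∀ i j : ℕ, a ≤ i → i ≤ j → j < e → lam * ((j : ℝ) - i) ≤ D j - D i := by
  intro i j hi hij
  induction j, hij using Nat.le_induction with
  | base => intro _; simp
  | succ j hj ih =>
    intro hje
    have h1 := ih (by omega)
    have h2 := hm j (by omega) hje
    push_cast
    nlinarith

/-- few elements with `D` in a short interval -/
lemma card_short (D : ℕ → ℝ) (a e : ℕ) (lam : ℝ) (hlam : 0 < lam)
    (hm : ∀ n, a ≤ n → n + 1 < e → lam ≤ D (n + 1) - D n) (θ : ℝ) (hθ : 0 ≤ θ) (c d : ℕ)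
    (hsub : ∀ n ∈ Finset.Ico c d, a ≤ n ∧ n < e) (hD : ∀ m ∈ Finset.Ico c d, ∀ n ∈ Finset.Ico c d,
      D m - D n ≤ θ) :
    ((Finset.Ico c d).card : ℝ) ≤ θ / lam + 1 := by
  rw [Nat.card_Ico]
  rcases le_or_gt d c with h | h
  · rw [Nat.sub_eq_zero_of_le h]
    have : 0 ≤ θ / lam := by positivity
    push_cast
    linarith
  · have hc : c ∈ Finset.Ico c d := by simp [h]
    have hd : d - 1 ∈ Finset.Ico c d := by rw [Finset.mem_Ico]; omega
    have h1 := hD _ hd _ hc
    have h2 := growth D a e lam hm c (d - 1) (hsub _ hc).1 (by omega) (hsub _ hd).2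
    have h3 : ((d - 1 : ℕ) : ℝ) = (d : ℝ) - 1 := by
      rw [Nat.cast_sub (by omega)]; simp
    rw [h3] at h2
    rw [Nat.cast_sub h.le]
    have h4 : ((d : ℝ) - c - 1) ≤ θ / lam := by
      rw [le_div_iff₀ hlam]
      nlinarith
    linarith

end VB_aux

open VB_aux in
theorem iVB (hKL : StKL) : StVB := by
  intro h hh
  obtain ⟨C, hC, hK⟩ := hKL
  refine ⟨(h + 2) * (4 + C) + 5, by nlinarith, ?_⟩
  intro f a b L lam hab hL hL1 hlam hdd
  have hs : 0 < Real.sqrt lam := Real.sqrt_pos.mpr hlam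
  have hC0 : (0 : ℝ) ≤ (h + 2) * (4 + C) := by positivity
  have hpos1 : 0 ≤ L * Real.sqrt lam := by positivity
  have hpos2 : 0 < 1 / Real.sqrt lam := by positivity
  have htriv : ‖∑ n ∈ Finset.Ico a b, ee (f n)‖ ≤ L := by
    refine (norm_sum_ee_le f _).trans ?_
    rw [Nat.card_Ico, Nat.cast_sub hab]
    exact hL
  -- large `lam`
  rcases le_or_gt (1 / 16) lam with hbig | hsmall
  · have h1 : (1 : ℝ) / 4 ≤ Real.sqrt lam := by
      apply Real.le_sqrt_of_sq_le
      norm_num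
      linarith
    nlinarith
  have hs4 : Real.sqrt lam < 1 / 4 := by
    rw [Real.sqrt_lt' (by norm_num)]
    norm_num
    linarith
  have hss : Real.sqrt lam * Real.sqrt lam = lam := Real.mul_self_sqrt hlam.le
  set θ : ℝ := Real.sqrt lam with hθ
  have hinv1 : 1 ≤ 1 / θ := by
    rw [le_div_iff₀ hs]
    linarith
  have hinv : θ / lam = 1 / θ := by
    rw [← hss]
    field_simp
  -- short interval
  rcases le_or_gt b (a + 1) with hshort | hlong
  · have h1 : ‖∑ n ∈ Finset.Ico a b, ee (f n)‖ ≤ 1 := by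
      refine (norm_sum_ee_le f _).trans ?_
      rw [Nat.card_Ico]
      have : b - a ≤ 1 := by omega
      exact_mod_cast this
    nlinarith
  obtain ⟨e, rfl⟩ : ∃ e, b = e + 1 := ⟨b - 1, by omega⟩
  have hae : a < e := by omega
  set D : ℕ → ℝ := fun n => f (n + 1) - f n with hDdef
  have hstep : ∀ n, a ≤ n → n + 1 < e → lam ≤ D (n + 1) - D n ∧ D (n + 1) - D n ≤ h * lam := by
    intro n hn hne
    have := hdd n hn (by omega)
    simpa [dd, hDdef] using this
  have hstep1 : ∀ n, a ≤ n → n + 1 < e → lam ≤ D (n + 1) - D n := fun n h1 h2 => (hstep n h1 h2).1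
  have hmon : ∀ n, a ≤ n → n + 1 < e → D n ≤ D (n + 1) := by
    intro n h1 h2
    have := hstep1 n h1 h2
    linarith
  have hmono := mono_of_step D a e hmon
  -- total growth
  have htot : D (e - 1) - D a ≤ h * lam * L := by
    have hg : ∀ j, a ≤ j → j < e → D j - D a ≤ h * lam * ((j : ℝ) - a) := by
      intro j hj
      induction j, hj using Nat.le_induction with
      | base => intro _; simp
      | succ j hj ih =>
        intro hje
        have h1 := ih (by omega)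
        have h2 := (hstep j hj hje).2
        push_cast
        nlinarith
    refine (hg (e - 1) (by omega) (by omega)).trans ?_
    have h3 : ((e - 1 : ℕ) : ℝ) = (e : ℝ) - 1 := by
      rw [Nat.cast_sub (by omega)]; simp
    rw [h3]
    have h4 : (e : ℝ) - 1 - a ≤ L := by
      push_cast at hL
      linarith
    have h5 : 0 ≤ h * lam := by positivity
    exact mul_le_mul_of_nonneg_left h4 h5
  -- bound for one `ν`
  have hone : ∀ ν : ℤ, ‖∑ n ∈ (Finset.Ico a e).filter (fun n => ⌊D n⌋ = ν), ee (f n)‖ ≤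
      (4 + C) / θ := by
    intro ν
    -- three pieces
    have hsplit : (Finset.Ico a e).filter (fun n => ⌊D n⌋ = ν) =
        (Finset.Ico a e).filter (fun n => (ν : ℝ) ≤ D n ∧ D n < ν + θ) ∪
        ((Finset.Ico a e).filter (fun n => (ν : ℝ) + θ ≤ D n ∧ D n ≤ ν + 1 - θ) ∪
        (Finset.Ico a e).filter (fun n => (ν : ℝ) + 1 - θ < D n ∧ D n < ν + 1)) := by
      ext n
      simp only [Finset.mem_filter, Finset.mem_union]
      rw [Int.floor_eq_iff]
      constructor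
      · rintro ⟨h1, h2, h3⟩
        rcases lt_or_ge (D n) (ν + θ) with h4 | h4
        · exact Or.inl ⟨h1, h2, h4⟩
        · rcases le_or_gt (D n) (ν + 1 - θ) with h5 | h5
          · exact Or.inr (Or.inl ⟨h1, h4, h5⟩)
          · exact Or.inr (Or.inr ⟨h1, h5, h3⟩)
      · rintro (⟨h1, h2, h3⟩ | ⟨h1, h2, h3⟩ | ⟨h1, h2, h3⟩)
        · exact ⟨h1, h2, by linarith⟩
        · exact ⟨h1, by linarith, by linarith⟩
        · exact ⟨h1, by linarith, h3⟩
    have hd1 : Disjoint ((Finset.Ico a e).filter (fun n => (ν : ℝ) ≤ D n ∧ D n < ν + θ))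
        ((Finset.Ico a e).filter (fun n => (ν : ℝ) + θ ≤ D n ∧ D n ≤ ν + 1 - θ) ∪
        (Finset.Ico a e).filter (fun n => (ν : ℝ) + 1 - θ < D n ∧ D n < ν + 1)) := by
      rw [Finset.disjoint_left]
      intro n h1 h2
      simp only [Finset.mem_filter, Finset.mem_union] at h1 h2
      rcases h2 with h2 | h2
      · linarith [h1.2.2, h2.2.1]
      · linarith [h1.2.2, h2.2.1]
    have hd2 : Disjoint ((Finset.Ico a e).filter (fun n => (ν : ℝ) + θ ≤ D n ∧ D n ≤ ν + 1 - θ))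
        ((Finset.Ico a e).filter (fun n => (ν : ℝ) + 1 - θ < D n ∧ D n < ν + 1)) := by
      rw [Finset.disjoint_left]
      intro n h1 h2
      simp only [Finset.mem_filter] at h1 h2
      linarith [h1.2.2, h2.2.1]
    rw [hsplit, Finset.sum_union hd1, Finset.sum_union hd2]
    -- piece 1
    have hp1 : ‖∑ n ∈ (Finset.Ico a e).filter (fun n => (ν : ℝ) ≤ D n ∧ D n < ν + θ), ee (f n)‖ ≤
        θ / lam + 1 := by
      obtain ⟨c, d, hcd⟩ := fiber_Ico D a e hmon (fun x => (ν : ℝ) ≤ x ∧ x < ν + θ)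
        (fun x y z hx hz hxy hyz => ⟨hx.1.trans hxy, lt_of_le_of_lt hyz hz.2⟩)
      rw [hcd]
      refine (norm_sum_ee_le f _).trans ?_
      have hmem : ∀ n ∈ Finset.Ico c d, (a ≤ n ∧ n < e) ∧ ((ν : ℝ) ≤ D n ∧ D n < ν + θ) := by
        intro n hn
        rw [← hcd, Finset.mem_filter, Finset.mem_Ico] at hn
        exact hn
      refine card_short D a e lam hlam hstep1 θ hs.le c d (fun n hn => (hmem n hn).1) ?_
      intro m hm n hn
      linarith [(hmem m hm).2.2, (hmem n hn).2.1]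
    have hp3 : ‖∑ n ∈ (Finset.Ico a e).filter (fun n => (ν : ℝ) + 1 - θ < D n ∧ D n < ν + 1),
        ee (f n)‖ ≤ θ / lam + 1 := by
      obtain ⟨c, d, hcd⟩ := fiber_Ico D a e hmon (fun x => (ν : ℝ) + 1 - θ < x ∧ x < ν + 1)
        (fun x y z hx hz hxy hyz => ⟨lt_of_lt_of_le hx.1 hxy, lt_of_le_of_lt hyz hz.2⟩)
      rw [hcd]
      refine (norm_sum_ee_le f _).trans ?_
      have hmem : ∀ n ∈ Finset.Ico c d, (a ≤ n ∧ n < e) ∧ ((ν : ℝ) + 1 - θ < D n ∧ D n < ν + 1) := by
        intro n hn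
        rw [← hcd, Finset.mem_filter, Finset.mem_Ico] at hn
        exact hn
      refine card_short D a e lam hlam hstep1 θ hs.le c d (fun n hn => (hmem n hn).1) ?_
      intro m hm n hn
      linarith [(hmem m hm).2.2, (hmem n hn).2.1]
    have hp2 : ‖∑ n ∈ (Finset.Ico a e).filter (fun n => (ν : ℝ) + θ ≤ D n ∧ D n ≤ ν + 1 - θ),
        ee (f n)‖ ≤ C / θ := by
      obtain ⟨c, d, hcd⟩ := fiber_Ico D a e hmon (fun x => (ν : ℝ) + θ ≤ x ∧ x ≤ ν + 1 - θ)
        (fun x y z hx hz hxy hyz => ⟨hx.1.trans hxy, hyz.trans hz.2⟩)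
      rw [hcd]
      have hmem : ∀ n ∈ Finset.Ico c d, (a ≤ n ∧ n < e) ∧
          ((ν : ℝ) + θ ≤ D n ∧ D n ≤ ν + 1 - θ) := by
        intro n hn
        rw [← hcd, Finset.mem_filter, Finset.mem_Ico] at hn
        exact hn
      have hk := hK (fun n => f n - ((ν * n : ℤ) : ℝ)) c d θ hs (by linarith) ?_ ?_
      · have heq : ∑ n ∈ Finset.Ico c d, ee (f n - ((ν * n : ℤ) : ℝ)) =
            ∑ n ∈ Finset.Ico c d, ee (f n) := Finset.sum_congr rfl (fun n _ => ee_shift _ _)
        rw [← heq]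
        exact hk
      · intro n hn1 hn2
        have h1 := (hmem n (by rw [Finset.mem_Ico]; omega)).2
        simp only [hDdef] at h1
        push_cast
        constructor
        · linarith [h1.1]
        · linarith [h1.2]
      · intro n hn1 hn2
        have h1 := (hmem n (by rw [Finset.mem_Ico]; omega)).1
        have h2 := (hmem (n + 1) (by rw [Finset.mem_Ico]; omega)).1
        have h3 := hmon n h1.1 h2.2
        simp only [hDdef] at h3
        push_cast
        have h4 : f (n + 1 + 1) = f (n + 2) := rfl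
        rw [h4] at h3
        linarith
    have hsum : ‖∑ n ∈ (Finset.Ico a e).filter (fun n => (ν : ℝ) ≤ D n ∧ D n < ν + θ), ee (f n) +
        (∑ n ∈ (Finset.Ico a e).filter (fun n => (ν : ℝ) + θ ≤ D n ∧ D n ≤ ν + 1 - θ), ee (f n) +
        ∑ n ∈ (Finset.Ico a e).filter (fun n => (ν : ℝ) + 1 - θ < D n ∧ D n < ν + 1), ee (f n))‖ ≤
        (θ / lam + 1) + (C / θ + (θ / lam + 1)) := by
      refine (norm_add_le _ _).trans (add_le_add hp1 ?_)
      exact (norm_add_le _ _).trans (add_le_add hp2 hp3)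
    refine hsum.trans ?_
    rw [hinv]
    have h6 : (4 + C) / θ = 4 * (1 / θ) + C / θ := by ring
    rw [h6]
    linarith
  -- assembly
  have hrange : ∀ n ∈ Finset.Ico a e, ⌊D n⌋ ∈ Finset.Icc ⌊D a⌋ ⌊D (e - 1)⌋ := by
    intro n hn
    rw [Finset.mem_Ico] at hn
    rw [Finset.mem_Icc]
    exact ⟨Int.floor_le_floor (hmono a n le_rfl hn.1 hn.2),
      Int.floor_le_floor (hmono n (e - 1) hn.1 (by omega) (by omega))⟩
  have hfib : ∑ n ∈ Finset.Ico a e, ee (f n) =
      ∑ ν ∈ Finset.Icc ⌊D a⌋ ⌊D (e - 1)⌋, ∑ n ∈ (Finset.Ico a e).filter (fun n => ⌊D n⌋ = ν),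
        ee (f n) :=
    (Finset.sum_fiberwise_of_maps_to hrange _).symm
  have hcard : ((Finset.Icc ⌊D a⌋ ⌊D (e - 1)⌋).card : ℝ) ≤ h * lam * L + 2 := by
    rw [Int.card_Icc]
    have h1 : (⌊D (e - 1)⌋ : ℝ) ≤ D (e - 1) := Int.floor_le _
    have h2 : D a < ⌊D a⌋ + 1 := Int.lt_floor_add_one _
    have h3 : ⌊D a⌋ ≤ ⌊D (e - 1)⌋ := Int.floor_le_floor (hmono a (e - 1) le_rfl (by omega) (by omega))
    have h4 : (((⌊D (e - 1)⌋ + 1 - ⌊D a⌋).toNat : ℕ) : ℝ) = (⌊D (e - 1)⌋ : ℝ) + 1 - ⌊D a⌋ := by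
      have h5 : ((⌊D (e - 1)⌋ + 1 - ⌊D a⌋).toNat : ℤ) = ⌊D (e - 1)⌋ + 1 - ⌊D a⌋ :=
        Int.toNat_of_nonneg (by omega)
      exact_mod_cast congrArg (Int.cast : ℤ → ℝ) h5
    rw [h4]
    linarith
  have hmain : ‖∑ n ∈ Finset.Ico a e, ee (f n)‖ ≤ (h * lam * L + 2) * ((4 + C) / θ) := by
    rw [hfib]
    refine (_root_.norm_sum_le _ _).trans ?_
    refine (Finset.sum_le_sum (fun ν _ => hone ν)).trans ?_
    rw [Finset.sum_const, nsmul_eq_mul]
    have : 0 ≤ (4 + C) / θ := by positivity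
    exact mul_le_mul_of_nonneg_right hcard this
  rw [Finset.sum_Ico_succ_top (by omega)]
  refine (norm_add_le _ _).trans ?_
  rw [norm_ee]
  have hfin : (h * lam * L + 2) * ((4 + C) / θ) = h * (4 + C) * (L * θ) + 2 * (4 + C) * (1 / θ) := by
    have : lam / θ = θ := by
      rw [← hss]
      field_simp
    have h7 : (h * lam * L + 2) * ((4 + C) / θ) = h * (4 + C) * (L * (lam / θ)) +
        2 * (4 + C) * (1 / θ) := by ring
    rw [h7, this]
  rw [hfin] at hmain
  have h8 : 0 ≤ (4 + C) * (L * θ) := by positivity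
  have h9 : 0 ≤ (4 + C) * (1 / θ) := by positivity
  have h10 : 0 ≤ h * ((4 + C) * (1 / θ)) := by positivity
  nlinarith

end Pool.Agent.Work.MP_56b8f5_nt.UT
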