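import Pool.Agent.Work.MP_56b8f5_nt.UT.Stmts

/-!
Block UT of MP_56b8f5_nt, item VJ: the difference test of order `k + 2`.
-/

open MeasureTheory Set Filter Topology

noncomputable section

namespace Pool.Agent.Work.MP_56b8f5_nt.UT

open Pool.Agent.Work.MP_56b8f5_nt.UB

namespace VJ_aux

lemma dd_zero_fun (k n : ℕ) : dd k (fun _ => (0 : ℝ)) n = 0 := by
  induction k generalizing n with
  | zero => rfl
  | succ k ih =>
    show dd k (fun _ => (0 : ℝ) - 0) n = 0
    simp only [sub_zero]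
    exact ih n

lemma dd_add (k : ℕ) (f g : ℕ → ℝ) (n : ℕ) :
    dd k (fun i => f i + g i) n = dd k f n + dd k g n := by
  induction k generalizing f g with
  | zero => rfl
  | succ k ih =>
    show dd k (fun i => (f (i + 1) + g (i + 1)) - (f i + g i)) n =
      dd k (fun i => f (i + 1) - f i) n + dd k (fun i => g (i + 1) - g i) n
    rw [← ih]
    congr 1
    funext i
    ring

lemma dd_neg (k : ℕ) (f : ℕ → ℝ) (n : ℕ) : dd k (fun i => -f i) n = -dd k f n := by
  induction k generalizing f with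
  | zero => rfl
  | succ k ih =>
    show dd k (fun i => -f (i + 1) - -f i) n = -dd k (fun i => f (i + 1) - f i) n
    rw [← ih]
    congr 1
    funext i
    ring

lemma dd_shift (k : ℕ) (f : ℕ → ℝ) (i n : ℕ) : dd k (fun j => f (j + i)) n = dd k f (n + i) := by
  induction k generalizing f with
  | zero => rfl
  | succ k ih =>
    show dd k (fun j => f (j + 1 + i) - f (j + i)) n = dd k (fun j => f (j + 1) - f j) (n + i)
    rw [← ih]
    congr 1
    funext j
    rw [show j + 1 + i = j + i + 1 by ring]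

lemma dd_diff (k : ℕ) (f : ℕ → ℝ) (r n : ℕ) :
    dd k (fun j => f (j + r) - f j) n = ∑ i ∈ Finset.range r, dd (k + 1) f (n + i) := by
  induction r with
  | zero =>
    simp only [add_zero, sub_self, Finset.range_zero, Finset.sum_empty]
    exact dd_zero_fun k n
  | succ r ih =>
    rw [Finset.sum_range_succ, ← ih]
    have h : dd (k + 1) f (n + r) = dd k (fun j => f (j + r + 1) - f (j + r)) n := by
      show dd k (fun j => f (j + 1) - f j) (n + r) = _
      rw [← dd_shift k (fun j => f (j + 1) - f j) r n]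
    rw [h, ← dd_add]
    congr 1
    funext j
    rw [show j + (r + 1) = j + r + 1 by ring]
    ring

lemma sum_inv_sqrt (q : ℕ) : ∑ r ∈ Finset.Ico 1 (q + 1), 1 / Real.sqrt r ≤ 2 * Real.sqrt q := by
  induction q with
  | zero => simp
  | succ q ih =>
    rw [Finset.sum_Ico_succ_top (by omega)]
    have h1 : 0 < Real.sqrt ((q + 1 : ℕ) : ℝ) := Real.sqrt_pos.2 (by positivity)
    have h0 : 0 ≤ Real.sqrt (q : ℝ) := Real.sqrt_nonneg _
    have e1 : Real.sqrt ((q + 1 : ℕ) : ℝ) ^ 2 = q + 1 := by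
      rw [Real.sq_sqrt (by positivity)]
      push_cast
      ring
    have e0 : Real.sqrt (q : ℝ) ^ 2 = q := Real.sq_sqrt (by positivity)
    have h2 : 1 / Real.sqrt ((q + 1 : ℕ) : ℝ) ≤
        2 * (Real.sqrt ((q + 1 : ℕ) : ℝ) - Real.sqrt (q : ℝ)) := by
      rw [div_le_iff₀ h1]
      nlinarith [sq_nonneg (Real.sqrt ((q + 1 : ℕ) : ℝ) - Real.sqrt (q : ℝ))]
    linarith

lemma sum_inv_sqrt' (q : ℕ) : ∑ r ∈ Finset.Ico 1 q, 1 / Real.sqrt r ≤ 2 * Real.sqrt q := by
  refine le_trans (Finset.sum_le_sum_of_subset_of_nonneg ?_ ?_) (sum_inv_sqrt q)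
  · intro r hr
    rw [Finset.mem_Ico] at hr ⊢
    omega
  · intro r _ _
    positivity

/-- the numerical part of the induction step -/
lemma core (C L lam Q d S : ℝ) (q : ℕ) (hC : 1 ≤ C) (hL : 1 ≤ L) (hl : 0 < lam)
    (hQ : 2 ≤ Q) (hq1 : lam ^ (-(1 / (Q + 1))) ≤ q)
    (hq2 : (q : ℝ) ≤ 2 * lam ^ (-(1 / (Q + 1)))) (hS0 : 0 ≤ S)
    (hS : S ^ 2 ≤ 2 * L ^ 2 / q + 4 * L / q * ∑ r ∈ Finset.Ico 1 q,
      C * (L * (r * lam) ^ (1 / Q) + L ^ (1 - d) * (r * lam) ^ (-(1 / Q)))) :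
    S ≤ 10 * C * (L * lam ^ (1 / (2 * (Q + 1))) + L ^ (1 - d / 2) * lam ^ (-(1 / (2 * (Q + 1))))) := by
  have hQ0 : 0 < Q := by linarith
  have hQ1 : 0 < Q + 1 := by linarith
  have hL0 : 0 < L := by linarith
  have hq0pos : 0 < lam ^ (-(1 / (Q + 1))) := Real.rpow_pos_of_pos hl _
  have hqpos : (0 : ℝ) < q := lt_of_lt_of_le hq0pos hq1
  set A : ℝ := L * lam ^ (1 / (2 * (Q + 1))) with hA
  set B : ℝ := L ^ (1 - d / 2) * lam ^ (-(1 / (2 * (Q + 1)))) with hB
  have hA0 : 0 < A := by positivity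
  have hB0 : 0 < B := by positivity
  have hA2 : A ^ 2 = L ^ 2 * lam ^ (1 / (Q + 1)) := by
    rw [hA, mul_pow, ← Real.rpow_natCast (lam ^ _) 2, ← Real.rpow_mul hl.le]
    congr 2
    push_cast
    field_simp
  have hB2 : B ^ 2 = L * L ^ (1 - d) * lam ^ (-(1 / (Q + 1))) := by
    rw [hB, mul_pow, ← Real.rpow_natCast (lam ^ _) 2, ← Real.rpow_mul hl.le,
      ← Real.rpow_natCast (L ^ _) 2, ← Real.rpow_mul hL0.le]
    have e1 : L * L ^ (1 - d) = L ^ ((1 - d / 2) * ((2 : ℕ) : ℝ)) := by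
      have : L * L ^ (1 - d) = L ^ (1 : ℝ) * L ^ (1 - d) := by rw [Real.rpow_one]
      rw [this, ← Real.rpow_add hL0]
      congr 1
      push_cast
      ring
    rw [e1]
    congr 2
    push_cast
    field_simp
  -- 1/q
  have h1q : 1 / (q : ℝ) ≤ lam ^ (1 / (Q + 1)) := by
    rw [show lam ^ (1 / (Q + 1)) = 1 / lam ^ (-(1 / (Q + 1))) by
      rw [Real.rpow_neg hl.le]
      simp]
    exact one_div_le_one_div_of_le hq0pos hq1
  have hqlam_pos : 0 < (q : ℝ) * lam := by positivity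
  -- q0 lam = lam^(Q/(Q+1))
  have hq0lam : lam ^ (-(1 / (Q + 1))) * lam = lam ^ (Q / (Q + 1)) := by
    have : lam ^ (-(1 / (Q + 1))) * lam = lam ^ (-(1 / (Q + 1))) * lam ^ (1 : ℝ) := by
      rw [Real.rpow_one]
    rw [this, ← Real.rpow_add hl]
    congr 1
    field_simp
    ring
  have hup : ((q : ℝ) * lam) ^ (1 / Q) ≤ 2 * lam ^ (1 / (Q + 1)) := by
    have h2 : (q : ℝ) * lam ≤ 2 * lam ^ (Q / (Q + 1)) := by
      calc (q : ℝ) * lam ≤ 2 * lam ^ (-(1 / (Q + 1))) * lam := by gcongr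
        _ = 2 * lam ^ (Q / (Q + 1)) := by rw [mul_assoc, hq0lam]
    calc ((q : ℝ) * lam) ^ (1 / Q) ≤ (2 * lam ^ (Q / (Q + 1))) ^ (1 / Q) :=
          Real.rpow_le_rpow hqlam_pos.le h2 (by positivity)
      _ = 2 ^ (1 / Q) * (lam ^ (Q / (Q + 1))) ^ (1 / Q) :=
          Real.mul_rpow (by norm_num) (by positivity)
      _ ≤ 2 * lam ^ (1 / (Q + 1)) := by
          have h3 : (2 : ℝ) ^ (1 / Q) ≤ 2 := by
            calc (2 : ℝ) ^ (1 / Q) ≤ 2 ^ (1 : ℝ) := by
                  apply Real.rpow_le_rpow_of_exponent_le (by norm_num)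
                  rw [div_le_one hQ0]
                  linarith
              _ = 2 := Real.rpow_one _
          have h4 : (lam ^ (Q / (Q + 1))) ^ (1 / Q) = lam ^ (1 / (Q + 1)) := by
            rw [← Real.rpow_mul hl.le]
            congr 1
            field_simp
          rw [h4]
          gcongr
  have hdown : ((q : ℝ) * lam) ^ (-(1 / Q)) ≤ lam ^ (-(1 / (Q + 1))) := by
    have h2 : lam ^ (Q / (Q + 1)) ≤ (q : ℝ) * lam := by
      rw [← hq0lam]
      gcongr
    calc ((q : ℝ) * lam) ^ (-(1 / Q)) ≤ (lam ^ (Q / (Q + 1))) ^ (-(1 / Q)) := by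
          apply Real.rpow_le_rpow_of_nonpos (Real.rpow_pos_of_pos hl _) h2
          have : 0 < 1 / Q := by positivity
          linarith
      _ = lam ^ (-(1 / (Q + 1))) := by
          rw [← Real.rpow_mul hl.le]
          congr 1
          field_simp
  -- the sum
  have hterm : ∀ r ∈ Finset.Ico 1 q,
      C * (L * (r * lam) ^ (1 / Q) + L ^ (1 - d) * (r * lam) ^ (-(1 / Q))) ≤
      C * (L * (q * lam) ^ (1 / Q)) +
        C * (L ^ (1 - d) * (q * lam) ^ (-(1 / Q)) * Real.sqrt q) * (1 / Real.sqrt r) := by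
    intro r hr
    rw [Finset.mem_Ico] at hr
    have hr0 : (0 : ℝ) < r := by
      have : (1 : ℝ) ≤ r := by exact_mod_cast hr.1
      linarith
    have hrq : (r : ℝ) ≤ q := by exact_mod_cast hr.2.le
    have h5 : ((r : ℝ) * lam) ^ (1 / Q) ≤ ((q : ℝ) * lam) ^ (1 / Q) :=
      Real.rpow_le_rpow (by positivity) (by gcongr) (by positivity)
    have h6 : ((r : ℝ) * lam) ^ (-(1 / Q)) ≤
        ((q : ℝ) * lam) ^ (-(1 / Q)) * (Real.sqrt q * (1 / Real.sqrt r)) := by
      have e2 : (r : ℝ) * lam = (q : ℝ) * lam * ((q : ℝ) / r)⁻¹ := by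
        field_simp
      have hqr : (1 : ℝ) ≤ (q : ℝ) / r := by
        rw [le_div_iff₀ hr0]
        linarith
      rw [e2, Real.mul_rpow hqlam_pos.le (by positivity)]
      refine mul_le_mul_of_nonneg_left ?_ (by positivity)
      rw [Real.inv_rpow (by positivity), Real.rpow_neg (by positivity), inv_inv]
      calc ((q : ℝ) / r) ^ (1 / Q) ≤ ((q : ℝ) / r) ^ (1 / 2 : ℝ) := by
            apply Real.rpow_le_rpow_of_exponent_le hqr
            apply one_div_le_one_div_of_le (by norm_num) hQ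
        _ = Real.sqrt ((q : ℝ) / r) := (Real.sqrt_eq_rpow _).symm
        _ = Real.sqrt q * (1 / Real.sqrt r) := by
            rw [Real.sqrt_div' _ hr0.le]
            ring
    have h7 : 0 ≤ C * L := by positivity
    have h8 : 0 ≤ C * L ^ (1 - d) := by positivity
    nlinarith [mul_le_mul_of_nonneg_left h5 h7, mul_le_mul_of_nonneg_left h6 h8]
  have hsum : ∑ r ∈ Finset.Ico 1 q,
      C * (L * (r * lam) ^ (1 / Q) + L ^ (1 - d) * (r * lam) ^ (-(1 / Q))) ≤
      q * (C * (L * (q * lam) ^ (1 / Q))) +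
        C * (L ^ (1 - d) * (q * lam) ^ (-(1 / Q)) * Real.sqrt q) * (2 * Real.sqrt q) := by
    refine (Finset.sum_le_sum hterm).trans ?_
    rw [Finset.sum_add_distrib, Finset.sum_const, nsmul_eq_mul, ← Finset.mul_sum]
    refine add_le_add ?_ ?_
    · refine mul_le_mul_of_nonneg_right ?_ (by positivity)
      rw [Nat.card_Ico]
      exact_mod_cast Nat.sub_le q 1
    · exact mul_le_mul_of_nonneg_left (sum_inv_sqrt' q) (by positivity)
  have hsq : Real.sqrt (q : ℝ) * Real.sqrt q = q := Real.mul_self_sqrt hqpos.le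
  have hfin : S ^ 2 ≤ 10 * C * (A ^ 2 + B ^ 2) := by
    calc S ^ 2 ≤ 2 * L ^ 2 / q + 4 * L / q * ∑ r ∈ Finset.Ico 1 q,
          C * (L * (r * lam) ^ (1 / Q) + L ^ (1 - d) * (r * lam) ^ (-(1 / Q))) := hS
      _ ≤ 2 * L ^ 2 / q + 4 * L / q * (q * (C * (L * (q * lam) ^ (1 / Q))) +
          C * (L ^ (1 - d) * (q * lam) ^ (-(1 / Q)) * Real.sqrt q) * (2 * Real.sqrt q)) := by
          gcongr
      _ = 2 * L ^ 2 * (1 / q) + 4 * C * L ^ 2 * (q * lam) ^ (1 / Q) +
          8 * C * (L * L ^ (1 - d)) * (q * lam) ^ (-(1 / Q)) * ((Real.sqrt q * Real.sqrt q) / q) := by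
          field_simp
          ring
      _ = 2 * L ^ 2 * (1 / q) + 4 * C * L ^ 2 * (q * lam) ^ (1 / Q) +
          8 * C * (L * L ^ (1 - d)) * (q * lam) ^ (-(1 / Q)) := by
          rw [hsq, div_self hqpos.ne', mul_one]
      _ ≤ 2 * L ^ 2 * lam ^ (1 / (Q + 1)) + 4 * C * L ^ 2 * (2 * lam ^ (1 / (Q + 1))) +
          8 * C * (L * L ^ (1 - d)) * lam ^ (-(1 / (Q + 1))) := by
          gcongr
      _ = 2 * A ^ 2 + 8 * C * A ^ 2 + 8 * C * B ^ 2 := by
          rw [hA2, hB2]
          ring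
      _ ≤ 10 * C * (A ^ 2 + B ^ 2) := by
          nlinarith [sq_nonneg A, sq_nonneg B]
  have h9 : S ^ 2 ≤ (10 * C * (A + B)) ^ 2 := by
    refine hfin.trans ?_
    have h10 : A ^ 2 + B ^ 2 ≤ (A + B) ^ 2 := by nlinarith [mul_pos hA0 hB0]
    have h11 : 10 * C ≤ (10 * C) ^ 2 := by nlinarith
    calc 10 * C * (A ^ 2 + B ^ 2) ≤ (10 * C) ^ 2 * (A + B) ^ 2 := by
          gcongr
      _ = (10 * C * (A + B)) ^ 2 := by ring
  exact le_of_sq_le_sq' hS0 (by positivity) h9
where
  le_of_sq_le_sq' {x y : ℝ} (_hx : 0 ≤ x) (hy : 0 ≤ y) (h : x ^ 2 ≤ y ^ 2) : x ≤ y := by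
    by_contra hc
    push Not at hc
    nlinarith

lemma norm_ee (x : ℝ) : ‖ee x‖ = 1 := by
  unfold ee
  exact Complex.norm_exp_ofReal_mul_I _

lemma ee_neg (x : ℝ) : ee (-x) = (starRingEnd ℂ) (ee x) := by
  unfold ee
  rw [← Complex.exp_conj]
  congr 1
  rw [map_mul, Complex.conj_I, Complex.conj_ofReal]
  push_cast
  ring

lemma trivial_bound (f : ℕ → ℝ) (a b : ℕ) (hab : a ≤ b) :
    ‖∑ n ∈ Finset.Ico a b, ee (f n)‖ ≤ (b : ℝ) - a := by
  calc ‖∑ n ∈ Finset.Ico a b, ee (f n)‖ ≤ ∑ n ∈ Finset.Ico a b, ‖ee (f n)‖ := norm_sum_le _ _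
    _ = ∑ n ∈ Finset.Ico a b, (1 : ℝ) := Finset.sum_congr rfl fun n _ => norm_ee _
    _ = (b : ℝ) - a := by
        rw [Finset.sum_const, Nat.card_Ico, nsmul_eq_mul, mul_one, Nat.cast_sub hab]

lemma two_pow_ge (k : ℕ) : (2 : ℝ) ≤ (2 : ℝ) ^ (k + 2) - 2 := by
  have h : (1 : ℝ) ≤ (2 : ℝ) ^ k := one_le_pow₀ (by norm_num)
  rw [pow_add]
  linarith

end VJ_aux

open VJ_aux in
theorem iVJ (hA1 : StA1) (hVB : StVB) : StVJ := by
  intro k
  induction k with
  | zero =>
    intro h hh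
    obtain ⟨C, hC, hB⟩ := hVB h hh
    refine ⟨C, hC, ?_⟩
    intro f a b L lam σ hσ hab hbL hL hl hd
    have e1 : (1 : ℝ) / ((2 : ℝ) ^ (0 + 2) - 2) = 1 / 2 := by norm_num
    have e2 : (1 : ℝ) - 1 / (2 : ℝ) ^ 0 = 0 := by norm_num
    rw [e1, e2, Real.rpow_zero, one_mul, ← Real.sqrt_eq_rpow, Real.rpow_neg hl.le,
      ← Real.sqrt_eq_rpow, ← one_div]
    rcases hσ with rfl | rfl
    · refine hB f a b L lam hab hbL hL hl ?_
      intro n hn1 hn2
      have := hd n hn1 (by omega)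
      rwa [one_mul] at this
    · have h1 := hB (fun n => -f n) a b L lam hab hbL hL hl ?_
      · have e3 : ∑ n ∈ Finset.Ico a b, ee (-f n) =
            (starRingEnd ℂ) (∑ n ∈ Finset.Ico a b, ee (f n)) := by
          rw [map_sum]
          exact Finset.sum_congr rfl fun n _ => ee_neg _
        rw [e3, RCLike.norm_conj] at h1
        exact h1
      · intro n hn1 hn2
        have h2 := hd n hn1 (by omega)
        rw [dd_neg]
        have e4 : (-1 : ℝ) * dd (0 + 2) f n = -dd 2 f n := by ring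
        rw [e4] at h2
        exact h2
  | succ k ih =>
    intro h hh
    obtain ⟨C, hC, ihC⟩ := ih h hh
    refine ⟨10 * C, by linarith, ?_⟩
    intro f a b L lam σ hσ hab hbL hL hl hd
    set Q : ℝ := (2 : ℝ) ^ (k + 2) - 2 with hQdef
    have hQ : 2 ≤ Q := two_pow_ge k
    have hQ' : (2 : ℝ) ^ (k + 1 + 2) - 2 = 2 * (Q + 1) := by
      rw [hQdef]
      ring
    have hδ : (1 : ℝ) - 1 / (2 : ℝ) ^ (k + 1) = 1 - (1 / (2 : ℝ) ^ k) / 2 := by
      rw [pow_succ]
      field_simp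
    rw [hQ', hδ]
    have hd1 : 0 < 1 / (2 : ℝ) ^ k := by positivity
    have hd2 : 1 / (2 : ℝ) ^ k ≤ 1 := by
      rw [div_le_one (by positivity)]
      exact one_le_pow₀ (by norm_num)
    have htriv := trivial_bound f a b hab
    have hL0 : 0 < L := by linarith
    -- trivial cases
    have hposA : 0 ≤ L * lam ^ (1 / (2 * (Q + 1))) := by positivity
    have hposB : 0 ≤ L ^ (1 - (1 / (2 : ℝ) ^ k) / 2) * lam ^ (-(1 / (2 * (Q + 1)))) := by positivity
    by_cases hl1 : 1 ≤ lam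
    · have h1 : 1 ≤ lam ^ (1 / (2 * (Q + 1))) := Real.one_le_rpow hl1 (by positivity)
      have h2 : L ≤ L * lam ^ (1 / (2 * (Q + 1))) := le_mul_of_one_le_right hL0.le h1
      nlinarith
    push Not at hl1
    set q0 : ℝ := lam ^ (-(1 / (Q + 1))) with hq0
    have hq01 : 1 < q0 := by
      rw [hq0]
      apply Real.one_lt_rpow_of_pos_of_lt_one_of_neg hl hl1
      have : 0 < 1 / (Q + 1) := by positivity
      linarith
    by_cases hbig : L / 2 < q0
    · have h1 : lam ^ (-(1 / (2 * (Q + 1)))) = Real.sqrt q0 := by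
        rw [hq0, Real.sqrt_eq_rpow, ← Real.rpow_mul hl.le]
        congr 1
        field_simp
      have h2 : Real.sqrt (L / 2) ≤ lam ^ (-(1 / (2 * (Q + 1)))) := by
        rw [h1]
        exact Real.sqrt_le_sqrt hbig.le
      have h3 : Real.sqrt L ≤ L ^ (1 - (1 / (2 : ℝ) ^ k) / 2) := by
        rw [Real.sqrt_eq_rpow]
        apply Real.rpow_le_rpow_of_exponent_le hL
        linarith
      have h4 : Real.sqrt L / 2 ≤ Real.sqrt (L / 2) := by
        have e5 : Real.sqrt L / 2 = Real.sqrt (L / 4) := by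
          rw [show L / 4 = L * (1 / 2) ^ 2 by ring, Real.sqrt_mul hL0.le,
            Real.sqrt_sq (by norm_num)]
          ring
        rw [e5]
        exact Real.sqrt_le_sqrt (by linarith)
      have h5 : L / 2 ≤ L ^ (1 - (1 / (2 : ℝ) ^ k) / 2) * lam ^ (-(1 / (2 * (Q + 1)))) := by
        calc L / 2 = Real.sqrt L * (Real.sqrt L / 2) := by
              rw [mul_div_assoc', Real.mul_self_sqrt hL0.le]
          _ ≤ L ^ (1 - (1 / (2 : ℝ) ^ k) / 2) * lam ^ (-(1 / (2 * (Q + 1)))) :=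
              mul_le_mul h3 (h4.trans h2) (by positivity) (by positivity)
      nlinarith
    push Not at hbig
    -- the main case: but `q` has to be compared with `b - a`
    by_cases hshort : ((b : ℝ) - a) < 2 * q0
    · -- then `|S| ≤ 2 q0`, `q0 ≤ L / 2`; compare with the second term
      have h1 : lam ^ (-(1 / (2 * (Q + 1)))) = Real.sqrt q0 := by
        rw [hq0, Real.sqrt_eq_rpow, ← Real.rpow_mul hl.le]
        congr 1
        field_simp
      have h3 : Real.sqrt L ≤ L ^ (1 - (1 / (2 : ℝ) ^ k) / 2) := by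
        rw [Real.sqrt_eq_rpow]
        apply Real.rpow_le_rpow_of_exponent_le hL
        linarith
      have h4 : Real.sqrt q0 ≤ Real.sqrt L := Real.sqrt_le_sqrt (by linarith)
      have h5 : q0 ≤ L ^ (1 - (1 / (2 : ℝ) ^ k) / 2) * lam ^ (-(1 / (2 * (Q + 1)))) := by
        rw [h1]
        calc q0 = Real.sqrt q0 * Real.sqrt q0 := (Real.mul_self_sqrt (by linarith)).symm
          _ ≤ L ^ (1 - (1 / (2 : ℝ) ^ k) / 2) * Real.sqrt q0 := by
              gcongr
              exact h4.trans h3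
      nlinarith
    push Not at hshort
    set q : ℕ := ⌈q0⌉₊ with hq
    have hq1 : q0 ≤ q := Nat.le_ceil _
    have hq2 : (q : ℝ) ≤ 2 * q0 := by
      have := Nat.ceil_lt_add_one (show (0 : ℝ) ≤ q0 by linarith)
      linarith
    have hqn : 1 ≤ q := by
      have : (1 : ℝ) < q := by linarith
      have h2 : 1 < q := by exact_mod_cast this
      omega
    have haq : a + q ≤ b := by
      have : (a : ℝ) + q ≤ b := by linarith
      exact_mod_cast this
    have hA := hA1 f a b q hqn haq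
    have hqpos : (0 : ℝ) < q := by linarith
    have hba0 : 0 ≤ (b : ℝ) - a := by linarith
    have hSr : ∀ r ∈ Finset.Ico 1 q, ‖∑ n ∈ Finset.Ico a (b - r), ee (f (n + r) - f n)‖ ≤
        C * (L * (r * lam) ^ (1 / Q) + L ^ (1 - 1 / (2 : ℝ) ^ k) * (r * lam) ^ (-(1 / Q))) := by
      intro r hr
      rw [Finset.mem_Ico] at hr
      have hr1 : (1 : ℝ) ≤ r := by exact_mod_cast hr.1
      refine ihC (fun n => f (n + r) - f n) a (b - r) L (r * lam) σ hσ (by omega) ?_ hL
        (by positivity) ?_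
      · rw [Nat.cast_sub (by omega)]
        linarith
      · intro n hn1 hn2
        rw [dd_diff]
        have hb1 : ∀ i ∈ Finset.range r, lam ≤ σ * dd (k + 2 + 1) f (n + i) ∧
            σ * dd (k + 2 + 1) f (n + i) ≤ h * lam := by
          intro i hi
          rw [Finset.mem_range] at hi
          have := hd (n + i) (by omega) (by omega)
          rw [show k + 1 + 2 = k + 2 + 1 by ring] at this
          exact this
        rw [Finset.mul_sum]
        constructor
        · calc (r : ℝ) * lam = ∑ i ∈ Finset.range r, lam := by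
                rw [Finset.sum_const, Finset.card_range, nsmul_eq_mul]
            _ ≤ _ := Finset.sum_le_sum fun i hi => (hb1 i hi).1
        · calc ∑ i ∈ Finset.range r, σ * dd (k + 2 + 1) f (n + i) ≤ ∑ i ∈ Finset.range r, h * lam :=
                Finset.sum_le_sum fun i hi => (hb1 i hi).2
            _ = h * (r * lam) := by
                rw [Finset.sum_const, Finset.card_range, nsmul_eq_mul]
                ring
    have hmain : ‖∑ n ∈ Finset.Ico a b, ee (f n)‖ ^ 2 ≤ 2 * L ^ 2 / q +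
        4 * L / q * ∑ r ∈ Finset.Ico 1 q,
          C * (L * (r * lam) ^ (1 / Q) + L ^ (1 - 1 / (2 : ℝ) ^ k) * (r * lam) ^ (-(1 / Q))) := by
      refine hA.trans ?_
      gcongr with r hr
      exact hSr r hr
    exact core C L lam Q (1 / (2 : ℝ) ^ k) _ q hC hL hl hQ hq1 hq2 (norm_nonneg _) hmain

end Pool.Agent.Work.MP_56b8f5_nt.UT
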