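import Pool.Agent.Work.MP_56b8f5_nt.UB.All
import Pool.Agent.Work.MP_56b8f5_nt.UT.I_A1
import Pool.Agent.Work.MP_56b8f5_nt.UT.I_AL2
import Pool.Agent.Work.MP_56b8f5_nt.UT.I_AX
import Pool.Agent.Work.MP_56b8f5_nt.UT.I_Bs
import Pool.Agent.Work.MP_56b8f5_nt.UT.I_Cx
import Pool.Agent.Work.MP_56b8f5_nt.UT.I_FD
import Pool.Agent.Work.MP_56b8f5_nt.UT.I_Fd
import Pool.Agent.Work.MP_56b8f5_nt.UT.I_Fin
import Pool.Agent.Work.MP_56b8f5_nt.UT.I_Fn
import Pool.Agent.Work.MP_56b8f5_nt.UT.I_HN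
import Pool.Agent.Work.MP_56b8f5_nt.UT.I_Hy
import Pool.Agent.Work.MP_56b8f5_nt.UT.I_JC
import Pool.Agent.Work.MP_56b8f5_nt.UT.I_KC
import Pool.Agent.Work.MP_56b8f5_nt.UT.I_KL
import Pool.Agent.Work.MP_56b8f5_nt.UT.I_Km
import Pool.Agent.Work.MP_56b8f5_nt.UT.I_Kn2
import Pool.Agent.Work.MP_56b8f5_nt.UT.I_MC
import Pool.Agent.Work.MP_56b8f5_nt.UT.I_MD
import Pool.Agent.Work.MP_56b8f5_nt.UT.I_MU
import Pool.Agent.Work.MP_56b8f5_nt.UT.I_PM
import Pool.Agent.Work.MP_56b8f5_nt.UT.I_Pd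
import Pool.Agent.Work.MP_56b8f5_nt.UT.I_SW
import Pool.Agent.Work.MP_56b8f5_nt.UT.I_Sm
import Pool.Agent.Work.MP_56b8f5_nt.UT.I_TW
import Pool.Agent.Work.MP_56b8f5_nt.UT.I_VB
import Pool.Agent.Work.MP_56b8f5_nt.UT.I_VJ

/-!
MP_56b8f5_nt, block UT (the twelfth moment): everything together.  Author: helper62.
-/

namespace Pool.Agent.Work.MP_56b8f5_nt.UT

theorem all_A1 : StA1 := iA1
theorem all_KL : StKL := iKL
theorem all_VB : StVB := iVB all_KL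
theorem all_VJ : StVJ := iVJ all_A1 all_VB
theorem all_Pd : StPd := iPd
theorem all_TW : StTW := iTW
theorem all_MD : StMD := iMD
theorem all_PM : StPM := iPM all_Pd all_TW all_MD
theorem all_AL2 : StAL2 := iAL2 UB.all_Vp UB.all_V2
theorem all_Kn2 : StKn2 := iKn2
theorem all_Km : StKm := iKm all_AL2 all_Kn2 all_Pd UB.all_Ka
theorem all_KC : StKC := iKC all_VJ all_PM all_Km UB.all_K2 UB.all_K3 UB.all_KD
theorem all_HN : StHN := iHN all_KC UB.all_E3 UB.all_KB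
theorem all_Fd : StFd := iFd all_HN UB.all_Fw UB.all_Wc UB.all_Mb
theorem all_Hy : StHy := iHy
theorem all_Fn : StFn := iFn
theorem all_FD : StFD := iFD all_Fn all_TW all_MD
theorem all_AX : StAX := iAX UB.all_AL all_AL2 all_Fn
theorem all_Bs : StBs := iBs all_VJ all_FD all_AX
theorem all_Cx : StCx := iCx UB.all_Pf UB.all_IP
theorem all_Sm : StSm := iSm all_Hy all_Bs all_Cx all_AX UB.all_AM
theorem all_SW : StSW := iSW UB.all_Phi UB.all_DD UB.all_Rp all_Sm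
theorem all_JC : StJC := iJC UB.all_Phi UB.all_Mb all_Fd UB.all_Fb UB.all_Fc UB.all_FJ all_SW
theorem all_MU : StMU := iMU all_JC UB.all_JB UB.all_Sup EM.all_Z EM.all_Pc
theorem all_Fin : StFin := iFin UB.all_MA all_MU
theorem all_MC : StMC := iMC all_JC UB.all_JB UB.all_Sup EM.all_Z EM.all_Pc

end Pool.Agent.Work.MP_56b8f5_nt.UT
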