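import Pool.Agent.Work.MP_56b8f5_nt.UT.Stmts

open MeasureTheory Set Filter Topology

noncomputable section

namespace Pool.Agent.Work.MP_56b8f5_nt.UT

open Pool.Agent.Work.MP_56b8f5_nt.UB

namespace HN_aux

/-- integral of the majorant of the peak -/
theorem peak_int {c : ℝ} (hc : 0 < c) (x : ℝ) :
    Integrable (fun y : ℝ => (1 + ((x - y) * c) ^ 2)⁻¹) ∧
    ∫ y : ℝ, (1 + ((x - y) * c) ^ 2)⁻¹ = Real.pi / c := by
  have h1 : Integrable (fun y : ℝ => (1 + (y * c) ^ 2)⁻¹) :=
    (integrable_inv_one_add_sq).comp_mul_right' hc.ne'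
  constructor
  · exact h1.comp_sub_left x
  · rw [integral_sub_left_eq_self (fun y => (1 + (y * c) ^ 2)⁻¹) volume x]
    rw [Measure.integral_comp_mul_right (fun y : ℝ => (1 + y ^ 2)⁻¹) c]
    rw [integral_univ_inv_one_add_sq, abs_of_pos (inv_pos.2 hc), smul_eq_mul]
    field_simp

/-- the kernel bound with a saving -/
theorem kernel (hKC : StKC) (hKB : UB.StKB) {B : ℝ} (hB : 1 ≤ B) :
    ∃ σ C : ℝ, 0 < σ ∧ σ ≤ 1 / 4 ∧ 1 ≤ C ∧ ∀ X N M x : ℝ, 1 ≤ N → 0 < X → C * N ≤ X ^ 2 → 1 ≤ M →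
      M ≤ N → N ≤ M ^ B → |x| ≤ M * Real.sqrt N →
      ‖KS X N x‖ ≤ C * (N / (1 + |x| * Real.sqrt N) ^ 2 +
        Real.sqrt N * (Real.sqrt M * M ^ (-σ))) := by
  obtain ⟨σ, C1, hσ, hσ4, hC1, hK1⟩ := hKC (2 * B) (by linarith)
  obtain ⟨C0, hC0, hK0⟩ := hKB
  refine ⟨σ, C0 + C1, hσ, hσ4, by linarith, ?_⟩
  intro X N M x hN hX hCN hM hMN hNM hx
  have hN0 : 0 < N := by linarith
  have hM0 : 0 < M := by linarith
  have hsN : 0 < Real.sqrt N := Real.sqrt_pos.2 hN0
  have hsM : 1 ≤ Real.sqrt M := Real.one_le_sqrt.2 hM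
  have hP : 0 ≤ Real.sqrt N * (Real.sqrt M * M ^ (-σ)) := by positivity
  have hQ : 0 ≤ N / (1 + |x| * Real.sqrt N) ^ 2 := by positivity
  have hMs : Real.sqrt M = M ^ (1 / 2 : ℝ) := Real.sqrt_eq_rpow M
  rcases le_total |x| (Real.sqrt M * Real.sqrt N) with h | h
  · -- small argument
    have h1 := hK0 X N (Real.sqrt M) x hN hX (by nlinarith) hsM (h.trans (by nlinarith))
    have h2 : Real.sqrt (N * Real.sqrt M) ≤ Real.sqrt N * (Real.sqrt M * M ^ (-σ)) := by
      rw [Real.sqrt_mul hN0.le]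
      apply mul_le_mul_of_nonneg_left _ hsN.le
      rw [Real.sqrt_eq_rpow (Real.sqrt M), hMs, ← Real.rpow_mul hM0.le, ← Real.rpow_add hM0]
      apply Real.rpow_le_rpow_of_exponent_le hM
      linarith
    refine h1.trans ?_
    have h3 : 0 ≤ C1 * (N / (1 + |x| * Real.sqrt N) ^ 2 +
        Real.sqrt N * (Real.sqrt M * M ^ (-σ))) := by positivity
    nlinarith
  · -- large argument
    set t := |x| / Real.sqrt N with ht
    have hxt : |x| = t * Real.sqrt N := by
      rw [ht, div_mul_cancel₀ _ hsN.ne']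
    have htM : Real.sqrt M ≤ t := by
      rw [ht, le_div_iff₀ hsN]; exact h
    have ht1 : 1 ≤ t := hsM.trans htM
    have ht0 : 0 < t := by linarith
    have htM' : t ≤ M := by
      rw [ht, div_le_iff₀ hsN]; exact hx
    have hNt : N ≤ t ^ (2 * B) := by
      refine hNM.trans ?_
      have e1 : M ^ B = (Real.sqrt M) ^ (2 * B) := by
        rw [hMs, ← Real.rpow_mul hM0.le]
        congr 1; ring
      rw [e1]
      exact Real.rpow_le_rpow (by positivity) htM (by linarith)
    have h1 := hK1 X N t x hN hX (by nlinarith) ht1 (htM'.trans hMN) hNt hxt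
    have h2 : Real.sqrt (N * t) * t ^ (-σ) ≤ Real.sqrt N * (Real.sqrt M * M ^ (-σ)) := by
      rw [Real.sqrt_mul hN0.le, mul_assoc]
      apply mul_le_mul_of_nonneg_left _ hsN.le
      rw [Real.sqrt_eq_rpow t, hMs, ← Real.rpow_add ht0, ← Real.rpow_add hM0]
      apply Real.rpow_le_rpow ht0.le htM'
      linarith
    refine h1.trans ?_
    have h3 : C1 * (Real.sqrt (N * t) * t ^ (-σ)) ≤
        C1 * (Real.sqrt N * (Real.sqrt M * M ^ (-σ))) :=
      mul_le_mul_of_nonneg_left h2 (by linarith)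
    have h4 : 0 ≤ C0 * (Real.sqrt N * (Real.sqrt M * M ^ (-σ))) := by positivity
    have h5 : 0 ≤ (C0 + C1) * (N / (1 + |x| * Real.sqrt N) ^ 2) := by positivity
    nlinarith

end HN_aux

theorem iHN (hKC : StKC) (hE3 : UB.StE3) (hKB : UB.StKB) : StHN := by
  intro B hB
  obtain ⟨σ, C0, hσ, hσ4, hC0, hK⟩ := HN_aux.kernel hKC hKB hB
  refine ⟨σ, 16 * C0, hσ, hσ4, by linarith, ?_⟩
  intro X N M V a W hN hX hCN hM hMN hNM hV hCV ha hW hsub hSS
  have hN0 : 0 < N := by linarith
  have hM0 : 0 < M := by linarith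
  have hsN : 0 < Real.sqrt N := Real.sqrt_pos.2 hN0
  have hNN : Real.sqrt N * Real.sqrt N = N := Real.mul_self_sqrt hN0.le
  have hfin : volume W ≠ ⊤ := by
    refine ne_top_of_le_ne_top ?_ (measure_mono hsub)
    rw [Real.volume_Icc]; exact ENNReal.ofReal_ne_top
  have : IsFiniteMeasure (volume.restrict W) := ⟨by
    rw [Measure.restrict_apply_univ]; exact lt_top_iff_ne_top.2 hfin⟩
  set R := Rr W with hR
  have hR0 : 0 ≤ R := ENNReal.toReal_nonneg
  obtain ⟨b, hb, hb1, hdu⟩ := hE3 X N M V a W hN hX hV.le ha hW hsub hSS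
  have hC0N : C0 * N ≤ X ^ 2 := by nlinarith
  set P : ℝ := Real.sqrt M * M ^ (-σ) with hP
  have hP0 : 0 ≤ P := by positivity
  set G : ℝ := C0 * (4 * Real.sqrt N + Real.sqrt N * P * R) with hG
  have hdiff : ∀ x ∈ W, ∀ y ∈ W, |x - y| ≤ M * Real.sqrt N := by
    intro x hx y hy
    have h1 := hsub hx
    have h2 := hsub hy
    rw [abs_le]
    constructor <;> linarith [h1.1, h1.2, h2.1, h2.2]
  -- inner integral
  have inner : ∀ x ∈ W, ‖∫ y in W, b x * (starRingEnd ℂ) (b y) * KS X N (x - y)‖ ≤ G := by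
    intro x hx
    obtain ⟨i1, i2⟩ := HN_aux.peak_int hsN x
    have ig : Integrable (fun y => C0 * (N * (1 + ((x - y) * Real.sqrt N) ^ 2)⁻¹ +
        Real.sqrt N * P)) (volume.restrict W) :=
      (((i1.const_mul N).restrict).add (integrable_const _)).const_mul C0
    have hle : ∀ᵐ y ∂(volume.restrict W), ‖b x * (starRingEnd ℂ) (b y) * KS X N (x - y)‖ ≤
        C0 * (N * (1 + ((x - y) * Real.sqrt N) ^ 2)⁻¹ + Real.sqrt N * P) := by
      refine (ae_restrict_iff' hW).2 (Eventually.of_forall fun y hy => ?_)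
      have h5 := hK X N M (x - y) hN hX hC0N hM hMN hNM (hdiff x hx y hy)
      rw [norm_mul, norm_mul, RCLike.norm_conj]
      have h6 : ‖b x‖ * ‖b y‖ ≤ 1 := mul_le_one₀ (hb1 x) (norm_nonneg _) (hb1 y)
      calc ‖b x‖ * ‖b y‖ * ‖KS X N (x - y)‖ ≤ 1 * ‖KS X N (x - y)‖ :=
            mul_le_mul_of_nonneg_right h6 (norm_nonneg _)
        _ = ‖KS X N (x - y)‖ := one_mul _
        _ ≤ _ := h5
        _ ≤ _ := by
          apply mul_le_mul_of_nonneg_left _ (by linarith)
          apply add_le_add _ le_rfl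
          rw [div_eq_mul_inv]
          apply mul_le_mul_of_nonneg_left _ hN0.le
          apply inv_anti₀ (by positivity)
          have h7 : 0 ≤ |x - y| * Real.sqrt N := by positivity
          have h8 : ((x - y) * Real.sqrt N) ^ 2 = (|x - y| * Real.sqrt N) ^ 2 := by
            rw [mul_pow, mul_pow, sq_abs]
          rw [h8]
          nlinarith
    refine (norm_integral_le_of_norm_le ig hle).trans ?_
    rw [integral_const_mul]
    apply mul_le_mul_of_nonneg_left _ (by linarith)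
    rw [integral_add ((i1.const_mul N).restrict) (integrable_const _)]
    apply add_le_add
    · calc ∫ y in W, N * (1 + ((x - y) * Real.sqrt N) ^ 2)⁻¹
          ≤ ∫ y : ℝ, N * (1 + ((x - y) * Real.sqrt N) ^ 2)⁻¹ := by
            apply setIntegral_le_integral (i1.const_mul N)
            exact Eventually.of_forall fun y => by positivity
        _ = N * (Real.pi / Real.sqrt N) := by rw [integral_const_mul, i2]
        _ = Real.pi * Real.sqrt N := by
            field_simp
            nlinarith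
        _ ≤ 4 * Real.sqrt N := by
            apply mul_le_mul_of_nonneg_right _ hsN.le
            linarith [Real.pi_le_four]
    · rw [integral_const, smul_eq_mul, measureReal_restrict_apply_univ]
      apply le_of_eq
      rw [mul_comm, hR]
      rfl
  have outer : ‖∫ x in W, ∫ y in W, b x * (starRingEnd ℂ) (b y) * KS X N (x - y)‖ ≤ G * R := by
    have := norm_setIntegral_le_of_norm_le_const (lt_top_iff_ne_top.2 hfin) inner
    exact this
  have main : V ^ 2 * R ^ 2 ≤ 2 * N * (G * R) :=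
    hdu.trans (mul_le_mul_of_nonneg_left outer (by positivity))
  rcases hR0.eq_or_lt with h0 | hpos
  · rw [← h0, mul_zero]; positivity
  rw [hG] at main
  have m1 : V ^ 2 * R ^ 2 ≤ 8 * C0 * (N * Real.sqrt N) * R +
      2 * C0 * (N * Real.sqrt N * P) * R ^ 2 := by
    calc _ ≤ _ := main
      _ = _ := by ring
  have m2 : 2 * C0 * (N * Real.sqrt N * P) * R ^ 2 ≤ V ^ 2 / 2 * R ^ 2 := by
    apply mul_le_mul_of_nonneg_right _ (sq_nonneg R)
    have : 0 ≤ C0 * (N * Real.sqrt N * P) := by positivity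
    nlinarith
  have m3 : (V ^ 2 * R) * R ≤ (16 * C0 * (N * Real.sqrt N)) * R := by nlinarith
  exact le_of_mul_le_mul_right m3 hpos

end Pool.Agent.Work.MP_56b8f5_nt.UT
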