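import Pool.Agent.Work.MP_56b8f5_nt.UT.Stmts

/-!
Block UT of MP_56b8f5_nt, item Pd: the phase `Ph X m x` as a function of real `m > 0`.
-/

open MeasureTheory Set Filter Topology

noncomputable section

namespace Pool.Agent.Work.MP_56b8f5_nt.UT

open Pool.Agent.Work.MP_56b8f5_nt.UB

namespace Pd_aux

lemma nn_ws (X m x : ℝ) (hX : 0 < X) :
    nn X (ws X m x) = 2 * X ^ 2 * (Real.sqrt (1 + (x / (m * X)) ^ 2) - 1) := by
  unfold nn ws
  rw [mul_div_cancel_left₀ _ (by positivity : (2 * X : ℝ) ≠ 0), Real.cosh_arsinh]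

lemma nd_ws (X m x : ℝ) (hX : 0 < X) : nd X (ws X m x) = x / m := by
  unfold nd ws
  rw [mul_div_cancel_left₀ _ (by positivity : (2 * X : ℝ) ≠ 0), Real.sinh_arsinh]
  field_simp

lemma d_nn (X v : ℝ) (hX : 0 < X) : HasDerivAt (nn X) (nd X v) v := by
  have h1 : HasDerivAt (fun v : ℝ => v / (2 * X)) (1 / (2 * X)) v := (hasDerivAt_id v).div_const _
  have h2 := ((h1.cosh).sub_const 1).const_mul (2 * X ^ 2)
  have h3 : 2 * X ^ 2 * (Real.sinh (v / (2 * X)) * (1 / (2 * X))) = nd X v := by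
    unfold nd
    field_simp
  rw [h3] at h2
  exact h2

lemma d_z (X x m : ℝ) (hX : 0 < X) (hm : 0 < m) :
    HasDerivAt (fun y : ℝ => x / (y * X)) (-(x / (m ^ 2 * X))) m := by
  have h1 : HasDerivAt (fun y : ℝ => y * X) X m := by
    simpa using (hasDerivAt_id m).mul_const X
  have h2 := (hasDerivAt_const m x).div h1 (by positivity : m * X ≠ 0)
  refine HasDerivAt.congr_deriv h2 ?_
  field_simp
  ring

end Pd_aux

open Pd_aux

theorem iPd : StPd := by
  intro X x m hX hm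
  have hz := d_z X x m hX hm
  refine ⟨?_, nn_ws X m x hX, ?_⟩
  · have h1 : HasDerivAt (fun y : ℝ => ws X y x)
        (2 * X * ((Real.sqrt (1 + (x / (m * X)) ^ 2))⁻¹ * (-(x / (m ^ 2 * X))))) m := by
      unfold ws
      exact (hz.arsinh).const_mul (2 * X)
    set D := 2 * X * ((Real.sqrt (1 + (x / (m * X)) ^ 2))⁻¹ * (-(x / (m ^ 2 * X)))) with hD
    have h2 : HasDerivAt (fun y : ℝ => nn X (ws X y x)) (nd X (ws X m x) * D) m :=
      HasDerivAt.comp (h₂ := nn X) m (d_nn X (ws X m x) hX) h1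
    have h3 : HasDerivAt (fun y : ℝ => x * ws X y x - y * nn X (ws X y x))
        (x * D - (1 * nn X (ws X m x) + m * (nd X (ws X m x) * D))) m :=
      (h1.const_mul x).sub ((hasDerivAt_id m).mul h2)
    have h4 : (fun y => Ph X y x) = fun y : ℝ => x * ws X y x - y * nn X (ws X y x) := by
      funext y
      rfl
    rw [h4]
    refine HasDerivAt.congr_deriv h3 ?_
    rw [nd_ws X m x hX]
    field_simp
    ring
  · have h4 : (fun y => -(nn X (ws X y x))) =
        fun y : ℝ => -(2 * X ^ 2 * (Real.sqrt (1 + (x / (y * X)) ^ 2) - 1)) := by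
      funext y
      rw [nn_ws X y x hX]
    rw [h4]
    have hp : (1 + (x / (m * X)) ^ 2) ≠ 0 := by positivity
    have h5 : HasDerivAt (fun y : ℝ => 1 + (x / (y * X)) ^ 2)
        ((2 : ℕ) * (x / (m * X)) ^ (2 - 1) * (-(x / (m ^ 2 * X)))) m := (hz.pow 2).const_add 1
    have h6 := (((h5.sqrt hp).sub_const 1).const_mul (2 * X ^ 2)).neg
    refine HasDerivAt.congr_deriv h6 ?_
    have hs : 0 < Real.sqrt (1 + (x / (m * X)) ^ 2) := Real.sqrt_pos.2 (by positivity)
    set s := Real.sqrt (1 + (x / (m * X)) ^ 2) with hsd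
    have e1 : (((2 : ℕ) : ℝ) * (x / (m * X)) ^ (2 - 1) * -(x / (m ^ 2 * X)) / (2 * s)) =
        -(x ^ 2 / (m ^ 3 * X ^ 2 * s)) := by
      rw [show (2 - 1 : ℕ) = 1 from rfl, pow_one]
      field_simp
      norm_num
      ring
    rw [e1]
    field_simp

end Pool.Agent.Work.MP_56b8f5_nt.UT
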