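import Pool.Agent.Work.MP_56b8f5_nt.UT.Stmts

/-!
MP_56b8f5_nt, block UT: the final form (suggested by helper6).
-/

open MeasureTheory Set Filter Topology

noncomputable section

namespace Pool.Agent.Work.MP_56b8f5_nt.UT

open Pool.Agent.Work.MP_56b8f5_nt.UB

/-- ITEM MU (uniform linear saving for all moments; uses UB.StMA, StMC).  `4 ≤ A ≤ 12`: Hölder between `4` (UB.StMA with `A = 4`) and `12` (StMC):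
`∫|ζ|^A ≤ (∫|ζ|^4)^{(12-A)/8} (∫|ζ|^12)^{(A-4)/8} ≤ C T^{(1+ε)(12-A)/8 + (2-δ')(A-4)/8} ≤ C T^{1+(A-4)/8-δ'(A-4)/8+ε}`.
`12 ≤ A ≤ 12+δ`: StMC, `2 - δ' ≤ 1 + (A-4)/8 - δ(A-4)` if `δ(8+δ) ≤ δ'`.  `δ = min(δ',1)/16`. -/
def StMU : Prop := ∃ δ : ℝ, 0 < δ ∧ ∀ A ε : ℝ, 4 ≤ A → A ≤ 12 + δ → 0 < ε → ∃ C : ℝ, ∀ T : ℝ, 1 ≤ T →
  ∫ t in (0 : ℝ)..T, ‖riemannZeta (1 / 2 + t * Complex.I)‖ ^ A ≤ C * T ^ (1 + (A - 4) / 8 - δ * (A - 4) + ε)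

end Pool.Agent.Work.MP_56b8f5_nt.UT
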